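import Mathlib

set_option autoImplicit false
open MeasureTheory Set Filter Topology
open scoped ENNReal symmDiff

namespace Pool.Agent.H964Z.Gen

/-- Measure preserving permutations with measure preserving inverse. -/
def MPs {X : Type*} [MeasurableSpace X] (μ : Measure X) : Subgroup (Equiv.Perm X) where
  carrier := {e | MeasurePreserving e μ μ ∧ MeasurePreserving (e⁻¹ : Equiv.Perm X) μ μ}
  mul_mem' := by
    rintro a b ⟨ha, ha'⟩ ⟨hb, hb'⟩
    refine ⟨ha.comp hb, ?_⟩
    rw [mul_inv_rev]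
    exact hb'.comp ha'
  one_mem' := ⟨MeasurePreserving.id μ, by rw [inv_one]; exact MeasurePreserving.id μ⟩
  inv_mem' := by
    rintro a ⟨ha, ha'⟩
    exact ⟨ha', by rw [inv_inv]; exact ha⟩

/-- The group of measure preserving automorphisms. -/
def Au {X : Type*} [MeasurableSpace X] (μ : Measure X) : Type _ := ↥(MPs μ)

section Alg
variable {X : Type*} [MeasurableSpace X] {μ : Measure X}

instance : Group (Au μ) := inferInstanceAs (Group ↥(MPs μ))

/-- The underlying permutation. -/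
def Au.pm (T : Au μ) : Equiv.Perm X := Subtype.val T

instance : CoeFun (Au μ) (fun _ => X → X) := ⟨fun T => T.pm⟩

theorem Au.mp (T : Au μ) : MeasurePreserving T μ μ := (Subtype.property T).1
theorem Au.meas (T : Au μ) : Measurable T := T.mp.measurable
theorem Au.mul_apply (S T : Au μ) (x : X) : (S * T) x = S (T x) := rfl
theorem Au.coe_mul (S T : Au μ) : ⇑(S * T) = S ∘ T := rfl
theorem Au.one_apply (x : X) : (1 : Au μ) x = x := rfl
theorem Au.coe_one : ⇑(1 : Au μ) = id := rfl
theorem Au.inv_apply_self (T : Au μ) (x : X) : T⁻¹ (T x) = x := T.pm.symm_apply_apply x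
theorem Au.apply_inv_self (T : Au μ) (x : X) : T (T⁻¹ x) = x := T.pm.apply_symm_apply x
theorem Au.pm_zpow (T : Au μ) (n : ℤ) : (T ^ n).pm = T.pm ^ n :=
  SubgroupClass.coe_zpow (show ↥(MPs μ) from T) n
theorem Au.injective (T : Au μ) : Function.Injective T := T.pm.injective

theorem Au.image_eq (T : Au μ) (A : Set X) : T '' A = ⇑(T⁻¹) ⁻¹' A := by
  ext x
  constructor
  · rintro ⟨y, hy, rfl⟩
    rwa [mem_preimage, Au.inv_apply_self]
  · intro h
    exact ⟨_, h, T.apply_inv_self x⟩

theorem Au.measure_pre (T : Au μ) {A : Set X} (hA : MeasurableSet A) : μ (T ⁻¹' A) = μ A :=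
  T.mp.measure_preimage hA.nullMeasurableSet

/-- Build an automorphism from a measurable equivalence. -/
def Au.ofEquiv (e : X ≃ᵐ X) (he : MeasurePreserving e μ μ) : Au μ :=
  (⟨e.toEquiv, he, he.symm⟩ : ↥(MPs μ))

/-- The measurable equivalence of an automorphism. -/
def Au.toME (T : Au μ) : X ≃ᵐ X where
  toEquiv := T.pm
  measurable_toFun := T.meas
  measurable_invFun := T⁻¹.meas

/-- Almost everywhere inverse pairs are realised by automorphisms. -/
theorem exists_au_of_ae [MeasurableEq X] {f g : X → X} (hf : MeasurePreserving f μ μ)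
    (hg : MeasurePreserving g μ μ) (h1 : ∀ᵐ x ∂μ, f (g x) = x) (h2 : ∀ᵐ x ∂μ, g (f x) = x) :
    ∃ T : Au μ, (T : X → X) =ᵐ[μ] f := by
  classical
  let C : ℕ → Set X := fun n => Nat.rec {x | f (g x) = x ∧ g (f x) = x}
    (fun _ C => C ∩ (f ⁻¹' C ∩ g ⁻¹' C)) n
  have hC : ∀ n, MeasurableSet (C n) ∧ ∀ᵐ x ∂μ, x ∈ C n := by
    intro n
    induction n with
    | zero =>
      refine ⟨(measurableSet_eq_fun (hf.measurable.comp hg.measurable) measurable_id).inter
        (measurableSet_eq_fun (hg.measurable.comp hf.measurable) measurable_id), ?_⟩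
      filter_upwards [h1, h2] with x a b using ⟨a, b⟩
    | succ n ih =>
      refine ⟨ih.1.inter ((hf.measurable ih.1).inter (hg.measurable ih.1)), ?_⟩
      filter_upwards [ih.2, hf.quasiMeasurePreserving.ae ih.2, hg.quasiMeasurePreserving.ae ih.2]
        with x a b c using ⟨a, b, c⟩
  let K : Set X := ⋂ n, C n
  have hK : MeasurableSet K := MeasurableSet.iInter fun n => (hC n).1
  have hKae : ∀ᵐ x ∂μ, x ∈ K := by
    simp only [K, mem_iInter]
    exact ae_all_iff.2 fun n => (hC n).2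
  have hfK : ∀ x ∈ K, f x ∈ K := fun x hx => mem_iInter.2 fun n => (mem_iInter.1 hx (n + 1)).2.1
  have hgK : ∀ x ∈ K, g x ∈ K := fun x hx => mem_iInter.2 fun n => (mem_iInter.1 hx (n + 1)).2.2
  have hK0 : ∀ x ∈ K, f (g x) = x ∧ g (f x) = x := fun x hx => mem_iInter.1 hx 0
  let e : Equiv.Perm X :=
    { toFun := K.piecewise f id
      invFun := K.piecewise g id
      left_inv := fun x => by
        by_cases hx : x ∈ K
        · rw [piecewise_eq_of_mem _ _ _ hx, piecewise_eq_of_mem _ _ _ (hfK x hx), (hK0 x hx).2]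
        · rw [piecewise_eq_of_notMem _ _ _ hx, id, piecewise_eq_of_notMem _ _ _ hx, id]
      right_inv := fun x => by
        by_cases hx : x ∈ K
        · rw [piecewise_eq_of_mem _ _ _ hx, piecewise_eq_of_mem _ _ _ (hgK x hx), (hK0 x hx).1]
        · rw [piecewise_eq_of_notMem _ _ _ hx, id, piecewise_eq_of_notMem _ _ _ hx, id] }
  have e1 : K.piecewise f id =ᵐ[μ] f := by
    filter_upwards [hKae] with x hx using piecewise_eq_of_mem _ _ _ hx
  have e2 : K.piecewise g id =ᵐ[μ] g := by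
    filter_upwards [hKae] with x hx using piecewise_eq_of_mem _ _ _ hx
  exact ⟨(⟨e, hf.congr (hf.measurable.piecewise hK measurable_id) e1.symm,
    hg.congr (hg.measurable.piecewise hK measurable_id) e2.symm⟩ : ↥(MPs μ)), e1⟩

/-- The measure of the symmetric difference of the two preimages. -/
noncomputable def sd (A : Set X) (S T : Au μ) : ℝ≥0∞ := μ ((S ⁻¹' A) ∆ (T ⁻¹' A))

theorem sd_self (A : Set X) (S : Au μ) : sd A S S = 0 := by simp [sd]

theorem sd_comm (A : Set X) (S T : Au μ) : sd A S T = sd A T S := by simp only [sd, symmDiff_comm]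

theorem sd_triangle (A : Set X) (S T U : Au μ) : sd A S U ≤ sd A S T + sd A T U :=
  measure_symmDiff_le _ _ _

theorem sd_mul_right {A : Set X} (hA : MeasurableSet A) (S T U : Au μ) :
    sd A (S * U) (T * U) = sd A S T := by
  unfold sd
  rw [← U.measure_pre ((S.meas hA).symmDiff (T.meas hA)), preimage_symmDiff]
  rfl

theorem sd_mul_left (A : Set X) (S T U : Au μ) : sd A (U * S) (U * T) = sd (U ⁻¹' A) S T := rfl

theorem sd_inv {A : Set X} (hA : MeasurableSet A) (S T : Au μ) :
    sd A S⁻¹ T⁻¹ = sd (⇑(T⁻¹) ⁻¹' A) S T := by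
  rw [← sd_mul_right hA _ _ S, inv_mul_cancel, ← sd_mul_left, inv_mul_cancel, sd_comm]

theorem sd_le_set {A B : Set X} (hA : MeasurableSet A) (hB : MeasurableSet B) (S T : Au μ) :
    sd A S T ≤ sd B S T + 2 * μ (A ∆ B) := by
  unfold sd
  have h1 := measure_symmDiff_le (μ := μ) (S ⁻¹' A) (S ⁻¹' B) (T ⁻¹' A)
  have h2 := measure_symmDiff_le (μ := μ) (S ⁻¹' B) (T ⁻¹' B) (T ⁻¹' A)
  have h3 : μ ((S ⁻¹' A) ∆ (S ⁻¹' B)) = μ (A ∆ B) := by
    rw [← preimage_symmDiff, S.measure_pre (hA.symmDiff hB)]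
  have h4 : μ ((T ⁻¹' B) ∆ (T ⁻¹' A)) = μ (A ∆ B) := by
    rw [← preimage_symmDiff, T.measure_pre (hB.symmDiff hA), symmDiff_comm]
  rw [h3] at h1
  rw [h4] at h2
  calc _ ≤ μ (A ∆ B) + (μ ((S ⁻¹' B) ∆ (T ⁻¹' B)) + μ (A ∆ B)) := h1.trans (by gcongr)
    _ = _ := by ring

theorem symmDiff_le_two {A B : Set X} (hA : MeasurableSet A) (hB : MeasurableSet B)
    (h : μ A = μ B) (hf : μ A ≠ ∞) : μ (A ∆ B) ≤ 2 * μ (A \ B) := by
  have h1 := measure_inter_add_sdiff (μ := μ) A hB
  have h2 := measure_inter_add_sdiff (μ := μ) B hA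
  rw [inter_comm, ← h, ← h1] at h2
  have h3 : μ (A ∩ B) ≠ ∞ := ne_top_of_le_ne_top hf (measure_mono inter_subset_left)
  have h4 : μ (B \ A) = μ (A \ B) := (ENNReal.add_right_inj h3).1 h2
  calc μ (A ∆ B) ≤ μ (A \ B) + μ (B \ A) := measure_union_le _ _
    _ = _ := by rw [h4, two_mul]

theorem toFinite_univ_le [SFinite μ] : μ.toFinite univ ≤ 1 := by
  rcases eq_zero_or_neZero μ with rfl | h
  · simp
  · exact prob_le_one

theorem tendsto_of_ac {m1 m2 : Measure X} [IsFiniteMeasure m1] [SigmaFinite m2] (h : m1 ≪ m2)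
    {ι : Type*} {l : Filter ι} {s : ι → Set X} (hl : Tendsto (fun i => m2 (s i)) l (𝓝 0)) :
    Tendsto (fun i => m1 (s i)) l (𝓝 0) := by
  have h1 : ∫⁻ x, m1.rnDeriv m2 x ∂m2 ≠ ∞ := (Measure.lintegral_rnDeriv_lt_top m1 m2).ne
  have := tendsto_setLIntegral_zero h1 (l := l) (s := s) hl
  simpa only [Measure.setLIntegral_rnDeriv h] using this

end Alg

section Metric
variable {X : Type*} [MetricSpace X] [SecondCountableTopology X] [MeasurableSpace X] [BorelSpace X]
  {μ : Measure X} [IsLocallyFiniteMeasure μ]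

/-- Truncated mean distance of two maps. -/
noncomputable def e1 (μ : Measure X) [SFinite μ] (f g : X → X) : ℝ≥0∞ :=
  ∫⁻ x, min 1 (edist (f x) (g x)) ∂μ.toFinite

theorem meas_min {f g : X → X} (hf : Measurable f) (hg : Measurable g) :
    Measurable fun x => min 1 (edist (f x) (g x)) :=
  measurable_const.min (hf.edist hg)

omit [BorelSpace X] in
theorem e1_comm (f g : X → X) : e1 μ f g = e1 μ g f := by
  unfold e1
  congr 1
  funext x
  rw [edist_comm]

theorem e1_triangle {f g h : X → X} (hf : Measurable f) (hg : Measurable g) :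
    e1 μ f h ≤ e1 μ f g + e1 μ g h := by
  unfold e1
  rw [← lintegral_add_left (meas_min hf hg)]
  refine lintegral_mono fun x => ?_
  have := edist_triangle (f x) (g x) (h x)
  rcases le_total 1 (edist (f x) (g x)) with h1 | h1
  · rw [min_eq_left h1]
    exact (min_le_left _ _).trans le_self_add
  · rcases le_total 1 (edist (g x) (h x)) with h2 | h2
    · rw [min_eq_left h2]
      exact (min_le_left _ _).trans le_add_self
    · rw [min_eq_right h1, min_eq_right h2]
      exact (min_le_right _ _).trans this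

noncomputable instance : PseudoEMetricSpace (Au μ) where
  edist S T := e1 μ S T + e1 μ ⇑(S⁻¹) ⇑(T⁻¹)
  edist_self S := by simp [e1]
  edist_comm S T := by rw [e1_comm S T, e1_comm ⇑(S⁻¹)]
  edist_triangle S T U := by
    have h1 := e1_triangle (μ := μ) (h := U) S.meas T.meas
    have h2 := e1_triangle (μ := μ) (h := ⇑(U⁻¹)) S⁻¹.meas T⁻¹.meas
    calc _ ≤ (e1 μ S T + e1 μ T U) + (e1 μ ⇑(S⁻¹) ⇑(T⁻¹) + e1 μ ⇑(T⁻¹) ⇑(U⁻¹)) := add_le_add h1 h2
      _ = _ := by ring

theorem edist_def (S T : Au μ) : edist S T = e1 μ S T + e1 μ ⇑(S⁻¹) ⇑(T⁻¹) := rfl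

omit [BorelSpace X] in
theorem exists_open_cover (μ : Measure X) [IsLocallyFiniteMeasure μ] :
    ∃ W : ℕ → Set X, Monotone W ∧ (∀ n, IsOpen (W n)) ∧ (∀ n, μ (W n) ≠ ∞) ∧ ⋃ n, W n = univ := by
  let F := μ.finiteSpanningSetsInOpen'
  refine ⟨accumulate F.set, monotone_accumulate, fun n => ?_, fun n => ?_, ?_⟩
  · exact isOpen_biUnion fun i _ => F.set_mem i
  · exact (measure_biUnion_lt_top (finite_le_nat n) fun i _ => F.finite i).ne
  · rw [iUnion_accumulate, F.spanning]

theorem tendsto_sdiff_of_e1 {ι : Type*} {l : Filter ι} {u : ι → X → X} (hu : ∀ i, Measurable (u i))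
    {T : Au μ} (h : Tendsto (fun i => e1 μ (u i) T) l (𝓝 0)) {U : Set X} (hU : IsOpen U)
    (hf : μ U ≠ ∞) : Tendsto (fun i => μ (T ⁻¹' U \ u i ⁻¹' U)) l (𝓝 0) := by
  let V : ℕ → Set X := fun n => U ∩ {y | Metric.infEDist y Uᶜ ≤ ((n : ℝ≥0∞) + 1)⁻¹}
  have hVm : ∀ n, MeasurableSet (V n) := fun n =>
    hU.measurableSet.inter (measurableSet_le Metric.continuous_infEDist.measurable measurable_const)
  have hV : Tendsto (fun n => μ (V n)) atTop (𝓝 0) := by
    have h1 := tendsto_measure_iInter_atTop (μ := μ) (s := V) (fun n => (hVm n).nullMeasurableSet)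
      (fun a b hab y hy => ⟨hy.1, le_trans hy.2 (ENNReal.inv_le_inv.2 (by gcongr))⟩)
      ⟨0, ne_top_of_le_ne_top hf (measure_mono inter_subset_left)⟩
    have h2 : ⋂ n, V n = ∅ := by
      rw [eq_empty_iff_forall_notMem]
      intro y hy
      rw [mem_iInter] at hy
      have h3 : Metric.infEDist y Uᶜ = 0 := by
        refine le_antisymm (ge_of_tendsto' (x := atTop)
          (f := fun n : ℕ => ((n : ℝ≥0∞) + 1)⁻¹) ?_ fun n => (hy n).2) zero_le
        have := ENNReal.tendsto_inv_nat_nhds_zero.comp (tendsto_add_atTop_nat 1)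
        simpa [Function.comp_def] using this
      have h4 : y ∈ closure Uᶜ := Metric.mem_closure_iff_infEDist_zero.2 h3
      rw [hU.isClosed_compl.closure_eq] at h4
      exact h4 (hy 0).1
    rw [h2, measure_empty] at h1
    exact h1
  rw [ENNReal.tendsto_nhds_zero]
  intro ε hε
  have hε2 : 0 < ε / 2 := ENNReal.half_pos hε.ne'
  obtain ⟨n, hn⟩ := ((ENNReal.tendsto_nhds_zero.1 hV) _ hε2).exists
  set δ : ℝ≥0∞ := ((n : ℝ≥0∞) + 1)⁻¹ with hδ
  have hδ0 : δ ≠ 0 := by simp [hδ]
  have hδ1 : δ ≤ 1 := by simp [hδ]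
  have hδt : δ ≠ ∞ := ne_top_of_le_ne_top ENNReal.one_ne_top hδ1
  have hE : Tendsto (fun i => μ.toFinite {x | δ ≤ min 1 (edist (u i x) (T x))}) l (𝓝 0) := by
    have h1 : Tendsto (fun i => e1 μ (u i) T / δ) l (𝓝 0) := by
      have := ENNReal.Tendsto.div_const h (b := δ) (Or.inr hδ0)
      simpa using this
    refine tendsto_of_tendsto_of_tendsto_of_le_of_le tendsto_const_nhds h1 (fun _ => zero_le)
      fun i => ?_
    exact meas_ge_le_lintegral_div (meas_min (hu i) T.meas).aemeasurable hδ0 hδt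
  have hTU : μ (T ⁻¹' U) ≠ ∞ := by rwa [T.measure_pre hU.measurableSet]
  have : IsFiniteMeasure (μ.restrict (T ⁻¹' U)) := isFiniteMeasure_restrict.2 hTU
  have hE2 := tendsto_of_ac (m1 := μ.restrict (T ⁻¹' U)) (m2 := μ.toFinite)
    (Measure.absolutelyContinuous_restrict.trans (absolutelyContinuous_toFinite μ)) hE
  filter_upwards [ENNReal.tendsto_nhds_zero.1 hE2 _ hε2] with i hi
  rw [Measure.restrict_apply' (T.meas hU.measurableSet)] at hi
  calc μ (T ⁻¹' U \ u i ⁻¹' U)
      ≤ μ (T ⁻¹' V n ∪ {x | δ ≤ min 1 (edist (u i x) (T x))} ∩ T ⁻¹' U) := by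
        refine measure_mono fun x hx => ?_
        by_cases h1 : T x ∈ V n
        · exact Or.inl h1
        · refine Or.inr ⟨le_min hδ1 ?_, hx.1⟩
          have h2 : δ ≤ Metric.infEDist (T x) Uᶜ := by
            by_contra h3
            exact h1 ⟨hx.1, (not_le.1 h3).le⟩
          rw [edist_comm]
          exact h2.trans (Metric.infEDist_le_edist_of_mem hx.2)
    _ ≤ μ (T ⁻¹' V n) + μ ({x | δ ≤ min 1 (edist (u i x) (T x))} ∩ T ⁻¹' U) := measure_union_le _ _
    _ ≤ ε / 2 + ε / 2 := by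
        rw [T.measure_pre (hVm n)]
        exact add_le_add hn hi
    _ = ε := ENNReal.add_halves ε

theorem tendsto_sd_of_e1 {ι : Type*} {l : Filter ι} {u : ι → Au μ}
    {T : Au μ} (h : Tendsto (fun i => e1 μ (u i) T) l (𝓝 0)) {A : Set X} (hA : MeasurableSet A)
    (hf : μ A ≠ ∞) : Tendsto (fun i => sd A (u i) T) l (𝓝 0) := by
  rw [ENNReal.tendsto_nhds_zero]
  intro ε hε
  have hε4 : 0 < ε / 2 / 2 := ENNReal.half_pos (ENNReal.half_pos hε.ne').ne'
  obtain ⟨U, hAU, hU, hUf, hUA⟩ := hA.exists_isOpen_sdiff_lt hf hε4.ne'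
  have h1 := tendsto_sdiff_of_e1 (fun i => (u i).meas) h hU hUf.ne
  filter_upwards [ENNReal.tendsto_nhds_zero.1 h1 _ hε4] with i hi
  have h2 := sd_le_set hA hU.measurableSet (u i) T
  have h3 : sd U (u i) T ≤ 2 * μ (T ⁻¹' U \ u i ⁻¹' U) := by
    rw [sd_comm]
    refine symmDiff_le_two (T.meas hU.measurableSet) ((u i).meas hU.measurableSet) ?_ ?_
    · rw [T.measure_pre hU.measurableSet, (u i).measure_pre hU.measurableSet]
    · rw [T.measure_pre hU.measurableSet]; exact hUf.ne
  have h4 : μ (A ∆ U) ≤ ε / 2 / 2 := by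
    rw [symmDiff_of_le hAU]; exact hUA.le
  calc sd A (u i) T ≤ 2 * (ε / 2 / 2) + 2 * (ε / 2 / 2) := by
        refine h2.trans (add_le_add (h3.trans ?_) ?_) <;> gcongr
    _ = ε := by rw [two_mul, ENNReal.add_halves, ENNReal.add_halves]

theorem tendsto_e1_of_sd {ι : Type*} {l : Filter ι} {u : ι → Au μ} {T : Au μ}
    (h : ∀ A : Set X, MeasurableSet A → μ A ≠ ∞ → Tendsto (fun i => sd A (u i) T) l (𝓝 0)) :
    Tendsto (fun i => e1 μ (u i) T) l (𝓝 0) := by
  rcases isEmpty_or_nonempty X with hX | hX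
  · simpa [e1] using tendsto_const_nhds
  have key : ∀ ε : ℝ≥0∞, 0 < ε → ∀ᶠ i in l, e1 μ (u i) T ≤ ε + (ε + ε) := by
    intro ε hε
    obtain ⟨W, hWm, hWo, hWf, hW⟩ := exists_open_cover μ
    obtain ⟨q, hq⟩ := TopologicalSpace.exists_dense_seq X
    have hε2 : 0 < ε / 2 := ENNReal.half_pos hε.ne'
    let P : ℕ → Set X := fun n => Metric.eball (q n.unpair.1) (ε / 2) ∩ W n.unpair.2
    have hPm : ∀ n, MeasurableSet (P n) := fun n =>
      (Metric.isOpen_eball.inter (hWo _)).measurableSet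
    have hPf : ∀ n, μ (P n) ≠ ∞ := fun n =>
      ne_top_of_le_ne_top (hWf _) (measure_mono inter_subset_right)
    have hcov : ∀ y, ∃ n, y ∈ P n := by
      intro y
      obtain ⟨a, ha⟩ := hq.exists_mem_open (Metric.isOpen_eball (x := y) (ε := ε / 2))
        ⟨y, Metric.mem_eball_self hε2⟩
      obtain ⟨b, hb⟩ := mem_iUnion.1 (hW.symm ▸ mem_univ y)
      refine ⟨Nat.pair a b, ?_⟩
      simp only [P, Nat.unpair_pair]
      exact ⟨Metric.mem_eball_comm.1 ha, hb⟩
    let R : ℕ → Set X := fun n => (T ⁻¹' accumulate P n)ᶜ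
    have hRm : ∀ n, MeasurableSet (R n) := fun n =>
      (T.meas (MeasurableSet.biUnion (to_countable _) fun i _ => hPm i)).compl
    have hR : Tendsto (fun n => μ.toFinite (R n)) atTop (𝓝 0) := by
      have h1 := tendsto_measure_iInter_atTop (μ := μ.toFinite) (s := R)
        (fun n => (hRm n).nullMeasurableSet)
        (fun a b hab => compl_subset_compl.2 (preimage_mono (monotone_accumulate hab)))
        ⟨0, measure_ne_top _ _⟩
      have h2 : ⋂ n, R n = ∅ := by
        rw [eq_empty_iff_forall_notMem]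
        intro y hy
        obtain ⟨n, hn⟩ := hcov (T y)
        exact mem_iInter.1 hy n (subset_accumulate hn)
      rw [h2, measure_empty] at h1
      exact h1
    obtain ⟨n, hn⟩ := ((ENNReal.tendsto_nhds_zero.1 hR) _ hε).exists
    have hS : Tendsto (fun i => ∑ k ∈ Finset.range (n + 1),
        μ.toFinite ((u i ⁻¹' P k) ∆ (T ⁻¹' P k))) l (𝓝 0) := by
      have := tendsto_finsetSum (Finset.range (n + 1)) fun k _ =>
        tendsto_of_ac (toFinite_absolutelyContinuous μ) (h (P k) (hPm k) (hPf k))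
      simpa using this
    filter_upwards [ENNReal.tendsto_nhds_zero.1 hS _ hε] with i hi
    set B : Set X := R n ∪ ⋃ k ∈ Finset.range (n + 1), (u i ⁻¹' P k) ∆ (T ⁻¹' P k) with hB
    have hBm : MeasurableSet B := (hRm n).union (MeasurableSet.biUnion (to_countable _)
      fun k _ => ((u i).meas (hPm k)).symmDiff (T.meas (hPm k)))
    have hle : ∀ x, min 1 (edist (u i x) (T x)) ≤ ε + B.indicator 1 x := by
      intro x
      by_cases hx : x ∈ B
      · rw [indicator_of_mem hx]
        exact (min_le_left _ _).trans le_add_self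
      · rw [indicator_of_notMem hx, add_zero]
        have hx1 : T x ∈ accumulate P n := not_not.1 fun h => hx (Or.inl h)
        obtain ⟨k, hk, hTk⟩ := mem_accumulate.1 hx1
        have h3 : x ∉ (u i ⁻¹' P k) ∆ (T ⁻¹' P k) := fun h =>
          hx (Or.inr (mem_biUnion (Finset.mem_range.2 (Nat.lt_succ_of_le hk)) h))
        have h4 : u i x ∈ P k := by
          by_contra h5
          exact h3 (Or.inr ⟨hTk, h5⟩)
        refine (min_le_right _ _).trans ?_
        calc edist (u i x) (T x) ≤ edist (u i x) (q k.unpair.1) + edist (T x) (q k.unpair.1) :=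
              edist_triangle_right _ _ _
          _ ≤ ε / 2 + ε / 2 := add_le_add (le_of_lt h4.1) (le_of_lt hTk.1)
          _ = ε := ENNReal.add_halves ε
    calc e1 μ (u i) T ≤ ∫⁻ x, (ε + B.indicator 1 x) ∂μ.toFinite := lintegral_mono hle
      _ = ε * μ.toFinite univ + μ.toFinite B := by
          rw [lintegral_add_left measurable_const, lintegral_const, lintegral_indicator_one hBm]
      _ ≤ ε * 1 + (ε + ε) := by
          gcongr
          · exact toFinite_univ_le
          · exact (measure_union_le _ _).trans (add_le_add hn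
              ((measure_biUnion_finset_le _ _).trans hi))
      _ = _ := by rw [mul_one]
  rw [ENNReal.tendsto_nhds_zero]
  intro ε hε
  have h3 : 0 < ε / 3 := ENNReal.div_pos hε.ne' (by norm_num)
  filter_upwards [key _ h3] with i hi
  rwa [← add_assoc, ENNReal.add_thirds] at hi

theorem tendsto_au_iff {ι : Type*} {l : Filter ι} {u : ι → Au μ} {T : Au μ} :
    Tendsto u l (𝓝 T) ↔
      ∀ A : Set X, MeasurableSet A → μ A ≠ ∞ → Tendsto (fun i => sd A (u i) T) l (𝓝 0) := by
  rw [tendsto_iff_edist_tendsto_0]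
  constructor
  · intro h A hA hf
    refine tendsto_sd_of_e1 ?_ hA hf
    exact tendsto_of_tendsto_of_tendsto_of_le_of_le tendsto_const_nhds h (fun _ => zero_le)
      fun i => le_self_add
  · intro h
    have h1 := tendsto_e1_of_sd h
    have h2 : Tendsto (fun i => e1 μ ⇑((u i)⁻¹) ⇑(T⁻¹)) l (𝓝 0) := by
      refine tendsto_e1_of_sd (u := fun i => (u i)⁻¹) (T := T⁻¹) fun A hA hf => ?_
      simp only [sd_inv hA]
      exact h _ (T⁻¹.meas hA) (by rwa [T⁻¹.measure_pre hA])
    simpa [edist_def] using h1.add h2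

instance : IsTopologicalGroup (Au μ) where
  continuous_mul := by
    rw [continuous_iff_continuousAt]
    rintro ⟨S, T⟩
    rw [ContinuousAt, tendsto_au_iff]
    intro A hA hf
    have h1 := tendsto_au_iff.1 (continuous_fst.tendsto (S, T)) A hA hf
    have h2 := tendsto_au_iff.1 (continuous_snd.tendsto (S, T)) (S ⁻¹' A) (S.meas hA)
      (by rwa [S.measure_pre hA])
    have h3 := h1.add h2
    rw [add_zero] at h3
    refine tendsto_of_tendsto_of_tendsto_of_le_of_le tendsto_const_nhds h3 (fun _ => zero_le)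
      fun p => ?_
    have := sd_triangle A (p.1 * p.2) (S * p.2) (S * T)
    rwa [sd_mul_right hA, sd_mul_left] at this
  continuous_inv := by
    rw [continuous_iff_continuousAt]
    intro T
    rw [ContinuousAt, tendsto_au_iff]
    intro A hA hf
    simp only [sd_inv hA]
    exact tendsto_au_iff.1 tendsto_id _ (T⁻¹.meas hA) (by rwa [T⁻¹.measure_pre hA])

end Metric

end Pool.Agent.H964Z.Gen
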