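import Pool.Agent.H964Z.AutA

set_option autoImplicit false
set_option linter.unusedSectionVars false
open MeasureTheory Set Filter Topology
open scoped ENNReal symmDiff

namespace Pool.Agent.H964Z.Gen

variable {X : Type*} [MetricSpace X] [SecondCountableTopology X] [MeasurableSpace X] [BorelSpace X]
  {μ : Measure X} [IsLocallyFiniteMeasure μ]

noncomputable def bump (U : Set X) (k : ℕ) (x : X) : ℝ≥0∞ :=
  min 1 (((k : ℝ≥0∞) + 1) * Metric.infEDist x Uᶜ)

theorem bump_cont (U : Set X) (k : ℕ) : Continuous (bump U k) :=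
  continuous_const.min ((ENNReal.continuous_const_mul (by simp)).comp Metric.continuous_infEDist)

theorem bump_le_one (U : Set X) (k : ℕ) (x : X) : bump U k x ≤ 1 := min_le_left _ _

theorem bump_ne_top (U : Set X) (k : ℕ) (x : X) : bump U k x ≠ ∞ :=
  ne_top_of_le_ne_top ENNReal.one_ne_top (bump_le_one U k x)

theorem bump_le (U : Set X) (k : ℕ) (x : X) : bump U k x ≤ U.indicator 1 x := by
  by_cases hx : x ∈ U
  · rw [indicator_of_mem hx]; exact bump_le_one U k x
  · rw [indicator_of_notMem hx, bump, Metric.infEDist_zero_of_mem hx]; simp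

theorem bump_tendsto {U : Set X} (hU : IsOpen U) (x : X) :
    Tendsto (fun k => bump U k x) atTop (𝓝 (U.indicator 1 x)) := by
  by_cases hx : x ∈ U
  · rw [indicator_of_mem hx]
    have h0 : Metric.infEDist x Uᶜ ≠ 0 := by
      intro h
      have h4 : x ∈ closure Uᶜ := Metric.mem_closure_iff_infEDist_zero.2 h
      rw [hU.isClosed_compl.closure_eq] at h4
      exact h4 hx
    obtain ⟨N, hN⟩ := ENNReal.exists_inv_nat_lt h0
    refine tendsto_const_nhds.congr' ?_
    filter_upwards [eventually_ge_atTop N] with k hk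
    rw [bump, min_eq_left]
    · rfl
    · have h1 : ((k : ℝ≥0∞) + 1)⁻¹ ≤ Metric.infEDist x Uᶜ := by
        refine le_trans (ENNReal.inv_le_inv.2 ?_) hN.le
        exact le_trans (by exact_mod_cast hk) le_self_add
      calc (1 : ℝ≥0∞) = ((k : ℝ≥0∞) + 1) * ((k : ℝ≥0∞) + 1)⁻¹ :=
            (ENNReal.mul_inv_cancel (by simp) (by simp)).symm
        _ ≤ _ := by gcongr
  · have : ∀ k, bump U k x = 0 := fun k => le_antisymm (by simpa [hx] using bump_le U k x) zero_le
    simp only [this, indicator_of_notMem hx]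
    exact tendsto_const_nhds

theorem joint_open {T : ℕ → Au μ} {f g : X → X} (hf : Measurable f) (hg : Measurable g)
    (h1 : ∀ᵐ x ∂μ, Tendsto (fun n => T n x) atTop (𝓝 (f x)))
    (h2 : ∀ᵐ x ∂μ, Tendsto (fun n => (T n)⁻¹ x) atTop (𝓝 (g x)))
    {U V : Set X} (hU : IsOpen U) (hUf : μ U ≠ ∞) (hV : IsOpen V) (hVf : μ V ≠ ∞) :
    μ (U ∩ f ⁻¹' V) = μ (g ⁻¹' U ∩ V) := by
  have mU : ∀ k, Measurable (bump U k) := fun k => (bump_cont U k).measurable
  have mV : ∀ k, Measurable (bump V k) := fun k => (bump_cont V k).measurable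
  have iU : ∫⁻ x, U.indicator 1 x ∂μ ≠ ∞ := by rwa [lintegral_indicator_one hU.measurableSet]
  have iV : ∫⁻ x, V.indicator 1 x ∂μ ≠ ∞ := by rwa [lintegral_indicator_one hV.measurableSet]
  have bU : ∀ k x y, bump U k x * bump V k y ≤ U.indicator 1 x := fun k x y =>
    (mul_le_mul' (bump_le U k x) (bump_le_one V k y)).trans (by rw [mul_one])
  have bV : ∀ k x y, bump U k x * bump V k y ≤ V.indicator 1 y := fun k x y =>
    (mul_le_mul' (bump_le_one U k x) (bump_le V k y)).trans (by rw [one_mul])
  have step : ∀ k, ∫⁻ x, bump U k x * bump V k (f x) ∂μ = ∫⁻ y, bump U k (g y) * bump V k y ∂μ := by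
    intro k
    have a1 := tendsto_lintegral_of_dominated_convergence (μ := μ)
      (F := fun n x => bump U k x * bump V k (T n x)) (f := fun x => bump U k x * bump V k (f x))
      (U.indicator 1) (fun n => (mU k).mul ((mV k).comp (T n).meas))
      (fun n => Eventually.of_forall fun x => bU k _ _) iU (by
        filter_upwards [h1] with x hx
        exact ENNReal.Tendsto.const_mul (((bump_cont V k).tendsto _).comp hx)
          (Or.inr (bump_ne_top _ _ _)))
    have a2 := tendsto_lintegral_of_dominated_convergence (μ := μ)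
      (F := fun n y => bump U k ((T n)⁻¹ y) * bump V k y) (f := fun y => bump U k (g y) * bump V k y)
      (V.indicator 1) (fun n => ((mU k).comp (T n)⁻¹.meas).mul (mV k))
      (fun n => Eventually.of_forall fun x => bV k _ _) iV (by
        filter_upwards [h2] with x hx
        exact ENNReal.Tendsto.mul_const (((bump_cont U k).tendsto _).comp hx)
          (Or.inr (bump_ne_top _ _ _)))
    have a3 : ∀ n, ∫⁻ x, bump U k x * bump V k (T n x) ∂μ =
        ∫⁻ y, bump U k ((T n)⁻¹ y) * bump V k y ∂μ := by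
      intro n
      rw [← (T n).mp.lintegral_comp (f := fun y => bump U k ((T n)⁻¹ y) * bump V k y)
        (((mU k).comp (T n)⁻¹.meas).mul (mV k))]
      simp only [Au.inv_apply_self]
    simp only [a3] at a1
    exact tendsto_nhds_unique a1 a2
  have hlim : ∀ x y, Tendsto (fun k => bump U k x * bump V k y) atTop
      (𝓝 (U.indicator 1 x * V.indicator 1 y)) := by
    intro x y
    refine ENNReal.Tendsto.mul (bump_tendsto hU x) (Or.inr ?_) (bump_tendsto hV y) (Or.inr ?_)
    · by_cases h : y ∈ V <;> simp [h]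
    · by_cases h : x ∈ U <;> simp [h]
  have b1 := tendsto_lintegral_of_dominated_convergence (μ := μ)
    (F := fun k x => bump U k x * bump V k (f x))
    (f := fun x => U.indicator 1 x * V.indicator 1 (f x))
    (U.indicator 1) (fun k => (mU k).mul ((mV k).comp hf))
    (fun k => Eventually.of_forall fun x => bU k _ _) iU (Eventually.of_forall fun x => hlim _ _)
  have b2 := tendsto_lintegral_of_dominated_convergence (μ := μ)
    (F := fun k y => bump U k (g y) * bump V k y)
    (f := fun y => U.indicator 1 (g y) * V.indicator 1 y)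
    (V.indicator 1) (fun k => ((mU k).comp hg).mul (mV k))
    (fun k => Eventually.of_forall fun x => bV k _ _) iV (Eventually.of_forall fun x => hlim _ _)
  simp only [step] at b1
  have b3 := tendsto_nhds_unique b1 b2
  rw [← lintegral_indicator_one (hU.measurableSet.inter (hf hV.measurableSet)),
    ← lintegral_indicator_one ((hg hU.measurableSet).inter hV.measurableSet)]
  convert b3 using 2
  · funext x
    by_cases h1 : x ∈ U <;> by_cases h2 : f x ∈ V <;> simp [indicator, h1, h2]
  · funext x
    by_cases h1 : g x ∈ U <;> by_cases h2 : x ∈ V <;> simp [indicator, h1, h2]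

theorem ext_open_fin (μ : Measure X) [IsLocallyFiniteMeasure μ] (m1 m2 : Measure X)
    [IsFiniteMeasure m1] (h : ∀ U, IsOpen U → μ U ≠ ∞ → m1 U = m2 U) : m1 = m2 := by
  obtain ⟨W, hWm, hWo, hWf, hW⟩ := exists_open_cover μ
  have key : ∀ U, IsOpen U → m1 U = m2 U := by
    intro U hU
    have e : U = ⋃ n, U ∩ W n := by rw [← inter_iUnion, hW, inter_univ]
    have hm : Monotone fun n => U ∩ W n := fun a b hab => inter_subset_inter_right _ (hWm hab)
    rw [e, hm.measure_iUnion, hm.measure_iUnion]
    exact iSup_congr fun n => h _ (hU.inter (hWo n))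
      (ne_top_of_le_ne_top (hWf n) (measure_mono inter_subset_right))
  exact ext_of_generate_finite _ (BorelSpace.measurable_eq (α := X)) isPiSystem_isOpen key
    (key _ isOpen_univ)

theorem joint_all {f g : X → X} (hf : Measurable f) (hg : Measurable g)
    (h : ∀ U V : Set X, IsOpen U → μ U ≠ ∞ → IsOpen V → μ V ≠ ∞ →
      μ (U ∩ f ⁻¹' V) = μ (g ⁻¹' U ∩ V)) {U V : Set X} (hU : MeasurableSet U)
    (hV : MeasurableSet V) : μ (U ∩ f ⁻¹' V) = μ (g ⁻¹' U ∩ V) := by
  have s1 : ∀ V : Set X, IsOpen V → μ V ≠ ∞ → ∀ U, MeasurableSet U →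
      μ (U ∩ f ⁻¹' V) = μ (g ⁻¹' U ∩ V) := by
    intro V hV hVf U hU
    have : IsFiniteMeasure (μ.restrict V) := isFiniteMeasure_restrict.2 hVf
    have e := ext_open_fin μ ((μ.restrict V).map g) (μ.restrict (f ⁻¹' V)) (fun U hU hUf => by
      rw [Measure.map_apply hg hU.measurableSet, Measure.restrict_apply (hg hU.measurableSet),
        Measure.restrict_apply hU.measurableSet, h U V hU hUf hV hVf])
    rw [← Measure.restrict_apply hU, ← e, Measure.map_apply hg hU, Measure.restrict_apply (hg hU)]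
  have s2 : ∀ U : Set X, MeasurableSet U → μ U ≠ ∞ → μ (U ∩ f ⁻¹' V) = μ (g ⁻¹' U ∩ V) := by
    intro U hU hUf
    have : IsFiniteMeasure (μ.restrict U) := isFiniteMeasure_restrict.2 hUf
    have e := ext_open_fin μ ((μ.restrict U).map f) (μ.restrict (g ⁻¹' U)) (fun V hV hVf => by
      rw [Measure.map_apply hf hV.measurableSet, Measure.restrict_apply (hf hV.measurableSet),
        Measure.restrict_apply hV.measurableSet, inter_comm, s1 V hV hVf U hU, inter_comm])
    rw [inter_comm (g ⁻¹' U), ← Measure.restrict_apply hV, ← e, Measure.map_apply hf hV,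
      Measure.restrict_apply (hf hV), inter_comm]
  obtain ⟨W, hWm, hWo, hWf, hW⟩ := exists_open_cover μ
  have e1 : U ∩ f ⁻¹' V = ⋃ n, (U ∩ W n) ∩ f ⁻¹' V := by
    rw [← iUnion_inter, ← inter_iUnion, hW, inter_univ]
  have e2 : g ⁻¹' U ∩ V = ⋃ n, g ⁻¹' (U ∩ W n) ∩ V := by
    rw [← iUnion_inter, ← preimage_iUnion, ← inter_iUnion, hW, inter_univ]
  have hm1 : Monotone fun n => (U ∩ W n) ∩ f ⁻¹' V := fun a b hab =>
    inter_subset_inter_left _ (inter_subset_inter_right _ (hWm hab))
  have hm2 : Monotone fun n => g ⁻¹' (U ∩ W n) ∩ V := fun a b hab =>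
    inter_subset_inter_left _ (preimage_mono (inter_subset_inter_right _ (hWm hab)))
  rw [e1, e2, hm1.measure_iUnion, hm2.measure_iUnion]
  exact iSup_congr fun n => s2 _ (hU.inter (hWo n).measurableSet)
    (ne_top_of_le_ne_top (hWf n) (measure_mono inter_subset_right))

theorem ae_eq_id_of_sets {h : X → X} (H : ∀ V : Set X, IsOpen V → μ (V \ h ⁻¹' V) = 0) :
    ∀ᵐ x ∂μ, h x = x := by
  have : ∀ᵐ x ∂μ, ∀ V ∈ TopologicalSpace.countableBasis X, x ∉ V \ h ⁻¹' V := by
    rw [ae_ball_iff (TopologicalSpace.countable_countableBasis X)]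
    intro V hV
    exact measure_eq_zero_iff_ae_notMem.1 (H V (TopologicalSpace.isOpen_of_mem_countableBasis hV))
  filter_upwards [this] with x hx
  by_contra hne
  obtain ⟨V, hV, hxV, hVs⟩ := (TopologicalSpace.isBasis_countableBasis X).exists_subset_of_mem_open
    (show x ∈ ({h x}ᶜ : Set X) from fun h' => hne (Eq.symm h')) isOpen_compl_singleton
  exact hx V hV ⟨hxV, fun h' => hVs h' rfl⟩

theorem exists_au_of_joint {f g : X → X} (hf : Measurable f) (hg : Measurable g)
    (h : ∀ U V : Set X, MeasurableSet U → MeasurableSet V →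
      μ (U ∩ f ⁻¹' V) = μ (g ⁻¹' U ∩ V)) :
    ∃ T : Au μ, (T : X → X) =ᵐ[μ] f ∧ ⇑(T⁻¹) =ᵐ[μ] g := by
  have mf : MeasurePreserving f μ μ := ⟨hf, Measure.ext fun V hV => by
    have := h univ V MeasurableSet.univ hV
    rw [Measure.map_apply hf hV]
    simpa using this⟩
  have mg : MeasurePreserving g μ μ := ⟨hg, Measure.ext fun V hV => by
    have := h V univ hV MeasurableSet.univ
    rw [Measure.map_apply hg hV]
    simpa using this.symm⟩
  have h1 : ∀ᵐ x ∂μ, f (g x) = x := by
    refine ae_eq_id_of_sets (h := fun x => f (g x)) fun V hV => ?_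
    have := h (f ⁻¹' V)ᶜ V (hf hV.measurableSet).compl hV.measurableSet
    rw [compl_inter_self, measure_empty, inter_comm] at this
    exact this.symm
  have h2 : ∀ᵐ x ∂μ, g (f x) = x := by
    refine ae_eq_id_of_sets (h := fun x => g (f x)) fun V hV => ?_
    have := h V (g ⁻¹' V)ᶜ hV.measurableSet (hg hV.measurableSet).compl
    rw [inter_compl_self, measure_empty] at this
    exact this
  obtain ⟨T, hT⟩ := exists_au_of_ae mf mg h1 h2
  refine ⟨T, hT, ?_⟩
  filter_upwards [T⁻¹.mp.quasiMeasurePreserving.ae hT, T⁻¹.mp.quasiMeasurePreserving.ae h2]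
    with x a b
  rw [← a, Au.apply_inv_self] at b
  exact b.symm

theorem exists_ae_limit [CompleteSpace X] {u : ℕ → X → X} (hu : ∀ n, Measurable (u n))
    (h : ∀ n, e1 μ (u n) (u (n + 1)) ≤ 2⁻¹ ^ n) :
    ∃ f : X → X, Measurable f ∧ ∀ᵐ x ∂μ, Tendsto (fun n => u n x) atTop (𝓝 (f x)) := by
  refine measurable_limit_of_tendsto_metrizable_ae (fun n => (hu n).aemeasurable) ?_
  have h1 : ∫⁻ x, ∑' n, min 1 (edist (u n x) (u (n + 1) x)) ∂μ.toFinite ≠ ∞ := by
    rw [lintegral_tsum fun n => (meas_min (hu n) (hu (n + 1))).aemeasurable]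
    refine ne_top_of_le_ne_top ?_ (ENNReal.tsum_le_tsum h)
    rw [ENNReal.tsum_geometric]
    simp
  have h2 := ae_lt_top (Measurable.tsum fun n => meas_min (hu n) (hu (n + 1))) h1
  rw [ae_toFinite] at h2
  filter_upwards [h2] with x hx
  have h3 := ENNReal.tendsto_atTop_zero_of_tsum_ne_top hx.ne
  obtain ⟨N, hN⟩ := eventually_atTop.1 (h3.eventually (gt_mem_nhds zero_lt_one))
  have h4 : CauchySeq fun k => u (k + N) x := by
    refine cauchySeq_of_edist_le_of_tsum_ne_top
      (fun k => min 1 (edist (u (k + N) x) (u (k + N + 1) x))) (fun k => ?_) ?_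
    · have := hN (k + N) (by omega)
      rw [min_eq_right (le_of_lt (by simpa using this))]
      rw [show k.succ + N = k + N + 1 by omega]
    · exact ne_top_of_le_ne_top hx.ne (ENNReal.tsum_comp_le_tsum_of_injective
        (f := fun k => k + N) (add_left_injective N)
        (fun n => min 1 (edist (u n x) (u (n + 1) x))))
  exact cauchySeq_tendsto_of_complete ((cauchySeq_shift N).1 h4)

theorem tendsto_e1_of_ae {u : ℕ → X → X} (hu : ∀ n, Measurable (u n)) {f : X → X}
    (hf : Measurable f) (h : ∀ᵐ x ∂μ, Tendsto (fun n => u n x) atTop (𝓝 (f x))) :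
    Tendsto (fun n => e1 μ (u n) f) atTop (𝓝 0) := by
  have := tendsto_lintegral_of_dominated_convergence (μ := μ.toFinite)
    (F := fun n x => min 1 (edist (u n x) (f x))) (f := fun _ => 0) (fun _ => 1)
    (fun n => meas_min (hu n) hf) (fun n => Eventually.of_forall fun x => min_le_left _ _)
    (by simp) (by
      rw [ae_toFinite]
      filter_upwards [h] with x hx
      have h1 := tendsto_iff_edist_tendsto_0.1 hx
      exact tendsto_of_tendsto_of_tendsto_of_le_of_le tendsto_const_nhds h1 (fun _ => zero_le)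
        fun n => min_le_right _ _)
  simpa [e1] using this

instance [CompleteSpace X] : CompleteSpace (Au μ) := by
  refine EMetric.complete_of_convergent_controlled_sequences (fun n => 2⁻¹ ^ n)
    (fun n => ENNReal.pow_pos (by simp) n) fun u hu => ?_
  have hb : ∀ n, edist (u n) (u (n + 1)) ≤ 2⁻¹ ^ n := fun n => (hu n n (n + 1) le_rfl (by omega)).le
  obtain ⟨f, hf, h1⟩ := exists_ae_limit (μ := μ) (u := fun n => u n) (fun n => (u n).meas)
    fun n => le_trans le_self_add (hb n)
  obtain ⟨g, hg, h2⟩ := exists_ae_limit (μ := μ) (u := fun n => ⇑((u n)⁻¹))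
    (fun n => (u n)⁻¹.meas) fun n => le_trans le_add_self (hb n)
  obtain ⟨T, hT1, hT2⟩ := exists_au_of_joint (μ := μ) hf hg fun U V hU hV =>
    joint_all hf hg (fun U V a b c d => joint_open hf hg h1 h2 a b c d) hU hV
  refine ⟨T, ?_⟩
  rw [tendsto_iff_edist_tendsto_0]
  have a1 := tendsto_e1_of_ae (μ := μ) (fun n => (u n).meas) T.meas (by
    filter_upwards [h1, hT1] with x a b
    rwa [b])
  have a2 := tendsto_e1_of_ae (μ := μ) (fun n => (u n)⁻¹.meas) T⁻¹.meas (by
    filter_upwards [h2, hT2] with x a b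
    rwa [b])
  simpa [edist_def] using a1.add a2

theorem inseparable_iff_ae {S T : Au μ} : Inseparable S T ↔ (S : X → X) =ᵐ[μ] T := by
  constructor
  · intro h
    have h1 : edist S T = 0 := EMetric.inseparable_iff.1 h
    have h2 : e1 μ S T = 0 := le_antisymm (le_trans le_self_add (le_of_eq h1)) zero_le
    rw [e1, lintegral_eq_zero_iff (meas_min S.meas T.meas), Filter.EventuallyEq, ae_toFinite] at h2
    filter_upwards [h2] with x hx
    simpa using hx
  · intro h
    have : Tendsto (fun _ : ℕ => S) atTop (𝓝 T) := by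
      rw [tendsto_au_iff]
      intro A hA _
      have : sd A S T = 0 := by
        rw [sd, measure_symmDiff_eq_zero_iff]
        filter_upwards [h] with x hx
        show (S x ∈ A) = (T x ∈ A)
        rw [hx]
      simp only [this]
      exact tendsto_const_nhds
    exact (tendsto_nhds_unique_inseparable tendsto_const_nhds this)

end Pool.Agent.H964Z.Gen
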