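import Mathlib

set_option autoImplicit false
open Set Filter Topology Metric

namespace Pool.Agent.H964Z.Gen

section
variable {E Y : Type*} [PseudoMetricSpace E] [TopologicalSpace Y]

def DBase (π : E → Y) (L : Set E) (p : Set Y × Set E) : Prop :=
  IsOpen p.1 ∧ IsOpen p.2 ∧ p.1 ⊆ closure (π '' (p.2 ∩ L))

def DGood (D : Set E) (r : ℝ) (p : Set Y × Set E) : Prop :=
  p.1.Nonempty ∧ closure p.2 ⊆ D ∧ ∀ a ∈ p.2, ∀ b ∈ p.2, dist a b ≤ r

def DChild (q p : Set Y × Set E) : Prop := q.1 ⊆ p.1 ∧ q.2 ⊆ p.2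

def DFam (π : E → Y) (L : Set E) (S : Set (Set Y × Set E)) : Prop :=
  (∀ p ∈ S, DBase π L p) ∧ (S.Pairwise fun p q => Disjoint p.1 q.1) ∧ Dense (⋃ p ∈ S, p.1)

theorem d_one {π : E → Y} (hπ : Continuous π) {L : Set E}
    (hloc : ∀ x ∈ L, ∀ U ∈ 𝓝 x, closure (π '' (U ∩ L)) ∈ 𝓝 (π x))
    {D : Set E} (hDo : IsOpen D) (hDd : L ⊆ closure (D ∩ L)) {r : ℝ} (hr : 0 < r)
    {p : Set Y × Set E} (hp : DBase π L p) {W : Set Y} (hW : IsOpen W) (hne : (W ∩ p.1).Nonempty) :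
    ∃ q, DBase π L q ∧ DGood D r q ∧ DChild q p ∧ q.1 ⊆ W := by
  obtain ⟨y, hyW, hyp⟩ := hne
  have hWp : IsOpen (W ∩ p.1) := hW.inter hp.1
  obtain ⟨_, hz1, z, hz, rfl⟩ := mem_closure_iff.1 (hp.2.2 hyp) _ hWp ⟨hyW, hyp⟩
  have hO : IsOpen (p.2 ∩ π ⁻¹' (W ∩ p.1)) := hp.2.1.inter (hWp.preimage hπ)
  obtain ⟨z', hz'O, hz'D, hz'L⟩ := mem_closure_iff.1 (hDd hz.2) _ hO ⟨hz.1, hz1⟩
  obtain ⟨s, hs, hsb⟩ := Metric.nhds_basis_closedBall.mem_iff.1
    ((hO.inter hDo).mem_nhds ⟨hz'O, hz'D⟩)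
  set t := min s (r / 2) with ht
  have ht0 : 0 < t := lt_min hs (by positivity)
  have hcl : closure (ball z' t) ⊆ closedBall z' s :=
    closure_ball_subset_closedBall.trans (closedBall_subset_closedBall (min_le_left _ _))
  refine ⟨(interior (closure (π '' (ball z' t ∩ L))) ∩ (W ∩ p.1), ball z' t), ⟨?_, isOpen_ball, ?_⟩,
    ⟨⟨π z', ?_, hz'O.2⟩, ?_, ?_⟩, ⟨?_, ?_⟩, ?_⟩
  · exact isOpen_interior.inter hWp
  · exact inter_subset_left.trans interior_subset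
  · exact mem_interior_iff_mem_nhds.2 (hloc z' hz'L _ (ball_mem_nhds _ ht0))
  · exact fun a ha => (hsb (hcl ha)).2
  · intro a ha b hb
    have h1 : dist a z' < t := ha
    have h2 : dist b z' < t := hb
    have h3 := dist_triangle_right a b z'
    have h4 : t ≤ r / 2 := min_le_right _ _
    linarith
  · exact fun a ha => ha.2.2
  · exact fun a ha => (hsb (hcl (subset_closure ha))).1.1
  · exact fun a ha => ha.2.1

theorem d_step {π : E → Y} (hπ : Continuous π) {L : Set E}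
    (hloc : ∀ x ∈ L, ∀ U ∈ 𝓝 x, closure (π '' (U ∩ L)) ∈ 𝓝 (π x))
    {D : Set E} (hDo : IsOpen D) (hDd : L ⊆ closure (D ∩ L)) {r : ℝ} (hr : 0 < r)
    {S : Set (Set Y × Set E)} (hS : DFam π L S) :
    ∃ S', DFam π L S' ∧ ∀ q ∈ S', DGood D r q ∧ ∃ p ∈ S, DChild q p := by
  let C : Set (Set (Set Y × Set E)) := {T | (∀ q ∈ T, DBase π L q ∧ DGood D r q ∧ ∃ p ∈ S, DChild q p)
    ∧ T.Pairwise fun p q => Disjoint p.1 q.1}
  obtain ⟨T, hT⟩ : ∃ T, Maximal (· ∈ C) T := by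
    refine zorn_subset C fun c hc hchain => ⟨⋃₀ c, ⟨?_, ?_⟩, fun s hs => subset_sUnion_of_mem hs⟩
    · rintro q ⟨T, hT, hq⟩
      exact (hc hT).1 q hq
    · exact (pairwise_sUnion hchain.directedOn).2 fun T hT => (hc hT).2
  refine ⟨T, ⟨fun q hq => (hT.prop.1 q hq).1, hT.prop.2, ?_⟩, fun q hq => (hT.prop.1 q hq).2⟩
  by_contra hnd
  have hW : IsOpen (closure (⋃ p ∈ T, p.1))ᶜ := isClosed_closure.isOpen_compl
  have hWne : (closure (⋃ p ∈ T, p.1))ᶜ.Nonempty := by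
    rw [dense_iff_closure_eq] at hnd
    exact nonempty_compl.2 hnd
  obtain ⟨y, hy1, hy2⟩ := hS.2.2.inter_open_nonempty _ hW hWne
  simp only [mem_iUnion] at hy2
  obtain ⟨p, hpS, hyp⟩ := hy2
  obtain ⟨q, hq1, hq2, hq3, hq4⟩ := d_one hπ hloc hDo hDd hr (hS.1 p hpS) hW ⟨y, hy1, hyp⟩
  have hdis : ∀ p ∈ T, Disjoint q.1 p.1 := by
    intro p' hp'
    rw [disjoint_left]
    intro a ha ha'
    exact hq4 ha (subset_closure (mem_biUnion hp' ha'))
  have hins : insert q T ∈ C := by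
    refine ⟨?_, ?_⟩
    · rintro q' (rfl | hq')
      · exact ⟨hq1, hq2, p, hpS, hq3⟩
      · exact hT.prop.1 q' hq'
    · rw [pairwise_insert]
      exact ⟨hT.prop.2, fun p' hp' _ => ⟨hdis p' hp', (hdis p' hp').symm⟩⟩
  have hqT : q ∈ T := hT.le_of_ge hins (subset_insert _ _) (mem_insert _ _)
  obtain ⟨a, ha⟩ := hq2.1
  exact disjoint_left.1 (hdis q hqT) ha ha

theorem dougherty_metric [CompleteSpace E] [T3Space Y] {π : E → Y} (hπ : Continuous π) {L : Set E}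
    (hd : Dense (π '' L))
    (hloc : ∀ x ∈ L, ∀ U ∈ 𝓝 x, closure (π '' (U ∩ L)) ∈ 𝓝 (π x))
    {D : ℕ → Set E} (hDo : ∀ n, IsOpen (D n)) (hDd : ∀ n, L ⊆ closure (D n ∩ L)) :
    {y | ∃ x ∈ closure L, (∀ n, x ∈ D n) ∧ π x = y} ∈ residual Y := by
  have h0 : DFam π L {(univ, univ)} := by
    refine ⟨?_, pairwise_singleton _ _, by simp⟩
    rintro p rfl
    refine ⟨isOpen_univ, isOpen_univ, ?_⟩
    simp only [univ_inter]
    rw [hd.closure_eq]
  have hstep : ∀ n : ℕ, ∀ S : {S // DFam π L S}, ∃ S' : {S // DFam π L S},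
      ∀ q ∈ S'.1, DGood (D n) (1 / ((n : ℝ) + 1)) q ∧ ∃ p ∈ S.1, DChild q p := by
    intro n S
    obtain ⟨S', h1, h2⟩ := d_step hπ hloc (hDo n) (hDd n) (r := 1 / ((n : ℝ) + 1))
      (by positivity) S.2
    exact ⟨⟨S', h1⟩, h2⟩
  choose f hf using hstep
  let S : ℕ → {S // DFam π L S} := fun n => Nat.rec ⟨_, h0⟩ (fun n S => f n S) n
  have hS : ∀ n, ∀ q ∈ (S (n + 1)).1, DGood (D n) (1 / ((n : ℝ) + 1)) q ∧
      ∃ p ∈ (S n).1, DChild q p := fun n => hf n (S n)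
  have hres : (⋂ n, ⋃ p ∈ (S n).1, p.1) ∈ residual Y := by
    rw [countable_iInter_mem]
    intro n
    exact residual_of_dense_open (isOpen_biUnion fun p hp => ((S n).2.1 p hp).1) (S n).2.2.2
  refine mem_of_superset hres fun y hy => ?_
  simp only [mem_iInter, mem_iUnion] at hy
  choose p hp hyp using hy
  have hch : ∀ n, DChild (p (n + 1)) (p n) := by
    intro n
    obtain ⟨q, hq, hc⟩ := (hS n _ (hp (n + 1))).2
    by_cases h : q = p n
    · rwa [h] at hc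
    · exact absurd ((S n).2.2.1 hq (hp n) h)
        (not_disjoint_iff.2 ⟨y, hc.1 (hyp (n + 1)), hyp n⟩)
  have hanti : Antitone fun n => (p n).2 := antitone_nat_of_succ_le fun n => (hch n).2
  have hcl : ∀ n, y ∈ closure (π '' ((p n).2 ∩ L)) := fun n => ((S n).2.1 _ (hp n)).2.2 (hyp n)
  have hne : ∀ n, ((p n).2 ∩ L).Nonempty := fun n =>
    (closure_nonempty_iff.1 ⟨y, hcl n⟩).of_image
  choose a ha using hne
  have hd' : ∀ n, ∀ u ∈ (p (n + 1)).2, ∀ v ∈ (p (n + 1)).2, dist u v ≤ 1 / ((n : ℝ) + 1) :=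
    fun n => (hS n _ (hp (n + 1))).1.2.2
  have hcau : CauchySeq a := by
    rw [Metric.cauchySeq_iff']
    intro ε hε
    obtain ⟨n, hn⟩ := exists_nat_one_div_lt hε
    exact ⟨n + 1, fun m hm => lt_of_le_of_lt (hd' n _ (hanti hm (ha m).1) _ (ha (n + 1)).1) hn⟩
  obtain ⟨x, hx⟩ := cauchySeq_tendsto_of_complete hcau
  have hxc : ∀ n, x ∈ closure (p n).2 := fun n =>
    mem_closure_of_tendsto hx (eventually_atTop.2 ⟨n, fun m hm => hanti hm (ha m).1⟩)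
  refine ⟨x, mem_closure_of_tendsto hx (Eventually.of_forall fun n => (ha n).2),
    fun n => (hS n _ (hp (n + 1))).1.2.1 (hxc (n + 1)), ?_⟩
  by_contra hne
  obtain ⟨W, hW, hWy, hWc⟩ := exists_mem_nhds_isClosed_subset
    (isOpen_compl_singleton.mem_nhds (show π x ∈ ({y}ᶜ : Set Y) from hne))
  obtain ⟨ε, hε, hεW⟩ := Metric.mem_nhds_iff.1 (hπ.continuousAt.preimage_mem_nhds hW)
  obtain ⟨n, hn⟩ := exists_nat_one_div_lt (show 0 < ε / 2 by positivity)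
  have hsub : (p (n + 1)).2 ⊆ ball x ε := by
    intro u hu
    obtain ⟨v, hv, hxv⟩ := Metric.mem_closure_iff.1 (hxc (n + 1)) (ε / 2) (by positivity)
    have h1 := hd' n u hu v hv
    have h2 := dist_triangle u v x
    rw [dist_comm] at hxv
    show dist u x < ε
    linarith
  have : y ∈ W := by
    refine (hWy.closure_subset_iff.2 ?_) (hcl (n + 1))
    rintro _ ⟨u, hu, rfl⟩
    exact hεW (hsub hu.1)
  exact hWc this rfl

end

/-- A version of Dougherty's lemma. -/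
theorem dougherty {E Y : Type*} [TopologicalSpace E]
    [TopologicalSpace.IsCompletelyPseudoMetrizableSpace E] [TopologicalSpace Y] [T3Space Y]
    {π : E → Y} (hπ : Continuous π) {L : Set E} (hd : Dense (π '' L))
    (hloc : ∀ x ∈ L, ∀ U ∈ 𝓝 x, closure (π '' (U ∩ L)) ∈ 𝓝 (π x))
    {D : ℕ → Set E} (hDo : ∀ n, IsOpen (D n)) (hDd : ∀ n, L ⊆ closure (D n ∩ L)) :
    {y | ∃ x ∈ closure L, (∀ n, x ∈ D n) ∧ π x = y} ∈ residual Y := by
  let := TopologicalSpace.upgradeIsCompletelyPseudoMetrizable E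
  exact dougherty_metric hπ hd hloc hDo hDd

end Pool.Agent.H964Z.Gen
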