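import Pool.Agent.H964Z.Rot
import Pool.Agent.H964Z.Dough

set_option autoImplicit false
set_option linter.unusedSectionVars false
open MeasureTheory Set Filter Topology
open scoped ENNReal symmDiff

namespace Pool.Agent.H964Z.Gen

variable {X : Type*} [MetricSpace X] [SecondCountableTopology X] [MeasurableSpace X] [BorelSpace X]
  {μ : Measure X} [IsLocallyFiniteMeasure μ]

theorem exists_small {δ : ℝ≥0∞} (hδ : 0 < δ) (n : ℕ) : ∃ d : ℝ≥0∞, 0 < d ∧ n * d < δ := by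
  obtain ⟨d, hd, h⟩ := ENNReal.exists_nnreal_pos_mul_lt (a := n) (b := δ) (by simp) hδ.ne'
  exact ⟨d, by exact_mod_cast hd, by rwa [mul_comm]⟩

theorem FinFam.bound {𝒜 : Set (Set X)} (h : FinFam μ 𝒜) {d : ℝ≥0∞} (hd : 0 < d) (L : ℝ) :
    ∃ ℓ : ℝ, 0 < ℓ ∧ Irrational ℓ ∧ ∀ t, |t| ≤ L → ∀ A ∈ 𝒜, ∀ B ∈ 𝒜,
      ENNReal.ofReal (4 * (|t| / ℓ)) * (μ A + μ B) ≤ d := by
  obtain ⟨C, hC, hCA⟩ : ∃ C : ℝ≥0∞, C ≠ ∞ ∧ ∀ A ∈ 𝒜, μ A ≤ C := by
    refine ⟨∑ A ∈ h.1.toFinset, μ A, ENNReal.sum_ne_top.2 fun A hA =>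
      (h.2 A (h.1.mem_toFinset.1 hA)).2, fun A hA => ?_⟩
    exact Finset.single_le_sum (f := fun A => μ A) (fun _ _ => zero_le) (h.1.mem_toFinset.2 hA)
  obtain ⟨η, hη, hη2⟩ := ENNReal.exists_nnreal_pos_mul_lt (a := C + C) (b := d)
    (ENNReal.add_ne_top.2 ⟨hC, hC⟩) hd.ne'
  have hη' : (0 : ℝ) < η := hη
  obtain ⟨ℓ, hirr, h1, -⟩ := exists_irrational_btwn
    (show 4 * |L| / η < 4 * |L| / η + 1 by linarith)
  have hℓ : 0 < ℓ := lt_of_le_of_lt (by positivity) h1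
  refine ⟨ℓ, hℓ, hirr, fun t ht A hA B hB => le_trans ?_ hη2.le⟩
  refine mul_le_mul' ?_ (add_le_add (hCA A hA) (hCA B hB))
  rw [← ENNReal.ofReal_coe_nnreal]
  refine ENNReal.ofReal_le_ofReal ?_
  rw [div_lt_iff₀ hη'] at h1
  rw [← mul_div_assoc, div_le_iff₀ hℓ]
  have := le_abs_self L
  nlinarith

theorem exists_phi {S : C(ℝ, Gb μ)} {V : Set (Gb μ)} (hV : IsOpen V)
    (hmono : ∀ u : ℝ, ∃ k : ℤ, S (k - u) ∈ V) :
    ∃ φ : ℝ → ℤ, Measurable φ ∧ (∀ v, φ (v + 1) = φ v + 1) ∧ (∀ v, S (φ v - v) ∈ V) ∧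
      ∃ N : ℝ, ∀ v, |φ v - v| ≤ N := by
  classical
  let O : ℤ → Set ℝ := fun k => {u | S (k - u) ∈ V}
  have hO : ∀ k, IsOpen (O k) := fun k => hV.preimage (by fun_prop)
  obtain ⟨F, hF⟩ := (isCompact_Icc (a := (0 : ℝ)) (b := 1)).elim_finite_subcover O hO
    fun u _ => mem_iUnion.2 (hmono u)
  obtain ⟨N, hN⟩ : ∃ N : ℕ, ∀ k ∈ F, |k| ≤ N :=
    ⟨F.sup Int.natAbs, fun k hk => by
      have := Finset.le_sup (f := Int.natAbs) hk
      rw [Int.abs_eq_natAbs]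
      exact_mod_cast this⟩
  let p : ℝ → ℕ → Prop := fun v n => n ≤ 2 * N ∧ Int.fract v ∈ O (n - N)
  have hp : ∀ v, ∃ n, p v n := by
    intro v
    have := hF ⟨Int.fract_nonneg v, (Int.fract_lt_one v).le⟩
    simp only [mem_iUnion] at this
    obtain ⟨k, hk, hv⟩ := this
    have h1 := abs_le.1 (hN k hk)
    refine ⟨(k + N).toNat, by omega, ?_⟩
    rw [show (((k + N).toNat : ℕ) : ℤ) - N = k by omega]
    exact hv
  have hm : Measurable fun v => Nat.find (hp v) := measurable_find hp fun n =>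
    (MeasurableSet.const _).inter (measurable_fract (hO _).measurableSet)
  have key : ∀ v : ℝ, ((⌊v⌋ + ((Nat.find (hp v) : ℤ) - N) : ℤ) : ℝ) - v
      = (((Nat.find (hp v) : ℤ) - N : ℤ) : ℝ) - Int.fract v := by
    intro v
    have := Int.self_sub_floor v
    push_cast
    linarith
  refine ⟨fun v => ⌊v⌋ + ((Nat.find (hp v) : ℤ) - N), ?_, fun v => ?_, fun v => ?_, N + 1,
    fun v => ?_⟩
  · exact Int.measurable_floor.add
      ((measurable_of_countable fun n : ℕ => (n : ℤ) - N).comp hm)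
  · have : Nat.find (hp (v + 1)) = Nat.find (hp v) := by
      congr 1
      funext n
      simp only [p, Int.fract_add_one]
    simp only [this, Int.floor_add_one]
    ring
  · rw [key]
    exact (Nat.find_spec (hp v)).2
  · rw [key]
    have h1 := (Nat.find_spec (hp v)).1
    have h2 : (Nat.find (hp v) : ℝ) ≤ 2 * N := by exact_mod_cast h1
    have h3 : (0 : ℝ) ≤ Nat.find (hp v) := Nat.cast_nonneg _
    have h4 := Int.fract_nonneg v
    have h5 := Int.fract_lt_one v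
    push_cast
    rw [abs_le]
    constructor <;> linarith

theorem sq_nhds_fam {𝒜 : Set (Set X)} (h : FinFam μ 𝒜) (g : Gb μ) {δ : ℝ≥0∞} (hδ : 0 < δ) :
    ∀ᶠ k in 𝓝 g, ∀ A ∈ 𝒜, sq A k g < δ :=
  (eventually_all_finite h.1).2 fun A hA => sq_lt_mem_nhds (h.2 A hA).1 (h.2 A hA).2 g hδ

theorem FinFam.pre {𝒜 : Set (Set X)} (h : FinFam μ 𝒜) {F : Set (Gb μ)} (hF : F.Finite) :
    FinFam μ (image2 (fun g A => rep g ⁻¹' A) F 𝒜) := by
  refine ⟨hF.image2 _ h.1, ?_⟩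
  rintro _ ⟨g, -, A, hA, rfl⟩
  exact ⟨(rep g).meas (h.2 A hA).1, by rw [(rep g).measure_pre (h.2 A hA).1]; exact (h.2 A hA).2⟩

theorem ds_pre (g h : Gb μ) (A : Set X) : ds g A (rep h ⁻¹' A) = sq A g h := rfl

theorem dense_mod [CompleteSpace X] [NullSingletonClass μ] [Nonempty X] (T : Gb μ)
    {V : Set (Gb μ)} (hV : V ∈ 𝓝 T) :
    ∃ ℓ : ℝ, 0 < ℓ ∧ Irrational ℓ ∧ ∃ Φ : C(ℝ, Gb μ), IsFlow Φ ∧ Mod ℓ Φ ∧ Φ 1 ∈ V := by
  obtain ⟨𝒜, h𝒜, δ, hδ, hsub⟩ := exists_nbhd T hV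
  obtain ⟨d, hd, hd2⟩ := exists_small hδ 1
  have h𝒜' := h𝒜.union (h𝒜.pre (finite_singleton T))
  obtain ⟨ℓ, hℓ, hirr, hb⟩ := h𝒜'.bound hd 1
  obtain ⟨Φ, hΦ, hM, h1, -⟩ := build T Int.measurable_floor 0 h𝒜' hℓ
  refine ⟨ℓ, hℓ, hirr, Φ, hΦ, hM, hsub _ fun A hA => ?_⟩
  have hB : rep T ⁻¹' A ∈ 𝒜 ∪ image2 (fun g A => rep g ⁻¹' A) {T} 𝒜 :=
    Or.inr (mem_image2_of_mem rfl hA)
  have h2 := h1 1 A (Or.inl hA) _ hB 0 fun v => by
    rw [Int.floor_add_one, add_sub_cancel_left, zpow_one, ds_pre, sq_self]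
  rw [ds_pre, zero_add] at h2
  refine (h2.trans (hb 1 (by simp) A (Or.inl hA) _ hB)).trans_lt ?_
  simpa using hd2

theorem core [CompleteSpace X] [NullSingletonClass μ] [Nonempty X] {S : C(ℝ, Gb μ)}
    (hS : IsFlow S) (hmono : ∀ u : ℝ, ∀ V ∈ 𝓝 (1 : Gb μ), ∃ k : ℤ, S (k - u) ∈ V) {J : Gb μ}
    (hJ : J⁻¹ = J) (hJ0 : ∀ V ∈ 𝓝 J, ∃ k : ℤ, S k ∈ V) {U : Set C(ℝ, Gb μ)} (hU : U ∈ 𝓝 S)
    {U' : Set (Gb μ)} (hU' : U' ∈ 𝓝 J) :
    ∀ᶠ T in 𝓝 (S 1), ∀ V ∈ 𝓝 T, ∃ ℓ : ℝ, 0 < ℓ ∧ Irrational ℓ ∧ ∃ Φ : C(ℝ, Gb μ),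
      IsFlow Φ ∧ Mod ℓ Φ ∧ Φ ∈ U ∧ Φ (ℓ / 2) ∈ U' ∧ Φ 1 ∈ V := by
  obtain ⟨L, hL, 𝒜, h𝒜, δ, hδ, hsub⟩ := exists_nbhd_flow S hU
  obtain ⟨d, hd, hd2⟩ := exists_small hδ 6
  obtain ⟨𝒥, h𝒥, δJ, hδJ, hsubJ⟩ := exists_nbhd J hU'
  obtain ⟨dJ, hdJ, hdJ2⟩ := exists_small hδJ 1
  have hV1 := interior_mem_nhds.2 (sq_nhds_fam h𝒜 1 hd)
  obtain ⟨φ, hφm, hφ1, hφV, N, hN⟩ := exists_phi (S := S) isOpen_interior
    fun u => hmono u _ hV1
  have hφA : ∀ v, ∀ A ∈ 𝒜, sq A (S (φ v - v)) 1 ≤ d := fun v A hA =>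
    (interior_subset (hφV v) A hA).le
  -- a finite net of times
  obtain ⟨F, -, hF⟩ := (isCompact_Icc (a := -L) (b := L)).elim_nhds_subcover
    (fun t' => {t | ∀ A ∈ 𝒜, sq A (S t) (S t') < d})
    fun t' _ => S.continuous.tendsto t' (sq_nhds_fam h𝒜 (S t') hd)
  -- the exponent for the involution
  have hW := interior_mem_nhds.2 (sq_nhds_fam h𝒥 J hdJ)
  have hW' : (fun g : Gb μ => g⁻¹) ⁻¹' interior {k | ∀ A ∈ 𝒥, sq A k J < dJ} ∈ 𝓝 J :=
    continuous_inv.continuousAt.preimage_mem_nhds (by rw [hJ]; exact hW)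
  obtain ⟨k, hk1, hk2⟩ := hJ0 _ (inter_mem hW hW')
  have hSk : ∀ n : ℤ, S n = S 1 ^ n := fun n => by rw [← hS.zsmul, mul_one]
  have ev1 : ∀ᶠ T in 𝓝 (S 1), T ^ k ∈ interior {k | ∀ A ∈ 𝒥, sq A k J < dJ} :=
    (continuous_zpow k).continuousAt.preimage_mem_nhds
      (isOpen_interior.mem_nhds (by rw [← hSk]; exact hk1))
  have ev2 : ∀ᶠ T in 𝓝 (S 1), T ^ (-k) ∈ interior {k | ∀ A ∈ 𝒥, sq A k J < dJ} :=
    (continuous_zpow (-k)).continuousAt.preimage_mem_nhds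
      (isOpen_interior.mem_nhds (by rw [zpow_neg, ← hSk]; exact hk2))
  have ev3 : ∀ᶠ T in 𝓝 (S 1), ∀ n ∈ Icc (-⌈L + 2 * N⌉) ⌈L + 2 * N⌉,
      ∀ A ∈ 𝒜, sq A (T ^ n) (S 1 ^ n) < d :=
    (eventually_all_finite (finite_Icc _ _)).2 fun n _ =>
      (continuous_zpow n).tendsto (S 1) (sq_nhds_fam h𝒜 _ hd)
  filter_upwards [ev1, ev2, ev3] with T h1 h2 h3 V hV
  obtain ⟨𝒱, h𝒱, δV, hδV, hsubV⟩ := exists_nbhd T hV
  obtain ⟨dV, hdV, hdV2⟩ := exists_small hδV 1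
  have hA1 := h𝒜.union (h𝒜.pre (F.finite_toSet.image S))
  have hA2 := h𝒥.union (h𝒥.pre (finite_singleton J))
  have hA3 := h𝒱.union (h𝒱.pre (finite_singleton T))
  have hA := (hA1.union hA2).union hA3
  obtain ⟨ℓ, hℓ, hirr, hb⟩ := hA.bound (lt_min hd hdV) (max L 1)
  obtain ⟨Φ, hΦ, hM, b1, b2⟩ := build T hφm k hA hℓ
  refine ⟨ℓ, hℓ, hirr, Φ, hΦ, hM, hsub _ fun t ht A hA => ?_, hsubJ _ fun A hA => ?_,
    hsubV _ fun A hA => ?_⟩
  · have ht' := hF (abs_le.1 ht)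
    simp only [mem_iUnion] at ht'
    obtain ⟨t', ht'F, htt'⟩ := ht'
    have hAm := (h𝒜.2 A hA).1
    have hB : rep (S t') ⁻¹' A ∈ image2 (fun g A => rep g ⁻¹' A) (S '' F) 𝒜 :=
      mem_image2_of_mem (mem_image_of_mem _ ht'F) hA
    have c1 := b1 t A (Or.inl (Or.inl (Or.inl hA))) _ (Or.inl (Or.inl (Or.inr hB)))
      (d + (d + d) + d) fun v => by
        rw [ds_pre]
        set n := φ (v + t) - φ v with hn
        have hnb : n ∈ Icc (-⌈L + 2 * N⌉) ⌈L + 2 * N⌉ := by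
          have a1 := abs_le.1 (hN v)
          have a2 := abs_le.1 (hN (v + t))
          have a3 := abs_le.1 ht
          have a4 := Int.le_ceil (L + 2 * N)
          have a5 : (n : ℝ) = φ (v + t) - φ v := by rw [hn]; push_cast; ring
          constructor
          · have : ((-⌈L + 2 * N⌉ : ℤ) : ℝ) ≤ n := by push_cast; linarith
            exact_mod_cast this
          · have : (n : ℝ) ≤ (⌈L + 2 * N⌉ : ℤ) := by linarith
            exact_mod_cast this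
        have e1 : sq A (S 1 ^ n) (S t) = sq A (S (φ (v + t) - (v + t))) (S (φ v - v)) := by
          rw [← hSk, ← sq_mul_right hAm (S (φ (v + t) - (v + t))) _ (S (t - (φ v - v))), ← hS,
            ← hS]
          congr 2
          · rw [hn]; push_cast; ring
          · ring
        have e2 : sq A (S 1 ^ n) (S t) ≤ d + d := by
          rw [e1]
          refine (sq_triangle A _ 1 _).trans (add_le_add (hφA _ A hA) ?_)
          rw [sq_comm]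
          exact hφA _ A hA
        calc sq A (T ^ n) (S t') ≤ sq A (T ^ n) (S t) + sq A (S t) (S t') := sq_triangle _ _ _ _
          _ ≤ (sq A (T ^ n) (S 1 ^ n) + sq A (S 1 ^ n) (S t)) + sq A (S t) (S t') := by
              gcongr; exact sq_triangle _ _ _ _
          _ ≤ d + (d + d) + d := by
              gcongr
              · exact (h3 n hnb A hA).le
              · exact (htt' A hA).le
    have c2 := (hb t (ht.trans (le_max_left _ _)) A (Or.inl (Or.inl (Or.inl hA))) _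
      (Or.inl (Or.inl (Or.inr hB)))).trans (min_le_left _ _)
    rw [ds_pre] at c1
    calc sq A (Φ t) (S t) ≤ sq A (Φ t) (S t') + sq A (S t') (S t) := sq_triangle _ _ _ _
      _ ≤ (d + (d + d) + d + d) + d := by
          gcongr
          · exact c1.trans (by gcongr)
          · rw [sq_comm]; exact (htt' A hA).le
      _ = (6 : ℕ) * d := by push_cast; ring
      _ < δ := hd2
  · have hB : rep J ⁻¹' A ∈ image2 (fun g A => rep g ⁻¹' A) {J} 𝒥 := mem_image2_of_mem rfl hA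
    have c1 := b2 A (Or.inl (Or.inr (Or.inl hA))) _ (Or.inl (Or.inr (Or.inr hB))) dJ
      (interior_subset h1 A hA).le (interior_subset h2 A hA).le
    rw [ds_pre] at c1
    exact c1.trans_lt (by simpa using hdJ2)
  · have hB : rep T ⁻¹' A ∈ image2 (fun g A => rep g ⁻¹' A) {T} 𝒱 := mem_image2_of_mem rfl hA
    have c1 := b1 1 A (Or.inr (Or.inl hA)) _ (Or.inr (Or.inr hB)) 0 fun v => by
      rw [hφ1, add_sub_cancel_left, zpow_one, ds_pre, sq_self]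
    have c2 := (hb 1 (by simp) A (Or.inr (Or.inl hA)) _ (Or.inr (Or.inr hB))).trans
      (min_le_right _ _)
    rw [ds_pre, zero_add] at c1
    exact (c1.trans c2).trans_lt (by simpa using hdV2)

theorem mono_of_period {S : C(ℝ, Gb μ)} (hS : IsFlow S) {ℓ : ℝ} (hirr : Irrational ℓ)
    (hper : S ℓ = 1) (u : ℝ) {V : Set (Gb μ)} (w : ℝ) (hV : V ∈ 𝓝 (S w)) :
    ∃ k : ℤ, S (k - u) ∈ V := by
  have hd : Dense ((AddSubgroup.closure {ℓ, 1} : AddSubgroup ℝ) : Set ℝ) :=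
    dense_addSubgroupClosure_pair_iff.2 (by simpa using hirr)
  have h1 : (fun x => S (x - u)) ⁻¹' V ∈ 𝓝 (u + w) :=
    (show Continuous fun x => S (x - u) by fun_prop).continuousAt.preimage_mem_nhds
      (by simpa using hV)
  obtain ⟨x, hx1, hx2⟩ := hd.inter_nhds_nonempty h1
  obtain ⟨m, n, rfl⟩ := AddSubgroup.mem_closure_pair.1 hx1
  refine ⟨n, ?_⟩
  have : S (m • ℓ + n • (1 : ℝ) - u) = S (n - u) := by
    rw [show m • ℓ + n • (1 : ℝ) - u = m * ℓ + (n - u) by simp; ring, hS, hS.zsmul, hper, one_zpow,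
      one_mul]
  rw [← this]
  exact hx2

theorem Mod.period {ℓ : ℝ} (hℓ : 0 < ℓ) {Φ : C(ℝ, Gb μ)} (h : Mod ℓ Φ) : Φ ℓ = 1 := by
  obtain ⟨e, he⟩ := h
  rw [gb_eq_iff]
  filter_upwards [he ℓ, e.gf, rep_one (μ := μ)] with x a b c
  rw [a, c, Au.one_apply]
  simp only [rot, div_self hℓ.ne', AddCircle.coe_period, add_zero]
  exact b

theorem Mod.half_ne [NeZero μ] {ℓ : ℝ} (hℓ : 0 < ℓ) {Φ : C(ℝ, Gb μ)} (h : Mod ℓ Φ) :
    Φ (ℓ / 2) ≠ 1 := by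
  obtain ⟨e, he⟩ := h
  intro h1
  rw [gb_eq_iff] at h1
  have h2 : ∀ᵐ x ∂μ, False := by
    filter_upwards [he (ℓ / 2), h1, rep_one (μ := μ),
      ((rot_mp ℓ (ℓ / 2)).comp e.mf).quasiMeasurePreserving.ae e.fg] with x a b c d
    rw [a, c, Au.one_apply] at b
    simp only [Function.comp] at d
    rw [b] at d
    have h3 := congrArg Prod.snd d
    simp only [rot, show ℓ / 2 / ℓ = 1 / 2 by field_simp, left_eq_add] at h3
    have h4 := lift_coe (x := 1 / 2) (by norm_num) (by norm_num)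
    have h5 := lift_coe (x := 0) (by norm_num) (by norm_num)
    rw [h3] at h4
    simp only [AddCircle.coe_zero] at h5
    rw [h5] at h4
    norm_num at h4
  rw [eventually_false_iff_eq_bot, ae_eq_bot] at h2
  exact NeZero.ne μ h2

end Pool.Agent.H964Z.Gen
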