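import Mathlib

set_option autoImplicit false

namespace Pool.Agent.H964Z.Crit

/-- Terms of the language `(+, -, 0, ·)` of rings without identity, in variables `x_0, x_1, …`. -/
inductive Term : Type
  | var : ℕ → Term
  | zero : Term
  | add : Term → Term → Term
  | neg : Term → Term
  | mul : Term → Term → Term

/-- The value of a term in a ring `R` (associative, no identity required) under an assignment `v`
of elements of `R` to the variables. -/
def Term.eval {R : Type*} [NonUnitalRing R] (v : ℕ → R) : Term → R
  | .var n => v n
  | .zero => 0
  | .add s t => s.eval v + t.eval v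
  | .neg s => -s.eval v
  | .mul s t => s.eval v * t.eval v

/-- The identity `s = t` holds in the ring `R`. -/
def Satisfies (R : Type*) [NonUnitalRing R] (s t : Term) : Prop :=
  ∀ v : ℕ → R, s.eval v = t.eval v

/-- `R` is critical: some identity holds in every proper quotient `R / I` (`I` a nonzero two-sided
ideal) but fails in `R`. -/
def IsCritical (R : Type*) [NonUnitalRing R] : Prop :=
  ∃ s t : Term, (∀ I : TwoSidedIdeal R, I ≠ ⊥ → Satisfies I.ringCon.Quotient s t) ∧
    ¬ Satisfies R s t

end Pool.Agent.H964Z.Crit
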