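import Mathlib
import Pool.Agent.H964Z.CritDefs

set_option autoImplicit false

namespace Pool.Agent.H964Z.Crit

section
variable {R : Type*} [NonUnitalRing R]

theorem eval_quot (I : TwoSidedIdeal R) (v : ℕ → R) (s : Term) :
    s.eval (fun n => ((v n : R) : I.ringCon.Quotient)) = ((s.eval v : R) : I.ringCon.Quotient) := by
  induction s with
  | var n => rfl
  | zero => rfl
  | add s t hs ht => simp only [Term.eval, hs, ht]; rfl
  | neg s hs => simp only [Term.eval, hs]; rfl
  | mul s t hs ht => simp only [Term.eval, hs, ht]; rfl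

theorem sat_quot_iff (I : TwoSidedIdeal R) (s t : Term) :
    Satisfies I.ringCon.Quotient s t ↔ ∀ v : ℕ → R, s.eval v - t.eval v ∈ I := by
  constructor
  · intro h v
    have := h (fun n => ((v n : R) : I.ringCon.Quotient))
    rw [eval_quot, eval_quot, RingCon.eq] at this
    exact (I.rel_iff _ _).1 this
  · intro h w
    have hs : ∀ n, ∃ r : R, (r : I.ringCon.Quotient) = w n := fun n => Quot.exists_rep (w n)
    choose v hv using hs
    have : w = fun n => ((v n : R) : I.ringCon.Quotient) := funext fun n => (hv n).symm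
    rw [this, eval_quot, eval_quot, RingCon.eq]
    exact (I.rel_iff _ _).2 (h v)

theorem monolith_of_critical (h : IsCritical R) :
    ∃ M : TwoSidedIdeal R, M ≠ ⊥ ∧ ∀ I : TwoSidedIdeal R, I ≠ ⊥ → M ≤ I := by
  obtain ⟨s, t, h1, h2⟩ := h
  simp only [Satisfies, not_forall] at h2
  obtain ⟨v, hv⟩ := h2
  refine ⟨TwoSidedIdeal.span {s.eval v - t.eval v}, ?_, ?_⟩
  · intro h0
    have : s.eval v - t.eval v ∈ TwoSidedIdeal.span {s.eval v - t.eval v} :=
      TwoSidedIdeal.subset_span rfl
    rw [h0, TwoSidedIdeal.mem_bot, sub_eq_zero] at this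
    exact hv this
  · intro I hI
    rw [TwoSidedIdeal.span_le]
    rintro _ rfl
    exact (sat_quot_iff I s t).1 (h1 I hI) v

/-- `pw n y = y ^ (n + 1)`. -/
def pw (y : R) : ℕ → R
  | 0 => y
  | n + 1 => pw y n * y

def tpw (s : Term) : ℕ → Term
  | 0 => s
  | n + 1 => .mul (tpw s n) s

theorem eval_tpw (v : ℕ → R) (s : Term) (n : ℕ) : (tpw s n).eval v = pw (s.eval v) n := by
  induction n with
  | zero => rfl
  | succ n ih => simp only [tpw, pw, Term.eval, ih]

def tsm (s : Term) : ℕ → Term
  | 0 => .zero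
  | n + 1 => .add (tsm s n) s

theorem eval_tsm (v : ℕ → R) (s : Term) (n : ℕ) : (tsm s n).eval v = n • s.eval v := by
  induction n with
  | zero => simp [tsm, Term.eval]
  | succ n ih => simp only [tsm, Term.eval, ih, succ_nsmul]

/-- `c x_0 ∏_{i = 1}^{b} (x_i - x_i ^ (N + 1))`. -/
def ff (c N : ℕ) : ℕ → Term
  | 0 => tsm (.var 0) c
  | b + 1 => .mul (ff c N b) (.add (.var (b + 1)) (.neg (tpw (.var (b + 1)) N)))

theorem eval_ff_succ (c N b : ℕ) (v : ℕ → R) :
    (ff c N (b + 1)).eval v = (ff c N b).eval v * (v (b + 1) - pw (v (b + 1)) N) := by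
  simp only [ff, Term.eval, eval_tpw, sub_eq_add_neg]

theorem eval_ff_congr (c N b : ℕ) (v w : ℕ → R) (h : ∀ i ≤ b, v i = w i) :
    (ff c N b).eval v = (ff c N b).eval w := by
  induction b with
  | zero => simp only [ff, eval_tsm, Term.eval, h 0 le_rfl]
  | succ b ih =>
    rw [eval_ff_succ, eval_ff_succ, ih (fun i hi => h i (by omega)), h (b + 1) le_rfl]

theorem nsmul_ff (c d N b : ℕ) (v : ℕ → R) (h : ∀ x : R, (d * c) • x = 0) :
    d • (ff c N b).eval v = 0 := by
  induction b with
  | zero => simp only [ff, eval_tsm, Term.eval, ← mul_nsmul', h]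
  | succ b ih => rw [eval_ff_succ, ← smul_mul_assoc, ih, zero_mul]

end

section
variable {R : Type*} [NonUnitalCommRing R]

theorem inr_pw (y : R) (n : ℕ) :
    ((pw y n : R) : Unitization ℤ R) = (y : Unitization ℤ R) ^ (n + 1) := by
  induction n with
  | zero => simp [pw]
  | succ n ih => simp only [pw, Unitization.inr_mul, ih, pow_succ]

theorem exists_idem_one [Finite R] (y : R) :
    ∃ N : ℕ, 0 < N ∧ (y : Unitization ℤ R) ^ N * (y : Unitization ℤ R) ^ N
      = (y : Unitization ℤ R) ^ N := by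
  obtain ⟨i, j, hij, h⟩ := Finite.exists_ne_map_eq_of_infinite (fun n : ℕ => pw y n)
  wlog hlt : i < j generalizing i j
  · exact this j i hij.symm h.symm (by omega)
  set Y : Unitization ℤ R := (y : Unitization ℤ R) with hY
  have h1 : Y ^ (i + 1) = Y ^ (j + 1) := by
    rw [← inr_pw, ← inr_pw]; exact congrArg _ h
  obtain ⟨d, rfl⟩ : ∃ d, j = i + (d + 1) := ⟨j - i - 1, by omega⟩
  have h2 : ∀ k : ℕ, Y ^ (i + 1 + k * (d + 1)) = Y ^ (i + 1) := by
    intro k
    induction k with
    | zero => simp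
    | succ k ih =>
      rw [show i + 1 + (k + 1) * (d + 1) = (i + 1 + k * (d + 1)) + (d + 1) by ring, pow_add, ih,
        ← pow_add, show i + 1 + (d + 1) = i + (d + 1) + 1 by ring, ← h1]
  refine ⟨(i + 1) * (d + 1), by positivity, ?_⟩
  rw [← pow_add, show (i + 1) * (d + 1) + (i + 1) * (d + 1)
      = (i + 1 + (i + 1) * (d + 1)) + (i + 1) * d by ring, pow_add, h2, ← pow_add]
  congr 1
  ring

theorem exists_idem [Finite R] :
    ∃ N : ℕ, ∀ y : R, (y : Unitization ℤ R) ^ (N + 1) * (y : Unitization ℤ R) ^ (N + 1)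
      = (y : Unitization ℤ R) ^ (N + 1) := by
  classical
  have := Fintype.ofFinite R
  choose n hn0 hn using fun y : R => exists_idem_one y
  have hpos : 0 < ∏ y : R, n y := Finset.prod_pos fun y _ => hn0 y
  refine ⟨∏ y : R, n y - 1, fun y => ?_⟩
  rw [Nat.sub_add_cancel hpos]
  obtain ⟨k, hk⟩ : n y ∣ ∏ y : R, n y := Finset.dvd_prod_of_mem _ (Finset.mem_univ y)
  have hk0 : k ≠ 0 := by
    rintro rfl
    omega
  have hid : IsIdempotentElem ((y : Unitization ℤ R) ^ n y) := hn y
  rw [hk, pow_mul, hid.pow_eq hk0]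
  exact hn y

theorem ff_eventually_zero [Finite R] (c N : ℕ)
    (hN : ∀ y : R, (y : Unitization ℤ R) ^ (N + 1) * (y : Unitization ℤ R) ^ (N + 1)
      = (y : Unitization ℤ R) ^ (N + 1)) :
    ∃ b : ℕ, ∀ v : ℕ → R, (ff c (N + 1) b).eval v = 0 := by
  classical
  letI : CommRing (Unitization ℤ R) := inferInstance
  let S : Set (Unitization ℤ R) := Set.range fun y : R => ((y - pw y (N + 1) : R) : Unitization ℤ R)
  have hS : S.Finite := Set.finite_range _
  have hfg : (Ideal.span S).FG := ⟨hS.toFinset, by simp⟩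
  have hle : Ideal.span S ≤ Ideal.radical (R := Unitization ℤ R) ⊥ := by
    rw [Ideal.span_le]
    rintro _ ⟨y, rfl⟩
    refine ⟨N + 1, ?_⟩
    rw [Ideal.mem_bot]
    simp only [Unitization.inr_sub, inr_pw]
    set Y : Unitization ℤ R := (y : Unitization ℤ R) with hY
    have hid : IsIdempotentElem (1 - Y ^ (N + 1)) := IsIdempotentElem.one_sub (hN y)
    rw [show Y - Y ^ (N + 1 + 1) = Y * (1 - Y ^ (N + 1)) by ring, mul_pow,
      hid.pow_eq (Nat.succ_ne_zero N), mul_sub, mul_one, hN y, sub_self]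
  obtain ⟨b, hb⟩ := Ideal.exists_pow_le_of_le_radical_of_fg hle hfg
  refine ⟨b, fun v => ?_⟩
  have key : ∀ k : ℕ, (((ff c (N + 1) k).eval v : R) : Unitization ℤ R) ∈ Ideal.span S ^ k := by
    intro k
    induction k with
    | zero => simp
    | succ k ih =>
      rw [eval_ff_succ, Unitization.inr_mul, pow_succ]
      exact Ideal.mul_mem_mul ih (Ideal.subset_span ⟨_, rfl⟩)
  have := hb (key b)
  rw [Ideal.mem_bot] at this
  exact Unitization.inr_injective (R := ℤ) (by simpa using this)

/-- The ideal `{x | P x}` for a predicate closed under the operations. -/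
def mkI (P : R → Prop) (h0 : P 0) (hadd : ∀ x y, P x → P y → P (x + y)) (hneg : ∀ x, P x → P (-x))
    (hmul : ∀ x y, P y → P (x * y)) : TwoSidedIdeal R :=
  TwoSidedIdeal.mk' {x | P x} h0 (fun {x y} => hadd x y) (fun {x} => hneg x)
    (fun {x y} => hmul x y) (fun {x y} hx => by
      have := hmul y x hx
      rwa [mul_comm] at this)

theorem mem_mkI (P : R → Prop) (h0 hadd hneg hmul) (x : R) : x ∈ mkI P h0 hadd hneg hmul ↔ P x := by
  unfold mkI
  rw [TwoSidedIdeal.mem_mk']
  rfl

theorem of_mem_mkI {P : R → Prop} {h0 hadd hneg hmul} {x : R} (h : x ∈ mkI P h0 hadd hneg hmul) :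
    P x := (mem_mkI P h0 hadd hneg hmul x).1 h

theorem critical_of_monolith [Finite R] (M : TwoSidedIdeal R) (hM : M ≠ ⊥)
    (hmin : ∀ I : TwoSidedIdeal R, I ≠ ⊥ → M ≤ I) : IsCritical R := by
  classical
  have ne_bot : ∀ (I : TwoSidedIdeal R) (x : R), x ∈ I → x ≠ 0 → I ≠ ⊥ := by
    intro I x hx hx0 h
    rw [h, TwoSidedIdeal.mem_bot] at hx
    exact hx0 hx
  obtain ⟨m, hmM, hm0⟩ : ∃ m ∈ M, m ≠ 0 := by
    by_contra h
    push Not at h
    exact hM (eq_bot_iff.2 fun x hx => (TwoSidedIdeal.mem_bot _).2 (h x hx))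
  -- a prime killing `m`
  obtain ⟨p, hp, hpm⟩ : ∃ p : ℕ, p.Prime ∧ p • m = 0 := by
    have ho : addOrderOf m ≠ 1 := by
      rw [Ne, AddMonoid.addOrderOf_eq_one_iff]; exact hm0
    obtain ⟨p, hp, k, hk⟩ := Nat.exists_prime_and_dvd ho
    have hpos : 0 < addOrderOf m := addOrderOf_pos m
    have hk0 : k • m ≠ 0 := by
      apply nsmul_ne_zero_of_lt_addOrderOf
      · rintro rfl; omega
      · rw [hk]
        have := hp.one_lt
        have hk1 : 0 < k := by
          rcases Nat.eq_zero_or_pos k with rfl | h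
          · omega
          · exact h
        nlinarith
    let I : TwoSidedIdeal R := mkI (fun x => p • x = 0) (by simp)
      (fun x y hx hy => by rw [nsmul_add, hx, hy, add_zero])
      (fun x hx => by rw [smul_neg, hx, neg_zero])
      (fun x y hy => by rw [← mul_smul_comm, hy, mul_zero])
    have hI : I ≠ ⊥ := ne_bot I (k • m) ((mem_mkI _ _ _ _ _ _).2 (by
      rw [← mul_nsmul', ← hk]; exact addOrderOf_nsmul_eq_zero m)) hk0
    exact ⟨p, hp, of_mem_mkI (P := fun x => p • x = 0) (hmin I hI hmM)⟩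
  -- `R` is killed by a power of `p`
  have hpow : ∃ a : ℕ, ∀ x : R, p ^ a • x = 0 := by
    obtain ⟨a, u, hu, hc⟩ := Nat.exists_eq_pow_mul_and_not_dvd (Nat.card_pos (α := R)).ne' p hp.ne_one
    refine ⟨a, fun x => ?_⟩
    by_contra hx
    let I : TwoSidedIdeal R := mkI (fun x => u • x = 0) (by simp)
      (fun x y hx hy => by rw [nsmul_add, hx, hy, add_zero])
      (fun x hx => by rw [smul_neg, hx, neg_zero])
      (fun x y hy => by rw [← mul_smul_comm, hy, mul_zero])
    have hI : I ≠ ⊥ := ne_bot I (p ^ a • x) ((mem_mkI _ _ _ _ _ _).2 (by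
      rw [← mul_nsmul', mul_comm, ← hc]; exact card_nsmul_eq_zero')) hx
    have hum : u • m = 0 := of_mem_mkI (P := fun x => u • x = 0) (hmin I hI hmM)
    have h1 : addOrderOf m ∣ Nat.gcd p u :=
      Nat.dvd_gcd (addOrderOf_dvd_of_nsmul_eq_zero hpm) (addOrderOf_dvd_of_nsmul_eq_zero hum)
    rw [((Nat.Prime.coprime_iff_not_dvd hp).2 hu : Nat.gcd p u = 1), Nat.dvd_one, AddMonoid.addOrderOf_eq_one_iff] at h1
    exact hm0 h1
  obtain ⟨N, hN⟩ := exists_idem (R := R)
  let a := Nat.find hpow
  have ha : ∀ x : R, p ^ a • x = 0 := Nat.find_spec hpow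
  have ha0 : a ≠ 0 := by
    intro h
    have := ha m
    rw [h] at this
    exact hm0 (by simpa using this)
  obtain ⟨a', ha'⟩ : ∃ a', a = a' + 1 := ⟨a - 1, by omega⟩
  have hne : ∃ x : R, p ^ a' • x ≠ 0 := by
    have := Nat.find_min hpow (show a' < a by omega)
    push Not at this
    exact this
  have hev := ff_eventually_zero (R := R) (p ^ a') N hN
  let b := Nat.find hev
  have hb : ∀ v : ℕ → R, (ff (p ^ a') (N + 1) b).eval v = 0 := Nat.find_spec hev
  have hb0 : b ≠ 0 := by
    intro h
    obtain ⟨x, hx⟩ := hne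
    have := hb (fun _ => x)
    rw [h] at this
    simp only [ff, eval_tsm, Term.eval] at this
    exact hx this
  obtain ⟨b', hb'⟩ : ∃ b', b = b' + 1 := ⟨b - 1, by omega⟩
  have hne2 : ∃ v : ℕ → R, (ff (p ^ a') (N + 1) b').eval v ≠ 0 := by
    have := Nat.find_min hev (show b' < b by omega)
    push Not at this
    exact this
  -- the socle-like ideal `W`
  have hW : ∀ w : R, p • w = 0 → (∀ y : R, w * (y - pw y (N + 1)) = 0) → w ∈ M := by
    intro w hw1 hw2
    by_cases hw0 : w = 0
    · rw [hw0]; exact M.zero_mem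
    have hee : ∀ y : R, pw y N * pw y N = pw y N := by
      intro y
      apply Unitization.inr_injective (R := ℤ)
      simp only [Unitization.inr_mul, inr_pw]
      exact hN y
    -- each `y` acts on `w` as zero or invertibly
    have hdich : ∀ y : R, y * w = 0 ∨ pw y N * w = w := by
      intro y
      by_contra hcon
      push Not at hcon
      obtain ⟨h1, h2⟩ := hcon
      have h3 : pw y N * w ≠ 0 := by
        intro h
        apply h1
        have := hw2 y
        rw [mul_sub, sub_eq_zero] at this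
        rw [mul_comm, this]
        show w * (pw y N * y) = 0
        rw [← mul_assoc, mul_comm w, h, zero_mul]
      let I1 : TwoSidedIdeal R := mkI (fun x => pw y N * x = x) (by simp)
        (fun x z hx hz => by rw [mul_add, hx, hz])
        (fun x hx => by rw [mul_neg, hx])
        (fun x z hz => by rw [mul_left_comm, hz])
      let I2 : TwoSidedIdeal R := mkI (fun x => pw y N * x = 0) (by simp)
        (fun x z hx hz => by rw [mul_add, hx, hz, add_zero])
        (fun x hx => by rw [mul_neg, hx, neg_zero])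
        (fun x z hz => by rw [mul_left_comm, hz, mul_zero])
      have hI1 : I1 ≠ ⊥ := ne_bot I1 (pw y N * w) ((mem_mkI _ _ _ _ _ _).2 (by
        rw [← mul_assoc, hee])) h3
      have hI2 : I2 ≠ ⊥ := ne_bot I2 (w - pw y N * w) ((mem_mkI _ _ _ _ _ _).2 (by
        rw [mul_sub, ← mul_assoc, hee, sub_self])) (by
          rw [sub_ne_zero]; exact fun h => h2 h.symm)
      have e1 : pw y N * m = m := of_mem_mkI (P := fun x => pw y N * x = x) (hmin I1 hI1 hmM)
      have e2 : pw y N * m = 0 := of_mem_mkI (P := fun x => pw y N * x = 0) (hmin I2 hI2 hmM)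
      exact hm0 (e1.symm.trans e2)
    have hpwM : ∀ z : R, z * w ∈ M → ∀ k, pw z k * w ∈ M := by
      intro z hz k
      induction k with
      | zero => exact hz
      | succ k _ =>
        show pw z k * z * w ∈ M
        rw [mul_assoc]
        exact M.mul_mem_left _ _ hz
    let I : TwoSidedIdeal R := mkI (fun x => ∃ (n : ℤ) (y : R), x = n • w + y * w)
      ⟨0, 0, by simp⟩
      (fun x z ⟨n, y, hx⟩ ⟨n', y', hz⟩ => ⟨n + n', y + y', by
        rw [hx, hz, add_smul, add_mul]; abel⟩)
      (fun x ⟨n, y, hx⟩ => ⟨-n, -y, by rw [hx, neg_smul, neg_mul]; abel⟩)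
      (fun x z ⟨n, y, hz⟩ => ⟨0, n • x + x * y, by
        rw [hz, zero_smul, zero_add, mul_add, add_mul, mul_smul_comm, smul_mul_assoc, mul_assoc]⟩)
    have hI : I ≠ ⊥ := ne_bot I w ((mem_mkI _ _ _ _ _ _).2 ⟨1, 0, by simp⟩) hw0
    obtain ⟨n, y, hm⟩ := of_mem_mkI (P := fun x => ∃ (n : ℤ) (y : R), x = n • w + y * w)
      (hmin I hI hmM)
    by_cases hall : ∀ y : R, y * w = 0
    · rw [hall y, add_zero] at hm
      have hcop : IsCoprime (p : ℤ) n := by
        rw [Int.isCoprime_iff_gcd_eq_one]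
        have hnd : ¬ (p : ℤ) ∣ n := by
          rintro ⟨k, rfl⟩
          apply hm0
          rw [hm, mul_comm, mul_smul, natCast_zsmul, hw1, smul_zero]
        have : ¬ p ∣ n.natAbs := fun h => hnd (Int.natCast_dvd.2 h)
        exact (Nat.Prime.coprime_iff_not_dvd hp).2 this
      obtain ⟨u, v, huv⟩ := hcop
      have : w = v • m := by
        calc w = (u * (p : ℤ) + v * n) • w := by rw [huv, one_smul]
          _ = v • m := by
            rw [add_smul, mul_smul, natCast_zsmul, hw1, smul_zero, zero_add, mul_smul, hm]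
      rw [this]
      exact M.zsmul_mem v hmM
    · push Not at hall
      obtain ⟨y0, hy0⟩ := hall
      have he : pw y0 N * w = w := (hdich y0).resolve_left hy0
      have hz : (n • pw y0 N + y) * w = m := by
        rw [add_mul, smul_mul_assoc, he, hm]
      have hz0 : (n • pw y0 N + y) * w ≠ 0 := by rw [hz]; exact hm0
      have := (hdich _).resolve_left hz0
      rw [← this]
      exact hpwM _ (by rw [hz]; exact hmM) N
  refine ⟨ff (p ^ a') (N + 1) b', .zero, fun I hI => ?_, ?_⟩
  · rw [sat_quot_iff]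
    intro v
    simp only [Term.eval, sub_zero]
    apply hmin I hI
    apply hW
    · apply nsmul_ff
      intro x
      rw [← pow_succ', ← ha']
      exact ha x
    · intro y
      have h1 := hb (Function.update v (b' + 1) y)
      rw [hb', eval_ff_succ, Function.update_self,
        eval_ff_congr _ _ _ _ v (fun i hi => Function.update_of_ne (by omega) _ _)] at h1
      exact h1
  · intro h
    obtain ⟨v, hv⟩ := hne2
    exact hv (h v)

end

end Pool.Agent.H964Z.Crit
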