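import Pool.Agent.H964Z.IsoExt

set_option autoImplicit false
set_option linter.unusedSectionVars false
open MeasureTheory Set Filter Topology
open scoped ENNReal symmDiff

namespace Pool.Agent.H964Z.Gen

variable {X : Type*} [MetricSpace X] [SecondCountableTopology X] [MeasurableSpace X] [BorelSpace X]
  {μ : Measure X} [IsLocallyFiniteMeasure μ]

/-- The group of automorphisms mod null sets. -/
abbrev Gb (μ : Measure X) [IsLocallyFiniteMeasure μ] := SeparationQuotient (Au μ)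

noncomputable def rep (g : Gb μ) : Au μ := Function.surjInv SeparationQuotient.surjective_mk g

theorem mk_rep (g : Gb μ) : SeparationQuotient.mk (rep g) = g := Function.surjInv_eq _ g

theorem mk_eq_iff {S T : Au μ} :
    (SeparationQuotient.mk S : Gb μ) = SeparationQuotient.mk T ↔ (S : X → X) =ᵐ[μ] T := by
  rw [SeparationQuotient.mk_eq_mk, inseparable_iff_ae]

theorem rep_mk (T : Au μ) : ⇑(rep (SeparationQuotient.mk T : Gb μ)) =ᵐ[μ] T :=
  mk_eq_iff.1 (mk_rep _)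

theorem gb_eq_iff {g h : Gb μ} : g = h ↔ ⇑(rep g) =ᵐ[μ] rep h := by
  rw [← mk_eq_iff, mk_rep, mk_rep]

theorem rep_mul (g h : Gb μ) : ⇑(rep (g * h)) =ᵐ[μ] ⇑(rep g * rep h) := by
  rw [← mk_eq_iff, SeparationQuotient.mk_mul, mk_rep, mk_rep, mk_rep]

theorem rep_one : ⇑(rep (1 : Gb μ)) =ᵐ[μ] (1 : Au μ) := by
  rw [← mk_eq_iff, SeparationQuotient.mk_one, mk_rep]

theorem rep_zpow (g : Gb μ) (n : ℤ) : ⇑(rep (g ^ n)) =ᵐ[μ] ⇑(rep g ^ n) := by
  rw [← mk_eq_iff, SeparationQuotient.mk_zpow, mk_rep, mk_rep]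

theorem rep_inv (g : Gb μ) : ⇑(rep g⁻¹) =ᵐ[μ] ⇑((rep g)⁻¹) := by
  rw [← mk_eq_iff, SeparationQuotient.mk_inv, mk_rep, mk_rep]

omit [MetricSpace X] [SecondCountableTopology X] [BorelSpace X] [IsLocallyFiniteMeasure μ] in
theorem pre_congr {f g : X → X} (h : f =ᵐ[μ] g) (A : Set X) : f ⁻¹' A =ᵐ[μ] g ⁻¹' A := by
  filter_upwards [h] with x hx
  show (f x ∈ A) = (g x ∈ A)
  rw [hx]

omit [MetricSpace X] [SecondCountableTopology X] [BorelSpace X] [IsLocallyFiniteMeasure μ] in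
theorem sd_congr (A : Set X) {S T S' T' : Au μ} (h : (S : X → X) =ᵐ[μ] S')
    (h' : (T : X → X) =ᵐ[μ] T') : sd A S T = sd A S' T' :=
  measure_congr ((pre_congr h A).symmDiff (pre_congr h' A))

noncomputable def sq (A : Set X) (g h : Gb μ) : ℝ≥0∞ := sd A (rep g) (rep h)

theorem sq_mk (A : Set X) (S T : Au μ) :
    sq A (SeparationQuotient.mk S : Gb μ) (SeparationQuotient.mk T) = sd A S T :=
  sd_congr A (rep_mk S) (rep_mk T)

theorem sq_self (A : Set X) (g : Gb μ) : sq A g g = 0 := sd_self _ _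
theorem sq_comm (A : Set X) (g h : Gb μ) : sq A g h = sq A h g := sd_comm _ _ _
theorem sq_triangle (A : Set X) (g h k : Gb μ) : sq A g k ≤ sq A g h + sq A h k :=
  sd_triangle _ _ _ _

theorem sq_mul_right {A : Set X} (hA : MeasurableSet A) (g h k : Gb μ) :
    sq A (g * k) (h * k) = sq A g h := by
  unfold sq
  rw [sd_congr A (rep_mul g k) (rep_mul h k), sd_mul_right hA]

theorem tendsto_gb_iff {ι : Type*} {l : Filter ι} {u : ι → Gb μ} {g : Gb μ} :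
    Tendsto u l (𝓝 g) ↔
      ∀ A : Set X, MeasurableSet A → μ A ≠ ∞ → Tendsto (fun i => sq A (u i) g) l (𝓝 0) := by
  have h := SeparationQuotient.isInducing_mk.tendsto_nhds_iff (f := fun i => rep (u i)) (l := l)
    (y := rep g)
  rw [tendsto_au_iff] at h
  simp only [Function.comp_def, mk_rep] at h
  exact h.symm

theorem sq_lt_mem_nhds {A : Set X} (hA : MeasurableSet A) (hf : μ A ≠ ∞) (g : Gb μ) {δ : ℝ≥0∞}
    (hδ : 0 < δ) : ∀ᶠ h in 𝓝 g, sq A h g < δ :=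
  (tendsto_gb_iff.1 tendsto_id A hA hf).eventually (gt_mem_nhds hδ)

/-- A finite family of measurable sets of finite measure. -/
def FinFam (μ : Measure X) (𝒜 : Set (Set X)) : Prop :=
  𝒜.Finite ∧ ∀ A ∈ 𝒜, MeasurableSet A ∧ μ A ≠ ∞

omit [MetricSpace X] [SecondCountableTopology X] [BorelSpace X] [IsLocallyFiniteMeasure μ] in
theorem FinFam.union {𝒜 ℬ : Set (Set X)} (h : FinFam μ 𝒜) (h' : FinFam μ ℬ) : FinFam μ (𝒜 ∪ ℬ) :=
  ⟨h.1.union h'.1, fun A hA => hA.elim (h.2 A) (h'.2 A)⟩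

theorem exists_nbhd (g : Gb μ) {U : Set (Gb μ)} (hU : U ∈ 𝓝 g) :
    ∃ 𝒜, FinFam μ 𝒜 ∧ ∃ δ : ℝ≥0∞, 0 < δ ∧ ∀ h, (∀ A ∈ 𝒜, sq A h g < δ) → h ∈ U := by
  let I := {p : Set (Set X) × ℝ≥0∞ // FinFam μ p.1 ∧ 0 < p.2}
  let N : I → Set (Gb μ) := fun p => {h | ∀ A ∈ p.1.1, sq A h g < p.1.2}
  have : Nonempty I := ⟨⟨(∅, 1), ⟨finite_empty, by simp⟩, zero_lt_one⟩⟩
  have hdir : Directed (· ≥ ·) fun p => 𝓟 (N p) := by
    intro p q
    refine ⟨⟨(p.1.1 ∪ q.1.1, min p.1.2 q.1.2), p.2.1.union q.2.1, lt_min p.2.2 q.2.2⟩, ?_, ?_⟩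
    · exact principal_mono.2 fun h hh A hA => (hh A (Or.inl hA)).trans_le (min_le_left _ _)
    · exact principal_mono.2 fun h hh A hA => (hh A (Or.inr hA)).trans_le (min_le_right _ _)
  have ht : Tendsto id (⨅ p, 𝓟 (N p)) (𝓝 g) := by
    rw [tendsto_gb_iff]
    intro A hA hf
    rw [ENNReal.tendsto_nhds_zero]
    intro ε hε
    refine mem_iInf_of_mem ⟨({A}, ε), ⟨finite_singleton _, by rintro _ rfl; exact ⟨hA, hf⟩⟩, hε⟩ ?_
    exact fun h hh => (hh A rfl).le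
  obtain ⟨p, hp⟩ := (mem_iInf_of_directed hdir U).1 (ht hU)
  exact ⟨p.1.1, p.2.1, p.1.2, p.2.2, fun h hh => hp hh⟩

theorem exists_nbhd_flow (S : C(ℝ, Gb μ)) {U : Set C(ℝ, Gb μ)} (hU : U ∈ 𝓝 S) :
    ∃ L : ℝ, 0 < L ∧ ∃ 𝒜, FinFam μ 𝒜 ∧ ∃ δ : ℝ≥0∞, 0 < δ ∧
      ∀ R : C(ℝ, Gb μ), (∀ t, |t| ≤ L → ∀ A ∈ 𝒜, sq A (R t) (S t) < δ) → R ∈ U := by
  have hb := @Filter.HasBasis.compactConvergenceUniformity ℝ (Gb μ) _
    (IsTopologicalGroup.rightUniformSpace (Gb μ)) _ _ _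
    ((𝓝 (1 : Gb μ)).basis_sets.comap (fun p : Gb μ × Gb μ => p.2 * p.1⁻¹))
  have hb2 := @nhds_basis_uniformity' _ _
    (@ContinuousMap.compactConvergenceUniformSpace ℝ (Gb μ) _
      (IsTopologicalGroup.rightUniformSpace (Gb μ))) _ _ hb S
  obtain ⟨⟨K, V⟩, ⟨hK, hV⟩, hsub⟩ := hb2.mem_iff.1 hU
  obtain ⟨𝒜, h𝒜, δ, hδ, h⟩ := exists_nbhd 1 hV
  obtain ⟨L, hL0, hL⟩ := hK.isBounded.exists_pos_norm_le
  refine ⟨L, hL0, 𝒜, h𝒜, δ, hδ, fun R hR => hsub fun t ht => h _ fun A hA => ?_⟩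
  have := hR t (hL t ht) A hA
  rw [← sq_mul_right (h𝒜.2 A hA).1 _ _ (S t)⁻¹, mul_inv_cancel] at this
  exact this

/-- The flow identity. -/
def IsFlow (Φ : C(ℝ, Gb μ)) : Prop := ∀ s t, Φ (s + t) = Φ s * Φ t

theorem isClosed_isFlow : IsClosed {Φ : C(ℝ, Gb μ) | IsFlow Φ} := by
  simp only [IsFlow, ofPred_forall]
  refine isClosed_iInter fun s => isClosed_iInter fun t => isClosed_eq ?_ ?_ <;> fun_prop

theorem IsFlow.zero {Φ : C(ℝ, Gb μ)} (h : IsFlow Φ) : Φ 0 = 1 := by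
  have := h 0 0
  rw [add_zero] at this
  exact (left_eq_mul.1 this)

theorem IsFlow.neg {Φ : C(ℝ, Gb μ)} (h : IsFlow Φ) (t : ℝ) : Φ (-t) = (Φ t)⁻¹ := by
  rw [eq_inv_iff_mul_eq_one, ← h, neg_add_cancel, h.zero]

theorem IsFlow.zsmul {Φ : C(ℝ, Gb μ)} (h : IsFlow Φ) (t : ℝ) (n : ℤ) : Φ (n * t) = Φ t ^ n := by
  induction n using Int.induction_on with
  | zero => simp [h.zero]
  | succ n ih => rw [zpow_add_one, ← ih, ← h]; congr 1; push_cast; ring
  | pred n ih => rw [zpow_sub_one, ← ih, ← h.neg, ← h]; congr 1; push_cast; ring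

theorem IsFlow.comm {Φ : C(ℝ, Gb μ)} (h : IsFlow Φ) (s t : ℝ) : Φ s * Φ t = Φ t * Φ s := by
  rw [← h, ← h, add_comm]

section Model
variable {Z : Type*} [MeasurableSpace Z] {ζ : Measure Z}

theorem exists_flow_of_model (e : AeIso μ ζ) {R : ℝ → Z → Z} (hR : ∀ t, MeasurePreserving (R t) ζ ζ)
    (hadd : ∀ s t z, R (s + t) z = R s (R t z)) (h0 : ∀ z, R 0 z = z)
    (hc : ∀ C, MeasurableSet C → ζ C ≠ ∞ → Tendsto (fun t => ζ ((R t ⁻¹' C) ∆ C)) (𝓝 0) (𝓝 0)) :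
    ∃ Φ : C(ℝ, Gb μ), IsFlow Φ ∧ ∀ t, ⇑(rep (Φ t)) =ᵐ[μ] fun x => e.g (R t (e.f x)) := by
  have hm : ∀ t, MeasurePreserving (fun x => e.g (R t (e.f x))) μ μ := fun t =>
    e.mg.comp ((hR t).comp e.mf)
  have hcomp : ∀ s t, ∀ᵐ x ∂μ, e.g (R s (e.f (e.g (R t (e.f x))))) = e.g (R (s + t) (e.f x)) := by
    intro s t
    filter_upwards [((hR t).comp e.mf).quasiMeasurePreserving.ae e.fg] with x hx
    rw [hadd]
    exact congrArg (fun z => e.g (R s z)) hx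
  have hex : ∀ t, ∃ T : Au μ, (T : X → X) =ᵐ[μ] fun x => e.g (R t (e.f x)) := by
    intro t
    refine exists_au_of_ae (hm t) (hm (-t)) ?_ ?_
    · filter_upwards [hcomp t (-t), e.gf] with x a b
      rw [a, add_neg_cancel, h0, b]
    · filter_upwards [hcomp (-t) t, e.gf] with x a b
      rw [a, neg_add_cancel, h0, b]
  choose T hT using hex
  let φ : ℝ → Gb μ := fun t => SeparationQuotient.mk (T t)
  have hφ : ∀ s t, φ (s + t) = φ s * φ t := by
    intro s t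
    simp only [φ]
    rw [← SeparationQuotient.mk_mul, mk_eq_iff]
    filter_upwards [hT (s + t), hT t, (T t).mp.quasiMeasurePreserving.ae (hT s), hcomp s t]
      with x a b c d
    rw [a, Au.mul_apply, c, b, d]
  have hc0 : Tendsto φ (𝓝 0) (𝓝 (φ 0)) := by
    rw [tendsto_gb_iff]
    intro A hA hf
    have hC : MeasurableSet (e.g ⁻¹' A) := e.mg.measurable hA
    refine (hc (e.g ⁻¹' A) hC (by rwa [e.mg.measure_preimage hA.nullMeasurableSet])).congr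
      fun t => ?_
    simp only [φ]
    rw [sq_mk, ← e.mf.measure_preimage (((hR t).measurable hC).symmDiff hC).nullMeasurableSet,
      preimage_symmDiff]
    refine (measure_congr ((pre_congr (hT t) A).symmDiff ((pre_congr (hT 0) A).trans ?_))).symm
    simp only [h0]
    exact EventuallyEq.rfl
  have hcont : Continuous φ := by
    rw [continuous_iff_continuousAt]
    intro t
    have h1 : Tendsto (fun s => s - t) (𝓝 t) (𝓝 0) := by
      have := (continuous_sub_right t).tendsto t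
      rwa [sub_self] at this
    have h2 := (hc0.comp h1).mul_const (φ t)
    rw [← hφ, zero_add] at h2
    refine h2.congr fun s => ?_
    simp only [Function.comp]
    rw [← hφ, sub_add_cancel]
  exact ⟨⟨φ, hcont⟩, hφ, fun t => (rep_mk (T t)).trans (hT t)⟩

omit [MetricSpace X] [SecondCountableTopology X] [BorelSpace X] [IsLocallyFiniteMeasure μ] in
theorem model_measure (e : AeIso μ ζ) {J : Z → X} (hJ : Measurable J) {r : Z → Z}
    (hr : MeasurePreserving r ζ ζ) {f : X → X} (hf : f =ᵐ[μ] fun x => e.g (r (e.f x)))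
    {A B : Set X} (hA : MeasurableSet A) (hB : MeasurableSet B)
    (eA : ∀ᵐ x ∂μ, (J (e.f x) ∈ A ↔ x ∈ A)) (eB : ∀ᵐ x ∂μ, (J (e.f x) ∈ B ↔ x ∈ B)) :
    μ ((f ⁻¹' A) ∆ B) = ζ ((r ⁻¹' (J ⁻¹' A)) ∆ (J ⁻¹' B)) := by
  rw [← e.mf.measure_preimage ((hr.measurable (hJ hA)).symmDiff (hJ hB)).nullMeasurableSet,
    preimage_symmDiff]
  have eA' : ∀ᵐ z ∂ζ, (J z ∈ A ↔ e.g z ∈ A) := by
    filter_upwards [e.mg.quasiMeasurePreserving.ae eA, e.fg] with z a b
    rwa [b] at a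
  refine measure_congr (EventuallyEq.symmDiff ?_ ?_)
  · filter_upwards [hf, (hr.comp e.mf).quasiMeasurePreserving.ae eA'] with x a b
    show (f x ∈ A) = (J (r (e.f x)) ∈ A)
    rw [a]
    exact propext b.symm
  · filter_upwards [eB] with x a using propext a.symm

end Model

end Pool.Agent.H964Z.Gen
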