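import Mathlib

set_option autoImplicit false
open MeasureTheory Set Filter Topology
open scoped ENNReal symmDiff

namespace Pool.Agent.H964Z.Inf

/-- Invertible Lebesgue measure preserving Borel transformations of the real line. -/
def AutInf : Type := {T : ℝ ≃ᵐ ℝ // MeasurePreserving T volume volume}

/-- The weak topology: it is generated by the sets of those `S` for which the measure of
`S A ∆ T A`, respectively of `S⁻¹ A ∆ T⁻¹ A`, is less than `ε`, where `A` has finite measure. -/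
instance weakTop : TopologicalSpace AutInf := TopologicalSpace.generateFrom
  {U | ∃ (T : AutInf) (A : Set ℝ) (ε : ℝ≥0∞), MeasurableSet A ∧ volume A ≠ ∞ ∧ 0 < ε ∧
    (U = {S : AutInf | volume ((S.1 '' A) ∆ (T.1 '' A)) < ε} ∨
      U = {S : AutInf | volume ((S.1.symm '' A) ∆ (T.1.symm '' A)) < ε})}

/-- `T` embeds in a flow: a continuous homomorphism (mod null sets) `Φ` from `ℝ` with `Φ 1 = T`. -/
def EmbedsInFlow (T : AutInf) : Prop :=
  ∃ Φ : ℝ → AutInf, Continuous Φ ∧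
    (∀ s t : ℝ, ∀ᵐ x : ℝ, (Φ (s + t)).1 x = (Φ s).1 ((Φ t).1 x)) ∧ ∀ᵐ x : ℝ, (Φ 1).1 x = T.1 x

/-- `T` has a nontrivial root: `S ^ n = T` mod null sets for some `S` and some `n ≥ 2`. -/
def HasRoot (T : AutInf) : Prop :=
  ∃ (S : AutInf) (n : ℕ), 2 ≤ n ∧ ∀ᵐ x : ℝ, (S.1 : ℝ → ℝ)^[n] x = T.1 x

/-- `T` has a nontrivial factor: a sub-σ-algebra `m` of the Borel sets with `T⁻¹ m = m` mod null
sets, on which Lebesgue measure is σ-finite, and which differs from the Borel σ-algebra mod null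
sets. -/
def HasFactor (T : AutInf) : Prop :=
  ∃ m : {m : MeasurableSpace ℝ // m ≤ borel ℝ},
    (∀ A : Set ℝ, MeasurableSet[m.1] A →
      ∃ B : Set ℝ, MeasurableSet[m.1] B ∧ T.1 ⁻¹' A =ᵐ[volume] B) ∧
    (∀ B : Set ℝ, MeasurableSet[m.1] B →
      ∃ A : Set ℝ, MeasurableSet[m.1] A ∧ T.1 ⁻¹' A =ᵐ[volume] B) ∧
    (∃ W : ℕ → Set ℝ, (∀ n, MeasurableSet[m.1] (W n) ∧ volume (W n) ≠ ∞) ∧ ⋃ n, W n = univ) ∧
    ∃ A : Set ℝ, MeasurableSet A ∧ ∀ B : Set ℝ, MeasurableSet[m.1] B → ¬ A =ᵐ[volume] B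

end Pool.Agent.H964Z.Inf
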