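import Pool.Agent.H964Z.Core
import Pool.Agent.H964Z.InfDefs

set_option autoImplicit false
set_option linter.unusedSectionVars false
open MeasureTheory Set Filter Topology
open scoped ENNReal symmDiff

namespace Pool.Agent.H964Z.Gen

section
variable {X : Type*} [MetricSpace X] [SecondCountableTopology X] [MeasurableSpace X] [BorelSpace X]
  {μ : Measure X} [IsLocallyFiniteMeasure μ]

theorem isOpen_sd_lt {A : Set X} (hA : MeasurableSet A) (hf : μ A ≠ ∞) (T : Au μ) (ε : ℝ≥0∞) :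
    IsOpen {S : Au μ | sd A S T < ε} := by
  rw [isOpen_iff_mem_nhds]
  intro S hS
  obtain ⟨δ, hδ, h⟩ := ENNReal.lt_iff_exists_add_pos_lt.1 (show sd A S T < ε from hS)
  filter_upwards [(tendsto_au_iff.1 (tendsto_id (x := 𝓝 S)) A hA hf).eventually
    (gt_mem_nhds (show (0 : ℝ≥0∞) < δ by exact_mod_cast hδ))] with S' hS'
  refine lt_of_le_of_lt ((sd_triangle A S' S T).trans ?_) h
  rw [add_comm]
  exact add_le_add le_rfl hS'.le

theorem generic_flow_inv [CompleteSpace X] [NullSingletonClass μ] [NeZero μ] :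
    {T : Gb μ | ∃ Φ : C(ℝ, Gb μ), IsFlow Φ ∧ Φ 1 = T ∧
      ∃ J : Gb μ, J * J = 1 ∧ J ≠ 1 ∧ J * T = T * J} ∈ residual (Gb μ) := by
  have : Nonempty X := by
    by_contra h
    rw [not_nonempty_iff] at h
    exact NeZero.ne μ (Measure.eq_zero_of_isEmpty μ)
  let L : Set (C(ℝ, Gb μ) × Gb μ) :=
    {p | ∃ ℓ : ℝ, 0 < ℓ ∧ Irrational ℓ ∧ IsFlow p.1 ∧ Mod ℓ p.1 ∧ p.2 = p.1 (ℓ / 2)}
  have hJJ : ∀ p ∈ L, p.2 * p.2 = 1 := by
    rintro p ⟨ℓ, hℓ, -, hf, hM, hp⟩
    rw [hp, ← hf, add_halves, hM.period hℓ]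
  have key := dougherty (E := C(ℝ, Gb μ) × Gb μ) (Y := Gb μ) (π := fun p => p.1 1) (by fun_prop)
    (L := L) ?_ ?_ (D := fun _ => {p | p.2 ≠ 1})
    (fun _ => isOpen_ne_fun continuous_snd continuous_const) ?_
  · refine mem_of_superset key ?_
    rintro T ⟨p, hp, hD, rfl⟩
    have hcl : IsClosed {p : C(ℝ, Gb μ) × Gb μ | IsFlow p.1 ∧ p.2 * p.2 = 1 ∧
        p.2 * p.1 1 = p.1 1 * p.2} :=
      (isClosed_isFlow.preimage continuous_fst).inter
        ((isClosed_eq (by fun_prop) continuous_const).inter (isClosed_eq (by fun_prop) (by fun_prop)))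
    have := hcl.closure_subset_iff.2 (show L ⊆ _ from fun p hp => ⟨hp.choose_spec.2.2.1, hJJ p hp,
      by rw [hp.choose_spec.2.2.2.2]; exact hp.choose_spec.2.2.1.comm _ _⟩) hp
    exact ⟨p.1, this.1, rfl, p.2, this.2.1, hD 0, this.2.2⟩
  · intro T
    rw [mem_closure_iff_nhds]
    intro V hV
    obtain ⟨ℓ, hℓ, hirr, Φ, hΦ, hM, h1⟩ := dense_mod T hV
    exact ⟨_, h1, (Φ, Φ (ℓ / 2)), ⟨ℓ, hℓ, hirr, hΦ, hM, rfl⟩, rfl⟩
  · rintro ⟨S, J⟩ hp U hU
    have hJ := hJJ _ hp
    obtain ⟨ℓ, hℓ, hirr, hf, hM, hp⟩ := hp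
    obtain ⟨U1, hU1, U2, hU2, hsub⟩ := mem_nhds_prod_iff.1 hU
    simp only at hp hf hM hJ
    have h1 := core hf (fun u V hV => mono_of_period hf hirr (hM.period hℓ) u 0
        (by rwa [hf.zero])) (J := J) (inv_eq_of_mul_eq_one_right hJ)
      (fun V hV => by
        simpa using mono_of_period hf hirr (hM.period hℓ) 0 (ℓ / 2) (by rwa [← hp])) hU1 hU2
    filter_upwards [h1] with T hT
    rw [mem_closure_iff_nhds]
    intro V hV
    obtain ⟨ℓ', hℓ', hirr', Φ, hΦ, hM', a1, a2, a3⟩ := hT V hV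
    exact ⟨_, a3, (Φ, Φ (ℓ' / 2)), ⟨hsub ⟨a1, a2⟩, ℓ', hℓ', hirr', hΦ, hM', rfl⟩, rfl⟩
  · intro _ p hp
    refine subset_closure ⟨?_, hp⟩
    obtain ⟨ℓ, hℓ, -, -, hM, hp⟩ := hp
    show p.2 ≠ 1
    rw [hp]
    exact hM.half_ne hℓ

end

open Pool.Agent.H964Z.Inf

noncomputable def toAu (T : AutInf) : Au (volume : Measure ℝ) := Au.ofEquiv T.1 T.2

noncomputable def ofAu (T : Au (volume : Measure ℝ)) : AutInf := ⟨T.toME, T.mp⟩

theorem toAu_ofAu (T : Au (volume : Measure ℝ)) : toAu (ofAu T) = T := rfl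

theorem img1 (S T : AutInf) (A : Set ℝ) :
    volume ((S.1 '' A) ∆ (T.1 '' A)) = sd A (toAu S)⁻¹ (toAu T)⁻¹ := by
  unfold sd
  rw [← Au.image_eq, ← Au.image_eq]
  rfl

theorem img2 (S T : AutInf) (A : Set ℝ) :
    volume ((S.1.symm '' A) ∆ (T.1.symm '' A)) = sd A (toAu S) (toAu T) := by
  unfold sd
  rw [MeasurableEquiv.image_symm, MeasurableEquiv.image_symm]
  rfl

theorem inducing_toAu : IsInducing toAu := by
  refine ⟨le_antisymm ?_ ?_⟩
  · rw [← continuous_iff_le_induced, continuous_iff_continuousAt]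
    intro T
    rw [ContinuousAt, tendsto_au_iff]
    intro A hA hf
    rw [ENNReal.tendsto_nhds_zero]
    intro ε hε
    have ho : IsOpen {S : AutInf | volume ((S.1.symm '' A) ∆ (T.1.symm '' A)) < ε} :=
      TopologicalSpace.isOpen_generateFrom_of_mem ⟨T, A, ε, hA, hf, hε, Or.inr rfl⟩
    filter_upwards [ho.mem_nhds (by simpa using hε)] with S hS
    rw [← img2]
    exact le_of_lt hS
  · refine le_generateFrom ?_
    rintro U ⟨T, A, ε, hA, hf, hε, rfl | rfl⟩
    · simp only [img1]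
      exact isOpen_induced ((isOpen_sd_lt hA hf (toAu T)⁻¹ ε).preimage continuous_inv)
    · simp only [img2]
      exact isOpen_induced (isOpen_sd_lt hA hf (toAu T) ε)

/-- The class of an automorphism. -/
noncomputable def toGb (T : AutInf) : Gb (volume : Measure ℝ) := SeparationQuotient.mk (toAu T)

theorem inducing_toGb : IsInducing toGb := SeparationQuotient.isInducing_mk.comp inducing_toAu

theorem toGb_rep (g : Gb (volume : Measure ℝ)) : toGb (ofAu (rep g)) = g := mk_rep g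

theorem tendsto_toGb : Tendsto toGb (residual _) (residual _) :=
  tendsto_residual_of_isOpenMap inducing_toGb.continuous (inducing_toGb.isOpenMap (by
    rw [range_eq_univ.2 fun g => ⟨_, toGb_rep g⟩]; exact isOpen_univ))

theorem rep_toGb (T : AutInf) : ⇑(rep (toGb T)) =ᵐ[volume] T.1 := rep_mk _

theorem generic_flow : {T : AutInf | EmbedsInFlow T} ∈ residual AutInf := by
  filter_upwards [tendsto_toGb generic_flow_inv] with T hT
  obtain ⟨Φ, hΦ, h1, -⟩ := hT
  refine ⟨fun t => ofAu (rep (Φ t)), ?_, fun s t => ?_, ?_⟩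
  · rw [inducing_toGb.continuous_iff]
    simp only [Function.comp_def, toGb_rep]
    exact Φ.continuous
  · have := rep_mul (Φ s) (Φ t)
    rw [← hΦ] at this
    exact this
  · have := rep_toGb T
    rw [← h1] at this
    exact this

theorem root_of_flow {T : AutInf} (h : EmbedsInFlow T) : HasRoot T := by
  obtain ⟨Φ, -, h1, h2⟩ := h
  refine ⟨Φ (1 / 2), 2, le_rfl, ?_⟩
  filter_upwards [h1 (1 / 2) (1 / 2), h2] with x a b
  rw [add_halves] at a
  rw [← b, a]
  rfl

/-- The σ-algebra of the sets invariant under `J`. -/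
@[reducible] def invAlg (J : Gb (volume : Measure ℝ)) : MeasurableSpace ℝ where
  MeasurableSet' := fun A => MeasurableSet A ∧ rep J ⁻¹' A =ᵐ[volume] A
  measurableSet_empty := ⟨MeasurableSet.empty, by simp⟩
  measurableSet_compl := fun A hA => ⟨hA.1.compl, hA.2.compl⟩
  measurableSet_iUnion := fun f hf => ⟨MeasurableSet.iUnion fun i => (hf i).1, by
    rw [preimage_iUnion]
    exact Filter.EventuallyEq.countable_iUnion fun i => (hf i).2⟩

theorem factor_of_inv {T : AutInf} {J : Gb (volume : Measure ℝ)} (h1 : J * J = 1) (h2 : J ≠ 1)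
    (h3 : J * toGb T = toGb T * J) : HasFactor T := by
  have qJ := (rep J).mp.quasiMeasurePreserving
  have hm : invAlg J ≤ borel ℝ := fun A hA => hA.1
  have hinv : ∀ g : Gb (volume : Measure ℝ), J * g = g * J → ∀ A : Set ℝ,
      MeasurableSet[invAlg J] A → MeasurableSet[invAlg J] (rep g ⁻¹' A) := by
    intro g hg A hA
    refine ⟨(rep g).meas hA.1, ?_⟩
    have a1 := pre_congr (rep_mul g J) A
    have a2 := pre_congr (rep_mul J g) A
    rw [hg] at a2
    exact (a1.symm.trans a2).trans ((rep g).mp.quasiMeasurePreserving.preimage_ae_eq hA.2)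
  refine ⟨⟨invAlg J, hm⟩, fun A hA => ⟨_, hinv _ h3 A hA, (pre_congr (rep_toGb T) A).symm⟩,
    fun B hB => ⟨_, hinv (toGb T)⁻¹ (Commute.inv_right h3) B hB, ?_⟩, ?_, ?_⟩
  · refine (pre_congr (rep_toGb T) _).symm.trans ?_
    have a1 := pre_congr (rep_mul (toGb T)⁻¹ (toGb T)) B
    rw [inv_mul_cancel] at a1
    exact a1.symm.trans (pre_congr rep_one B)
  · have hW : ∀ n, MeasurableSet[invAlg J]
        (spanningSets volume n ∪ rep J ⁻¹' spanningSets volume n) := by
      intro n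
      have hs := measurableSet_spanningSets (volume : Measure ℝ) n
      refine ⟨hs.union ((rep J).meas hs), ?_⟩
      rw [preimage_union, union_comm]
      refine EventuallyEq.union ?_ EventuallyEq.rfl
      have a1 := pre_congr (rep_mul J J) (spanningSets volume n)
      rw [h1] at a1
      exact a1.symm.trans (pre_congr rep_one _)
    refine ⟨fun n => spanningSets volume n ∪ rep J ⁻¹' spanningSets volume n,
      fun n => ⟨hW n, ?_⟩, ?_⟩
    · refine ((measure_union_le _ _).trans_lt ?_).ne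
      rw [(rep J).measure_pre (measurableSet_spanningSets _ n)]
      exact ENNReal.add_lt_top.2 ⟨measure_spanningSets_lt_top _ n, measure_spanningSets_lt_top _ n⟩
    · rw [eq_univ_iff_forall]
      intro x
      obtain ⟨n, hn⟩ := mem_iUnion.1 ((iUnion_spanningSets (volume : Measure ℝ)).symm ▸ mem_univ x)
      exact mem_iUnion.2 ⟨n, Or.inl hn⟩
  · by_contra hc
    push Not at hc
    apply h2
    rw [gb_eq_iff]
    have : ∀ᵐ x : ℝ, rep J x = x := ae_eq_id_of_sets fun V hV => by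
      obtain ⟨B, hB, hVB⟩ := hc V hV.measurableSet
      have a1 : rep J ⁻¹' V =ᵐ[volume] V := ((qJ.preimage_ae_eq hVB).trans hB.2).trans hVB.symm
      exact (ae_eq_set.1 a1).2
    filter_upwards [this, rep_one (μ := volume)] with x a b
    rw [a, b]
    rfl

theorem generic_factor : {T : AutInf | HasFactor T} ∈ residual AutInf := by
  filter_upwards [tendsto_toGb generic_flow_inv] with T hT
  obtain ⟨-, -, -, J, h1, h2, h3⟩ := hT
  exact factor_of_inv h1 h2 h3

end Pool.Agent.H964Z.Gen
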