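import Pool.Agent.H964Z.AutB
import Pool.Agent.Helper212.Iso

set_option autoImplicit false
set_option linter.unusedSectionVars false
open MeasureTheory Set Filter Topology
open scoped ENNReal symmDiff

namespace Pool.Agent.H964Z.Gen

/-- An isomorphism mod null sets. -/
structure AeIso {X Z : Type*} [MeasurableSpace X] [MeasurableSpace Z] (μ : Measure X)
    (ν : Measure Z) where
  f : X → Z
  g : Z → X
  mf : MeasurePreserving f μ ν
  mg : MeasurePreserving g ν μ
  gf : ∀ᵐ x ∂μ, g (f x) = x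
  fg : ∀ᵐ z ∂ν, f (g z) = z

section
variable {X Y Z : Type*} [MeasurableSpace X] [MeasurableSpace Y] [MeasurableSpace Z]
  {μ : Measure X} {ξ : Measure Y} {ν : Measure Z}

def AeIso.symm (e : AeIso μ ν) : AeIso ν μ := ⟨e.g, e.f, e.mg, e.mf, e.fg, e.gf⟩

def AeIso.trans (e : AeIso μ ξ) (e' : AeIso ξ ν) : AeIso μ ν where
  f := e'.f ∘ e.f
  g := e.g ∘ e'.g
  mf := e'.mf.comp e.mf
  mg := e.mg.comp e'.mg
  gf := by
    filter_upwards [e.gf, e.mf.quasiMeasurePreserving.ae e'.gf] with x a b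
    simp only [Function.comp, b, a]
  fg := by
    filter_upwards [e'.fg, e'.mg.quasiMeasurePreserving.ae e.fg] with x a b
    simp only [Function.comp, b, a]

theorem iso_fin [StandardBorelSpace X] [StandardBorelSpace Z] [Nonempty X] [Nonempty Z]
    [IsFiniteMeasure μ] [NullSingletonClass μ] [NullSingletonClass ν] (h : μ univ = ν univ) :
    Nonempty (AeIso μ ν) := by
  by_cases h0 : μ univ = 0
  · have e1 : μ = 0 := Measure.measure_univ_eq_zero.1 h0
    have e2 : ν = 0 := Measure.measure_univ_eq_zero.1 (h ▸ h0)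
    subst e1 e2
    exact ⟨⟨fun _ => Classical.arbitrary Z, fun _ => Classical.arbitrary X,
      ⟨measurable_const, by simp⟩, ⟨measurable_const, by simp⟩, by simp, by simp⟩⟩
  · have hf : μ univ ≠ ∞ := measure_ne_top _ _
    set c := μ univ with hc
    have p1 : IsProbabilityMeasure (c⁻¹ • μ) :=
      ⟨by rw [Measure.smul_apply, smul_eq_mul, ENNReal.inv_mul_cancel h0 hf]⟩
    have p2 : IsProbabilityMeasure (c⁻¹ • ν) :=
      ⟨by rw [Measure.smul_apply, smul_eq_mul, ← h, ENNReal.inv_mul_cancel h0 hf]⟩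
    have n1 : NullSingletonClass (c⁻¹ • μ) := ⟨fun x => by simp⟩
    have n2 : NullSingletonClass (c⁻¹ • ν) := ⟨fun x => by simp⟩
    obtain ⟨e1, he1⟩ := Helper212.Sq.exists_mp_equiv (c⁻¹ • μ)
    obtain ⟨e2, he2⟩ := Helper212.Sq.exists_mp_equiv (c⁻¹ • ν)
    have k : MeasurePreserving (e1.trans e2.symm) (c⁻¹ • μ) (c⁻¹ • ν) := (he2.symm e2).comp he1
    have k2 : MeasurePreserving (e1.trans e2.symm) μ ν := by
      have := k.smul_measure c
      rwa [smul_smul, smul_smul, ENNReal.mul_inv_cancel h0 hf, one_smul, one_smul] at this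
    exact ⟨⟨e1.trans e2.symm, (e1.trans e2.symm).symm, k2, k2.symm _,
      Eventually.of_forall fun x => by simp, Eventually.of_forall fun x => by simp⟩⟩

theorem mp_glue {ι : Type*} [Countable ι] {P : ι → Set X} {Q : ι → Set Z}
    (hP : ∀ i, MeasurableSet (P i)) (hQ : ∀ i, MeasurableSet (Q i))
    (dP : Pairwise fun i j => Disjoint (P i) (P j)) (dQ : Pairwise fun i j => Disjoint (Q i) (Q j))
    (cP : ∀ᵐ x ∂μ, x ∈ ⋃ i, P i) (cQ : ∀ᵐ z ∂ν, z ∈ ⋃ i, Q i)
    {F : ι → X → Z} (hF : ∀ i, MeasurePreserving (F i) (μ.restrict (P i)) (ν.restrict (Q i)))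
    {f : X → Z} (hf : Measurable f) (hfF : ∀ i, EqOn f (F i) (P i)) :
    MeasurePreserving f μ ν := by
  refine ⟨hf, Measure.ext fun s hs => ?_⟩
  rw [Measure.map_apply hf hs]
  conv_lhs => rw [← Measure.restrict_eq_self_of_ae_mem cP, Measure.restrict_iUnion dP hP]
  conv_rhs => rw [← Measure.restrict_eq_self_of_ae_mem cQ, Measure.restrict_iUnion dQ hQ]
  rw [Measure.sum_apply _ (hf hs), Measure.sum_apply _ hs]
  refine tsum_congr fun i => ?_
  rw [← (hF i).measure_preimage hs.nullMeasurableSet]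
  refine measure_congr ?_
  filter_upwards [ae_restrict_mem (hP i)] with x hx
  show (f x ∈ s) = (F i x ∈ s)
  rw [hfF i hx]

theorem ae_of_pieces {ι : Type*} [Countable ι] {P : ι → Set X} (cP : ∀ᵐ x ∂μ, x ∈ ⋃ i, P i)
    {p : X → Prop} (h : ∀ i, ∀ᵐ x ∂μ.restrict (P i), p x) : ∀ᵐ x ∂μ, p x := by
  rw [← Measure.restrict_eq_self_of_ae_mem cP]
  exact (ae_restrict_iUnion_iff P p).2 h

theorem iso_glue {ι : Type*} [Countable ι] [Nonempty ι] {P : ι → Set X} {Q : ι → Set Z}
    (hP : ∀ i, MeasurableSet (P i)) (hQ : ∀ i, MeasurableSet (Q i))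
    (dP : Pairwise fun i j => Disjoint (P i) (P j)) (dQ : Pairwise fun i j => Disjoint (Q i) (Q j))
    (cP : ∀ᵐ x ∂μ, x ∈ ⋃ i, P i) (cQ : ∀ᵐ z ∂ν, z ∈ ⋃ i, Q i)
    (E : ∀ i, AeIso (μ.restrict (P i)) (ν.restrict (Q i))) :
    ∃ e : AeIso μ ν, (∀ i, EqOn e.f (E i).f (P i)) ∧ ∀ i, ∀ᵐ x ∂μ, x ∈ P i → e.f x ∈ Q i := by
  obtain ⟨f, hf, hfF⟩ := exists_measurable_piecewise P hP (fun i => (E i).f)
    (fun i => (E i).mf.measurable) fun i j hij x hx =>
      absurd hx.2 (disjoint_left.1 (dP hij) hx.1)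
  obtain ⟨g, hg, hgG⟩ := exists_measurable_piecewise Q hQ (fun i => (E i).g)
    (fun i => (E i).mg.measurable) fun i j hij x hx =>
      absurd hx.2 (disjoint_left.1 (dQ hij) hx.1)
  have a1 : ∀ i, ∀ᵐ x ∂μ.restrict (P i), (E i).f x ∈ Q i := fun i =>
    (E i).mf.quasiMeasurePreserving.ae (ae_restrict_mem (hQ i))
  have a2 : ∀ i, ∀ᵐ z ∂ν.restrict (Q i), (E i).g z ∈ P i := fun i =>
    (E i).mg.quasiMeasurePreserving.ae (ae_restrict_mem (hP i))
  refine ⟨⟨f, g, mp_glue hP hQ dP dQ cP cQ (fun i => (E i).mf) hf hfF,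
    mp_glue hQ hP dQ dP cQ cP (fun i => (E i).mg) hg hgG, ae_of_pieces cP fun i => ?_,
    ae_of_pieces cQ fun i => ?_⟩, hfF, fun i => ?_⟩
  · filter_upwards [ae_restrict_mem (hP i), a1 i, (E i).gf] with x h1 h2 h3
    rw [hfF i h1, hgG i h2, h3]
  · filter_upwards [ae_restrict_mem (hQ i), a2 i, (E i).fg] with x h1 h2 h3
    rw [hgG i h1, hfF i h2, h3]
  · rw [← ae_restrict_iff' (hP i)]
    filter_upwards [ae_restrict_mem (hP i), a1 i] with x h1 h2
    show f x ∈ Q i
    rwa [hfF i h1]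

theorem iso_inf [StandardBorelSpace X] [Nonempty X] [SigmaFinite μ] [NullSingletonClass μ]
    (h : μ univ = ∞) : Nonempty (AeIso μ ((volume : Measure ℝ).restrict (Ici 0))) := by
  let P : ℕ → Set X := disjointed (spanningSets μ)
  have hP : ∀ n, MeasurableSet (P n) := MeasurableSet.disjointed (measurableSet_spanningSets μ)
  have dP : Pairwise fun i j => Disjoint (P i) (P j) := disjoint_disjointed _
  have uP : ⋃ n, P n = univ := by rw [iUnion_disjointed, iUnion_spanningSets]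
  have fP : ∀ n, μ (P n) ≠ ∞ := fun n =>
    ne_top_of_le_ne_top (measure_spanningSets_lt_top μ n).ne (measure_mono (disjointed_le _ n))
  let s : ℕ → ℝ := fun n => ∑ i ∈ Finset.range n, (μ (P i)).toReal
  have hs : ∀ n, s (n + 1) = s n + (μ (P n)).toReal := fun n => Finset.sum_range_succ _ _
  have hm : Monotone s := monotone_nat_of_le_succ fun n => by
    rw [hs]; exact le_add_of_nonneg_right ENNReal.toReal_nonneg
  have hs0 : s 0 = 0 := by simp [s]
  have hunb : ∀ t : ℝ, ∃ n, t < s n := by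
    intro t
    by_contra hc
    push Not at hc
    have h1 : μ univ ≤ ENNReal.ofReal t := by
      rw [← uP, measure_iUnion dP hP, ENNReal.tsum_eq_iSup_nat]
      refine iSup_le fun n => le_trans (le_of_eq ?_) (ENNReal.ofReal_le_ofReal (hc n))
      rw [ENNReal.ofReal_sum_of_nonneg fun _ _ => ENNReal.toReal_nonneg]
      exact Finset.sum_congr rfl fun i _ => (ENNReal.ofReal_toReal (fP i)).symm
    rw [h] at h1
    exact ENNReal.ofReal_ne_top (top_le_iff.1 h1)
  let Q : ℕ → Set ℝ := fun n => Ico (s n) (s (n + 1))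
  have hQ : ∀ n, MeasurableSet (Q n) := fun n => measurableSet_Ico
  have dQ : Pairwise fun i j => Disjoint (Q i) (Q j) := hm.pairwise_disjoint_on_Ico_succ
  have cQ : ∀ᵐ z ∂(volume : Measure ℝ).restrict (Ici 0), z ∈ ⋃ i, Q i := by
    filter_upwards [ae_restrict_mem measurableSet_Ici] with z hz
    have h1 : ∃ n, z < s n := hunb z
    have h2 : Nat.find h1 ≠ 0 := by
      intro h3
      have := Nat.find_spec h1
      rw [h3, hs0] at this
      exact absurd hz (not_le.2 this)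
    obtain ⟨k, hk⟩ : ∃ k, Nat.find h1 = k + 1 := ⟨Nat.find h1 - 1, by omega⟩
    refine mem_iUnion.2 ⟨k, not_lt.1 (Nat.find_min h1 (by omega)), ?_⟩
    rw [← hk]; exact Nat.find_spec h1
  have E : ∀ n, Nonempty (AeIso (μ.restrict (P n))
      (((volume : Measure ℝ).restrict (Ici 0)).restrict (Q n))) := by
    intro n
    have : IsFiniteMeasure (μ.restrict (P n)) := isFiniteMeasure_restrict.2 (fP n)
    refine iso_fin ?_
    rw [Measure.restrict_apply_univ, Measure.restrict_apply_univ, Measure.restrict_apply (hQ n),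
      inter_eq_left.2, Real.volume_Ico, hs, add_sub_cancel_left, ENNReal.ofReal_toReal (fP n)]
    intro z hz
    exact le_trans (hs0 ▸ hm (Nat.zero_le n)) hz.1
  obtain ⟨e, -⟩ := iso_glue hP hQ dP dQ (by rw [uP]; simp) cQ fun n => (E n).some
  exact ⟨e⟩

theorem iso_sigma [StandardBorelSpace X] [StandardBorelSpace Z] [Nonempty X] [Nonempty Z]
    [SigmaFinite μ] [SigmaFinite ν] [NullSingletonClass μ] [NullSingletonClass ν]
    (h : μ univ = ν univ) : Nonempty (AeIso μ ν) := by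
  by_cases hf : μ univ = ∞
  · obtain ⟨e1⟩ := iso_inf hf
    obtain ⟨e2⟩ := iso_inf (h ▸ hf : ν univ = ∞)
    exact ⟨e1.trans e2.symm⟩
  · have : IsFiniteMeasure μ := ⟨lt_top_iff_ne_top.2 hf⟩
    exact iso_fin h

theorem iso_parts [StandardBorelSpace X] [StandardBorelSpace Z] [Nonempty X] [Nonempty Z]
    [SigmaFinite μ] [SigmaFinite ν] [NullSingletonClass μ] [NullSingletonClass ν]
    {ι : Type*} [Countable ι] [Nonempty ι] {P : ι → Set X} {Q : ι → Set Z}
    (hP : ∀ i, MeasurableSet (P i)) (hQ : ∀ i, MeasurableSet (Q i))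
    (dP : Pairwise fun i j => Disjoint (P i) (P j)) (dQ : Pairwise fun i j => Disjoint (Q i) (Q j))
    (cP : ∀ᵐ x ∂μ, x ∈ ⋃ i, P i) (cQ : ∀ᵐ z ∂ν, z ∈ ⋃ i, Q i) (h : ∀ i, μ (P i) = ν (Q i)) :
    ∃ e : AeIso μ ν, ∀ i, ∀ᵐ x ∂μ, x ∈ P i → e.f x ∈ Q i := by
  have E : ∀ i, Nonempty (AeIso (μ.restrict (P i)) (ν.restrict (Q i))) := fun i =>
    iso_sigma (by rw [Measure.restrict_apply_univ, Measure.restrict_apply_univ, h])
  obtain ⟨e, -, he⟩ := iso_glue hP hQ dP dQ cP cQ fun i => (E i).some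
  exact ⟨e, he⟩

/-- The extension lemma: a measure preserving map `J` agrees on finitely many sets with the
inverse of an isomorphism. -/
theorem iso_ext [StandardBorelSpace X] [StandardBorelSpace Z] [Nonempty X] [Nonempty Z]
    [SigmaFinite μ] [SigmaFinite ν] [NullSingletonClass μ] [NullSingletonClass ν]
    {J : Z → X} (hJ : MeasurePreserving J ν μ) {𝒜 : Set (Set X)} (hfin : 𝒜.Finite)
    (hm : ∀ A ∈ 𝒜, MeasurableSet A) :
    ∃ e : AeIso μ ν, ∀ A ∈ 𝒜, ∀ᵐ x ∂μ, (J (e.f x) ∈ A ↔ x ∈ A) := by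
  have : Finite 𝒜 := hfin
  let P : (𝒜 → Prop) → Set X := fun s => {x | ∀ A : 𝒜, (x ∈ A.1 ↔ s A)}
  have hP : ∀ s, MeasurableSet (P s) := by
    intro s
    have : P s = ⋂ A : 𝒜, {x | x ∈ A.1 ↔ s A} := by ext x; simp [P]
    rw [this]
    refine MeasurableSet.iInter fun A => ?_
    by_cases h : s A
    · have e : {x | x ∈ A.1 ↔ s A} = A.1 := by ext x; simp [h]
      rw [e]; exact hm A A.2
    · have e : {x | x ∈ A.1 ↔ s A} = A.1ᶜ := by ext x; simp [h]
      rw [e]; exact (hm A A.2).compl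
  have dP : Pairwise fun i j => Disjoint (P i) (P j) := by
    intro s t hst
    rw [disjoint_left]
    intro x h1 h2
    exact hst (funext fun A => propext ((h1 A).symm.trans (h2 A)))
  have uP : ∀ x, x ∈ ⋃ s, P s := fun x => mem_iUnion.2 ⟨fun A => x ∈ A.1, fun _ => Iff.rfl⟩
  obtain ⟨e, he⟩ := iso_parts (μ := μ) (ν := ν) hP (fun s => hJ.measurable (hP s)) dP
    (fun s t hst => (dP hst).preimage J) (Eventually.of_forall uP)
    (Eventually.of_forall fun z => by rw [← preimage_iUnion]; exact uP _)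
    fun s => (hJ.measure_preimage (hP s).nullMeasurableSet).symm
  refine ⟨e, fun A hA => ?_⟩
  filter_upwards [ae_all_iff.2 he] with x hx
  exact hx (fun A => x ∈ A.1) (fun _ => Iff.rfl) ⟨A, hA⟩

end

end Pool.Agent.H964Z.Gen
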