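import Pool.Agent.H964Z.IsoExt

set_option autoImplicit false
set_option linter.unusedSectionVars false
open MeasureTheory Set Filter Topology
open scoped ENNReal symmDiff

namespace Pool.Agent.H964Z.Gen

variable {X : Type*} [MeasurableSpace X] {μ : Measure X}

theorem Au.zpow_zpow (T : Au μ) (i j : ℤ) (x : X) : (T ^ i) ((T ^ j) x) = (T ^ (i + j)) x := by
  rw [zpow_add]; rfl

theorem Au.zpow_zero' (T : Au μ) (x : X) : (T ^ (0 : ℤ)) x = x := by
  rw [zpow_zero]; rfl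

/-- No two points of `M` on one orbit are closer than `N`. -/
def Disc (T : Au μ) (N : ℕ) (M : Set X) : Prop :=
  ∀ x ∈ M, ∀ i : ℤ, i ≠ 0 → |i| < N → (T ^ i) x ∉ M

theorem Disc.mono {T : Au μ} {N N' : ℕ} {M M' : Set X} (h : Disc T N M) (hN : N' ≤ N)
    (hM : M' ⊆ M) : Disc T N' M' := fun x hx i hi hi' hc =>
  h x (hM hx) i hi (lt_of_lt_of_le hi' (by exact_mod_cast hN)) (hM hc)

theorem Disc.pre {T : Au μ} {N : ℕ} {M : Set X} (h : Disc T N M) (s : ℤ) :
    Disc T N (⇑(T ^ s) ⁻¹' M) := by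
  intro x hx i hi hi' hc
  refine h _ hx i hi hi' ?_
  rw [mem_preimage, Au.zpow_zpow, add_comm, ← Au.zpow_zpow] at hc
  exact hc

/-- The points at distance less than `N` from `M`. -/
def nb (T : Au μ) (N : ℕ) (M : Set X) : Set X := {x | ∃ i : ℤ, |i| < N ∧ (T ^ i) x ∈ M}

theorem nb_eq (T : Au μ) (N : ℕ) (M : Set X) :
    nb T N M = ⋃ i ∈ Finset.Ioo (-(N : ℤ)) N, ⇑(T ^ i) ⁻¹' M := by
  ext x
  simp [nb, abs_lt, and_assoc]

theorem measurableSet_nb (T : Au μ) (N : ℕ) {M : Set X} (hM : MeasurableSet M) :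
    MeasurableSet (nb T N M) := by
  rw [nb_eq]
  exact Finset.measurableSet_biUnion _ fun i _ => (T ^ i).meas hM

theorem measure_nb_ne_top (T : Au μ) (N : ℕ) {M : Set X} (hM : MeasurableSet M) (hf : μ M ≠ ∞) :
    μ (nb T N M) ≠ ∞ := by
  rw [nb_eq]
  refine ne_top_of_le_ne_top ?_ (measure_biUnion_finset_le _ _)
  exact ENNReal.sum_ne_top.2 fun i _ => by rwa [(T ^ i).measure_pre hM]

/-- Aperiodic points. -/
def Ap (T : Au μ) (x : X) : Prop := ∀ i : ℤ, i ≠ 0 → (T ^ i) x ≠ x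

theorem Ap.shift {T : Au μ} {x : X} (h : Ap T x) (s : ℤ) : Ap T ((T ^ s) x) := by
  intro i hi hc
  rw [Au.zpow_zpow, add_comm, ← Au.zpow_zpow] at hc
  exact h i hi ((T ^ s).injective hc)

theorem disc_union {T : Au μ} {N N' : ℕ} {F E : Set X} (hF : Disc T N F) (hE : Disc T N' E)
    (hN : N ≤ N') (h : Disjoint E (nb T N' F)) : Disc T N (F ∪ E) := by
  have hN' : (N : ℤ) ≤ N' := by exact_mod_cast hN
  rintro x (hx | hx) i hi hi' (hc | hc)
  · exact hF x hx i hi hi' hc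
  · refine disjoint_left.1 h hc ⟨-i, by rw [abs_neg]; omega, ?_⟩
    rwa [Au.zpow_zpow, neg_add_cancel, Au.zpow_zero']
  · exact disjoint_left.1 h hx ⟨i, by omega, hc⟩
  · exact hE x hx i hi (by omega) hc

variable [StandardBorelSpace X]

theorem exists_marker (T : Au μ) {N : ℕ} (hN : 0 < N) :
    ∃ M : Set X, MeasurableSet M ∧ Disc T N M ∧ ∀ x, Ap T x → x ∈ nb T N M := by
  obtain ⟨b, hbc, -, hb⟩ := TopologicalSpace.exists_countable_basis ℝ
  obtain ⟨u, hu⟩ := hbc.exists_eq_range (by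
    obtain ⟨v, hv, -⟩ := hb.exists_subset_of_mem_open (mem_univ 0) isOpen_univ
    exact ⟨v, hv⟩)
  let e := embeddingReal X
  have he : MeasurableEmbedding e := measurableEmbedding_embeddingReal X
  have hU : ∀ k, MeasurableSet (e ⁻¹' u k) := fun k =>
    he.measurable (hb.isOpen (hu ▸ mem_range_self k)).measurableSet
  let V : ℕ → Set X := fun k =>
    e ⁻¹' u k ∩ ⋂ (i : ℤ) (_ : i ≠ 0 ∧ |i| < N), (⇑(T ^ i) ⁻¹' (e ⁻¹' u k))ᶜ
  have hV : ∀ k, MeasurableSet (V k) := fun k => (hU k).inter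
    (MeasurableSet.iInter fun i => MeasurableSet.iInter fun _ => ((T ^ i).meas (hU k)).compl)
  have dV : ∀ k, Disc T N (V k) := fun k x hx i hi hi' hc =>
    mem_iInter₂.1 hx.2 i ⟨hi, hi'⟩ hc.1
  have cV : ∀ x, Ap T x → ∃ k, x ∈ V k := by
    intro x hx
    have hfin : ((fun i : ℤ => e ((T ^ i) x)) '' {i | i ≠ 0 ∧ |i| < N}).Finite :=
      ((finite_Ioo (-(N : ℤ)) N).subset fun i hi => abs_lt.1 hi.2).image _
    obtain ⟨v, hv, h1, h2⟩ := hb.exists_subset_of_mem_open (a := e x)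
      (u := ((fun i : ℤ => e ((T ^ i) x)) '' {i | i ≠ 0 ∧ |i| < N})ᶜ)
      (by rintro ⟨i, hi, hc⟩; exact hx i hi.1 (he.injective hc)) hfin.isClosed.isOpen_compl
    rw [hu] at hv
    obtain ⟨k, rfl⟩ := hv
    exact ⟨k, h1, mem_iInter₂.2 fun i hi hc => h2 hc ⟨i, hi, rfl⟩⟩
  let M : ℕ → Set X := fun k => Nat.rec ∅ (fun k Mk => Mk ∪ (V k \ nb T N Mk)) k
  have hM : ∀ k, M (k + 1) = M k ∪ (V k \ nb T N (M k)) := fun k => rfl
  have mM : ∀ k, MeasurableSet (M k) := by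
    intro k
    induction k with
    | zero => exact MeasurableSet.empty
    | succ k ih => exact ih.union ((hV k).diff (measurableSet_nb T N ih))
  have dM : ∀ k, Disc T N (M k) := by
    intro k
    induction k with
    | zero => exact fun x hx => hx.elim
    | succ k ih => exact disc_union ih ((dV k).mono le_rfl sdiff_subset) le_rfl disjoint_sdiff_left
  have hmono : Monotone M := monotone_nat_of_le_succ fun k => by rw [hM]; exact subset_union_left
  refine ⟨⋃ k, M k, MeasurableSet.iUnion mM, ?_, fun x hx => ?_⟩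
  · intro x hx i hi hi' hc
    obtain ⟨k, hk⟩ := mem_iUnion.1 hx
    obtain ⟨l, hl⟩ := mem_iUnion.1 hc
    exact dM (max k l) x (hmono (le_max_left _ _) hk) i hi hi' (hmono (le_max_right _ _) hl)
  · obtain ⟨k, hk⟩ := cV x hx
    by_cases h : x ∈ nb T N (M k)
    · obtain ⟨i, hi, h⟩ := h
      exact ⟨i, hi, mem_iUnion.2 ⟨k, h⟩⟩
    · refine ⟨0, by simpa using hN, mem_iUnion.2 ⟨k + 1, ?_⟩⟩
      rw [Au.zpow_zero']
      exact Or.inr ⟨hk, h⟩

/-- The autocorrelation of a set. -/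
noncomputable def cor (T : Au μ) (A : Set X) (i : ℤ) : ℝ≥0∞ := μ (A ∩ ⇑(T ^ i) ⁻¹' A)

theorem cor_neg (T : Au μ) {A : Set X} (hA : MeasurableSet A) (i : ℤ) :
    cor T A (-i) = cor T A i := by
  unfold cor
  rw [← (T ^ i).measure_pre (hA.inter ((T ^ (-i)).meas hA)), preimage_inter, inter_comm]
  congr 2
  ext x
  rw [mem_preimage, mem_preimage, Au.zpow_zpow, neg_add_cancel, Au.zpow_zero']

/-- Autocorrelations tend to zero. -/
def Mx (T : Au μ) : Prop := ∀ A : Set X, MeasurableSet A → μ A ≠ ∞ → ∀ ε : ℝ≥0∞, 0 < ε →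
  ∃ N : ℕ, ∀ i : ℤ, (N : ℤ) ≤ |i| → cor T A i ≤ ε

theorem Mx.ap [SigmaFinite μ] {T : Au μ} (h : Mx T) : ∀ᵐ x ∂μ, Ap T x := by
  refine ae_all_iff.2 fun i => ?_
  by_cases hi : i = 0
  · simp [hi]
  have hP : MeasurableSet {x | (T ^ i) x = x} := measurableSet_eq_fun (T ^ i).meas measurable_id
  have : ∀ n, μ ({x | (T ^ i) x = x} ∩ spanningSets μ n) = 0 := by
    intro n
    refine le_antisymm (le_of_forall_gt_imp_ge_of_dense fun ε hε => ?_) zero_le
    obtain ⟨N, hN⟩ := h _ (hP.inter (measurableSet_spanningSets μ n)) (ne_top_of_le_ne_top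
      (measure_spanningSets_lt_top μ n).ne (measure_mono inter_subset_right)) ε hε
    refine le_trans (measure_mono ?_) (hN (i * N) ?_)
    · intro x hx
      refine ⟨hx, ?_⟩
      have : ∀ k : ℕ, (T ^ (i * k)) x = x := by
        intro k
        induction k with
        | zero => simp [Au.one_apply]
        | succ k ih =>
          rw [Nat.cast_succ, mul_add, mul_one, ← Au.zpow_zpow, hx.1, ih]
      rwa [mem_preimage, this]
    · rw [abs_mul, Nat.abs_cast]
      exact le_mul_of_one_le_left (Nat.cast_nonneg _) (Int.one_le_abs hi)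
  have h2 : μ {x | (T ^ i) x = x} = 0 := by
    rw [← inter_univ {x | (T ^ i) x = x}, ← iUnion_spanningSets μ, inter_iUnion]
    exact measure_iUnion_null this
  filter_upwards [measure_eq_zero_iff_ae_notMem.1 h2] with x hx _ using hx

variable [Nonempty X] [SigmaFinite μ] [NullSingletonClass μ]

theorem exists_sub_eq {Y : Set X} (hY : MeasurableSet Y) (h : μ Y = ∞) {γ : ℝ≥0∞} (hγ : γ ≠ ∞) :
    ∃ E ⊆ Y, MeasurableSet E ∧ μ E = γ := by
  obtain ⟨e⟩ := iso_inf (μ := μ.restrict Y) (by rwa [Measure.restrict_apply_univ])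
  have hm : MeasurableSet (e.f ⁻¹' Ico 0 γ.toReal) := e.mf.measurable measurableSet_Ico
  refine ⟨e.f ⁻¹' Ico 0 γ.toReal ∩ Y, inter_subset_right, hm.inter hY, ?_⟩
  rw [← Measure.restrict_apply hm, e.mf.measure_preimage measurableSet_Ico.nullMeasurableSet,
    Measure.restrict_apply measurableSet_Ico, inter_eq_left.2 Ico_subset_Ici_self, Real.volume_Ico,
    sub_zero, ENNReal.ofReal_toReal hγ]

theorem exists_disc_sub {T : Au μ} (hT : ∀ᵐ x ∂μ, Ap T x) {Y : Set X} (hY : MeasurableSet Y)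
    (h : μ Y = ∞) {N : ℕ} (hN : 0 < N) {γ : ℝ≥0∞} (hγ : γ ≠ ∞) :
    ∃ E ⊆ Y, MeasurableSet E ∧ μ E = γ ∧ Disc T N E := by
  obtain ⟨M, hM, dM, cM⟩ := exists_marker T hN
  obtain ⟨i, hi⟩ : ∃ i : ℤ, μ (Y ∩ ⇑(T ^ i) ⁻¹' M) = ∞ := by
    by_contra hc
    push Not at hc
    have h1 : μ Y ≤ μ (⋃ i ∈ Finset.Ioo (-(N : ℤ)) N, Y ∩ ⇑(T ^ i) ⁻¹' M) := by
      refine measure_mono_ae ?_
      filter_upwards [hT] with x hx hxY
      have := cM x hx
      rw [nb_eq] at this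
      obtain ⟨i, hi, h⟩ := mem_iUnion₂.1 this
      exact mem_iUnion₂.2 ⟨i, hi, hxY, h⟩
    rw [h] at h1
    exact ENNReal.sum_ne_top.2 (fun i _ => hc i)
      (top_le_iff.1 (h1.trans (measure_biUnion_finset_le _ _)))
  obtain ⟨E, h1, h2, h3⟩ := exists_sub_eq (hY.inter ((T ^ i).meas hM)) hi hγ
  exact ⟨E, h1.trans inter_subset_left, h2, h3,
    (dM.pre i).mono le_rfl (h1.trans inter_subset_right)⟩

theorem measure_compl_top {A : Set X} (hinf : μ univ = ∞) (hf : μ A ≠ ∞) : μ Aᶜ = ∞ := by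
  by_contra hc
  have := measure_union_le (μ := μ) A Aᶜ
  rw [union_compl_self, hinf, top_le_iff] at this
  exact ENNReal.add_ne_top.2 ⟨hf, hc⟩ this

theorem small_base_aux {T : Au μ} (hT : Mx T) (hinf : μ univ = ∞) (H : ℕ) {γ : ℝ≥0∞}
    (h0 : 0 < γ) (hγ : γ ≠ ∞) (j : ℕ) : ∃ F : Set X, MeasurableSet F ∧ μ F = j * γ ∧ Disc T H F ∧
      ∀ i : ℤ, i ≠ 0 → cor T F i ≤ 3 * γ := by
  induction j with
  | zero => exact ⟨∅, MeasurableSet.empty, by simp, fun x hx => hx.elim, fun i _ => by simp [cor]⟩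
  | succ j ih =>
    obtain ⟨F, hF, mF, dF, cF⟩ := ih
    have fF : μ F ≠ ∞ := by rw [mF]; exact ENNReal.mul_ne_top (by simp) hγ
    obtain ⟨N0, hN0⟩ := hT F hF fF γ h0
    obtain ⟨E, h1, h2, h3, h4⟩ := exists_disc_sub hT.ap (measurableSet_nb T (N0 + H + 1) hF).compl
      (measure_compl_top hinf (measure_nb_ne_top T _ hF fF)) (Nat.succ_pos (N0 + H)) hγ
    have hd : Disjoint E (nb T (N0 + H + 1) F) := disjoint_left.2 fun x hx => h1 hx
    refine ⟨F ∪ E, hF.union h2, ?_, disc_union dF h4 (by omega) hd, fun i hi => ?_⟩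
    · rw [measure_union _ h2, mF, h3, Nat.cast_succ, add_mul, one_mul]
      refine disjoint_left.2 fun x hx hE => disjoint_left.1 hd hE ⟨0, by simp; omega, ?_⟩
      rwa [Au.zpow_zero']
    · by_cases hN : (N0 : ℤ) ≤ |i|
      · calc cor T (F ∪ E) i ≤ μ ((F ∩ ⇑(T ^ i) ⁻¹' F) ∪ (E ∪ ⇑(T ^ i) ⁻¹' E)) := by
              refine measure_mono ?_
              rintro x ⟨a | a, b | b⟩
              exacts [Or.inl ⟨a, b⟩, Or.inr (Or.inr b), Or.inr (Or.inl a), Or.inr (Or.inl a)]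
          _ ≤ γ + (γ + γ) := by
              refine (measure_union_le _ _).trans (add_le_add (hN0 i hN) ?_)
              refine (measure_union_le _ _).trans ?_
              rw [(T ^ i).measure_pre h2, h3]
          _ = 3 * γ := by ring
      · refine le_trans (measure_mono ?_) (cF i hi)
        have hi' : |i| < ((N0 + H + 1 : ℕ) : ℤ) := by push_cast; omega
        rintro x ⟨a | a, b | b⟩
        · exact ⟨a, b⟩
        · refine (disjoint_left.1 hd b ⟨-i, by rwa [abs_neg], ?_⟩).elim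
          rwa [Au.zpow_zpow, neg_add_cancel, Au.zpow_zero']
        · exact (disjoint_left.1 hd a ⟨i, hi', b⟩).elim
        · exact (h4 x a i hi hi' b).elim

/-- A base of prescribed measure for a tower of prescribed height, with uniformly small
autocorrelations. -/
theorem small_base {T : Au μ} (hT : Mx T) (hinf : μ univ = ∞) (H : ℕ) {β δ : ℝ≥0∞}
    (hβ : β ≠ ∞) (hδ : 0 < δ) : ∃ F : Set X, MeasurableSet F ∧ μ F = β ∧ Disc T H F ∧
      ∀ i : ℤ, i ≠ 0 → cor T F i ≤ δ := by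
  by_cases h0 : β = 0
  · exact ⟨∅, MeasurableSet.empty, by simp [h0], fun x hx => hx.elim, fun i _ => by simp [cor]⟩
  obtain ⟨j, hj0, hj⟩ := ENNReal.exists_nat_pos_inv_mul_lt (a := 3 * β) (b := δ)
    (ENNReal.mul_ne_top (by simp) hβ) hδ.ne'
  have hj1 : (j : ℝ≥0∞) ≠ 0 := by exact_mod_cast hj0.ne'
  obtain ⟨F, h1, h2, h3, h4⟩ := small_base_aux hT hinf H (γ := (j : ℝ≥0∞)⁻¹ * β)
    (ENNReal.mul_pos (by simp) h0) (ENNReal.mul_ne_top (by simpa using hj0.ne') hβ) j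
  refine ⟨F, h1, ?_, h3, fun i hi => (h4 i hi).trans (le_trans (le_of_eq ?_) hj.le)⟩
  · rw [h2, ← mul_assoc, ENNReal.mul_inv_cancel hj1 (by simp), one_mul]
  · ring

/-- A set met by every orbit with bounded gaps, whose neighbourhood carries little of `G`. -/
theorem exists_cut {S : Au μ} (hS : ∀ᵐ x ∂μ, Ap S x) {G : Set X} (hG : MeasurableSet G)
    (hf : μ G ≠ ∞) {N : ℕ} (hN : 0 < N) {ε : ℝ≥0∞} (hε : 0 < ε) :
    ∃ (H : ℕ) (C : Set X), MeasurableSet C ∧
      (∀ᵐ x ∂μ, ∃ a : ℕ, a < H ∧ (S ^ (-(a : ℤ))) x ∈ C) ∧ μ (G ∩ nb S N C) ≤ ε := by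
  obtain ⟨K, hK0, hK⟩ := ENNReal.exists_nat_pos_inv_mul_lt (a := μ G) (b := ε) hf hε.ne'
  obtain ⟨M, hM, dM, cM⟩ := exists_marker S (N := K * (2 * N)) (by positivity)
  let C : ℕ → Set X := fun k => ⇑(S ^ ((k : ℤ) * (2 * N))) ⁻¹' M
  have hC : ∀ k, MeasurableSet (C k) := fun k => Au.meas _ hM
  obtain ⟨k, hk⟩ : ∃ k, μ (G ∩ nb S N (C k)) ≤ ε := by
    by_contra hc
    push Not at hc
    have h1 : ∑ k ∈ Finset.range K, μ (G ∩ nb S N (C k)) ≤ μ G := by
      rw [← measure_biUnion_finset _ fun k _ => hG.inter (measurableSet_nb S N (hC k))]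
      · exact measure_mono (iUnion₂_subset fun _ _ => inter_subset_left)
      · intro k hk l hl hkl
        refine disjoint_left.2 ?_
        rintro x ⟨-, i, hi, h1⟩ ⟨-, j, hj, h2⟩
        have hk' : (k : ℤ) < K := by exact_mod_cast Finset.mem_range.1 hk
        have hl' : (l : ℤ) < K := by exact_mod_cast Finset.mem_range.1 hl
        have hkl' : (l : ℤ) - k ≠ 0 := by omega
        have hk0 : (0 : ℤ) ≤ k := Nat.cast_nonneg _
        have hl0 : (0 : ℤ) ≤ l := Nat.cast_nonneg _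
        have hN' : (0 : ℤ) < N := by exact_mod_cast hN
        rw [abs_lt] at hi hj
        refine dM _ h1 (((l : ℤ) - k) * (2 * N) + (j - i)) ?_ ?_ ?_
        · intro h
          rcases lt_or_gt_of_ne hkl' with h' | h' <;> nlinarith
        · push_cast
          rw [abs_lt]
          constructor <;> nlinarith
        · simp only [C, mem_preimage, Au.zpow_zpow] at h2 ⊢
          rwa [show ((l : ℤ) - k) * (2 * N) + (j - i) + (k * (2 * N) + i) = l * (2 * N) + j by ring]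
    have h2 : (K : ℝ≥0∞) * ε ≤ μ G := by
      refine le_trans ?_ h1
      calc (K : ℝ≥0∞) * ε = ∑ _k ∈ Finset.range K, ε := by simp
        _ ≤ _ := Finset.sum_le_sum fun k _ => (hc k).le
    have hK1 : (K : ℝ≥0∞) ≠ 0 := by exact_mod_cast hK0.ne'
    have h3 : ε ≤ (K : ℝ≥0∞)⁻¹ * μ G := by
      calc ε = (K : ℝ≥0∞)⁻¹ * (K * ε) := by
            rw [← mul_assoc, ENNReal.inv_mul_cancel hK1 (by simp), one_mul]
        _ ≤ _ := by gcongr
    exact absurd hK (not_lt.2 h3)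
  refine ⟨2 * (K * (2 * N)), C k, hC k, ?_, hk⟩
  filter_upwards [hS] with x hx
  obtain ⟨i, hi, h⟩ := cM _ (hx.shift ((k : ℤ) * (2 * N) - (K * (2 * N) : ℕ)))
  rw [abs_lt] at hi
  refine ⟨((K * (2 * N) : ℕ) - i).toNat, by omega, ?_⟩
  simp only [C, mem_preimage, Au.zpow_zpow] at h ⊢
  rwa [show (k : ℤ) * (2 * N) + -((((K * (2 * N) : ℕ) : ℤ) - i).toNat : ℤ) =
    i + (k * (2 * N) - ((K * (2 * N) : ℕ) : ℤ)) by
      rw [Int.toNat_of_nonneg (by omega)]; ring]

end Pool.Agent.H964Z.Gen
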