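import Pool.Agent.H964Z.MixA

set_option autoImplicit false
set_option linter.unusedSectionVars false
open MeasureTheory Set Filter Topology
open scoped ENNReal symmDiff

namespace Pool.Agent.H964Z.Gen

variable {X : Type*} [MeasurableSpace X] {μ : Measure X}

def AeIso.ofAu (T : Au μ) {D : Set X} (hD : MeasurableSet D) :
    AeIso (μ.restrict (T ⁻¹' D)) (μ.restrict D) where
  f := T
  g := ⇑(T⁻¹)
  mf := T.mp.restrict_preimage hD
  mg := by
    have := T⁻¹.mp.restrict_preimage (T.meas hD)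
    rwa [show ⇑(T⁻¹) ⁻¹' (T ⁻¹' D) = D from by
      ext x; rw [mem_preimage, mem_preimage, Au.apply_inv_self]] at this
  gf := Eventually.of_forall T.inv_apply_self
  fg := Eventually.of_forall T.apply_inv_self

def AeIso.restr {B F D : Set X} (e : AeIso (μ.restrict B) (μ.restrict F)) (hD : MeasurableSet D)
    (hDB : D ⊆ B) : AeIso (μ.restrict D) (μ.restrict (e.g ⁻¹' D ∩ F)) where
  f := e.f
  g := e.g
  mf := by
    have h1 := e.mf.restrict_preimage (e.mg.measurable hD)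
    have h2 : (μ.restrict B).restrict (e.f ⁻¹' (e.g ⁻¹' D)) = (μ.restrict B).restrict D := by
      refine Measure.restrict_congr_set ?_
      filter_upwards [e.gf] with x hx
      show (e.g (e.f x) ∈ D) = (x ∈ D)
      rw [hx]
    rwa [h2, Measure.restrict_restrict hD, inter_eq_left.2 hDB,
      Measure.restrict_restrict (e.mg.measurable hD)] at h1
  mg := by
    have h1 := e.mg.restrict_preimage hD
    rwa [Measure.restrict_restrict hD, inter_eq_left.2 hDB,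
      Measure.restrict_restrict (e.mg.measurable hD)] at h1
  gf := ae_restrict_of_ae_restrict_of_subset hDB e.gf
  fg := ae_restrict_of_ae_restrict_of_subset inter_subset_right e.fg

/-- The points `a` steps above the last visit to `C`. -/
def Lv (S : Au μ) (C : Set X) (a : ℕ) : Set X :=
  {x | (S ^ (-(a : ℤ))) x ∈ C ∧ ∀ b : ℕ, b < a → (S ^ (-(b : ℤ))) x ∉ C}

theorem measurableSet_Lv (S : Au μ) {C : Set X} (hC : MeasurableSet C) (a : ℕ) :
    MeasurableSet (Lv S C a) := by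
  have : Lv S C a = ⇑(S ^ (-(a : ℤ))) ⁻¹' C ∩
      ⋂ (b : ℕ) (_ : b < a), (⇑(S ^ (-(b : ℤ))) ⁻¹' C)ᶜ := by
    ext x; simp [Lv]
  rw [this]
  exact (Au.meas _ hC).inter
    (MeasurableSet.iInter fun b => MeasurableSet.iInter fun _ => (Au.meas _ hC).compl)

theorem Lv_unique {S : Au μ} {C : Set X} {a b : ℕ} {x : X} (ha : x ∈ Lv S C a)
    (hb : x ∈ Lv S C b) : a = b := by
  rcases lt_trichotomy a b with h | h | h
  · exact (hb.2 a h ha.1).elim
  · exact h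
  · exact (ha.2 b h hb.1).elim

theorem exists_Lv {S : Au μ} {C : Set X} {H : ℕ} {x : X}
    (h : ∃ a : ℕ, a < H ∧ (S ^ (-(a : ℤ))) x ∈ C) : ∃ a : ℕ, a < H ∧ x ∈ Lv S C a := by
  classical
  obtain ⟨a, ha, h⟩ := h
  have h1 : ∃ a : ℕ, (S ^ (-(a : ℤ))) x ∈ C := ⟨a, h⟩
  exact ⟨Nat.find h1, lt_of_le_of_lt (Nat.find_min' h1 h) ha, Nat.find_spec h1,
    fun b hb => Nat.find_min h1 hb⟩

theorem conj_zpow (R T : Au μ) (n : ℤ) (x : X) : R (((R⁻¹ * T * R) ^ n) x) = (T ^ n) (R x) := by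
  have : (R⁻¹ * T * R) ^ n = R⁻¹ * T ^ n * R := by
    have := _root_.conj_zpow (a := R⁻¹) (b := T) (i := n)
    rwa [inv_inv] at this
  rw [this, Au.mul_apply, Au.mul_apply, Au.apply_inv_self]

variable [StandardBorelSpace X] [Nonempty X] [SigmaFinite μ] [NullSingletonClass μ]

/-- Towers of `S` over `B` are carried to a tower of `T` over `F`. -/
theorem exists_tower_map (hinf : μ univ = ∞) (S T : Au μ) {C B F : Set X} (hC : MeasurableSet C)
    (hB : MeasurableSet B) (hF : MeasurableSet F) (fB : μ B ≠ ∞) (hBF : μ F = μ B) (H : ℕ)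
    (dF : Disc T H F) : ∃ (R : Au μ) (f g : X → X), ∀ᵐ x ∂μ, ∀ a : ℕ, a < H → x ∈ Lv S C a →
      (S ^ (-(a : ℤ))) x ∈ B → R x = (T ^ (a : ℤ)) (f ((S ^ (-(a : ℤ))) x)) ∧
        f ((S ^ (-(a : ℤ))) x) ∈ F ∧ g (f ((S ^ (-(a : ℤ))) x)) = (S ^ (-(a : ℤ))) x := by
  obtain ⟨φ⟩ := iso_sigma (μ := μ.restrict B) (ν := μ.restrict F)
    (by rw [Measure.restrict_apply_univ, Measure.restrict_apply_univ, hBF])
  let D : ℕ → Set X := fun a => B ∩ ⇑(S ^ (a : ℤ)) ⁻¹' Lv S C a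
  have hD : ∀ a, MeasurableSet (D a) := fun a => hB.inter (Au.meas _ (measurableSet_Lv S hC a))
  let P : Fin H → Set X := fun a => ⇑(S ^ (-((a : ℕ) : ℤ))) ⁻¹' D a
  let Q : Fin H → Set X := fun a => ⇑(T ^ (-((a : ℕ) : ℤ))) ⁻¹' (φ.g ⁻¹' D a ∩ F)
  have hP : ∀ a, MeasurableSet (P a) := fun a => Au.meas _ (hD a)
  have hQ0 : ∀ a, MeasurableSet (φ.g ⁻¹' D a ∩ F) := fun a => (φ.mg.measurable (hD a)).inter hF
  have hQ : ∀ a, MeasurableSet (Q a) := fun a => Au.meas _ (hQ0 a)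
  have memP : ∀ (a : Fin H) x, x ∈ P a ↔ (S ^ (-((a : ℕ) : ℤ))) x ∈ B ∧ x ∈ Lv S C a := by
    intro a x
    simp only [P, D, mem_preimage, mem_inter_iff, Au.zpow_zpow, add_neg_cancel, Au.zpow_zero']
  have dP : Pairwise fun a b => Disjoint (P a) (P b) := fun a b hab => disjoint_left.2
    fun x h1 h2 => hab (Fin.ext (Lv_unique ((memP a x).1 h1).2 ((memP b x).1 h2).2))
  have dQ : Pairwise fun a b => Disjoint (Q a) (Q b) := by
    intro a b hab
    refine disjoint_left.2 fun x h1 h2 => dF _ h1.2 (((a : ℕ) : ℤ) - (b : ℕ)) ?_ ?_ ?_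
    · have : (a : ℕ) ≠ b := fun h => hab (Fin.ext h)
      omega
    · have := a.2
      have := b.2
      rw [abs_lt]; omega
    · rw [Au.zpow_zpow, show ((a : ℕ) : ℤ) - (b : ℕ) + -((a : ℕ) : ℤ) = -((b : ℕ) : ℤ) by ring]
      exact h2.2
  have fP : μ (⋃ a, P a) ≠ ∞ := by
    refine ne_top_of_le_ne_top ?_ (measure_iUnion_fintype_le _ _)
    refine ENNReal.sum_ne_top.2 fun a _ => ?_
    rw [Au.measure_pre _ (hD a)]
    exact ne_top_of_le_ne_top fB (measure_mono inter_subset_left)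
  have fQ : μ (⋃ a, Q a) ≠ ∞ := by
    refine ne_top_of_le_ne_top ?_ (measure_iUnion_fintype_le _ _)
    refine ENNReal.sum_ne_top.2 fun a _ => ?_
    rw [Au.measure_pre _ (hQ0 a)]
    exact ne_top_of_le_ne_top (hBF ▸ fB) (measure_mono inter_subset_right)
  obtain ⟨ψ⟩ := iso_sigma (μ := μ.restrict (⋃ a, P a)ᶜ) (ν := μ.restrict (⋃ a, Q a)ᶜ)
    (by rw [Measure.restrict_apply_univ, Measure.restrict_apply_univ, measure_compl_top hinf fP,
      measure_compl_top hinf fQ])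
  let ex : (Fin H → Set X) → Option (Fin H) → Set X := fun P o => o.elim (⋃ a, P a)ᶜ P
  have e1 : ∀ P : Fin H → Set X, (∀ a, MeasurableSet (P a)) → ∀ o, MeasurableSet (ex P o) := by
    rintro P hP (_ | a)
    · exact (MeasurableSet.iUnion hP).compl
    · exact hP a
  have e2 : ∀ P : Fin H → Set X, (Pairwise fun a b => Disjoint (P a) (P b)) →
      Pairwise fun a b => Disjoint (ex P a) (ex P b) := by
    rintro P hP (_ | a) (_ | b) hab
    · exact (hab rfl).elim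
    · exact disjoint_left.2 fun x h1 h2 => h1 (mem_iUnion.2 ⟨b, h2⟩)
    · exact disjoint_left.2 fun x h1 h2 => h2 (mem_iUnion.2 ⟨a, h1⟩)
    · exact hP fun h => hab (congrArg _ h)
  have e3 : ∀ P : Fin H → Set X, ∀ᵐ x ∂μ, x ∈ ⋃ o, ex P o := by
    refine fun P => Eventually.of_forall fun x => ?_
    by_cases h : x ∈ ⋃ a, P a
    · obtain ⟨a, ha⟩ := mem_iUnion.1 h
      exact mem_iUnion.2 ⟨some a, ha⟩
    · exact mem_iUnion.2 ⟨none, h⟩
  let E : ∀ o, AeIso (μ.restrict (ex P o)) (μ.restrict (ex Q o)) := fun o =>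
    match o with
    | none => ψ
    | some a => (AeIso.ofAu _ (hD a)).trans
        ((φ.restr (hD a) inter_subset_left).trans (AeIso.ofAu _ (hQ0 a)).symm)
  obtain ⟨e, he, -⟩ := iso_glue (e1 P hP) (e1 Q hQ) (e2 P dP) (e2 Q dQ) (e3 P) (e3 Q) E
  obtain ⟨R, hR⟩ := exists_au_of_ae e.mf e.mg e.fg e.gf
  have k : ∀ᵐ c ∂μ, c ∈ B → φ.f c ∈ F ∧ φ.g (φ.f c) = c := by
    rw [← ae_restrict_iff' hB]
    exact (φ.mf.quasiMeasurePreserving.ae (ae_restrict_mem hF)).and φ.gf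
  refine ⟨R, φ.f, φ.g, ?_⟩
  filter_upwards [hR, ae_all_iff.2 fun a : ℕ =>
    (S ^ (-(a : ℤ))).mp.quasiMeasurePreserving.ae k] with x h1 h2 a ha h3 h4
  refine ⟨?_, h2 a h4⟩
  rw [h1, he (some ⟨a, ha⟩) ((memP ⟨a, ha⟩ x).2 ⟨h4, h3⟩)]
  show ⇑((T ^ (-(a : ℤ)))⁻¹) _ = _
  rw [zpow_neg, inv_inv]
  rfl

theorem approx (hinf : μ univ = ∞) {S T : Au μ} (hS : Mx S) (hT : Mx T) {G : Set X}
    (hG : MeasurableSet G) (fG : μ G ≠ ∞) {ε : ℝ≥0∞} (hε : 0 < ε) : ∃ R : Au μ,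
      (∀ n : ℤ, |n| ≤ 1 → μ {x | x ∈ G ∧ (S ^ n) x ≠ ((R⁻¹ * T * R) ^ n) x} ≤ ε) ∧
      ∀ n : ℤ, μ {x | x ∈ G ∧ ((S ^ n) x ∈ G ∨ ((R⁻¹ * T * R) ^ n) x ∈ G) ∧
        (S ^ n) x ≠ ((R⁻¹ * T * R) ^ n) x} ≤ ε + ε := by
  obtain ⟨N0, hN0⟩ := hS G hG fG ε hε
  obtain ⟨H, C, hC, cC, mC⟩ := exists_cut hS.ap hG fG (N := N0 + 2) (by omega) hε
  have hB := measurableSet_nb S H hG
  have fB := measure_nb_ne_top S H hG fG
  obtain ⟨δ, hδ, hδ2⟩ := ENNReal.exists_nnreal_pos_mul_lt (a := (H : ℝ≥0∞) * H) (b := ε)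
    (ENNReal.mul_ne_top (by simp) (by simp)) hε.ne'
  obtain ⟨F, hF, mF, dF, cF⟩ := small_base hT hinf H fB (δ := δ) (by exact_mod_cast hδ)
  obtain ⟨R, f, g, hR⟩ := exists_tower_map hinf S T hC hB hF fB mF H dF
  have base : ∀ x ∈ G, ∀ a : ℕ, a < H → (S ^ (-(a : ℤ))) x ∈ nb S H G := fun x hx a ha =>
    ⟨a, by rw [Nat.abs_cast]; exact_mod_cast ha, by
      rwa [Au.zpow_zpow, add_neg_cancel, Au.zpow_zero']⟩
  have k1 : ∀ n : ℤ, |n| < ((N0 + 2 : ℕ) : ℤ) →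
      μ {x | x ∈ G ∧ (S ^ n) x ≠ ((R⁻¹ * T * R) ^ n) x} ≤ ε := by
    intro n hn
    refine le_trans (measure_mono_ae ?_) mC
    filter_upwards [hR, cC, (S ^ n).mp.quasiMeasurePreserving.ae hR,
      (S ^ n).mp.quasiMeasurePreserving.ae cC] with x h1 h2 h3 h4 hx
    refine ⟨hx.1, ?_⟩
    by_contra hc
    obtain ⟨a, ha, hL⟩ := exists_Lv h2
    obtain ⟨b, hb, hL'⟩ := exists_Lv h4
    rw [abs_lt] at hn
    have q1 : ((N0 + 2 : ℕ) : ℤ) ≤ a := by
      by_contra h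
      exact hc ⟨-a, by rw [abs_neg, Nat.abs_cast]; omega, hL.1⟩
    have q2 : (b : ℤ) = a + n := by
      have r1 := hL'.1
      rw [Au.zpow_zpow] at r1
      rcases lt_trichotomy (b : ℤ) (a + n) with h | h | h
      · exfalso
        by_cases h' : 0 ≤ b - n
        · refine hL.2 (b - n).toNat (by omega) ?_
          rwa [Int.toNat_of_nonneg h', show -((b : ℤ) - n) = -b + n by ring]
        · exact hc ⟨-b + n, by rw [abs_lt]; omega, r1⟩
      · exact h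
      · exfalso
        refine hL'.2 (a + n).toNat (by omega) ?_
        rw [Int.toNat_of_nonneg (by omega), Au.zpow_zpow, show -((a : ℤ) + n) + n = -a by ring]
        exact hL.1
    have q3 : (S ^ (-(b : ℤ))) ((S ^ n) x) = (S ^ (-(a : ℤ))) x := by
      rw [Au.zpow_zpow, q2, show -((a : ℤ) + n) + n = -a by ring]
    have q4 := (h3 b hb hL' (q3 ▸ base x hx.1 a ha)).1
    refine hx.2 (R.injective ?_)
    rw [conj_zpow, q4, q3, (h1 a ha hL (base x hx.1 a ha)).1, Au.zpow_zpow, q2, add_comm]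
  refine ⟨R, fun n hn => k1 n (by push_cast; omega), fun n => ?_⟩
  by_cases hn : |n| < ((N0 + 2 : ℕ) : ℤ)
  · refine le_trans (measure_mono ?_) ((k1 n hn).trans le_self_add)
    exact fun x hx => ⟨hx.1, hx.2.2⟩
  let Z : Fin H × Fin H → Set X := fun p =>
    if n + (p.1 : ℕ) - (p.2 : ℕ) = 0 then ∅ else
      R ⁻¹' (⇑(T ^ (-((p.1 : ℕ) : ℤ))) ⁻¹' (F ∩ ⇑(T ^ (n + (p.1 : ℕ) - (p.2 : ℕ))) ⁻¹' F))
  have mZ : ∀ p, μ (Z p) ≤ δ := by
    intro p
    simp only [Z]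
    split_ifs with h
    · simp
    · rw [Au.measure_pre _ (Au.meas _ (hF.inter (Au.meas _ hF))),
        Au.measure_pre _ (hF.inter (Au.meas _ hF))]
      exact cF _ h
  calc _ ≤ μ ((G ∩ ⇑(S ^ n) ⁻¹' G) ∪ ⋃ p, Z p) := by
        refine measure_mono_ae ?_
        filter_upwards [hR, cC, ((R⁻¹ * T * R) ^ n).mp.quasiMeasurePreserving.ae hR,
          ((R⁻¹ * T * R) ^ n).mp.quasiMeasurePreserving.ae cC] with x h1 h2 h3 h4 hx
        obtain ⟨hx1, hx2 | hx2, hx3⟩ := hx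
        · exact Or.inl ⟨hx1, hx2⟩
        obtain ⟨a, ha, hL⟩ := exists_Lv h2
        obtain ⟨b, hb, hL'⟩ := exists_Lv h4
        obtain ⟨r1, r2, r3⟩ := h1 a ha hL (base x hx1 a ha)
        obtain ⟨s1, s2, s3⟩ := h3 b hb hL' (base _ hx2 b hb)
        rw [conj_zpow, r1, Au.zpow_zpow] at s1
        have s4 := congrArg (T ^ (-(b : ℤ))) s1
        rw [Au.zpow_zpow, Au.zpow_zpow, neg_add_cancel, Au.zpow_zero',
          show -(b : ℤ) + (n + a) = n + a - b by ring] at s4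
        by_cases h : n + a - b = 0
        · exfalso
          rw [h, Au.zpow_zero'] at s4
          rw [← s4, r3] at s3
          have s5 := congrArg (S ^ (b : ℤ)) s3
          rw [Au.zpow_zpow, Au.zpow_zpow, add_neg_cancel, Au.zpow_zero',
            show (b : ℤ) + -a = n by omega] at s5
          exact hx3 s5
        · refine Or.inr (mem_iUnion.2 ⟨(⟨a, ha⟩, ⟨b, hb⟩), ?_⟩)
          simp only [Z, if_neg h, mem_preimage, mem_inter_iff]
          rw [r1, Au.zpow_zpow, neg_add_cancel, Au.zpow_zero', s4]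
          exact ⟨r2, s2⟩
    _ ≤ ε + ε := by
        refine (measure_union_le _ _).trans (add_le_add (hN0 n (by push_cast at hn; omega)) ?_)
        refine (measure_iUnion_fintype_le _ _).trans ?_
        refine (Finset.sum_le_sum fun p _ => mZ p).trans (le_trans (le_of_eq ?_) hδ2.le)
        simp [mul_comm]

end Pool.Agent.H964Z.Gen
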