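import Pool.Agent.H964Z.MixMain

set_option autoImplicit false
set_option linter.unusedSectionVars false
open MeasureTheory Set Filter Topology
open scoped ENNReal symmDiff

namespace Pool.Agent.H964Z.Gen

open Pool.Agent.H964Z.MixD

variable {X : Type*} [MeasurableSpace X] {μ : Measure X}
variable [StandardBorelSpace X] [SigmaFinite μ] [NullSingletonClass μ]

theorem step_far [Nonempty X] (hinf : μ univ = ∞) {A : ℕ → Set X} (hA : ∀ i, MeasurableSet (A i))
    (fA : ∀ i, μ (A i) ≠ ∞) (hs : ∑' i, 2⁻¹ ^ (i + 1) * μ (A i) = ∞) (k : ℕ)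
    (D : {D : Set X // MeasurableSet D ∧ μ D ≠ ∞}) :
    ∃ Y Z : {D : Set X // MeasurableSet D ∧ μ D ≠ ∞}, μ Y.1 = μ Z.1 ∧ Disjoint Y.1 D.1 ∧
      Disjoint Z.1 D.1 ∧ Disjoint Y.1 Z.1 ∧ ∃ m, (∀ i, i < m → Disjoint Z.1 (A i)) ∧
        (k : ℝ≥0∞) ≤ ∑ i ∈ Finset.range m, 2⁻¹ ^ (i + 1) * μ (A i ∩ Y.1) := by
  obtain ⟨D, hD, fD⟩ := D
  rw [ENNReal.tsum_eq_iSup_nat] at hs
  obtain ⟨m, hm⟩ := lt_iSup_iff.1 (show (k : ℝ≥0∞) + μ D < _ from
    hs ▸ ENNReal.add_lt_top.2 ⟨by simp, fD.lt_top⟩)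
  have hG : MeasurableSet (⋃ i ∈ Finset.range m, A i) :=
    Finset.measurableSet_biUnion _ fun i _ => hA i
  have fG : μ (⋃ i ∈ Finset.range m, A i) ≠ ∞ :=
    ne_top_of_le_ne_top (ENNReal.sum_ne_top.2 fun i _ => fA i) (measure_biUnion_finset_le _ _)
  set G := ⋃ i ∈ Finset.range m, A i with hGd
  have sG : ∀ i, i < m → A i ⊆ G := fun i hi =>
    subset_biUnion_of_mem (u := A) (Finset.mem_coe.2 (Finset.mem_range.2 hi))
  have fY : μ (G \ D) ≠ ∞ := ne_top_of_le_ne_top fG (measure_mono sdiff_subset)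
  obtain ⟨Z, z1, z2, z3⟩ := exists_sub_eq (μ := μ) (hG.union hD).compl (measure_compl_top hinf
    (ne_top_of_le_ne_top (ENNReal.add_ne_top.2 ⟨fG, fD⟩) (measure_union_le _ _))) fY
  refine ⟨⟨G \ D, hG.diff hD, fY⟩, ⟨Z, z2, z3 ▸ fY⟩, z3.symm, disjoint_sdiff_left,
    disjoint_left.2 fun x h1 h2 => z1 h1 (Or.inr h2),
    disjoint_left.2 fun x h1 h2 => z1 h2 (Or.inl h1.1), m,
    fun i hi => disjoint_left.2 fun x h1 h2 => z1 h1 (Or.inl (sG i hi h2)), ?_⟩
  refine (ENNReal.add_le_add_iff_right fD).1 (hm.le.trans ?_)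
  calc _ ≤ ∑ i ∈ Finset.range m,
        (2⁻¹ ^ (i + 1) * μ (A i ∩ (G \ D)) + 2⁻¹ ^ (i + 1) * μ D) := by
        refine Finset.sum_le_sum fun i hi => ?_
        rw [← mul_add]
        gcongr
        refine le_trans (measure_mono fun x hx => ?_) (measure_union_le _ _)
        by_cases h : x ∈ D
        · exact Or.inr h
        · exact Or.inl ⟨hx, sG i (Finset.mem_range.1 hi) hx, h⟩
    _ ≤ _ := by
        rw [Finset.sum_add_distrib]
        gcongr
        refine (ENNReal.sum_le_tsum _).trans ?_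
        rw [ENNReal.tsum_mul_right, tsum_half, one_mul]

/-- If the Halmos distance is finite then the weighted measures are summable. -/
theorem summable_of_rho (hinf : μ univ = ∞) {A : ℕ → Set X} (hA : ∀ i, MeasurableSet (A i))
    (fA : ∀ i, μ (A i) ≠ ∞) (h : ∀ S T : X ≃ᵐ X, MeasurePreserving S μ μ →
      MeasurePreserving T μ μ → rho μ A S T ≠ ∞) : ∑' i, 2⁻¹ ^ (i + 1) * μ (A i) ≠ ∞ := by
  intro hs
  have : Nonempty X := by
    by_contra h
    rw [not_nonempty_iff] at h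
    simp [eq_empty_of_isEmpty] at hinf
  choose Y Z h1 h2 h3 h4 m h5 h6 using step_far hinf hA fA hs
  let D : ℕ → {D : Set X // MeasurableSet D ∧ μ D ≠ ∞} := fun k =>
    Nat.rec ⟨∅, MeasurableSet.empty, by simp⟩ (fun k D => ⟨D.1 ∪ ((Y k D).1 ∪ (Z k D).1),
      D.2.1.union ((Y k D).2.1.union (Z k D).2.1), ne_top_of_le_ne_top (ENNReal.add_ne_top.2
        ⟨D.2.2, ENNReal.add_ne_top.2 ⟨(Y k D).2.2, (Z k D).2.2⟩⟩)
          ((measure_union_le _ _).trans (add_le_add le_rfl (measure_union_le _ _)))⟩) k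
  have hD : ∀ k, (D (k + 1)).1 = (D k).1 ∪ ((Y k (D k)).1 ∪ (Z k (D k)).1) := fun k => rfl
  have mD : Monotone fun k => (D k).1 := monotone_nat_of_le_succ fun k => by
    rw [hD]; exact subset_union_left
  let W : ℕ × Bool → Set X := fun p => bif p.2 then (Y p.1 (D p.1)).1 else (Z p.1 (D p.1)).1
  have hW : ∀ p, MeasurableSet (W p) := by
    rintro ⟨k, _ | _⟩
    exacts [(Z _ _).2.1, (Y _ _).2.1]
  have w1 : ∀ p, W p ⊆ (D (p.1 + 1)).1 := by
    rintro ⟨k, _ | _⟩ x hx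
    exacts [Or.inr (Or.inr hx), Or.inr (Or.inl hx)]
  have w2 : ∀ p, Disjoint (W p) (D p.1).1 := by
    rintro ⟨k, _ | _⟩
    exacts [h3 _ _, h2 _ _]
  have dW : Pairwise fun p q => Disjoint (W p) (W q) := by
    intro p q hpq
    rcases lt_trichotomy p.1 q.1 with hl | hl | hl
    · exact ((w2 q).mono_right ((w1 p).trans (mD hl))).symm
    · obtain ⟨k, b⟩ := p
      obtain ⟨l, c⟩ := q
      obtain rfl : k = l := hl
      rcases b with _ | _ <;> rcases c with _ | _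
      exacts [(hpq rfl).elim, (h4 _ _).symm, h4 _ _, (hpq rfl).elim]
    · exact (w2 p).mono_right ((w1 q).trans (mD hl))
  let P : Option (ℕ × Bool) → Set X := fun o => o.elim (⋃ p, W p)ᶜ W
  let σ : Option (ℕ × Bool) → Option (ℕ × Bool) := Option.map fun p => (p.1, !p.2)
  have hσ : Function.Involutive σ := by
    rintro (_ | ⟨k, b⟩) <;> simp [σ]
  have hP : ∀ o, MeasurableSet (P o) := by
    rintro (_ | p)
    exacts [(MeasurableSet.iUnion hW).compl, hW p]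
  have dP : Pairwise fun a b => Disjoint (P a) (P b) := by
    rintro (_ | a) (_ | b) hab
    · exact (hab rfl).elim
    · exact disjoint_left.2 fun x h1 h2 => h1 (mem_iUnion.2 ⟨b, h2⟩)
    · exact disjoint_left.2 fun x h1 h2 => h2 (mem_iUnion.2 ⟨a, h1⟩)
    · exact dW fun h => hab (congrArg _ h)
  have cP : ∀ x, x ∈ ⋃ o, P o := fun x => by
    by_cases h : x ∈ ⋃ a, W a
    · obtain ⟨a, ha⟩ := mem_iUnion.1 h
      exact mem_iUnion.2 ⟨some a, ha⟩
    · exact mem_iUnion.2 ⟨none, h⟩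
  obtain ⟨e, he⟩ := iso_parts (μ := μ) (ν := μ) (Q := fun o => P (σ o)) hP (fun o => hP _) dP
    (fun a b hab => dP fun h => hab (hσ.injective h)) (Eventually.of_forall cP)
    (Eventually.of_forall fun x => by
      obtain ⟨o, ho⟩ := mem_iUnion.1 (cP x)
      exact mem_iUnion.2 ⟨σ o, by rwa [hσ]⟩)
    (by
      rintro (_ | ⟨k, _ | _⟩)
      exacts [rfl, (h1 _ _).symm, h1 _ _])
  obtain ⟨R, hR⟩ := exists_au_of_ae e.mf e.mg e.fg e.gf
  refine h (MeasurableEquiv.refl X) R⁻¹.toME (MeasurePreserving.id μ) R⁻¹.mp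
    (ENNReal.eq_top_of_forall_nnreal_le fun r => ?_)
  obtain ⟨k, hk⟩ := exists_nat_ge r
  refine le_trans (show (r : ℝ≥0∞) ≤ k by exact_mod_cast hk) ((h6 k (D k)).trans
    (le_trans (Finset.sum_le_sum fun i hi => ?_) (ENNReal.sum_le_tsum _)))
  gcongr
  refine le_trans (measure_mono_ae ?_) le_self_add
  filter_upwards [hR, he (some (k, true))] with x a b hx
  refine Or.inl ⟨⟨x, hx.1, rfl⟩, ?_⟩
  rintro ⟨y, hy, rfl⟩
  have c := b hx.2
  rw [← a] at c
  refine disjoint_left.1 (h5 k (D k) i (Finset.mem_range.1 hi)) c ?_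
  show R (R⁻¹ y) ∈ A i
  rwa [Au.apply_inv_self]

end Pool.Agent.H964Z.Gen
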