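import Mathlib

set_option autoImplicit false
open MeasureTheory Set Filter Topology
open scoped ENNReal symmDiff

namespace Pool.Agent.H964Z.MixD

variable {X : Type*} [MeasurableSpace X]

/-- Mixing: `μ (Tⁿ A ∩ B) → 0` for all measurable `A`, `B` of finite measure. -/
def Mixing (μ : Measure X) (T : X ≃ᵐ X) : Prop :=
  ∀ A B : Set X, MeasurableSet A → MeasurableSet B → μ A ≠ ∞ → μ B ≠ ∞ →
    Tendsto (fun n : ℕ => μ ((T : X → X)^[n] '' A ∩ B)) atTop (𝓝 0)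

/-- The Halmos distance (the sets are numbered from `0`, so the weight of `A i` is
`2 ^ (-(i+1))`). -/
noncomputable def rho (μ : Measure X) (A : ℕ → Set X) (S T : X ≃ᵐ X) : ℝ≥0∞ :=
  ∑' i, 2⁻¹ ^ (i + 1) *
    (μ ((S '' A i) ∆ (T '' A i)) + μ ((S.symm '' A i) ∆ (T.symm '' A i)))

/-- The weak distance. -/
noncomputable def dw (μ : Measure X) (A : ℕ → Set X) (S T : X → X) : ℝ≥0∞ :=
  ∑' i, ∑' j, 2⁻¹ ^ ((i + 1) + (j + 1)) *
    ENNReal.ofReal |(μ (S '' A i ∩ A j)).toReal - (μ (T '' A i ∩ A j)).toReal|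

/-- The distance `r (S, T) = ρ (S, T) + sup_{n > 0} d_w (Sⁿ, Tⁿ)`. -/
noncomputable def rInf (μ : Measure X) (A : ℕ → Set X) (S T : X ≃ᵐ X) : ℝ≥0∞ :=
  rho μ A S T + ⨆ (n : ℕ) (_ : 0 < n), dw μ A (S : X → X)^[n] (T : X → X)^[n]

/-- The conjugate `R⁻¹ T R`. -/
def conj (T R : X ≃ᵐ X) : X ≃ᵐ X := R.trans (T.trans R.symm)

end Pool.Agent.H964Z.MixD
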