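import Pool.Agent.H964Z.MixB
import Pool.Agent.H964Z.MixDefs

set_option autoImplicit false
set_option linter.unusedSectionVars false
open MeasureTheory Set Filter Topology
open scoped ENNReal symmDiff

namespace Pool.Agent.H964Z.Gen

open Pool.Agent.H964Z.MixD

variable {X : Type*} [MeasurableSpace X] {μ : Measure X}

theorem Au.iter (T : Au μ) (n : ℕ) : (T : X → X)^[n] = ⇑(T ^ (n : ℤ)) := by
  induction n with
  | zero => simp [Au.coe_one]
  | succ n ih => rw [Function.iterate_succ, ih, Nat.cast_succ, zpow_add_one]; rfl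

theorem Au.measure_img (U : Au μ) {A B : Set X} (hA : MeasurableSet A) (hB : MeasurableSet B) :
    μ (U '' A ∩ B) = μ (A ∩ U ⁻¹' B) := by
  rw [← U.measure_pre (((U.image_eq A).symm ▸ U⁻¹.meas hA).inter hB), preimage_inter,
    preimage_image_eq _ U.injective]

theorem mx_of_mixing [StandardBorelSpace X] {T : X ≃ᵐ X} (hT : MeasurePreserving T μ μ) (h : Mixing μ T) :
    Mx (Au.ofEquiv T hT) := by
  intro A hA hf ε hε
  obtain ⟨N, hN⟩ := eventually_atTop.1 (ENNReal.tendsto_nhds_zero.1 (h A A hA hA hf hf) ε hε)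
  have key : ∀ n : ℕ, N ≤ n → cor (Au.ofEquiv T hT) A n ≤ ε := by
    intro n hn
    have := hN n hn
    rwa [show (T : X → X) = ⇑(Au.ofEquiv T hT) from rfl, Au.iter, Au.measure_img _ hA hA] at this
  refine ⟨N, fun i hi => ?_⟩
  obtain ⟨n, rfl | rfl⟩ := Int.eq_nat_or_neg i
  · exact key n (by simpa using hi)
  · rw [cor_neg _ hA]
    exact key n (by simpa using hi)

theorem sym_le (U V : Au μ) {A G : Set X} (hAG : A ⊆ G) {ε : ℝ≥0∞}
    (h : μ {x | x ∈ G ∧ U x ≠ V x} ≤ ε) : μ ((U '' A) ∆ (V '' A)) ≤ ε + ε := by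
  have k : ∀ W : Au μ, ∀ E : Set X, μ (W '' E) ≤ μ E := fun W E => by
    rw [W.image_eq]
    exact W⁻¹.mp.measure_preimage_le E
  calc _ ≤ μ (U '' {x | x ∈ G ∧ U x ≠ V x} ∪ V '' {x | x ∈ G ∧ U x ≠ V x}) := by
        refine measure_mono ?_
        rintro y (⟨⟨x, hx, rfl⟩, h2⟩ | ⟨⟨x, hx, rfl⟩, h2⟩)
        · exact Or.inl ⟨x, ⟨hAG hx, fun hc => h2 ⟨x, hx, hc.symm⟩⟩, rfl⟩
        · exact Or.inr ⟨x, ⟨hAG hx, fun hc => h2 ⟨x, hx, hc⟩⟩, rfl⟩
    _ ≤ ε + ε := (measure_union_le _ _).trans (add_le_add ((k _ _).trans h) ((k _ _).trans h))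

theorem abs_le_of {a b c : ℝ≥0∞} (ha : a ≠ ∞) (hb : b ≠ ∞) (h1 : a ≤ b + c) (h2 : b ≤ a + c) :
    ENNReal.ofReal |a.toReal - b.toReal| ≤ c := by
  by_cases hc : c = ∞
  · simp [hc]
  have k1 := ENNReal.toReal_mono (ENNReal.add_ne_top.2 ⟨hb, hc⟩) h1
  have k2 := ENNReal.toReal_mono (ENNReal.add_ne_top.2 ⟨ha, hc⟩) h2
  rw [ENNReal.toReal_add hb hc] at k1
  rw [ENNReal.toReal_add ha hc] at k2
  rw [← ENNReal.ofReal_toReal hc]
  exact ENNReal.ofReal_le_ofReal (abs_le.2 ⟨by linarith, by linarith⟩)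

theorem corr_le (U V : Au μ) {A B G : Set X} (hA : MeasurableSet A) (hB : MeasurableSet B)
    (hf : μ B ≠ ∞) (hAG : A ⊆ G) (hBG : B ⊆ G) {ε : ℝ≥0∞}
    (h : μ {x | x ∈ G ∧ (U x ∈ G ∨ V x ∈ G) ∧ U x ≠ V x} ≤ ε) :
    ENNReal.ofReal |(μ (U '' A ∩ B)).toReal - (μ (V '' A ∩ B)).toReal| ≤ ε := by
  refine abs_le_of (ne_top_of_le_ne_top hf (measure_mono inter_subset_right))
    (ne_top_of_le_ne_top hf (measure_mono inter_subset_right)) ?_ ?_
  all_goals
    rw [U.measure_img hA hB, V.measure_img hA hB]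
    refine le_trans (measure_mono ?_) ((measure_union_le _ _).trans (add_le_add le_rfl h))
    rintro x ⟨h1, h2⟩
    by_cases hx : U x = V x
  · exact Or.inl ⟨h1, by rwa [mem_preimage, ← hx]⟩
  · exact Or.inr ⟨hAG h1, Or.inl (hBG h2), hx⟩
  · exact Or.inl ⟨h1, by rwa [mem_preimage, hx]⟩
  · exact Or.inr ⟨hAG h1, Or.inr (hBG h2), hx⟩

theorem tsum_half : ∑' i : ℕ, (2⁻¹ : ℝ≥0∞) ^ (i + 1) = 1 := by
  rw [ENNReal.tsum_geometric_add_one, ENNReal.one_sub_inv_two, inv_inv]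
  exact ENNReal.inv_mul_cancel (by simp) (by simp)

theorem tsum_le_of {t a : ℕ → ℝ≥0∞} {m : ℕ} {c : ℝ≥0∞} (h1 : ∀ i, i < m → t i ≤ c)
    (h2 : ∀ i, t i ≤ a i) : ∑' i, 2⁻¹ ^ (i + 1) * t i ≤
      c + ∑' i, 2⁻¹ ^ (i + m + 1) * a (i + m) := by
  calc _ ≤ ∑' i, (2⁻¹ ^ (i + 1) * c + (if i < m then 0 else 2⁻¹ ^ (i + 1) * a i)) := by
        refine ENNReal.tsum_le_tsum fun i => ?_
        split_ifs with h
        · rw [add_zero]; gcongr; exact h1 i h
        · refine le_trans ?_ le_add_self; gcongr; exact h2 i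
    _ = _ := by
        rw [ENNReal.tsum_add, ENNReal.tsum_mul_right, tsum_half, one_mul,
          ← ENNReal.summable.sum_add_tsum_nat_add' (k := m), Finset.sum_eq_zero, zero_add]
        · simp
        · intro i hi
          rw [if_pos (Finset.mem_range.1 hi)]

variable [StandardBorelSpace X] [SigmaFinite μ] [NullSingletonClass μ]

theorem approx_sets (hinf : μ univ = ∞) {S T : X ≃ᵐ X} (hS : MeasurePreserving S μ μ)
    (hT : MeasurePreserving T μ μ) (mS : Mixing μ S) (mT : Mixing μ T) {G : Set X}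
    (hG : MeasurableSet G) (fG : μ G ≠ ∞) {ε : ℝ≥0∞} (hε : 0 < ε) :
    ∃ R : X ≃ᵐ X, MeasurePreserving R μ μ ∧ MeasurePreserving (conj T R) μ μ ∧
      (∀ A ⊆ G, μ ((S '' A) ∆ (conj T R '' A)) ≤ ε ∧
        μ ((S.symm '' A) ∆ ((conj T R).symm '' A)) ≤ ε) ∧
      ∀ A ⊆ G, ∀ B ⊆ G, MeasurableSet A → MeasurableSet B → ∀ n : ℕ,
        ENNReal.ofReal |(μ ((S : X → X)^[n] '' A ∩ B)).toReal -
          (μ ((conj T R : X → X)^[n] '' A ∩ B)).toReal| ≤ ε := by
  have : Nonempty X := by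
    by_contra h
    rw [not_nonempty_iff] at h
    simp [eq_empty_of_isEmpty] at hinf
  obtain ⟨R, h1, h2⟩ := approx hinf (mx_of_mixing hS mS) (mx_of_mixing hT mT) hG fG
    (ENNReal.half_pos hε.ne')
  refine ⟨R.toME, R.mp, (R⁻¹ * Au.ofEquiv T hT * R).mp, fun A hA => ⟨?_, ?_⟩,
    fun A hA B hB mA mB n => ?_⟩
  · have := sym_le _ _ hA (h1 1 (by simp))
    rwa [zpow_one, zpow_one, ENNReal.add_halves] at this
  · have := sym_le _ _ hA (h1 (-1) (by simp))
    rwa [zpow_neg_one, zpow_neg_one, ENNReal.add_halves] at this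
  · have := corr_le _ _ mA mB (ne_top_of_le_ne_top fG (measure_mono hB)) hA hB (h2 n)
    rwa [← Au.iter, ← Au.iter, ENNReal.add_halves] at this

theorem dense_conj (hinf : μ univ = ∞) {A : ℕ → Set X} (hA : ∀ i, MeasurableSet (A i))
    (hs : ∑' i, 2⁻¹ ^ (i + 1) * μ (A i) ≠ ∞) {S T : X ≃ᵐ X} (hS : MeasurePreserving S μ μ)
    (hT : MeasurePreserving T μ μ) (mS : Mixing μ S) (mT : Mixing μ T) {ε : ℝ≥0∞} (hε : 0 < ε) :
    ∃ R : X ≃ᵐ X, MeasurePreserving R μ μ ∧ rInf μ A S (conj T R) < ε := by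
  have fA : ∀ i, μ (A i) ≠ ∞ := fun i hi => ENNReal.ne_top_of_tsum_ne_top hs i (by
    rw [hi, ENNReal.mul_top (by simp)])
  obtain ⟨d, hd, hd2⟩ := ENNReal.exists_nnreal_pos_mul_lt (a := 9) (b := ε) (by simp) hε.ne'
  have hd' : (0 : ℝ≥0∞) < d := by exact_mod_cast hd
  obtain ⟨m, hm⟩ := (ENNReal.tendsto_nhds_zero.1 (ENNReal.tendsto_sum_nat_add _ hs) d hd').exists
  have hG : ∀ i, i < m → A i ⊆ ⋃ i ∈ Finset.range m, A i := fun i hi =>
    subset_biUnion_of_mem (u := A) (Finset.mem_coe.2 (Finset.mem_range.2 hi))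
  obtain ⟨R, h1, h2, h3, h4⟩ := approx_sets hinf hS hT mS mT
    (G := ⋃ i ∈ Finset.range m, A i) (Finset.measurableSet_biUnion _ fun i _ => hA i)
    (ne_top_of_le_ne_top (ENNReal.sum_ne_top.2 fun i _ => fA i) (measure_biUnion_finset_le _ _))
    hd'
  have im : ∀ U : X ≃ᵐ X, MeasurePreserving U μ μ → ∀ E, μ (U '' E) ≤ μ E := fun U hU E => by
    rw [MeasurableEquiv.image_eq_preimage_symm]
    exact (hU.symm U).measure_preimage_le E
  have sy : ∀ U V : X ≃ᵐ X, MeasurePreserving U μ μ → MeasurePreserving V μ μ → ∀ E,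
      μ ((U '' E) ∆ (V '' E)) ≤ μ E + μ E := fun U V hU hV E =>
    (measure_mono symmDiff_subset_union).trans
      ((measure_union_le _ _).trans (add_le_add (im U hU E) (im V hV E)))
  refine ⟨R, h1, lt_of_le_of_lt (le_trans (add_le_add (b := (d : ℝ≥0∞) + d + 4 * d)
    (d := (d : ℝ≥0∞) + d + d) ?_ ?_) (le_of_eq (by ring))) hd2⟩
  · refine (tsum_le_of (m := m) (c := d + d) (a := fun i => 4 * μ (A i))
      (fun i hi => add_le_add (h3 _ (hG i hi)).1 (h3 _ (hG i hi)).2) fun i => ?_).trans ?_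
    · exact (add_le_add (sy _ _ hS h2 _) (sy _ _ (hS.symm S) (h2.symm _) _)).trans
        (le_of_eq (by ring))
    · simp only [mul_left_comm _ (4 : ℝ≥0∞), ENNReal.tsum_mul_left]
      gcongr
  · refine iSup₂_le fun n _ => ?_
    have b1 : ∀ i j, ENNReal.ofReal |(μ ((S : X → X)^[n] '' A i ∩ A j)).toReal -
        (μ ((conj T R : X → X)^[n] '' A i ∩ A j)).toReal| ≤ min (μ (A i)) (μ (A j)) := by
      intro i j
      have : ∀ U : X ≃ᵐ X, MeasurePreserving U μ μ →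
          μ ((U : X → X)^[n] '' A i ∩ A j) ≤ min (μ (A i)) (μ (A j)) := by
        intro U hU
        refine le_min ?_ (measure_mono inter_subset_right)
        rw [show (U : X → X) = ⇑(Au.ofEquiv U hU) from rfl, Au.iter,
          Au.measure_img _ (hA i) (hA j)]
        exact measure_mono inter_subset_left
      exact abs_le_of (ne_top_of_le_ne_top (fA j) (measure_mono inter_subset_right))
        (ne_top_of_le_ne_top (fA j) (measure_mono inter_subset_right))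
        ((this S hS).trans le_add_self) ((this _ h2).trans le_add_self)
    unfold dw
    simp only [pow_add _ (_ + 1), mul_assoc, ENNReal.tsum_mul_left]
    refine (tsum_le_of (m := m) (c := d + d) (a := fun i => μ (A i))
      (fun i hi => ?_) fun i => ?_).trans (add_le_add le_rfl hm)
    · exact (tsum_le_of (m := m) (c := d) (a := fun j => μ (A j))
        (fun j hj => h4 _ (hG i hi) _ (hG j hj) (hA i) (hA j) n)
        fun j => (b1 i j).trans (min_le_right _ _)).trans (add_le_add le_rfl hm)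
    · calc _ ≤ ∑' j : ℕ, (2⁻¹ : ℝ≥0∞) ^ (j + 1) * μ (A i) :=
            ENNReal.tsum_le_tsum fun j => by gcongr; exact (b1 i j).trans (min_le_left _ _)
        _ = μ (A i) := by rw [ENNReal.tsum_mul_right, tsum_half, one_mul]

end Pool.Agent.H964Z.Gen
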