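import Pool.Agent.H964Z.SpFin

set_option autoImplicit false
set_option linter.unusedSectionVars false
open MeasureTheory Set Filter Topology
open scoped ENNReal symmDiff

namespace Pool.Agent.H964Z.Sp

open Pool.Agent.H964Z.Gen

variable {X : Type} [MetricSpace X] [SecondCountableTopology X] [MeasurableSpace X] [BorelSpace X]
  {μ : Measure X} [IsProbabilityMeasure μ]

/-- How much `g` moves `A`. -/
noncomputable def mv (A : Set X) (g : Gb μ) : ℝ := (ds g A A).toReal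

theorem mv_le {A : Set X} (g h : Gb μ) : mv A g ≤ mv A h + (Gen.sq A g h).toReal := by
  rw [mv, mv, ds, ds, Gen.sq, sd,
    ← ENNReal.toReal_add (measure_ne_top _ _) (measure_ne_top _ _), add_comm]
  exact ENNReal.toReal_mono (ENNReal.add_ne_top.2 ⟨measure_ne_top _ _, measure_ne_top _ _⟩)
    (measure_symmDiff_le _ _ _)

theorem mv_cont {A : Set X} (hA : MeasurableSet A) : Continuous (mv (μ := μ) A) := by
  rw [continuous_iff_continuousAt]
  intro g
  have h := (ENNReal.tendsto_toReal ENNReal.zero_ne_top).comp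
    (tendsto_gb_iff.1 (tendsto_id (x := 𝓝 g)) A hA (measure_ne_top _ _))
  rw [ContinuousAt, tendsto_iff_norm_sub_tendsto_zero]
  refine squeeze_zero (fun _ => norm_nonneg _) (fun g' => ?_) h
  have h1 := mv_le (A := A) g' g
  have h2 := mv_le (A := A) g g'
  rw [sq_comm] at h2
  exact abs_le.2 ⟨by simp only [Function.comp, id]; linarith,
    by simp only [Function.comp, id]; linarith⟩

theorem ds_inv (g : Gb μ) {A B : Set X} (hA : MeasurableSet A) (hB : MeasurableSet B) :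
    ds g⁻¹ A B = ds g B A := by
  rw [ds, ds, ← (rep g).measure_pre (((rep _).meas hA).symmDiff hB), preimage_symmDiff,
    symmDiff_comm]
  refine measure_congr (EventuallyEq.rfl.symmDiff ?_)
  have a1 := pre_congr (rep_mul g⁻¹ g) A
  rw [inv_mul_cancel] at a1
  exact a1.symm.trans (pre_congr rep_one A)

theorem ds_compl (g : Gb μ) {A : Set X} (hA : MeasurableSet A) : ds g A Aᶜ = 1 - ds g A A := by
  rw [ds, ds, ← prob_compl_eq_one_sub (((rep g).meas hA).symmDiff hA)]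
  congr 1
  ext x
  simp only [mem_symmDiff, mem_compl_iff]
  tauto

variable [CompleteSpace X] [NullSingletonClass μ]

theorem dense_inv (T : Gb μ) {V : Set (Gb μ)} (hV : V ∈ 𝓝 T) (k : ℤ) {A : Set X}
    (hA : MeasurableSet A) : ∃ ℓ : ℝ, 0 < ℓ ∧ Irrational ℓ ∧ ∃ Φ : C(ℝ, Gb μ), IsFlow Φ ∧ Mod ℓ Φ ∧
      Φ 1 ∈ V ∧ mv A (Φ (ℓ / 2)) = mv A (T ^ k) := by
  have := nonempty_of_isProbabilityMeasure μ
  obtain ⟨𝒜, h𝒜, δ, hδ, hsub⟩ := exists_nbhd T hV
  obtain ⟨d, hd, hd2⟩ := exists_small hδ 1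
  have h𝒜' := (h𝒜.union (h𝒜.pre (finite_singleton T))).union (ℬ := {A, Aᶜ})
    ⟨toFinite _, by rintro _ (rfl | rfl); exacts [⟨hA, measure_ne_top _ _⟩,
      ⟨hA.compl, measure_ne_top _ _⟩]⟩
  obtain ⟨ℓ, hℓ, hirr, hb⟩ := h𝒜'.bound hd 1
  obtain ⟨Φ, hΦ, hM, h1, h2⟩ := build T Int.measurable_floor k h𝒜' hℓ
  refine ⟨ℓ, hℓ, hirr, Φ, hΦ, hM, hsub _ fun B hB => ?_, 
    congrArg ENNReal.toReal (le_antisymm ?_ ?_)⟩
  · have hB' : rep T ⁻¹' B ∈ 𝒜 ∪ image2 (fun g A => rep g ⁻¹' A) {T} 𝒜 :=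
      Or.inr (mem_image2_of_mem rfl hB)
    have h2 := h1 1 B (Or.inl (Or.inl hB)) _ (Or.inl hB') 0 fun v => by
      rw [Int.floor_add_one, add_sub_cancel_left, zpow_one, ds_pre, sq_self]
    rw [ds_pre, zero_add] at h2
    refine (h2.trans (hb 1 (by simp) B (Or.inl (Or.inl hB)) _ (Or.inl hB'))).trans_lt ?_
    simpa using hd2
  · exact h2 A (Or.inr (by simp)) A (Or.inr (by simp)) _ le_rfl
      (by rw [zpow_neg, ds_inv _ hA hA])
  · have h3 := h2 A (Or.inr (by simp)) Aᶜ (Or.inr (by simp)) _ le_rfl (by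
      rw [zpow_neg, ds_inv _ hA hA.compl, ds, ds, preimage_compl]
      refine le_of_eq (congrArg _ ?_)
      ext x
      simp only [mem_symmDiff, mem_compl_iff]
      tauto)
    rw [ds_compl _ hA, ds_compl _ hA] at h3
    exact (ENNReal.sub_le_sub_iff_left prob_le_one ENNReal.one_ne_top).1 h3

theorem exists_moving {d : Type} [Fintype d] {A : Set (Tor d)} (hA : MeasurableSet A) :
    ∃ g : Tor d, tm d A * tm d Aᶜ + tm d A * tm d Aᶜ ≤ tm d (((fun x => x + g) ⁻¹' A) ∆ A) := by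
  have : BorelSpace (Tor d × Tor d) := Prod.borelSpace
  have h1 := mp_hom ((tm d).prod (tm d)) ((tm d).prod (tm d)) (f := fun p => (p.2 + p.1, p.2))
    (fun x y => by simp only [Prod.fst_add, Prod.snd_add, Prod.mk_add_mk]; abel_nf) (by fun_prop)
    fun p => ⟨(p.1 - p.2, p.2), by simp⟩
  have hS : MeasurableSet (A ×ˢ Aᶜ ∪ Aᶜ ×ˢ A) := (hA.prod hA.compl).union (hA.compl.prod hA)
  have h2 := h1.measure_preimage hS.nullMeasurableSet
  rw [Measure.prod_apply (h1.measurable hS), measure_union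
    (disjoint_left.2 fun p a b => b.1 a.1) (hA.compl.prod hA), Measure.prod_prod,
    Measure.prod_prod, mul_comm (tm d Aᶜ)] at h2
  obtain ⟨g, hg⟩ := exists_lintegral_le (μ := tm d) (h2 ▸ ENNReal.add_ne_top.2
    ⟨ENNReal.mul_ne_top (measure_ne_top _ _) (measure_ne_top _ _),
      ENNReal.mul_ne_top (measure_ne_top _ _) (measure_ne_top _ _)⟩)
  refine ⟨g, (h2.symm.trans_le hg).trans (measure_mono ?_)⟩
  rintro x (h | h)
  exacts [Or.inl h, Or.inr ⟨h.2, h.1⟩]

theorem dense_move (T : Gb μ) {V : Set (Gb μ)} (hV : V ∈ 𝓝 T) {A : Set X}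
    (hA : MeasurableSet A) (hc0 : 0 < μ.real A * μ.real Aᶜ) :
    ∃ Φ : C(ℝ, Gb μ), IsFlow Φ ∧ (∃ ℓ, Irrational ℓ ∧ Φ ℓ = 1) ∧ Φ 1 ∈ V ∧
      ∃ t, mv A (Φ t) = μ.real A * μ.real Aᶜ := by
  have := nonempty_of_isProbabilityMeasure μ
  obtain ⟨ℓ, hℓ, hirr, S, -, hM, h1⟩ := dense_mod T (interior_mem_nhds.2 hV)
  obtain ⟨e, he⟩ := mod_torus hM
  obtain ⟨L, η, δ, hL, hη, -, hU⟩ := nbhd_metric e S (U := {R | R 1 ∈ interior V})
    ((isOpen_interior.preimage (by fun_prop)).mem_nhds h1)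
  have hA' := e.mg.measurable hA
  obtain ⟨g, hg⟩ := exists_moving hA'
  rw [← preimage_compl, e.mg.measure_preimage hA.nullMeasurableSet,
    e.mg.measure_preimage hA.compl.nullMeasurableSet] at hg
  have hc1 : 0 < μ A * μ Aᶜ := by
    rw [measureReal_def, measureReal_def, ← ENNReal.toReal_mul] at hc0
    exact (ENNReal.toReal_pos_iff.1 hc0).1
  obtain ⟨η', hη', h2⟩ := close (ν := tm (Fin 2)) hA' hc1
  obtain ⟨D, hD⟩ := exists_nat_gt (max (L / ℓ / η) (2 / η'))
  have hD0 : (0 : ℝ) < D := lt_of_le_of_lt (by positivity) hD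
  let θ : Fin 2 → ℝ := ![1 / D, 1]
  let R : ℝ → Tor (Fin 2) → Tor (Fin 2) := fun t x =>
    x + fun i => ((t / ℓ * θ i : ℝ) : UnitAddCircle)
  have hR : ∀ t, MeasurePreserving (R t) (tm _) (tm _) := fun t => measurePreserving_add_right _ _
  have h0 : ∀ x, R 0 x = x := fun x => funext fun i => by simp [R]
  obtain ⟨Φ, hΦ, hrep⟩ := exists_flow_of_model e hR (fun s t x => funext fun i => by
    simp only [R, add_div, add_mul, AddCircle.coe_add, Pi.add_apply]; abel) h0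
    (cont_of_continuous hR h0 (by
      refine continuous_snd.add (continuous_pi fun i => ?_)
      exact (AddCircle.continuous_mk' 1).comp (by fun_prop)))
  refine ⟨Φ, hΦ, ⟨D * ℓ, hirr.natCast_mul (by exact_mod_cast hD0.ne'), ?_⟩,
    interior_subset (hU Φ fun t ht => ⟨∅, by simp, ?_⟩), ?_⟩
  · rw [gb_eq_iff]
    filter_upwards [hrep (D * ℓ), e.gf, rep_one (μ := μ)] with x a1 a2 a3
    rw [a1, a3, Au.one_apply]
    convert a2 using 2
    funext i
    simp only [R, Pi.add_apply, add_eq_left, AddCircle.coe_eq_zero_iff,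
      mul_div_cancel_right₀ _ hℓ.ne']
    fin_cases i
    · exact ⟨1, by simp [θ, hD0.ne']⟩
    · exact ⟨D, by simp [θ]⟩
  · filter_upwards [hrep t, he t, ((hR t).comp e.mf).quasiMeasurePreserving.ae e.fg,
      ((measurePreserving_add_right (tm (Fin 2)) fun i =>
        ((t / ℓ * (![0, 1] : Fin 2 → ℤ) i : ℝ) : UnitAddCircle)).comp
          e.mf).quasiMeasurePreserving.ae e.fg] with x a1 a2 a3 a4 _
    simp only [Function.comp] at a3 a4
    rw [a1, a2, a3, a4, dist_add_left]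
    refine (dist_pi_lt_iff hη).2 fun i => ?_
    fin_cases i
    · simp only [θ, Fin.zero_eta, Matrix.cons_val_zero, Int.cast_zero, mul_zero,
        AddCircle.coe_zero, dist_zero_right]
      refine (norm_coe_le _).trans_lt ?_
      have h3 := (le_max_left _ _).trans_lt hD
      rw [div_lt_iff₀ hη] at h3
      rw [abs_mul, abs_div, abs_of_pos hℓ, abs_of_pos (show (0 : ℝ) < 1 / D by positivity),
        mul_one_div, div_lt_iff₀ hD0]
      calc _ ≤ L / ℓ := by gcongr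
        _ < _ := by linarith
    · simpa [θ] using hη
  · refine intermediate_value_univ 0 (ℓ * (⌊D * lift (g 0)⌋ + lift (g 1)))
      ((mv_cont hA).comp Φ.continuous) ⟨?_, ?_⟩
    · simp only [Function.comp, hΦ.zero, mv, ds]
      rw [measure_congr ((pre_congr rep_one A).symmDiff EventuallyEq.rfl)]
      simpa [Au.coe_one] using hc0.le
    · set t := ℓ * (⌊D * lift (g 0)⌋ + lift (g 1)) with ht
      have k1 : ds (Φ t) A A = tm (Fin 2) ((R t ⁻¹' (e.g ⁻¹' A)) ∆ (e.g ⁻¹' A)) :=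
        model_measure e e.mg.measurable (hR t) (hrep t) hA hA
          (e.gf.mono fun x hx => by rw [hx]) (e.gf.mono fun x hx => by rw [hx])
      have k2 := h2 (measurePreserving_add_right (tm (Fin 2)) g) (hR t) ∅
        (Eventually.of_forall fun x _ => by
          rw [dist_add_left]
          refine (dist_pi_lt_iff hη').2 fun i => ?_
          rw [ht, mul_div_cancel_left₀ _ hℓ.ne', dist_eq_norm]
          fin_cases i
          · simp only [θ, Fin.zero_eta, Matrix.cons_val_zero]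
            conv_lhs => rw [← coe_lift (g 0), ← AddCircle.coe_sub]
            rw [lift_coe (lift_nonneg _) (lift_lt _)]
            refine (norm_coe_le _).trans_lt ?_
            have h3 := (le_max_right _ _).trans_lt hD
            rw [div_lt_iff₀ hη'] at h3
            rw [show lift (g 0) - (⌊D * lift (g 0)⌋ + lift (g 1)) * (1 / D) =
              (Int.fract (D * lift (g 0)) - lift (g 1)) / D by
                rw [Int.fract]; field_simp; ring, abs_div, abs_of_pos hD0, div_lt_iff₀ hD0, abs_lt]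
            have := Int.fract_nonneg (D * lift (g 0))
            have := Int.fract_lt_one (D * lift (g 0))
            have := lift_nonneg (g 1)
            have := lift_lt (g 1)
            constructor <;> linarith
          · have h3 : ((⌊D * lift (g 0)⌋ : ℝ) : UnitAddCircle) = 0 :=
              (AddCircle.coe_eq_zero_iff _).2 ⟨⌊D * lift (g 0)⌋, by simp⟩
            simpa [θ, h3, coe_lift] using hη')
      rw [measure_empty, add_zero] at k2
      have k3 := hg.trans ((measure_symmDiff_le _ (R t ⁻¹' (e.g ⁻¹' A)) _).trans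
        (add_le_add k2 k1.ge))
      rw [ENNReal.add_le_add_iff_left
        (ENNReal.mul_ne_top (measure_ne_top _ _) (measure_ne_top _ _))] at k3
      rw [measureReal_def, measureReal_def, ← ENNReal.toReal_mul]
      exact ENNReal.toReal_mono (measure_ne_top _ _) k3

theorem generic_move {A : Set X} (hA : MeasurableSet A) (hc0 : 0 < μ.real A * μ.real Aᶜ) :
    {T : Gb μ | ∃ J : Gb μ, J * J = 1 ∧ J ∈ closure (range fun k : ℤ => T ^ k) ∧
      μ.real A * μ.real Aᶜ / 2 ≤ mv A J ∧ mv A J ≤ 1 / 2} ∈ residual (Gb μ) := by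
  have := nonempty_of_isProbabilityMeasure μ
  let O : Set (Gb μ) := mv A ⁻¹' Ioo (μ.real A * μ.real Aᶜ / 2) (1 / 2)
  have hO : IsOpen O := isOpen_Ioo.preimage (mv_cont hA)
  let L : Set (C(ℝ, Gb μ) × Gb μ) :=
    {p | ∃ ℓ : ℝ, 0 < ℓ ∧ Irrational ℓ ∧ IsFlow p.1 ∧ Mod ℓ p.1 ∧ p.2 = p.1 (ℓ / 2) ∧ p.2 ∈ O}
  have hJJ : ∀ p ∈ L, p.2 * p.2 = 1 := by
    rintro p ⟨ℓ, hℓ, -, hf, hM, hp, -⟩
    rw [hp, ← hf, add_halves, hM.period hℓ]
  have key := dougherty (E := C(ℝ, Gb μ) × Gb μ) (Y := Gb μ) (π := fun p => p.1 1) (by fun_prop)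
    (L := L) ?_ ?_ (D := fun n => ⋃ k : ℤ, {p | edist p.2 (p.1 1 ^ k) < (n : ℝ≥0∞)⁻¹})
    (fun n => isOpen_iUnion fun k => isOpen_lt (by fun_prop) continuous_const) ?_
  · refine mem_of_superset key ?_
    rintro T ⟨p, hp, hD, rfl⟩
    have hcl : IsClosed {p : C(ℝ, Gb μ) × Gb μ | p.2 * p.2 = 1 ∧
        μ.real A * μ.real Aᶜ / 2 ≤ mv A p.2 ∧ mv A p.2 ≤ 1 / 2} :=
      (isClosed_eq (by fun_prop) continuous_const).inter
        ((isClosed_le continuous_const ((mv_cont hA).comp continuous_snd)).inter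
          (isClosed_le ((mv_cont hA).comp continuous_snd) continuous_const))
    have := hcl.closure_subset_iff.2 (show L ⊆ _ from fun p hp => ⟨hJJ p hp,
      hp.choose_spec.2.2.2.2.2.1.le, hp.choose_spec.2.2.2.2.2.2.le⟩) hp
    refine ⟨p.2, this.1, EMetric.mem_closure_iff.2 fun ε hε => ?_, this.2⟩
    obtain ⟨n, hn⟩ := ENNReal.exists_inv_nat_lt hε.ne'
    obtain ⟨k, hk⟩ := mem_iUnion.1 (hD n)
    exact ⟨_, ⟨k, rfl⟩, hk.trans hn⟩
  · intro T
    rw [mem_closure_iff_nhds]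
    intro V hV
    obtain ⟨Ψ, hΨ, ⟨ℓ, hirr, hp⟩, h1, t, ht⟩ := dense_move T (interior_mem_nhds.2 hV) hA hc0
    have h2 : μ.real A + μ.real Aᶜ = 1 := by
      rw [measureReal_add_measureReal_compl (μ := μ) hA]; simp
    obtain ⟨k, hk⟩ := mono_of_period hΨ hirr hp 0 t (hO.mem_nhds ⟨by rw [ht]; linarith,
      by rw [ht]; nlinarith [sq_nonneg (μ.real A - μ.real Aᶜ)]⟩)
    rw [sub_zero, ← mul_one (k : ℝ), hΨ.zsmul] at hk
    obtain ⟨ℓ', a1, a2, Φ, a3, a4, a5, a6⟩ := dense_inv (Ψ 1)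
      (mem_interior_iff_mem_nhds.1 h1) k hA
    exact ⟨_, a5, (Φ, Φ (ℓ' / 2)), ⟨ℓ', a1, a2, a3, a4, rfl, by
      show mv A (Φ (ℓ' / 2)) ∈ Ioo _ _
      rw [a6]; exact hk⟩, rfl⟩
  · rintro ⟨S, J⟩ hp U hU
    have hJ := hJJ _ hp
    obtain ⟨ℓ, hℓ, hirr, hf, hM, hp, hJO⟩ := hp
    obtain ⟨U1, hU1, U2, hU2, hsub⟩ := mem_nhds_prod_iff.1 hU
    simp only at hp hf hM hJ hJO
    have h1 := core hf (fun u V hV => mono_of_period hf hirr (hM.period hℓ) u 0
        (by rwa [hf.zero])) (J := J) (inv_eq_of_mul_eq_one_right hJ)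
      (fun V hV => by
        simpa using mono_of_period hf hirr (hM.period hℓ) 0 (ℓ / 2) (by rwa [← hp])) hU1
      (inter_mem hU2 (hO.mem_nhds hJO))
    filter_upwards [h1] with T hT
    rw [mem_closure_iff_nhds]
    intro V hV
    obtain ⟨ℓ', hℓ', hirr', Φ, hΦ, hM', a1, a2, a3⟩ := hT V hV
    exact ⟨_, a3, (Φ, Φ (ℓ' / 2)), ⟨hsub ⟨a1, a2.1⟩, ℓ', hℓ', hirr', hΦ, hM', rfl, a2.2⟩, rfl⟩
  · intro n p hp
    refine subset_closure ⟨?_, hp⟩
    obtain ⟨ℓ, hℓ, hirr, hf, hM, hp, -⟩ := hp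
    obtain ⟨k, hk⟩ := mono_of_period hf hirr (hM.period hℓ) 0 (ℓ / 2)
      (Metric.eball_mem_nhds _ (show 0 < (n : ℝ≥0∞)⁻¹ by simp))
    rw [sub_zero, ← mul_one (k : ℝ), hf.zsmul, ← hp, Metric.mem_eball, edist_comm] at hk
    exact mem_iUnion.2 ⟨k, hk⟩

end Pool.Agent.H964Z.Sp
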