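import Pool.Agent.H964Z.PrimeA

set_option autoImplicit false
set_option linter.unusedSectionVars false
open MeasureTheory Set Filter Topology
open scoped ENNReal symmDiff

namespace Pool.Agent.H964Z.Sp

open Pool.Agent.H964Z.Gen

variable {X : Type} (F : MeasurableSpace X) [MetricSpace X] [SecondCountableTopology X]
  [m : MeasurableSpace X] [BorelSpace X] {μ : Measure X} [IsProbabilityMeasure μ]

theorem mv_set {A B : Set X} (hA : MeasurableSet A) (hB : MeasurableSet B) (g : Gb μ) :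
    mv A g ≤ mv B g + 2 * μ.real (A ∆ B) := by
  have h1 := measureReal_symmDiff_le (μ := μ) (s := rep g ⁻¹' A) (t := rep g ⁻¹' B) A
    (measure_ne_top _ _) (measure_ne_top _ _)
  have h2 := measureReal_symmDiff_le (μ := μ) (s := rep g ⁻¹' B) (t := B) A
    (measure_ne_top _ _) (measure_ne_top _ _)
  have h3 : μ.real ((rep g ⁻¹' A) ∆ (rep g ⁻¹' B)) = μ.real (A ∆ B) := by
    rw [← preimage_symmDiff, measureReal_def, (rep g).measure_pre (hA.symmDiff hB),
      measureReal_def]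
  rw [symmDiff_comm B A] at h2
  show μ.real _ ≤ μ.real _ + _
  linarith

/-- `g` pulls `F` back into `F` up to null sets. -/
def InvF (g : Gb μ) : Prop :=
  ∀ s, MeasurableSet[F] s → ∃ t, MeasurableSet[F] t ∧ rep g ⁻¹' s =ᵐ[μ] t

theorem pre_mul (g h : Gb μ) (s : Set X) : rep (g * h) ⁻¹' s =ᵐ[μ] rep h ⁻¹' (rep g ⁻¹' s) :=
  pre_congr (rep_mul g h) s

theorem pre_ae (g : Gb μ) {s t : Set X} (h : s =ᵐ[μ] t) : rep g ⁻¹' s =ᵐ[μ] rep g ⁻¹' t :=
  (rep g).mp.quasiMeasurePreserving.preimage_ae_eq h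

variable {F}

theorem InvF.mul {g h : Gb μ} (hg : InvF F g) (hh : InvF F h) : InvF F (g * h) := by
  intro s hs
  obtain ⟨t, ht, e1⟩ := hg s hs
  obtain ⟨u, hu, e2⟩ := hh t ht
  exact ⟨u, hu, (pre_mul g h s).trans ((pre_ae h e1).trans e2)⟩

theorem InvF.zpow {g : Gb μ} (h1 : InvF F g) (h2 : InvF F g⁻¹) (k : ℤ) : InvF F (g ^ k) := by
  induction k using Int.induction_on with
  | zero => exact fun s hs => ⟨s, hs, by rw [zpow_zero]; exact pre_congr rep_one s⟩
  | succ n ih => rw [zpow_add_one]; exact ih.mul h1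
  | pred n ih => rw [zpow_sub_one]; exact ih.mul h2

theorem InvF.closure (hF : F ≤ m) {S : Set (Gb μ)} (hS : ∀ g ∈ S, InvF F g) {J : Gb μ}
    (hJ : J ∈ closure S) : InvF F J := by
  intro s hs
  obtain ⟨ε, hε, hsum⟩ := ENNReal.exists_pos_sum_of_countable one_ne_zero ℕ
  have h : ∀ n, ∃ t, MeasurableSet[F] t ∧ μ (t ∆ (rep J ⁻¹' s)) ≤ ε n := fun n => by
    obtain ⟨g, h1, h2⟩ := mem_closure_iff_nhds.1 hJ _
      (sq_lt_mem_nhds (hF s hs) (measure_ne_top _ _) J (δ := ε n) (by simpa using hε n))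
    obtain ⟨t, ht, e⟩ := hS g h2 s hs
    exact ⟨t, ht, (measure_congr (e.symm.symmDiff EventuallyEq.rfl)).trans_le (le_of_lt h1)⟩
  choose t ht hle using h
  refine ⟨liminf t atTop, @MeasurableSet.measurableSet_liminf X F t ht, ?_⟩
  filter_upwards [ae_eventually_notMem (μ := μ) (s := fun n => t n ∆ (rep J ⁻¹' s))
    ((ENNReal.tsum_le_tsum hle).trans_lt (hsum.trans ENNReal.one_lt_top)).ne] with x hx
  refine propext (Iff.trans ?_ mem_liminf_iff_eventually_mem.symm)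
  show x ∈ rep J ⁻¹' s ↔ _
  constructor
  · intro h
    filter_upwards [hx] with n hn
    by_contra h'
    exact hn (Or.inr ⟨h, h'⟩)
  · intro h
    obtain ⟨n, h1, h2⟩ := (h.and hx).exists
    by_contra h'
    exact h2 (Or.inl ⟨h1, h'⟩)

variable (F) in
/-- The sets of `F` fixed by `J`. -/
@[reducible] def fixA (J : Gb μ) : MeasurableSpace X where
  MeasurableSet' := fun A => MeasurableSet[F] A ∧ rep J ⁻¹' A =ᵐ[μ] A
  measurableSet_empty := ⟨@MeasurableSet.empty X F, by simp⟩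
  measurableSet_compl := fun A hA => ⟨hA.1.compl, hA.2.compl⟩
  measurableSet_iUnion := fun f hf => ⟨MeasurableSet.iUnion fun i => (hf i).1, by
    rw [preimage_iUnion]
    exact Filter.EventuallyEq.countable_iUnion fun i => (hf i).2⟩

theorem InvF.fix {g J : Gb μ} (hg : InvF F g) (hc : J * g = g * J) : InvF (fixA F J) g := by
  intro s hs
  obtain ⟨t, ht, e⟩ := hg s hs.1
  refine ⟨t, ⟨ht, ?_⟩, e⟩
  have h1 := pre_mul g J s
  rw [← hc] at h1
  exact (pre_ae J e.symm).trans (h1.symm.trans ((pre_mul J g s).trans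
    ((pre_ae g hs.2).trans e)))

theorem not_prime (hF : F ≤ m) {T J : Gb μ} (h1 : InvF F T) (h2 : InvF F T⁻¹) {s : Set X}
    (hs : MeasurableSet[F] s) (hJ : J * J = 1) (hc : J ∈ closure (range fun k : ℤ => T ^ k))
    (h0 : 0 < mv s J) (h3 : mv s J < 1) :
    ∃ G : MeasurableSpace X, G ≤ F ∧ InvF (m := m) G T ∧ InvF (m := m) G T⁻¹ ∧
      (∃ s, MeasurableSet[G] s ∧ 0 < μ s ∧ μ s < 1) ∧
      ∃ s, MeasurableSet[F] s ∧ ∀ t, MeasurableSet[G] t → μ (s ∆ t) ≠ 0 := by
  have hI : InvF F J := InvF.closure hF (by rintro _ ⟨k, rfl⟩; exact h1.zpow h2 k) hc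
  have hcom : Commute J T := (isClosed_eq (f := fun J => J * T) (g := fun J => T * J)
    (by fun_prop) (by fun_prop)).closure_subset_iff.2
      (by rintro _ ⟨k, rfl⟩; exact (Commute.refl T).zpow_left k) hc
  obtain ⟨t, ht, e⟩ := hI s hs
  have hm : μ (t ∆ s) = ds J s s := measure_congr (e.symm.symmDiff EventuallyEq.rfl)
  refine ⟨fixA F J, fun s hs => hs.1, h1.fix hcom, h2.fix hcom.inv_right,
    ⟨t ∆ s, ⟨ht.symmDiff hs, ?_⟩, ?_, ?_⟩, s, hs, fun u hu h => h0.ne' ?_⟩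
  · rw [preimage_symmDiff, symmDiff_comm t]
    refine EventuallyEq.symmDiff ((pre_ae J e.symm).trans ((pre_mul J J s).symm.trans ?_)) e
    rw [hJ]
    exact pre_congr rep_one s
  · rw [hm]
    exact (ENNReal.toReal_pos_iff.1 h0).1
  · rw [hm, ds, ← ENNReal.toReal_lt_toReal (measure_ne_top _ _) ENNReal.one_ne_top]
    exact h3
  · rw [measure_symmDiff_eq_zero_iff] at h
    rw [mv, ds, measure_symmDiff_eq_zero_iff.2 ((pre_ae J h).trans (hu.2.trans h.symm))]
    rfl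

theorem generic_all [CompleteSpace X] [NullSingletonClass μ] : ∀ᶠ T in residual (Gb μ),
    ∀ s : Set X, MeasurableSet s → 0 < μ s → μ s < 1 → ∃ J : Gb μ, J * J = 1 ∧
      J ∈ closure (range fun k : ℤ => T ^ k) ∧ 0 < mv s J ∧ mv s J < 1 := by
  obtain ⟨𝒜, hc, hd⟩ := exists_countable_measureDense (μ := μ)
  have hc' : (𝒜 ∩ {A | 0 < μ.real A * μ.real Aᶜ}).Countable := hc.mono inter_subset_left
  filter_upwards [(eventually_countable_ball hc').2 fun A hA =>
    generic_move (hd.measurable A hA.1) hA.2] with T hT s hs h0 h1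
  have a0 : 0 < μ.real s := ENNReal.toReal_pos h0.ne' (measure_ne_top _ _)
  have a1 : μ.real s < 1 := by
    rw [← ENNReal.toReal_lt_toReal (measure_ne_top _ _) ENNReal.one_ne_top] at h1
    exact h1
  have hp : 0 < μ.real s * (1 - μ.real s) := mul_pos a0 (by linarith)
  obtain ⟨A, hA, hlt⟩ := hd.approx s hs (measure_ne_top _ _) (μ.real s * (1 - μ.real s) / 8)
    (by linarith)
  have hAm := hd.measurable A hA
  have b1 : μ.real (s ∆ A) < μ.real s * (1 - μ.real s) / 8 :=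
    ENNReal.toReal_lt_of_lt_ofReal hlt
  have b2 := abs_le.1 (abs_measureReal_sub_le_measureReal_symmDiff (μ := μ) hs.nullMeasurableSet
    hAm.nullMeasurableSet)
  have b3 : μ.real Aᶜ = 1 - μ.real A := by
    rw [← probReal_univ (μ := μ), ← measureReal_add_measureReal_compl (μ := μ) hAm]; ring
  have b4 : 0 ≤ μ.real A := measureReal_nonneg
  have b5 : 0 ≤ μ.real Aᶜ := measureReal_nonneg
  have b6 : μ.real s * (1 - μ.real s) - μ.real (s ∆ A) ≤ μ.real A * μ.real Aᶜ := by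
    rw [b3] at b5 ⊢
    rcases le_total (μ.real s) (μ.real A) with h | h <;> nlinarith [b2.1, b2.2]
  obtain ⟨J, c1, c2, c3, c4⟩ := hT A ⟨hA, by show 0 < μ.real A * μ.real Aᶜ; linarith⟩
  have d1 := mv_set hs hAm J
  have d2 := mv_set hAm hs J
  rw [symmDiff_comm] at d2
  exact ⟨J, c1, c2, by linarith, by nlinarith [sq_nonneg (μ.real s - 1 / 2)]⟩

/-- The weak topology described by the measures of `T⁻¹ A ∆ B`. -/
@[reducible] def topQ (μ : Measure X) : TopologicalSpace (AutP μ) :=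
  ⨅ (A : Set X) (B : Set X) (_ : MeasurableSet A) (_ : MeasurableSet B),
    TopologicalSpace.induced (fun T : AutP μ => μ ((T.1.toFun ⁻¹' A) ∆ B)) inferInstance

theorem inducing_tQ : @IsInducing _ _ (topQ μ) _ tA := by
  let := topQ μ
  refine ⟨le_antisymm ?_ ?_⟩
  · rw [← continuous_iff_le_induced, continuous_iff_continuousAt]
    intro T
    rw [ContinuousAt, tendsto_au_iff]
    intro A hA hf
    have h : Continuous fun S : AutP μ => μ ((S.1.toFun ⁻¹' A) ∆ (tA T ⁻¹' A)) :=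
      continuous_iff_le_induced.2 (iInf_le_of_le A (iInf_le_of_le _ (iInf_le_of_le hA
        (iInf_le _ ((tA T).meas hA)))))
    have h2 := h.tendsto T
    rw [show μ ((T.1.toFun ⁻¹' A) ∆ (tA T ⁻¹' A)) = 0 from sd_self A (tA T)] at h2
    exact h2
  · refine le_iInf fun A => le_iInf fun B => le_iInf fun hA => le_iInf fun hB => ?_
    have h : Continuous fun S : Au μ => μ ((S ⁻¹' A) ∆ B) := by
      rw [continuous_iff_continuousAt]
      intro T
      have h := (tendsto_au_iff.1 (tendsto_id (x := 𝓝 T)) A hA (measure_ne_top _ _))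
      refine tendsto_of_tendsto_of_tendsto_of_le_of_le
        (g := fun S => μ ((T ⁻¹' A) ∆ B) - sd A S T)
        (h := fun S => sd A S T + μ ((T ⁻¹' A) ∆ B)) ?_ ?_ (fun S => ?_) fun S => ?_
      · simpa using ENNReal.Tendsto.sub tendsto_const_nhds h (Or.inl (measure_ne_top _ _))
      · simpa using h.add tendsto_const_nhds
      · rw [tsub_le_iff_left, sd_comm]
        exact measure_symmDiff_le _ _ _
      · exact measure_symmDiff_le _ _ _
    exact (induced_mono (continuous_iff_le_induced.1 h)).trans (induced_compose).le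

theorem tendsto_tQ : Tendsto tG (@residual _ (topQ μ)) (residual _) := by
  let := topQ μ
  have h : IsInducing (tG (μ := μ)) := SeparationQuotient.isInducing_mk.comp inducing_tQ
  exact tendsto_residual_of_isOpenMap h.continuous (h.isOpenMap (by
    rw [range_eq_univ.2 fun g => ⟨oA (rep g), mk_rep g⟩]; exact isOpen_univ))

theorem invF_iff {g : Gb μ} {f : X → X} (h : ⇑(rep g) =ᵐ[μ] f) : InvF F g ↔
    ∀ s, MeasurableSet[F] s → ∃ t, MeasurableSet[F] t ∧ μ ((f ⁻¹' s) ∆ t) = 0 := by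
  refine forall₂_congr fun s _ => exists_congr fun t => and_congr_right fun _ => ?_
  rw [measure_symmDiff_eq_zero_iff]
  exact ⟨(pre_congr h s).symm.trans, (pre_congr h s).trans⟩

theorem prime_main [CompleteSpace X] [NullSingletonClass μ] :
    ∀ᶠ T in @residual _ (topQ μ), ∀ F : MeasurableSpace X, F ≤ m →
      (∀ s, MeasurableSet[F] s →
        (∃ t, MeasurableSet[F] t ∧ μ ((T.1.toFun ⁻¹' s) ∆ t) = 0) ∧
        (∃ t, MeasurableSet[F] t ∧ μ ((T.1.invFun ⁻¹' s) ∆ t) = 0)) →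
      (∃ s, MeasurableSet[F] s ∧ 0 < μ s ∧ μ s < 1) →
      ∃ G : MeasurableSpace X, G ≤ F ∧
        (∀ s, MeasurableSet[G] s →
          (∃ t, MeasurableSet[G] t ∧ μ ((T.1.toFun ⁻¹' s) ∆ t) = 0) ∧
          (∃ t, MeasurableSet[G] t ∧ μ ((T.1.invFun ⁻¹' s) ∆ t) = 0)) ∧
        (∃ s, MeasurableSet[G] s ∧ 0 < μ s ∧ μ s < 1) ∧
        ∃ s, MeasurableSet[F] s ∧ ∀ t, MeasurableSet[G] t → μ (s ∆ t) ≠ 0 := by
  refine (tendsto_tQ.eventually generic_all).mono fun T hT => ?_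
  have e1 : ⇑(rep (tG T)) =ᵐ[μ] T.1.toFun := rep_mk (tA T)
  have e2 : ⇑(rep (tG T)⁻¹) =ᵐ[μ] T.1.invFun := rep_mk (tA T)⁻¹
  rintro F hF hI ⟨s, hs, h0, h1⟩
  obtain ⟨J, c1, c2, c3, c4⟩ := hT s (hF s hs) h0 h1
  obtain ⟨G, d1, d2, d3, d4⟩ := @not_prime X F _ _ m _ μ _ hF _ _
    ((@invF_iff X F _ _ m _ μ _ _ _ e1).2 fun s hs => (hI s hs).1)
    ((@invF_iff X F _ _ m _ μ _ _ _ e2).2 fun s hs => (hI s hs).2) s hs c1 c2 c3 c4
  exact ⟨G, d1, fun s hs => ⟨(@invF_iff X G _ _ m _ μ _ _ _ e1).1 d2 s hs,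
    (@invF_iff X G _ _ m _ μ _ _ _ e2).1 d3 s hs⟩, d4⟩

end Pool.Agent.H964Z.Sp
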