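import Pool.Agent.H964Z.GbC

set_option autoImplicit false
set_option linter.unusedSectionVars false
open MeasureTheory Set Filter Topology
open scoped ENNReal symmDiff

namespace Pool.Agent.H964Z.Gen

/-- Haar probability measure on the circle. -/
noncomputable abbrev hc : Measure UnitAddCircle := AddCircle.haarAddCircle

theorem hc_eq : hc = volume := by
  rw [AddCircle.volume_eq_smul_haarAddCircle]; simp

noncomputable def lift (u : UnitAddCircle) : ℝ := (AddCircle.equivIco 1 0 u : ℝ)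

theorem lift_nonneg (u : UnitAddCircle) : 0 ≤ lift u := (AddCircle.equivIco 1 0 u).2.1
theorem lift_lt (u : UnitAddCircle) : lift u < 1 := by
  have : lift u < 0 + 1 := (AddCircle.equivIco 1 0 u).2.2
  rwa [zero_add] at this
theorem coe_lift (u : UnitAddCircle) : ((lift u : ℝ) : UnitAddCircle) = u := AddCircle.coe_equivIco
theorem lift_coe {x : ℝ} (h0 : 0 ≤ x) (h1 : x < 1) : lift (x : UnitAddCircle) = x :=
  AddCircle.equivIco_coe_of_mem ⟨h0, by rwa [zero_add]⟩
theorem measurable_lift : Measurable lift :=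
  measurable_subtype_coe.comp (AddCircle.measurableEquivIco 1 0).measurable

theorem lift_add {u : UnitAddCircle} {τ : ℝ} (h0 : 0 ≤ lift u + τ) (h1 : lift u + τ < 1) :
    lift (u + (τ : UnitAddCircle)) = lift u + τ := by
  conv_lhs => rw [← coe_lift u, ← AddCircle.coe_add]
  exact lift_coe h0 h1

noncomputable def ww (u : UnitAddCircle) : ℝ := if lift u < 1 / 2 then lift u else lift u - 1 / 2

noncomputable def kap (φ : ℝ → ℤ) (k : ℤ) (ℓ : ℝ) (u : UnitAddCircle) : ℤ :=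
  φ (ℓ * ww u) + if lift u < 1 / 2 then 0 else k

theorem measurable_kap {φ : ℝ → ℤ} (hφ : Measurable φ) (k : ℤ) (ℓ : ℝ) :
    Measurable (kap φ k ℓ) := by
  have hs : MeasurableSet {u | lift u < 1 / 2} := measurableSet_lt measurable_lift measurable_const
  refine Measurable.add (hφ.comp (measurable_const.mul ?_)) ?_
  · exact Measurable.ite hs measurable_lift (measurable_lift.sub measurable_const)
  · exact Measurable.ite hs measurable_const measurable_const

def Bad (r : ℝ) : Set UnitAddCircle :=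
  {u | lift u ≤ r ∨ |lift u - 1 / 2| ≤ r ∨ 1 - r ≤ lift u}

theorem measurableSet_Bad (r : ℝ) : MeasurableSet (Bad r) :=
  (measurableSet_le measurable_lift measurable_const).union
    ((measurableSet_le (continuous_abs.measurable.comp (measurable_lift.sub measurable_const))
      measurable_const).union (measurableSet_le measurable_const measurable_lift))

theorem hc_Bad {r : ℝ} (hr : 0 ≤ r) : hc (Bad r) ≤ ENNReal.ofReal (4 * r) := by
  rw [hc_eq, AddCircle.add_projection_respects_measure 1 0 (measurableSet_Bad r)]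
  calc volume (QuotientAddGroup.mk ⁻¹' Bad r ∩ Ioc 0 (0 + 1))
      ≤ volume (Icc 0 r ∪ (Icc (1 / 2 - r) (1 / 2 + r) ∪ Icc (1 - r) (1 : ℝ))) := by
        refine measure_mono fun x hx => ?_
        obtain ⟨hx1, hx2, hx3⟩ := hx
        rw [zero_add] at hx3
        rcases eq_or_lt_of_le hx3 with rfl | hx4
        · exact Or.inr (Or.inr ⟨by linarith, le_rfl⟩)
        · have e : lift (x : UnitAddCircle) = x := lift_coe hx2.le hx4
          have hx5 : (x : UnitAddCircle) ∈ Bad r := hx1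
          simp only [Bad, mem_ofPred_eq, e, abs_le] at hx5
          rcases hx5 with h | h | h
          · exact Or.inl ⟨hx2.le, h⟩
          · exact Or.inr (Or.inl ⟨by linarith, by linarith⟩)
          · exact Or.inr (Or.inr ⟨h, hx3⟩)
    _ ≤ volume (Icc 0 r) + (volume (Icc (1 / 2 - r) (1 / 2 + r)) + volume (Icc (1 - r) (1 : ℝ))) :=
        (measure_union_le _ _).trans (by gcongr; exact measure_union_le _ _)
    _ = ENNReal.ofReal (4 * r) := by
        simp only [Real.volume_Icc]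
        rw [← ENNReal.ofReal_add (by linarith) (by linarith),
          ← ENNReal.ofReal_add (by linarith) (by linarith)]
        congr 1; ring

theorem kap_shift (φ : ℝ → ℤ) (k : ℤ) {ℓ : ℝ} (hℓ : 0 < ℓ) (t : ℝ) {u : UnitAddCircle}
    (hu : u ∉ Bad (|t| / ℓ)) :
    kap φ k ℓ (u + ((t / ℓ : ℝ) : UnitAddCircle)) - kap φ k ℓ u =
      φ (ℓ * ww u + t) - φ (ℓ * ww u) := by
  simp only [Bad, mem_ofPred_eq, not_or, not_le] at hu
  obtain ⟨h1, h2, h3⟩ := hu
  have h4 : |t / ℓ| = |t| / ℓ := by rw [abs_div, abs_of_pos hℓ]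
  have h5 := le_abs_self (t / ℓ)
  have h6 := neg_abs_le (t / ℓ)
  have e : lift (u + ((t / ℓ : ℝ) : UnitAddCircle)) = lift u + t / ℓ :=
    lift_add (by linarith) (by linarith)
  have hiff : lift u + t / ℓ < 1 / 2 ↔ lift u < 1 / 2 := by
    rcases lt_abs.1 h2 with h | h
    · constructor <;> intro h' <;> linarith
    · constructor <;> intro h' <;> linarith
  unfold kap ww
  rw [e]
  by_cases h : lift u < 1 / 2
  · rw [if_pos h, if_pos (hiff.2 h), if_pos h, if_pos (hiff.2 h), mul_add,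
      mul_div_cancel₀ _ hℓ.ne']
    ring
  · rw [if_neg h, if_neg (fun h' => h (hiff.1 h')), if_neg h, if_neg (fun h' => h (hiff.1 h')),
      show ℓ * (lift u + t / ℓ - 1 / 2) = ℓ * (lift u - 1 / 2) + t by field_simp; ring]
    ring

theorem kap_half (φ : ℝ → ℤ) (k : ℤ) (ℓ : ℝ) (u : UnitAddCircle) :
    kap φ k ℓ (u + ((1 / 2 : ℝ) : UnitAddCircle)) - kap φ k ℓ u = k ∨
    kap φ k ℓ (u + ((1 / 2 : ℝ) : UnitAddCircle)) - kap φ k ℓ u = -k := by
  have h0 := lift_nonneg u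
  have h1 := lift_lt u
  by_cases h : lift u < 1 / 2
  · left
    have e : lift (u + ((1 / 2 : ℝ) : UnitAddCircle)) = lift u + 1 / 2 :=
      lift_add (by linarith) (by linarith)
    unfold kap ww
    rw [e, if_pos h, if_pos h, if_neg (by linarith), if_neg (by linarith), add_sub_cancel_right]
    ring
  · right
    have e0 : ((1 / 2 : ℝ) : UnitAddCircle) = ((-(1 / 2) : ℝ) : UnitAddCircle) := by
      rw [show (1 / 2 : ℝ) = -(1 / 2) + 1 by norm_num, AddCircle.coe_add_period]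
      norm_num
    have e : lift (u + ((1 / 2 : ℝ) : UnitAddCircle)) = lift u + -(1 / 2) := by
      rw [e0]
      exact lift_add (by linarith) (by linarith)
    unfold kap ww
    rw [e, if_neg h, if_neg h, if_pos (by linarith), if_pos (by linarith), ← sub_eq_add_neg]
    ring

theorem cont_of_continuous {Z : Type*} [MetricSpace Z] [CompleteSpace Z]
    [SecondCountableTopology Z] [MeasurableSpace Z] [BorelSpace Z] {ζ : Measure Z}
    [IsLocallyFiniteMeasure ζ] {R : ℝ → Z → Z} (hR : ∀ t, MeasurePreserving (R t) ζ ζ)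
    (h0 : ∀ z, R 0 z = z) (hc : Continuous fun p : ℝ × Z => R p.1 p.2) (C : Set Z)
    (hC : MeasurableSet C) (hf : ζ C ≠ ∞) :
    Tendsto (fun t => ζ ((R t ⁻¹' C) ∆ C)) (𝓝 0) (𝓝 0) := by
  let F : C(ℝ × Z, Z) := ⟨fun p => R p.1 p.2, hc⟩
  have := tendsto_measure_symmDiff_preimage_nhds_zero (μ := ζ) (ν := ζ) (l := 𝓝 (0 : ℝ))
    (f := fun t => F.curry t) (g := F.curry 0) (s := C) (F.curry.continuous.tendsto 0)
    (Eventually.of_forall hR) (hR 0) hC.nullMeasurableSet hf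
  have e : (F.curry 0) ⁻¹' C = C := by
    ext z
    show R 0 z ∈ C ↔ z ∈ C
    rw [h0]
  rwa [e] at this

variable {X : Type*} [MetricSpace X] [SecondCountableTopology X] [MeasurableSpace X] [BorelSpace X]
  {μ : Measure X} [IsLocallyFiniteMeasure μ]

/-- The rotation flow of period `ℓ` in the second coordinate. -/
noncomputable def rot (ℓ t : ℝ) (z : X × UnitAddCircle) : X × UnitAddCircle :=
  (z.1, z.2 + ((t / ℓ : ℝ) : UnitAddCircle))

theorem rot_mp (ℓ t : ℝ) : MeasurePreserving (rot ℓ t) (μ.prod hc) (μ.prod hc) :=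
  (MeasurePreserving.id μ).prod (measurePreserving_add_right hc _)

/-- The flow is isomorphic to the rotation flow of period `ℓ`. -/
def Mod (ℓ : ℝ) (Φ : C(ℝ, Gb μ)) : Prop :=
  ∃ e : AeIso μ (μ.prod hc), ∀ t, ⇑(rep (Φ t)) =ᵐ[μ] fun x => e.g (rot ℓ t (e.f x))

theorem jj_meas (T : Au μ) {κ : UnitAddCircle → ℤ} (hκ : Measurable κ) :
    Measurable fun z : X × UnitAddCircle => (T ^ κ z.2) z.1 :=
  (measurable_from_prod_countable_left (f := fun p : X × ℤ => (T ^ p.2) p.1)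
    fun n => (T ^ n).meas).comp (measurable_fst.prodMk (hκ.comp measurable_snd))

theorem jj_mp (T : Au μ) {κ : UnitAddCircle → ℤ} (hκ : Measurable κ) :
    MeasurePreserving (fun z : X × UnitAddCircle => (T ^ κ z.2) z.1) (μ.prod hc) μ := by
  refine ⟨jj_meas T hκ, Measure.ext fun s hs => ?_⟩
  rw [Measure.map_apply (jj_meas T hκ) hs, Measure.prod_apply_symm (jj_meas T hκ hs)]
  have : ∀ u, μ ((fun x => (x, u)) ⁻¹' ((fun z : X × UnitAddCircle => (T ^ κ z.2) z.1) ⁻¹' s))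
      = μ s := fun u => (T ^ κ u).measure_pre hs
  simp only [this]
  simp

theorem rot_bound (T : Au μ) {κ : UnitAddCircle → ℤ} (hκ : Measurable κ) (ℓ t : ℝ) {A B : Set X}
    (hA : MeasurableSet A) (hB : MeasurableSet B) {N : Set UnitAddCircle} (hN : MeasurableSet N)
    {ε : ℝ≥0∞} (h : ∀ u ∉ N,
      μ ((⇑(T ^ (κ (u + ((t / ℓ : ℝ) : UnitAddCircle)) - κ u)) ⁻¹' A) ∆ B) ≤ ε) :
    (μ.prod hc) ((rot ℓ t ⁻¹' ((fun z : X × UnitAddCircle => (T ^ κ z.2) z.1) ⁻¹' A)) ∆
      ((fun z : X × UnitAddCircle => (T ^ κ z.2) z.1) ⁻¹' B)) ≤ ε + hc N * (μ A + μ B) := by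
  rw [Measure.prod_apply_symm
    (((rot_mp (μ := μ) ℓ t).measurable (jj_meas T hκ hA)).symmDiff (jj_meas T hκ hB))]
  have key : ∀ u, μ ((fun x => (x, u)) ⁻¹'
      ((rot ℓ t ⁻¹' ((fun z : X × UnitAddCircle => (T ^ κ z.2) z.1) ⁻¹' A)) ∆
      ((fun z : X × UnitAddCircle => (T ^ κ z.2) z.1) ⁻¹' B)))
      = μ ((⇑(T ^ (κ (u + ((t / ℓ : ℝ) : UnitAddCircle)) - κ u)) ⁻¹' A) ∆ B) := by
    intro u
    rw [← (T ^ κ u).measure_pre (((T ^ _).meas hA).symmDiff hB), preimage_symmDiff,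
      preimage_symmDiff]
    congr 2
    ext x
    show (T ^ κ (u + ((t / ℓ : ℝ) : UnitAddCircle))) x ∈ A ↔
      (T ^ (κ (u + ((t / ℓ : ℝ) : UnitAddCircle)) - κ u) * T ^ κ u) x ∈ A
    rw [← zpow_add, sub_add_cancel]
  simp only [key]
  calc _ ≤ ∫⁻ u, (ε + N.indicator (fun _ => μ A + μ B) u) ∂hc := by
        refine lintegral_mono fun u => ?_
        by_cases hu : u ∈ N
        · rw [indicator_of_mem hu]
          refine le_trans ?_ le_add_self
          refine (measure_mono symmDiff_subset_union).trans ((measure_union_le _ _).trans ?_)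
          rw [Au.measure_pre _ hA]
        · rw [indicator_of_notMem hu, add_zero]
          exact h u hu
    _ = ε + hc N * (μ A + μ B) := by
        rw [lintegral_add_left measurable_const, lintegral_indicator_const hN, mul_comm]
        simp

/-- Distance of a preimage from a set. -/
noncomputable def ds (g : Gb μ) (A B : Set X) : ℝ≥0∞ := μ ((rep g ⁻¹' A) ∆ B)

theorem ds_zpow (T : Gb μ) (n : ℤ) (A B : Set X) :
    ds (T ^ n) A B = μ ((⇑(rep T ^ n) ⁻¹' A) ∆ B) :=
  measure_congr ((pre_congr (rep_zpow T n) A).symmDiff EventuallyEq.rfl)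

theorem build [CompleteSpace X] [NullSingletonClass μ] [Nonempty X] (T : Gb μ) {φ : ℝ → ℤ}
    (hφ : Measurable φ) (k : ℤ) {𝒜 : Set (Set X)} (h𝒜 : FinFam μ 𝒜) {ℓ : ℝ} (hℓ : 0 < ℓ) :
    ∃ Φ : C(ℝ, Gb μ), IsFlow Φ ∧ Mod ℓ Φ ∧
      (∀ t, ∀ A ∈ 𝒜, ∀ B ∈ 𝒜, ∀ ε, (∀ v, ds (T ^ (φ (v + t) - φ v)) A B ≤ ε) →
        ds (Φ t) A B ≤ ε + ENNReal.ofReal (4 * (|t| / ℓ)) * (μ A + μ B)) ∧
      ∀ A ∈ 𝒜, ∀ B ∈ 𝒜, ∀ ε, ds (T ^ k) A B ≤ ε → ds (T ^ (-k)) A B ≤ ε →
        ds (Φ (ℓ / 2)) A B ≤ ε := by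
  have hκ := measurable_kap hφ k ℓ
  have : NullSingletonClass (μ.prod hc) := ⟨fun z => by
    rw [← singleton_prod_singleton (a := z.1) (b := z.2), Measure.prod_prod]; simp⟩
  obtain ⟨e, he⟩ := iso_ext (jj_mp (rep T) hκ) h𝒜.1 fun A hA => (h𝒜.2 A hA).1
  have h0 : ∀ z : X × UnitAddCircle, rot ℓ 0 z = z := fun z => by simp [rot]
  obtain ⟨Φ, hΦ, hrep⟩ := exists_flow_of_model e (R := rot ℓ) (rot_mp ℓ)
    (fun s t z => by
      simp only [rot, add_div, AddCircle.coe_add]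
      rw [add_assoc, add_comm ((t / ℓ : ℝ) : UnitAddCircle)]) h0
    (cont_of_continuous (rot_mp ℓ) h0 (by unfold rot; fun_prop))
  refine ⟨Φ, hΦ, ⟨e, hrep⟩, fun t A hA B hB ε h => ?_, fun A hA B hB ε h1 h2 => ?_⟩
  · rw [ds, model_measure e (jj_meas (rep T) hκ) (rot_mp ℓ t) (hrep t) (h𝒜.2 A hA).1
      (h𝒜.2 B hB).1 (he A hA) (he B hB)]
    refine (rot_bound (rep T) hκ ℓ t (h𝒜.2 A hA).1 (h𝒜.2 B hB).1 (measurableSet_Bad (|t| / ℓ))
      (ε := ε) fun u hu => ?_).trans ?_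
    · rw [kap_shift φ k hℓ t hu, ← ds_zpow]
      exact h _
    · gcongr
      exact hc_Bad (by positivity)
  · rw [ds, model_measure e (jj_meas (rep T) hκ) (rot_mp ℓ (ℓ / 2)) (hrep (ℓ / 2)) (h𝒜.2 A hA).1
      (h𝒜.2 B hB).1 (he A hA) (he B hB)]
    refine (rot_bound (rep T) hκ ℓ (ℓ / 2) (h𝒜.2 A hA).1 (h𝒜.2 B hB).1 MeasurableSet.empty
      (ε := ε) fun u _ => ?_).trans (by simp)
    rw [show ℓ / 2 / ℓ = 1 / 2 by field_simp]
    rcases kap_half φ k ℓ u with h | h <;> rw [h, ← ds_zpow] <;> assumption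

end Pool.Agent.H964Z.Gen
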