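import Pool.Agent.H964Z.SpModB
import Pool.Agent.H964Z.InfMain

set_option autoImplicit false
set_option linter.unusedSectionVars false
open MeasureTheory Set Filter Topology
open scoped ENNReal symmDiff InnerProductSpace

namespace Pool.Agent.H964Z.Sp

open Pool.Agent.H964Z.Gen

variable {X : Type} [MetricSpace X] [SecondCountableTopology X] [MeasurableSpace X] [BorelSpace X]
  {μ : Measure X} [IsProbabilityMeasure μ]

/-- Automorphisms as measurable equivalences. -/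
abbrev AutP (μ : Measure X) := {T : X ≃ᵐ X // MeasurePreserving (⇑T) μ μ}

/-- The weak topology. -/
@[reducible] def topP (μ : Measure X) : TopologicalSpace (AutP μ) := TopologicalSpace.generateFrom
  {U : Set (AutP μ) | ∃ T₀ : AutP μ, ∃ A : Set X, MeasurableSet A ∧ ∃ ε : ℝ, 0 < ε ∧
    U = {S : AutP μ | μ (symmDiff ((⇑S.1) '' A) ((⇑T₀.1) '' A)) < ENNReal.ofReal ε}}

noncomputable def tA (T : AutP μ) : Au μ := Au.ofEquiv T.1 T.2

noncomputable def oA (T : Au μ) : AutP μ := ⟨T.toME, T.mp⟩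

theorem imgP (S T : AutP μ) (A : Set X) :
    μ ((S.1 '' A) ∆ (T.1 '' A)) = sd A (tA S)⁻¹ (tA T)⁻¹ := by
  unfold sd
  rw [← Au.image_eq, ← Au.image_eq]
  rfl

theorem inducing_tA : @IsInducing _ _ (topP μ) _ tA := by
  let := topP μ
  refine ⟨le_antisymm ?_ ?_⟩
  · rw [← continuous_iff_le_induced, continuous_iff_continuousAt]
    intro T
    rw [ContinuousAt, ← tendsto_inv_iff, tendsto_au_iff]
    intro A hA hf
    rw [ENNReal.tendsto_nhds_zero]
    intro ε hε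
    obtain ⟨r, -, r1, r2⟩ := ENNReal.lt_iff_exists_real_btwn.1 hε
    have ho : IsOpen {S : AutP μ | μ ((S.1 '' A) ∆ (T.1 '' A)) < ENNReal.ofReal r} :=
      TopologicalSpace.isOpen_generateFrom_of_mem ⟨T, A, hA, r, ENNReal.ofReal_pos.1 r1, rfl⟩
    filter_upwards [ho.mem_nhds (by simpa using r1)] with S hS
    rw [← imgP]
    exact (hS.trans r2).le
  · refine le_generateFrom ?_
    rintro U ⟨T, A, hA, ε, hε, rfl⟩
    simp only [imgP]
    exact isOpen_induced ((isOpen_sd_lt hA (measure_ne_top _ _) (tA T)⁻¹ _).preimage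
      continuous_inv)

noncomputable def tG (T : AutP μ) : Gb μ := SeparationQuotient.mk (tA T)

theorem tendsto_tG : Tendsto tG (@residual _ (topP μ)) (residual _) := by
  let := topP μ
  have h : IsInducing (tG (μ := μ)) := SeparationQuotient.isInducing_mk.comp inducing_tA
  exact tendsto_residual_of_isOpenMap h.continuous (h.isOpenMap (by
    rw [range_eq_univ.2 fun g => ⟨oA (rep g), mk_rep g⟩]; exact isOpen_univ))

theorem inner_eq {k : ℕ} {G F : Lp ℂ 2 (pw μ k)} {g f : (Fin k → X) → ℂ} (hg : G =ᵐ[pw μ k] g)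
    (hf : F =ᵐ[pw μ k] f) : ⟪G, F⟫_ℂ = ∫ x, f x * starRingEnd ℂ (g x) ∂pw μ k := by
  rw [L2.inner_def]
  refine integral_congr_ae ?_
  filter_upwards [hg, hf] with x a b
  rw [a, b, RCLike.inner_apply]

theorem main [CompleteSpace X] [NullSingletonClass μ] :
    {T : AutP μ | ∃ Φ : ℝ → AutP μ,
        (∀ s t : ℝ, ∀ᵐ x ∂μ, (⇑(Φ (s + t)).1) x = (⇑(Φ s).1) ((⇑(Φ t).1) x)) ∧
        (∀ A : Set X, MeasurableSet A → ∀ t₀ : ℝ,
          Tendsto (fun s : ℝ => μ (symmDiff ((⇑(Φ s).1) '' A) ((⇑(Φ t₀).1) '' A)))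
            (𝓝 t₀) (𝓝 0)) ∧
        (∀ᵐ x ∂μ, (⇑(Φ 1).1) x = (⇑T.1) x) ∧
        ∀ k : ℕ, 1 ≤ k → ∀ t : Fin k → ℝ, StrictMono t → (∀ i, 0 < t i) →
          ∃ f : (Fin k → X) → ℂ, MemLp f 2 (pw μ k) ∧
            (∀ i : Fin k, ∀ g : (Fin k → X) → ℂ, MemLp g 2 (pw μ k) →
              (∀ (x : Fin k → X) (y : X), g (Function.update x i y) = g x) →
              ∫ x, f x * starRingEnd ℂ (g x) ∂(pw μ k) = 0) ∧
            ∀ h : (Fin k → X) → ℂ, MemLp h 2 (pw μ k) →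
              (∀ i : Fin k, ∀ g : (Fin k → X) → ℂ, MemLp g 2 (pw μ k) →
                (∀ (x : Fin k → X) (y : X), g (Function.update x i y) = g x) →
                ∫ x, h x * starRingEnd ℂ (g x) ∂(pw μ k) = 0) →
              ∀ ε : ℝ, 0 < ε → ∃ N : Finset ℤ, ∃ c : ℤ → ℂ,
                eLpNorm (fun x : Fin k → X => h x - ∑ n ∈ N, c n *
                  f (fun i : Fin k => (⇑(((Φ (t i)).1.toEquiv : Equiv.Perm X) ^ n)) (x i)))
                  2 (pw μ k) < ENNReal.ofReal ε} ∈ @residual _ (topP μ) := by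
  filter_upwards [tendsto_tG generic_simple] with T hT
  obtain ⟨Φ, hΦ, h1, h2⟩ := hT
  refine ⟨fun t => oA (rep (Φ t)), fun s t => ?_, fun A hA t₀ => ?_, ?_, fun k _ t t1 t2 => ?_⟩
  · have := rep_mul (Φ s) (Φ t)
    rw [← hΦ] at this
    exact this
  · simp only [imgP]
    refine tendsto_au_iff.1 (Tendsto.inv ?_) A hA (measure_ne_top _ _)
    exact tendsto_au_iff.2 (tendsto_gb_iff.1 (Φ.continuous.tendsto t₀))
  · have := rep_mk (tA T)
    rw [show (SeparationQuotient.mk (tA T) : Gb μ) = Φ 1 from h1.symm] at this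
    exact this
  obtain ⟨f, f1, f2⟩ := h2 k t t1 t2
  refine ⟨f, Lp.memLp f, fun i g hg hi => ?_, fun h hh hi ε hε => ?_⟩
  · rw [← inner_eq hg.coeFn_toLp EventuallyEq.rfl]
    exact mem_H0.1 f1 _ ⟨g, i, hg.coeFn_toLp, hi⟩
  have h3 : hh.toLp h ∈ H0 μ k := mem_H0.2 (by
    rintro G ⟨g, i, g1, g2⟩
    rw [inner_eq g1 hh.coeFn_toLp]
    exact hi i g ((memLp_congr_ae g1).1 (Lp.memLp G)) g2)
  obtain ⟨u, u1, u2⟩ := Metric.mem_closure_iff.1 (f2 _ h3) ε hε
  obtain ⟨c, rfl⟩ := Finsupp.mem_span_range_iff_exists_finsupp.1 u1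
  refine ⟨c.support, c, ?_⟩
  rw [dist_eq_norm, Lp.norm_def, ← ENNReal.lt_ofReal_iff_toReal_lt (Lp.eLpNorm_ne_top _)] at u2
  refine lt_of_eq_of_lt (eLpNorm_congr_ae ?_) u2
  have h4 : ∀ n : ℤ, UU Φ t n f =ᵐ[pw μ k] fun x =>
      f fun i => ((rep (Φ (t i))).pm ^ n) (x i) := fun n => by
    filter_upwards [cmp_coe (prodAu fun j => Φ (n * t j)).mp f,
      ae_pw fun j => rep_zpow (Φ (t j)) n] with x a b
    refine a.trans (congrArg f (funext fun j => ?_))
    rw [prodAu_apply, hΦ.zsmul, b j, Au.pm_zpow]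
  filter_upwards [Lp.coeFn_sub (hh.toLp h) (c.sum fun n a => a • UU Φ t n f), hh.coeFn_toLp,
    Lp.coeFn_fun_finsetSum c.support fun n => c n • UU Φ t n f,
    ae_all_iff.2 fun n => Lp.coeFn_smul (c n) (UU Φ t n f), ae_all_iff.2 h4] with x a1 a2 a3 a4 a5
  rw [a1, Pi.sub_apply, a2, Finsupp.sum, a3]
  congr 1
  refine Finset.sum_congr rfl fun n _ => ?_
  rw [a4, Pi.smul_apply, a5, smul_eq_mul]
  rfl

end Pool.Agent.H964Z.Sp
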