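import Mathlib

set_option autoImplicit false
set_option linter.unusedSectionVars false
open Set Filter Topology
open scoped InnerProductSpace

namespace Pool.Agent.H964Z.Sp

variable {E : Type*} [NormedAddCommGroup E] [InnerProductSpace ℂ E]

/-- A unitary action of the integers. -/
def IsRep (U : ℤ → E →ₗᵢ[ℂ] E) : Prop :=
  (∀ x, U 0 x = x) ∧ ∀ m n x, U (m + n) x = U m (U n x)

/-- The span of an orbit. -/
def orb (U : ℤ → E →ₗᵢ[ℂ] E) (g : E) : Submodule ℂ E := Submodule.span ℂ (range fun n => U n g)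

/-- The cyclic subspace. -/
def cyc (U : ℤ → E →ₗᵢ[ℂ] E) (g : E) : Submodule ℂ E := (orb U g).topologicalClosure

variable {U : ℤ → E →ₗᵢ[ℂ] E}

theorem gen_mem_orb (g : E) (n : ℤ) : U n g ∈ orb U g := Submodule.subset_span ⟨n, rfl⟩

theorem IsRep.self_mem (hU : IsRep U) (g : E) : g ∈ orb U g := by
  have := gen_mem_orb (U := U) g 0
  rwa [hU.1] at this

theorem IsRep.orb_inv (hU : IsRep U) {g x : E} (hx : x ∈ orb U g) (n : ℤ) : U n x ∈ orb U g := by
  induction hx using Submodule.span_induction with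
  | mem x hx => obtain ⟨m, rfl⟩ := hx; rw [← hU.2]; exact gen_mem_orb _ _
  | zero => simp
  | add x y _ _ h1 h2 => rw [map_add]; exact add_mem h1 h2
  | smul c x _ h => rw [map_smul]; exact Submodule.smul_mem _ c h

theorem orb_le_cyc (g : E) : orb U g ≤ cyc U g := Submodule.le_topologicalClosure _

theorem IsRep.cyc_inv (hU : IsRep U) {g x : E} (hx : x ∈ cyc U g) (n : ℤ) : U n x ∈ cyc U g :=
  map_mem_closure (U n).continuous hx fun _ hy => hU.orb_inv hy n

theorem cyc_le {W : Submodule ℂ E} (hW : IsClosed (W : Set E)) (hi : ∀ n, ∀ x ∈ W, U n x ∈ W)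
    {f : E} (hf : f ∈ W) : cyc U f ≤ W :=
  Submodule.topologicalClosure_minimal _ (Submodule.span_le.2 (by
    rintro _ ⟨n, rfl⟩; exact hi n f hf)) hW

theorem IsRep.cyc_le_cyc (hU : IsRep U) {f g : E} (h : f ∈ cyc U g) : cyc U f ≤ cyc U g :=
  cyc_le (Submodule.isClosed_topologicalClosure _) (fun n _ hx => hU.cyc_inv hx n) h

theorem IsRep.orth_inv (hU : IsRep U) {W : Submodule ℂ E} (hi : ∀ n, ∀ x ∈ W, U n x ∈ W) (n : ℤ)
    (y : E) (hy : y ∈ Wᗮ) : U n y ∈ Wᗮ := by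
  intro w hw
  have : w = U n (U (-n) w) := by rw [← hU.2, add_neg_cancel, hU.1]
  rw [this, LinearIsometry.inner_map_map]
  exact hy _ (hi _ _ hw)

theorem IsRep.proj_comm (hU : IsRep U) {W : Submodule ℂ E} [W.HasOrthogonalProjection]
    (hi : ∀ n, ∀ x ∈ W, U n x ∈ W) (n : ℤ) (x : E) :
    W.starProjection (U n x) = U n (W.starProjection x) := by
  refine Submodule.eq_starProjection_of_mem_orthogonal (hi _ _ (W.starProjection_apply_mem x)) ?_
  rw [← map_sub]
  exact hU.orth_inv hi n _ (W.sub_starProjection_mem_orthogonal x)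

theorem IsRep.proj_orb (hU : IsRep U) {W : Submodule ℂ E} [W.HasOrthogonalProjection]
    (hi : ∀ n, ∀ x ∈ W, U n x ∈ W) {g x : E} (hx : x ∈ orb U g) :
    W.starProjection x ∈ orb U (W.starProjection g) := by
  induction hx using Submodule.span_induction with
  | mem x hx => obtain ⟨m, rfl⟩ := hx; rw [hU.proj_comm hi]; exact gen_mem_orb _ _
  | zero => simp
  | add x y _ _ h1 h2 => rw [map_add]; exact add_mem h1 h2
  | smul c x _ h => rw [map_smul]; exact Submodule.smul_mem _ c h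

/-- Eigenvectors with distinct eigenvalues lie in an invariant subspace containing their sum. -/
theorem eig_mem {ι : Type*} {Z : Submodule ℂ E} {V : E →ₗᵢ[ℂ] E} (hZ : ∀ x ∈ Z, V x ∈ Z)
    {lam : ι → ℂ} (s : Finset ι) (hinj : InjOn lam s) :
    ∀ v : ι → E, (∀ i ∈ s, V (v i) = lam i • v i) → ∑ i ∈ s, v i ∈ Z → ∀ i ∈ s, v i ∈ Z := by
  classical
  induction s using Finset.induction_on with
  | empty => simp
  | insert a s ha ih =>
    intro v hv hs
    rw [Finset.sum_insert ha] at hs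
    have h1 : ∑ i ∈ s, (lam i - lam a) • v i ∈ Z := by
      have := sub_mem (hZ _ hs) (Z.smul_mem (lam a) hs)
      rw [map_add, hv a (Finset.mem_insert_self _ _), map_sum, smul_add, add_sub_add_left_eq_sub,
        Finset.smul_sum, ← Finset.sum_sub_distrib] at this
      convert this using 2 with i hi
      rw [hv i (Finset.mem_insert_of_mem hi), sub_smul]
    have h2 := ih (hinj.mono (by simp)) _ (fun i hi => by
      rw [map_smul, hv i (Finset.mem_insert_of_mem hi), smul_comm]) h1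
    have h3 : ∀ i ∈ s, v i ∈ Z := fun i hi => by
      have hne : lam i - lam a ≠ 0 := sub_ne_zero.2 fun h => ha (by
        rwa [hinj (by simp [hi]) (by simp) h] at hi)
      exact (Z.smul_mem_iff hne).1 (h2 i hi)
    intro i hi
    rcases Finset.mem_insert.1 hi with rfl | hi
    · simpa using sub_mem hs (Z.sum_mem h3)
    · exact h3 i hi

variable [CompleteSpace E]

instance (g : E) : (cyc U g).HasOrthogonalProjection := by
  have : CompleteSpace (cyc U g) := (Submodule.isClosed_topologicalClosure _).completeSpace_coe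
  infer_instance

theorem IsRep.mem_cyc_sub (hU : IsRep U) (f : E) {ζ : ℂ} (hζ : ‖ζ‖ ≠ 1) :
    f ∈ cyc U (U 1 f - ζ • f) := by
  set Z := cyc U (U 1 f - ζ • f) with hZ
  have hi : ∀ n, ∀ x ∈ Z, U n x ∈ Z := fun n x hx => hU.cyc_inv hx n
  have h1 : Z.starProjection (U 1 f - ζ • f) = U 1 f - ζ • f :=
    Submodule.starProjection_eq_self_iff.2 (orb_le_cyc _ (hU.self_mem _))
  rw [map_sub, map_smul, hU.proj_comm hi] at h1
  have h2 : U 1 (f - Z.starProjection f) = ζ • (f - Z.starProjection f) := by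
    rw [map_sub, smul_sub, sub_eq_sub_iff_sub_eq_sub, h1]
  have h3 := congrArg norm h2
  rw [LinearIsometry.norm_map, norm_smul] at h3
  have h4 : ‖f - Z.starProjection f‖ = 0 := by
    by_contra h
    exact hζ (by field_simp at h3; exact h3.symm)
  rw [norm_eq_zero, sub_eq_zero] at h4
  rw [h4]
  exact Z.starProjection_apply_mem f

theorem IsRep.dense_gen (hU : IsRep U) {g x : E} (hx : x ∈ orb U g) :
    x ∈ closure {f | f ∈ cyc U g ∧ g ∈ cyc U f} := by
  set S := {f | f ∈ cyc U g ∧ g ∈ cyc U f} with hS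
  have s1 : ∀ n, ∀ y ∈ closure S, U n y ∈ closure S := fun n y hy =>
    map_mem_closure (U n).continuous hy fun f hf => ⟨hU.cyc_inv hf.1 n, hU.cyc_le_cyc (by
      have := orb_le_cyc _ (gen_mem_orb (U := U) (U n f) (-n))
      rwa [← hU.2, neg_add_cancel, hU.1] at this) hf.2⟩
  have d1 : Dense {ζ : ℂ | ‖ζ‖ ≠ 1} := by
    have h := (Metric.isClosed_sphere (x := (0 : ℂ)) (ε := 1))
    have : {ζ : ℂ | ‖ζ‖ ≠ 1} = (Metric.sphere (0 : ℂ) 1)ᶜ := by ext; simp
    rw [this, ← interior_eq_empty_iff_dense_compl]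
    exact interior_sphere' _ _
  have s2 : ∀ ζ : ℂ, ∀ y ∈ closure S, U 1 y - ζ • y ∈ closure S := by
    intro ζ y hy
    refine map_mem_closure₂ (f := fun (ζ : ℂ) (y : E) => U 1 y - ζ • y) (by
      have := (U 1).continuous
      fun_prop) (d1 ζ) hy fun ζ' h1 f hf => ?_
    exact ⟨sub_mem (hU.cyc_inv hf.1 1) (Submodule.smul_mem _ _ hf.1),
      hU.cyc_le_cyc (hU.mem_cyc_sub f h1) hf.2⟩
  have s3 : ∀ c : ℂ, c • g ∈ closure S := by
    intro c
    refine map_mem_closure (f := fun c : ℂ => c • g) (by fun_prop) (dense_compl_singleton 0 c)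
      fun c' hc => ⟨Submodule.smul_mem _ _ (orb_le_cyc _ (hU.self_mem g)), ?_⟩
    exact (Submodule.smul_mem_iff _ hc).1 (orb_le_cyc _ (hU.self_mem _))
  let V : Module.End ℂ E := (U 1).toLinearMap
  have s4 : ∀ d : ℕ, ∀ p : Polynomial ℂ, p.natDegree = d →
      Polynomial.aeval V p g ∈ closure S := by
    intro d
    induction d with
    | zero =>
      intro p hp
      rw [Polynomial.eq_C_of_natDegree_eq_zero hp]
      simpa using s3 _
    | succ d ih =>
      intro p hp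
      have hp0 : p ≠ 0 := by rintro rfl; simp at hp
      obtain ⟨ζ, hζ⟩ := IsAlgClosed.exists_root p (by
        rw [Polynomial.degree_eq_natDegree hp0, hp]; exact_mod_cast Nat.succ_ne_zero d)
      obtain ⟨q, rfl⟩ := Polynomial.dvd_iff_isRoot.2 hζ
      have hq : q ≠ 0 := right_ne_zero_of_mul hp0
      rw [Polynomial.natDegree_mul (Polynomial.X_sub_C_ne_zero ζ) hq,
        Polynomial.natDegree_X_sub_C] at hp
      simpa [V] using s2 ζ _ (ih q (by omega))
  have s5 : ∀ (m : ℕ) (y : E), (V ^ m) y = U m y := by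
    intro m y
    induction m with
    | zero => simp [hU.1]
    | succ m ih => rw [pow_succ', Module.End.mul_apply, ih, Nat.cast_succ, add_comm, hU.2]; rfl
  have s6 : ∃ (N : ℕ) (p : Polynomial ℂ), x = U (-N) (Polynomial.aeval V p g) := by
    induction hx using Submodule.span_induction with
    | mem x hx =>
      obtain ⟨m, rfl⟩ := hx
      refine ⟨m.natAbs, Polynomial.X ^ (m + m.natAbs).toNat, ?_⟩
      rw [map_pow, Polynomial.aeval_X, s5, ← hU.2]
      congr 2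
      omega
    | zero => exact ⟨0, 0, by simp⟩
    | add x y _ _ h1 h2 =>
      obtain ⟨N, p, rfl⟩ := h1
      obtain ⟨N', p', rfl⟩ := h2
      refine ⟨N + N', Polynomial.X ^ N' * p + Polynomial.X ^ N * p', ?_⟩
      simp only [map_add, map_mul, map_pow, Polynomial.aeval_X, LinearMap.add_apply,
        Module.End.mul_apply, s5, ← hU.2]
      congr 3 <;> push_cast <;> ring
    | smul c x _ h =>
      obtain ⟨N, p, rfl⟩ := h
      exact ⟨N, c • p, by simp⟩
  obtain ⟨N, p, rfl⟩ := s6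
  exact s1 _ _ (s4 _ p rfl)

theorem IsRep.cyclic_of_approx (hU : IsRep U) {W : Submodule ℂ E} (hW : IsClosed (W : Set E))
    (hi : ∀ n, ∀ x ∈ W, U n x ∈ W) {d : ℕ → E} (hd : ∀ i, d i ∈ W)
    (hd2 : (W : Set E) ⊆ closure (range d))
    (h : ∀ (r : ℕ) (η : ℝ), 0 < η → ∃ g, ∀ i < r, ∃ u ∈ orb U g, ‖u - d i‖ < η) :
    ∃ f ∈ W, ∀ x ∈ W, x ∈ cyc U f := by
  have : CompleteSpace W := hW.completeSpace_coe
  let C : ℕ × ℕ → Set W := fun q => {f | ∃ u ∈ orb U f, ‖u - d q.1‖ < 1 / ((q.2 : ℝ) + 1)}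
  have hC : ∀ q, IsOpen (C q) := by
    intro q
    rw [isOpen_iff_mem_nhds]
    rintro f ⟨u, hu, h1⟩
    obtain ⟨c, rfl⟩ := Finsupp.mem_span_range_iff_exists_finsupp.1 hu
    have hc : Continuous fun f : W => ‖(c.sum fun n a => a • U n (f : E)) - d q.1‖ := by
      refine (Continuous.sub ?_ continuous_const).norm
      exact continuous_finsetSum _ fun n _ =>
        ((U n).continuous.comp continuous_subtype_val).const_smul _
    filter_upwards [hc.continuousAt.eventually (gt_mem_nhds h1)] with f' hf'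
    exact ⟨_, Finsupp.mem_span_range_iff_exists_finsupp.2 ⟨c, rfl⟩, hf'⟩
  have hD : ∀ q, Dense (C q) := by
    intro q
    rw [Metric.dense_iff]
    intro f0 ε hε
    obtain ⟨_, ⟨j, rfl⟩, hj⟩ := Metric.mem_closure_iff.1 (hd2 f0.2) (ε / 3) (by positivity)
    obtain ⟨g, hg⟩ := h (max q.1 j + 1) (min (ε / 3) (1 / ((q.2 : ℝ) + 1) / 2)) (by positivity)
    have pr : ∀ i < max q.1 j + 1, ∃ u ∈ orb U (W.starProjection g),
        ‖u - d i‖ < min (ε / 3) (1 / ((q.2 : ℝ) + 1) / 2) := by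
      intro i hi'
      obtain ⟨u, h1, h2⟩ := hg i hi'
      refine ⟨_, hU.proj_orb hi h1, lt_of_le_of_lt ?_ h2⟩
      rw [← Submodule.starProjection_eq_self_iff.2 (hd i), ← map_sub,
        Submodule.starProjection_eq_self_iff.2 (hd i)]
      exact W.norm_starProjection_apply_le _
    obtain ⟨u, u1, u2⟩ := pr j (by omega)
    obtain ⟨v, v1, v2⟩ := pr q.1 (by omega)
    obtain ⟨f, ⟨f1, f2⟩, f3⟩ := Metric.mem_closure_iff.1 (hU.dense_gen u1) (ε / 3) (by positivity)
    have f4 : f ∈ W := cyc_le hW hi (W.starProjection_apply_mem g) f1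
    obtain ⟨w, w1, w2⟩ := Metric.mem_closure_iff.1 (hU.cyc_le_cyc f2 (orb_le_cyc _ v1))
      (1 / ((q.2 : ℝ) + 1) / 2) (by positivity)
    refine ⟨⟨f, f4⟩, ?_, w, w1, ?_⟩
    · rw [Metric.mem_ball, Subtype.dist_eq]
      have := dist_triangle4 f u (d j) f0
      rw [← dist_eq_norm, lt_min_iff] at u2
      rw [dist_comm] at f3 hj
      simp only at this ⊢
      linarith [u2.1]
    · have := dist_triangle w v (d q.1)
      rw [← dist_eq_norm, lt_min_iff] at v2
      rw [dist_comm] at w2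
      rw [← dist_eq_norm]
      linarith [v2.2]
  obtain ⟨f, hf⟩ := (dense_iInter_of_isOpen hC hD).nonempty
  refine ⟨f, f.2, fun x hx => ?_⟩
  refine (Submodule.isClosed_topologicalClosure _).closure_subset_iff.2 ?_ (hd2 hx)
  rintro _ ⟨i, rfl⟩
  refine Metric.mem_closure_iff.2 fun ε hε => ?_
  obtain ⟨n, hn⟩ := exists_nat_one_div_lt hε
  obtain ⟨u, h1, h2⟩ := mem_iInter.1 hf (i, n)
  exact ⟨u, h1, by rw [dist_comm, dist_eq_norm]; exact h2.trans hn⟩

section Basis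
variable {ι : Type*} (b : HilbertBasis ι ℂ E)

theorem approx_good (F : E) (good : Set ι) {δ η : ℝ} (hδ : 0 ≤ δ) (hη : 0 < η)
    (h : ∀ s : Finset ι, (∀ i ∈ s, i ∉ good) → ∑ i ∈ s, ‖⟪b i, F⟫_ℂ‖ ^ 2 ≤ δ ^ 2) :
    ∃ s : Finset ι, (∀ i ∈ s, i ∈ good) ∧ ‖F - ∑ i ∈ s, ⟪b i, F⟫_ℂ • b i‖ < δ + η := by
  classical
  have h1 := b.hasSum_repr F
  simp only [HilbertBasis.repr_apply_apply] at h1
  obtain ⟨s, hs⟩ := (Metric.tendsto_nhds.1 h1 η hη).exists
  refine ⟨s.filter (· ∈ good), fun i hi => (Finset.mem_filter.1 hi).2, ?_⟩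
  have h2 : ‖∑ i ∈ s.filter (· ∉ good), ⟪b i, F⟫_ℂ • b i‖ ≤ δ := by
    refine (pow_le_pow_iff_left₀ (norm_nonneg _) hδ two_ne_zero).1 ?_
    rw [@norm_sq_eq_re_inner ℂ, b.orthonormal.inner_sum, map_sum]
    refine le_trans (le_of_eq (Finset.sum_congr rfl fun i _ => ?_))
      (h _ fun i hi => (Finset.mem_filter.1 hi).2)
    rw [RCLike.conj_mul]
    norm_cast
  rw [dist_comm, dist_eq_norm, ← Finset.sum_filter_add_sum_filter_not s (· ∈ good)] at hs
  calc _ = ‖(F - (∑ i ∈ s.filter (· ∈ good), ⟪b i, F⟫_ℂ • b i +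
        ∑ i ∈ s.filter (· ∉ good), ⟪b i, F⟫_ℂ • b i)) +
        ∑ i ∈ s.filter (· ∉ good), ⟪b i, F⟫_ℂ • b i‖ := by congr 1; abel
    _ < δ + η := (norm_add_le _ _).trans_lt (by linarith)

theorem mass_le {N : ℕ} (hN : 0 < N) (F : E) (hF : ‖F‖ ≤ 1) (τ : Fin N → E →ₗᵢ[ℂ] E)
    (ho : ∀ i j, i ≠ j → ⟪τ i F, τ j F⟫_ℂ = 0) (s : Finset ι) (hs : ∀ ξ ∈ s, ∀ i, τ i (b ξ) = b ξ) :
    ∑ ξ ∈ s, ‖⟪b ξ, F⟫_ℂ‖ ^ 2 ≤ 1 / N := by
  have hN' : (0 : ℝ) < N := by exact_mod_cast hN
  have h1 : ∀ ξ ∈ s, ⟪b ξ, ∑ i, τ i F⟫_ℂ = N * ⟪b ξ, F⟫_ℂ := by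
    intro ξ hξ
    rw [inner_sum, Finset.sum_congr rfl (g := fun _ => ⟪b ξ, F⟫_ℂ)]
    · simp
    · intro i _
      conv_lhs => rw [← hs ξ hξ i]
      exact (τ i).inner_map_map _ _
  have h2 := b.orthonormal.sum_inner_products_le (∑ i, τ i F) (s := s)
  have h3 : ‖∑ i, τ i F‖ ^ 2 ≤ N := by
    rw [@norm_sq_eq_re_inner ℂ, sum_inner, map_sum]
    calc _ ≤ ∑ _i : Fin N, (1 : ℝ) := by
          refine Finset.sum_le_sum fun i _ => ?_
          rw [inner_sum, Finset.sum_eq_single i (fun j _ hj => ho _ _ hj.symm) (by simp),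
            ← @norm_sq_eq_re_inner ℂ, LinearIsometry.norm_map]
          exact pow_le_one₀ (norm_nonneg _) hF
      _ = N := by simp
  rw [Finset.sum_congr rfl (g := fun ξ => (N : ℝ) ^ 2 * ‖⟪b ξ, F⟫_ℂ‖ ^ 2) (fun ξ hξ => by
    rw [h1 ξ hξ, norm_mul, mul_pow]; simp), ← Finset.mul_sum] at h2
  rw [le_div_iff₀ hN']
  nlinarith

end Basis

theorem eig_orth (τ : E →ₗᵢ[ℂ] E) {x y : E} {c c' : ℂ} (hx : τ x = c • x) (hy : τ y = c' • y)
    (h1 : ‖c‖ = 1) (h : c ≠ c') : ⟪x, y⟫_ℂ = 0 := by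
  have h2 := τ.inner_map_map x y
  rw [hx, hy, inner_smul_left, inner_smul_right] at h2
  have h3 : c * (starRingEnd ℂ) c = 1 := by rw [RCLike.mul_conj, h1]; simp
  have h4 : (c' - c) * ⟪x, y⟫_ℂ = 0 := by linear_combination c * h2 - c' * ⟪x, y⟫_ℂ * h3
  exact (mul_eq_zero.1 h4).resolve_left (sub_ne_zero.2 h.symm)

end Pool.Agent.H964Z.Sp
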