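import Pool.Agent.H964Z.Core
import Pool.Agent.H964Z.SpHil

set_option autoImplicit false
set_option linter.unusedSectionVars false
open MeasureTheory Set Filter Topology
open scoped ENNReal symmDiff InnerProductSpace

namespace Pool.Agent.H964Z.Sp

open Pool.Agent.H964Z.Gen

section Cmp
variable {α β γ : Type*} [MeasurableSpace α] [MeasurableSpace β] [MeasurableSpace γ]
  {μ : Measure α} {ν : Measure β} {ξ : Measure γ}

/-- Composition with a measure preserving map. -/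
noncomputable def cmp (f : α → β) (hf : MeasurePreserving f μ ν) : Lp ℂ 2 ν →ₗᵢ[ℂ] Lp ℂ 2 μ :=
  Lp.compMeasurePreservingₗᵢ ℂ f hf

theorem cmp_coe {f : α → β} (hf : MeasurePreserving f μ ν) (F : Lp ℂ 2 ν) :
    cmp f hf F =ᵐ[μ] fun x => F (f x) := Lp.coeFn_compMeasurePreserving F hf

theorem cmp_coe' {f : α → β} (hf : MeasurePreserving f μ ν) {F : Lp ℂ 2 ν} {G : β → ℂ}
    (h : F =ᵐ[ν] G) : cmp f hf F =ᵐ[μ] fun x => G (f x) :=
  (cmp_coe hf F).trans (hf.quasiMeasurePreserving.ae_eq_comp h)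

theorem cmp_congr {f g : α → β} (hf : MeasurePreserving f μ ν) (hg : MeasurePreserving g μ ν)
    (h : f =ᵐ[μ] g) (F : Lp ℂ 2 ν) : cmp f hf F = cmp g hg F := by
  refine Lp.ext ?_
  filter_upwards [cmp_coe hf F, cmp_coe hg F, h] with x a b c
  rw [a, b, c]

theorem cmp_cmp {f : α → β} {g : β → γ} (hf : MeasurePreserving f μ ν)
    (hg : MeasurePreserving g ν ξ) (F : Lp ℂ 2 ξ) :
    cmp f hf (cmp g hg F) = cmp (g ∘ f) (hg.comp hf) F :=
  (Lp.compMeasurePreserving_comp_apply F hg hf).symm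

theorem cmp_id {f : α → α} (hf : MeasurePreserving f μ μ) (h : ∀ᵐ x ∂μ, f x = x) (F : Lp ℂ 2 μ) :
    cmp f hf F = F := by
  refine Lp.ext ?_
  filter_upwards [cmp_coe hf F, h] with x a b
  rw [a, b]

/-- Product measure. -/
noncomputable abbrev pw (μ : Measure α) (k : ℕ) : Measure (Fin k → α) := Measure.pi fun _ => μ

theorem ae_pw [IsProbabilityMeasure μ] {k : ℕ} {p : Fin k → α → Prop} (h : ∀ j, ∀ᵐ x ∂μ, p j x) :
    ∀ᵐ x ∂pw μ k, ∀ j, p j (x j) :=
  ae_all_iff.2 fun j =>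
    (measurePreserving_eval (fun _ : Fin k => μ) j).quasiMeasurePreserving.ae (h j)

end Cmp

variable {X : Type*} [MetricSpace X] [SecondCountableTopology X] [MeasurableSpace X] [BorelSpace X]
  {μ : Measure X} [IsProbabilityMeasure μ] {k : ℕ}

theorem cont_cmp (F : Lp ℂ 2 μ) {Y : Type*} [TopologicalSpace Y] {u : Y → Au μ}
    (h : ∀ A, MeasurableSet A → ∀ y, Tendsto (fun y' => sd A (u y') (u y)) (𝓝 y) (𝓝 0)) :
    Continuous fun y => cmp (u y) (u y).mp F := by
  refine Lp.induction (p := 2) (by simp) (fun F => Continuous fun y => cmp (u y) (u y).mp F)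
    (fun c s hs hf => ?_) (fun f g hf hg _ h1 h2 => ?_) ?_ F
  · exact continuous_indicatorConstLp_set (hs := fun y => (u y).meas hs)
      (hμs := fun y => measure_ne_top _ _) (by simp) (h s hs)
  · simp only [map_add]
    exact h1.add h2
  · refine isClosed_of_closure_subset fun F hF => ?_
    refine continuous_of_uniform_approx_of_continuous fun v hv => ?_
    obtain ⟨ε, hε, hv⟩ := Metric.mem_uniformity_dist.1 hv
    obtain ⟨G, hG, h1⟩ := Metric.mem_closure_iff.1 hF ε hε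
    exact ⟨_, hG, fun y => hv (by rwa [LinearIsometry.dist_map])⟩

/-- The product of automorphisms. -/
noncomputable def prodAu (g : Fin k → Gb μ) : Au (pw μ k) :=
  (⟨Equiv.piCongrRight fun j => (rep (g j)).pm,
    measurePreserving_pi _ _ fun j => (rep (g j)).mp,
    measurePreserving_pi _ _ fun j => (rep (g j))⁻¹.mp⟩ : ↥(MPs (pw μ k)))

theorem prodAu_apply (g : Fin k → Gb μ) (x : Fin k → X) (j : Fin k) :
    prodAu g x j = rep (g j) (x j) := rfl

/-- The tensor product of Koopman operators. -/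
noncomputable def KK (g : Fin k → Gb μ) : Lp ℂ 2 (pw μ k) →ₗᵢ[ℂ] Lp ℂ 2 (pw μ k) :=
  cmp (prodAu g) (prodAu g).mp

theorem KK_mul (g h : Fin k → Gb μ) (F : Lp ℂ 2 (pw μ k)) : KK (g * h) F = KK h (KK g F) := by
  unfold KK
  rw [cmp_cmp]
  refine cmp_congr _ _ ?_ F
  filter_upwards [ae_pw fun j => rep_mul (g j) (h j)] with x hx
  exact funext hx

theorem KK_one (F : Lp ℂ 2 (pw μ k)) : KK 1 F = F := by
  refine cmp_id _ ?_ F
  filter_upwards [ae_pw fun _ : Fin k => rep_one (μ := μ)] with x hx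
  exact funext hx

theorem KK_cont (F : Lp ℂ 2 (pw μ k)) : Continuous fun g : Fin k → Gb μ => KK g F := by
  refine cont_cmp F fun A hA g => tendsto_sd_of_e1 ?_ hA (measure_ne_top _ _)
  have h1 : ∀ j, Tendsto (fun g' : Fin k → Gb μ => e1 μ (rep (g' j)) (rep (g j))) (𝓝 g) (𝓝 0) :=
    fun j => tendsto_e1_of_sd (tendsto_gb_iff.1 ((continuous_apply j).tendsto g))
  have h2 := tendsto_finsetSum Finset.univ fun j _ => h1 j
  rw [Finset.sum_const_zero] at h2
  refine tendsto_of_tendsto_of_tendsto_of_le_of_le tendsto_const_nhds h2 (fun _ => zero_le)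
    fun g' => ?_
  simp only [e1, toFinite_eq_self]
  have h3 : ∀ j, ∫⁻ x, min 1 (edist (rep (g' j) x) (rep (g j) x)) ∂μ =
      ∫⁻ x, min 1 (edist (rep (g' j) (x j)) (rep (g j) (x j))) ∂pw μ k := fun j =>
    ((measurePreserving_eval (fun _ : Fin k => μ) j).lintegral_comp
      (meas_min (Au.meas _) (Au.meas _))).symm
  simp only [h3]
  rw [← lintegral_finsetSum (f := fun j (x : Fin k → X) =>
    min 1 (edist (rep (g' j) (x j)) (rep (g j) (x j)))) _ fun j _ =>
      (meas_min (Au.meas (rep (g' j))) (Au.meas (rep (g j)))).comp (measurable_pi_apply j)]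
  refine lintegral_mono fun x => ?_
  by_cases h : ∃ j, 1 ≤ edist (rep (g' j) (x j)) (rep (g j) (x j))
  · obtain ⟨j, hj⟩ := h
    refine (min_le_left _ _).trans (le_trans ?_ (Finset.single_le_sum (f := fun j =>
      min 1 (edist (rep (g' j) (x j)) (rep (g j) (x j)))) (fun _ _ => zero_le) (Finset.mem_univ j)))
    exact le_min le_rfl hj
  · push Not at h
    refine (min_le_right _ _).trans (edist_pi_le_iff.2 fun j => ?_)
    refine le_trans ?_ (Finset.single_le_sum (f := fun j =>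
      min 1 (edist (rep (g' j) (x j)) (rep (g j) (x j)))) (fun _ _ => zero_le) (Finset.mem_univ j))
    exact le_min (h j).le le_rfl

/-- The powers of the product of the time `t j` maps. -/
noncomputable def UU (Φ : C(ℝ, Gb μ)) (t : Fin k → ℝ) (n : ℤ) :
    Lp ℂ 2 (pw μ k) →ₗᵢ[ℂ] Lp ℂ 2 (pw μ k) := KK fun j => Φ (n * t j)

theorem isRep_UU {Φ : C(ℝ, Gb μ)} (h : IsFlow Φ) (t : Fin k → ℝ) : IsRep (UU Φ t) := by
  refine ⟨fun x => ?_, fun m n x => ?_⟩
  · simp only [UU, Int.cast_zero, zero_mul, h.zero]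
    exact KK_one x
  · simp only [UU]
    rw [← KK_mul]
    congr 2
    funext j
    rw [Pi.mul_apply, ← h]
    congr 1
    push_cast
    ring

/-- Functions that do not depend on one of the coordinates. -/
def Ind (μ : Measure X) (k : ℕ) : Set (Lp ℂ 2 (pw μ k)) :=
  {G | ∃ (g : (Fin k → X) → ℂ) (i : Fin k), G =ᵐ[pw μ k] g ∧
    ∀ x y, g (Function.update x i y) = g x}

/-- The tensor power of the space of functions with integral zero. -/
noncomputable def H0 (μ : Measure X) (k : ℕ) : Submodule ℂ (Lp ℂ 2 (pw μ k)) :=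
  (Submodule.span ℂ (Ind μ k))ᗮ

theorem mem_H0 {F : Lp ℂ 2 (pw μ k)} : F ∈ H0 μ k ↔ ∀ G ∈ Ind μ k, ⟪G, F⟫_ℂ = 0 := by
  refine ⟨fun h G hG => h G (Submodule.subset_span hG), fun h G hG => ?_⟩
  induction hG using Submodule.span_induction with
  | mem x hx => exact h x hx
  | zero => simp
  | add x y _ _ h1 h2 => rw [inner_add_left, h1, h2, add_zero]
  | smul c x _ h => rw [inner_smul_left, h, mul_zero]

theorem H0_inv {Φ : C(ℝ, Gb μ)} (h : IsFlow Φ) (t : Fin k → ℝ) (n : ℤ) (F : Lp ℂ 2 (pw μ k))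
    (hF : F ∈ H0 μ k) : UU Φ t n F ∈ H0 μ k := by
  refine (isRep_UU h t).orth_inv (fun n G hG => ?_) n F hF
  induction hG using Submodule.span_induction with
  | mem x hx =>
    obtain ⟨g, i, h1, h2⟩ := hx
    refine Submodule.subset_span ⟨_, i, cmp_coe' _ h1, fun x y => ?_⟩
    rw [← h2 (prodAu _ x) (rep (Φ (n * t i)) y)]
    congr 1
    funext j
    by_cases hj : j = i
    · subst hj; simp [prodAu_apply]
    · simp [prodAu_apply, hj]
  | zero => simp
  | add x y _ _ h1 h2 => rw [map_add]; exact add_mem h1 h2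
  | smul c x _ h => rw [map_smul]; exact Submodule.smul_mem _ c h

/-- Approximate cyclicity, for all times in `K`. -/
def DD (K : Set (Fin k → ℝ)) (d : ℕ → Lp ℂ 2 (pw μ k)) (r : ℕ) (η : ℝ) : Set C(ℝ, Gb μ) :=
  {Φ | ∀ t ∈ K, ∃ g, ∀ i < r, ∃ u ∈ orb (UU Φ t) g, ‖u - d i‖ < η}

theorem isOpen_DD {K : Set (Fin k → ℝ)} (hK : IsCompact K) (d : ℕ → Lp ℂ 2 (pw μ k)) (r : ℕ)
    (η : ℝ) : IsOpen (DD K d r η) := by
  rw [isOpen_iff_mem_nhds]
  intro Φ hΦ
  refine hK.eventually_forall_of_forall_eventually (P := fun (Φ : C(ℝ, Gb μ)) t =>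
    ∃ g, ∀ i < r, ∃ u ∈ orb (UU Φ t) g, ‖u - d i‖ < η) fun t ht => ?_
  obtain ⟨g, hg⟩ := hΦ t ht
  have : ∀ i ∈ Iio r, ∀ᶠ z : C(ℝ, Gb μ) × (Fin k → ℝ) in 𝓝 (Φ, t),
      ∃ u ∈ orb (UU z.1 z.2) g, ‖u - d i‖ < η := by
    intro i hi
    obtain ⟨u, hu, h1⟩ := hg i hi
    obtain ⟨c, rfl⟩ := Finsupp.mem_span_range_iff_exists_finsupp.1 hu
    have hc : Continuous fun z : C(ℝ, Gb μ) × (Fin k → ℝ) =>
        ‖(c.sum fun n a => a • UU z.1 z.2 n g) - d i‖ := by
      refine (Continuous.sub ?_ continuous_const).norm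
      refine continuous_finsetSum _ fun n _ => ?_
      have : Continuous fun z : C(ℝ, Gb μ) × (Fin k → ℝ) => UU z.1 z.2 n g :=
        (KK_cont g).comp (f := fun (z : C(ℝ, Gb μ) × (Fin k → ℝ)) j => z.1 (n * z.2 j))
          (by fun_prop)
      exact this.const_smul (c n)
    filter_upwards [hc.continuousAt.eventually (gt_mem_nhds h1)] with z hz
    exact ⟨_, Finsupp.mem_span_range_iff_exists_finsupp.2 ⟨c, rfl⟩, hz⟩
  filter_upwards [(eventually_all_finite (finite_Iio r)).2 this] with z hz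
  exact ⟨g, hz⟩

end Pool.Agent.H964Z.Sp
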