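import Mathlib

set_option autoImplicit false
open Set Filter Topology

namespace Pool.Agent.H964Z.Sp

theorem lacunary (I : Type*) [Fintype I] {ε : ℝ} (hε : 0 < ε) :
    ∃ (ω : I → ℝ) (D : ℕ), 0 < D ∧ (∀ i, ∃ z : ℤ, D * ω i = z) ∧ (∀ i, |ω i| ≤ ε) ∧
      ∀ S : Finset ℝ, ∃ B : Finset I, B.card ≤ S.card ^ 2 ∧ ∀ (c : ℝ) (s : I → ℝ), c ∈ S →
        (∀ i, s i ∈ S) → (∀ i ∈ B, s i = 0) → c + ∑ i, ω i * s i = 0 → ∀ i, s i = 0 := by
  classical
  let e := Fintype.equivFin I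
  set Q := Fintype.card I with hQ
  obtain ⟨n, hn⟩ : ∃ n : ℝ, n = Q + 1 := ⟨_, rfl⟩
  have hn1 : 1 ≤ n := by rw [hn]; linarith [Nat.cast_nonneg (α := ℝ) Q]
  obtain ⟨D0, hD0⟩ := exists_nat_gt (max (n ^ 2) (1 / ε))
  have hD1 : n ^ 2 < D0 := (le_max_left _ _).trans_lt hD0
  have hD2 : 1 / ε < D0 := (le_max_right _ _).trans_lt hD0
  have hD3 : (1 : ℝ) < D0 := by nlinarith
  set δ : ℝ := (D0 : ℝ)⁻¹ with hδ
  have δ0 : 0 < δ := by positivity
  have δ1 : δ ≤ 1 := inv_le_one_of_one_le₀ hD3.le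
  have δ2 : n ^ 2 * δ < 1 := by rw [hδ, ← div_eq_mul_inv, div_lt_one (by positivity)]; exact hD1
  have δ3 : δ ≤ ε := by
    rw [hδ, inv_le_comm₀ (by positivity) hε, ← one_div]; exact hD2.le
  let w : ℕ → ℝ := fun b => δ ^ (2 ^ b - 1)
  have w0 : ∀ b, 0 < w b := fun b => pow_pos δ0 _
  have w1 : ∀ b, w (b + 1) = δ * w b ^ 2 := by
    intro b
    simp only [w]
    rw [← pow_mul, ← pow_succ']
    congr 1
    have := Nat.one_le_two_pow (n := b)
    rw [pow_succ]; omega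
  have w2 : Antitone w := fun a b hab => pow_le_pow_of_le_one δ0.le δ1
    (Nat.sub_le_sub_right (Nat.pow_le_pow_right two_pos hab) 1)
  have w3 : ∀ b, w b ≤ 1 := fun b => pow_le_one₀ δ0.le δ1
  let win : ℕ → ℝ → ℝ → Prop := fun a u v =>
    v ≠ 0 ∧ δ * w a ^ 2 * |v| ≤ n * |u| ∧ |u| ≤ n * δ * w a * |v|
  have hwin : ∀ a a' u v, a < a' → win a u v → ¬ win a' u v := by
    rintro a a' u v h ⟨h0, h1, -⟩ ⟨-, -, h2⟩
    have h3 : w a' ≤ δ * w a ^ 2 := w1 a ▸ w2 h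
    have h4 : 0 < δ * w a ^ 2 * |v| := by have := w0 a; have := abs_pos.2 h0; positivity
    have h5 : n * |u| ≤ n * (n * δ * (δ * w a ^ 2) * |v|) := by
      refine mul_le_mul_of_nonneg_left (h2.trans ?_) (by linarith)
      gcongr
    nlinarith
  refine ⟨fun i => w (e i + 1), D0 ^ (2 ^ Q), pow_pos (by exact_mod_cast zero_lt_one.trans hD3) _,
    fun i => ⟨(D0 : ℤ) ^ (2 ^ Q - (2 ^ ((e i : ℕ) + 1) - 1)), ?_⟩, fun i => ?_, fun S => ?_⟩
  · have h1 : 2 ^ ((e i : ℕ) + 1) - 1 ≤ 2 ^ Q :=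
      (Nat.sub_le _ _).trans (Nat.pow_le_pow_right two_pos (e i).2)
    simp only [w, hδ]
    push_cast
    rw [pow_sub₀ _ (by positivity) h1, inv_pow]
  · rw [abs_of_pos (w0 _), w1]
    exact le_trans (mul_le_of_le_one_right δ0.le (pow_le_one₀ (w0 _).le (w3 _))) δ3
  refine ⟨(S ×ˢ S).biUnion fun p => Finset.univ.filter fun i => win (e i) p.1 p.2, ?_,
    fun c s hc hs hB h0 => ?_⟩
  · refine (Finset.card_biUnion_le_card_mul _ _ 1 fun p _ => ?_).trans (by simp [sq])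
    refine Finset.card_le_one.2 fun i hi j hj => e.injective (Fin.ext ?_)
    have h1 := (Finset.mem_filter.1 hi).2
    have h2 := (Finset.mem_filter.1 hj).2
    rcases lt_trichotomy (e i : ℕ) (e j) with h | h | h
    · exact (hwin _ _ _ _ h h1 h2).elim
    · exact h
    · exact (hwin _ _ _ _ h h2 h1).elim
  let ρ : Option I → ℕ := fun o => o.elim 0 fun i => e i + 1
  let σ : Option I → ℝ := fun o => o.elim c s
  have hσ : ∀ o, σ o ∈ S := by rintro (_ | i); exacts [hc, hs i]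
  have hρ : Function.Injective ρ := by
    rintro (_ | i) (_ | j) h <;> simp only [ρ, Option.elim] at h
    · rfl
    · omega
    · omega
    · exact congrArg _ (e.injective (Fin.ext (by omega)))
  let x : Option I → ℝ := fun o => w (ρ o) * σ o
  have hx : ∑ o, x o = 0 := by
    rw [Fintype.sum_option, ← h0]
    simp [x, ρ, σ, w]
  have key : ∀ p q, ρ p < ρ q → x q ≠ 0 → |x p| ≤ n * |x q| → |x q| ≤ n * |x p| → False := by
    rintro p (_ | i) h h1 h2 h3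
    · simp [ρ] at h
    have h4 : s i ≠ 0 := right_ne_zero_of_mul h1
    refine h4 (hB i (Finset.mem_biUnion.2 ⟨(σ p, s i), Finset.mem_product.2 ⟨hσ p, hs i⟩,
      Finset.mem_filter.2 ⟨Finset.mem_univ _, h4, ?_, ?_⟩⟩))
    all_goals
      have e1 : |x p| = w (ρ p) * |σ p| := by rw [abs_mul, abs_of_pos (w0 _)]
      have e2 : |x (some i)| = δ * w (e i) ^ 2 * |s i| := by
        rw [abs_mul, abs_of_pos (w0 _), ← w1]; rfl
      rw [e1, e2] at h2 h3
    · refine h3.trans ?_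
      gcongr
      exact mul_le_of_le_one_left (abs_nonneg _) (w3 _)
    · have h5 : w (e i) ≤ w (ρ p) := w2 (Nat.lt_succ_iff.1 h)
      refine le_of_mul_le_mul_left ?_ (w0 (e i))
      calc _ ≤ w (ρ p) * |σ p| := by gcongr
        _ ≤ _ := h2
        _ = _ := by ring
  intro i
  by_contra hi
  obtain ⟨p, hp⟩ := Finite.exists_max fun o => |x o|
  have p0 : 0 < |x p| := lt_of_lt_of_le (abs_pos.2 (mul_ne_zero (w0 _).ne' hi)) (hp (some i))
  have hsum : x p = -∑ o ∈ Finset.univ.erase p, x o := by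
    rw [← Finset.add_sum_erase _ _ (Finset.mem_univ p)] at hx
    linarith
  have hne : (Finset.univ.erase p).Nonempty := by
    rw [Finset.nonempty_iff_ne_empty]
    intro h
    rw [h, Finset.sum_empty, neg_zero] at hsum
    simp [hsum] at p0
  obtain ⟨q, hq, hq2⟩ := Finset.exists_max_image _ (fun o => |x o|) hne
  have a1 : |x p| ≤ n * |x q| := by
    rw [hsum, abs_neg]
    refine (Finset.abs_sum_le_sum_abs _ _).trans ((Finset.sum_le_card_nsmul _ _ _ hq2).trans ?_)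
    rw [nsmul_eq_mul, hn]
    gcongr
    have := Finset.card_le_univ (Finset.univ.erase p)
    rw [Fintype.card_option] at this
    exact_mod_cast this
  have a2 : |x q| ≤ n * |x p| := (hp q).trans (le_mul_of_one_le_left p0.le hn1)
  have q0 : x q ≠ 0 := by
    intro h
    rw [h, abs_zero, mul_zero] at a1
    exact absurd p0 (not_lt.2 a1)
  rcases lt_or_gt_of_ne (hρ.ne (Finset.ne_of_mem_erase hq)) with h | h
  · exact key q p h (abs_pos.1 p0) a2 a1
  · exact key p q h q0 a1 a2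

theorem prim_eq {ι : Type*} {x y : ι → ℤ} {t t' : ℝ} (ht : 0 < t) (ht' : 0 < t') {B : ℕ}
    (h : ∀ l, x l * t = y l * t') {l0 : ι} (h0 : x l0 ≠ 0) (hx : |x l0| ≤ B) (hy : |y l0| ≤ B)
    (px : ∀ p : ℕ, 2 ≤ p → p ≤ B → ∃ l, ¬ (p : ℤ) ∣ x l)
    (py : ∀ p : ℕ, 2 ≤ p → p ≤ B → ∃ l, ¬ (p : ℤ) ∣ y l) : t = t' := by
  have y0 : y l0 ≠ 0 := by
    intro hy0
    have := h l0
    rw [hy0, Int.cast_zero, zero_mul] at this
    exact mul_ne_zero (Int.cast_ne_zero.2 h0) ht.ne' this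
  have cr : ∀ l, x l * y l0 = y l * x l0 := by
    intro l
    have h1 : ((x l * y l0 : ℤ) : ℝ) * (t * t') = ((y l * x l0 : ℤ) : ℝ) * (t * t') := by
      push_cast
      linear_combination (y l0 * t') * h l - (y l * t') * h l0
    exact_mod_cast mul_right_cancel₀ (by positivity) h1
  have g0 : 0 < Int.gcd (x l0) (y l0) := Int.gcd_pos_of_ne_zero_left _ h0
  obtain ⟨u, v, huv, hu, hv⟩ := Int.exists_gcd_one g0
  set g : ℤ := (Int.gcd (x l0) (y l0) : ℤ) with hg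
  have g1 : 1 ≤ g := by rw [hg]; exact_mod_cast g0
  have cr2 : ∀ l, x l * v = y l * u := fun l => by
    have := cr l
    rw [hv, hu, ← mul_assoc, ← mul_assoc] at this
    exact mul_right_cancel₀ (by omega) this
  have co : IsCoprime u v := Int.isCoprime_iff_gcd_eq_one.2 huv
  have one : ∀ (z : ι → ℤ) (u : ℤ), z l0 = u * g → z l0 ≠ 0 → |z l0| ≤ B →
      (∀ p : ℕ, 2 ≤ p → p ≤ B → ∃ l, ¬ (p : ℤ) ∣ z l) → (∀ l, u ∣ z l) → |z l0| = g := by
    intro z u h1 h2 h3 h4 h5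
    have u0 : u ≠ 0 := by rintro rfl; simp [h1] at h2
    have u1 : |u| = 1 := by
      by_contra hc
      have h6 : |u| ≤ B := by
        rw [h1, abs_mul, abs_of_pos (by omega : 0 < g)] at h3
        nlinarith [abs_nonneg u]
      obtain ⟨l, hl⟩ := h4 u.natAbs (by have := Int.abs_eq_natAbs u; omega)
        (by have := Int.abs_eq_natAbs u; omega)
      exact hl (Int.natAbs_dvd.2 (h5 l))
    rw [h1, abs_mul, u1, one_mul, abs_of_pos (by omega)]
  have e1 := one x u hu h0 hx px fun l => co.dvd_of_dvd_mul_right ⟨y l, by rw [cr2, mul_comm]⟩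
  have e2 := one y v hv y0 hy py fun l =>
    co.symm.dvd_of_dvd_mul_right ⟨x l, by rw [← cr2, mul_comm]⟩
  have h3 := congrArg abs (h l0)
  rw [abs_mul, abs_mul, abs_of_pos ht, abs_of_pos ht', ← Int.cast_abs, ← Int.cast_abs, e1,
    e2] at h3
  exact mul_left_cancel₀ (by exact_mod_cast (by omega : g ≠ 0)) h3

/-- Admissible frequencies. -/
def Good {k : ℕ} {d ι : Type*} (B : ℕ) (ζ : Fin k × (d ⊕ ι) → ℤ) : Prop :=
  ∀ j, (∀ i, |ζ (j, Sum.inl i)| ≤ B) ∧ (∃ i, ζ (j, Sum.inl i) ≠ 0) ∧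
    ∀ p : ℕ, 2 ≤ p → p ≤ B → ∃ l, ¬ (p : ℤ) ∣ ζ (j, l)

/-- The exponent of the eigenvalue. -/
def expo {k M : ℕ} {ι : Type*} [Fintype ι] (α : ι → ℝ) (ω : Fin M × ι → ℝ) (t : Fin k → ℝ)
    (a : Fin k → Fin M) (ζ : Fin k × ι → ℤ) : ℝ :=
  ∑ q : Fin k × ι, ζ q * (t q.1 * (α q.2 + ω (a q.1, q.2)))

theorem no_collision {k : ℕ} {d ι : Type*} [Fintype d] [Fintype ι] (B : ℕ)
    (s : Finset (Fin k × (d ⊕ ι) → ℤ)) (hs : ∀ ζ ∈ s, Good B ζ) (α : d ⊕ ι → ℝ) (L : ℝ) :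
    ∃ R : ℕ, ∀ (M : ℕ) (ε : ℝ), 0 < ε → ∃ (ω : Fin M × (d ⊕ ι) → ℝ) (D : ℕ), 0 < D ∧
      (∀ i, ∃ z : ℤ, D * ω i = z) ∧ (∀ i, |ω i| ≤ ε) ∧
      ∀ t : Fin k → ℝ, Function.Injective t → (∀ j, 0 < t j) → (∀ j, t j ≤ L) →
        ∃ Bd : Finset (Fin M), Bd.card ≤ R ∧ ∀ a a' : Fin k → Fin M, Function.Injective a →
          Function.Injective a' → (∀ j, a j ∉ Bd) → (∀ j, a' j ∉ Bd) → ∀ ζ ∈ s, ∀ ζ' ∈ s,
            ∀ z : ℤ, expo α ω t a ζ - expo α ω t a' ζ' = z → a = a' ∧ ζ = ζ' := by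
  classical
  let T1 := s ×ˢ s ×ˢ (Finset.univ : Finset ((d ⊕ ι) × Finset (Fin k) × Finset (Fin k)))
  obtain ⟨W, hW0, hW⟩ : ∃ W : ℝ, 0 < W ∧ ∀ ζ ∈ s, ∑ q, |(ζ q : ℝ)| * |L| ≤ W := by
    refine ⟨1 + ∑ ζ ∈ s, ∑ q, |(ζ q : ℝ)| * |L|, by positivity, fun ζ hζ => ?_⟩
    have := Finset.single_le_sum (f := fun ζ : Fin k × (d ⊕ ι) → ℤ => ∑ q, |(ζ q : ℝ)| * |L|)
      (fun _ _ => by positivity) hζ
    linarith
  refine ⟨(T1.card + (s ×ˢ s).card) ^ 2, fun M ε hε => ?_⟩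
  obtain ⟨ω, D, h1, h2, h3, h4⟩ := lacunary (Fin M × (d ⊕ ι)) (ε := min ε (1 / (5 * W)))
    (by positivity)
  refine ⟨ω, D, h1, h2, fun i => (h3 i).trans (min_le_left _ _), fun t ti t0 tL => ?_⟩
  let c0 : (Fin k × (d ⊕ ι) → ℤ) → ℝ := fun ζ => ∑ q, ζ q * (t q.1 * α q.2)
  let S1 := T1.image fun p => ∑ j ∈ p.2.2.2.1, p.1 (j, p.2.2.1) * t j -
    ∑ j ∈ p.2.2.2.2, p.2.1 (j, p.2.2.1) * t j
  let S2 := (s ×ˢ s).image fun p => c0 p.1 - c0 p.2 - round (c0 p.1 - c0 p.2)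
  obtain ⟨Bs, b1, b2⟩ := h4 (S1 ∪ S2)
  refine ⟨Bs.image Prod.fst, Finset.card_image_le.trans (b1.trans ?_),
    fun a a' ia ia' ga ga' ζ hζ ζ' hζ' z hz => ?_⟩
  · gcongr
    exact (Finset.card_union_le _ _).trans (add_le_add Finset.card_image_le Finset.card_image_le)
  let σ : (Fin k → Fin M) → (Fin k × (d ⊕ ι) → ℤ) → Fin M × (d ⊕ ι) → ℝ := fun a ζ q =>
    ∑ j ∈ Finset.univ.filter fun j => a j = q.1, ζ (j, q.2) * t j
  have ex : ∀ a ζ, expo α ω t a ζ = c0 ζ + ∑ q, ω q * σ a ζ q := by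
    intro a ζ
    simp only [expo, c0, σ, mul_add, Finset.sum_add_distrib, Finset.mul_sum, Finset.sum_filter,
      Fintype.sum_prod_type, mul_ite, mul_zero]
    congr 1
    rw [Finset.sum_comm]
    conv_rhs => rw [Finset.sum_comm]
    refine Finset.sum_congr rfl fun l _ => ?_
    rw [Finset.sum_comm]
    refine Finset.sum_congr rfl fun j _ => ?_
    rw [Finset.sum_ite_eq]
    simp only [Finset.mem_univ, if_true]
    ring
  have bd : ∀ a, ∀ ζ ∈ s, |expo α ω t a ζ - c0 ζ| ≤ 1 / 5 := by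
    intro a ζ hζ
    simp only [expo, c0, mul_add, Finset.sum_add_distrib, add_sub_cancel_left]
    refine (Finset.abs_sum_le_sum_abs _ _).trans ?_
    calc _ ≤ ∑ q : Fin k × (d ⊕ ι), |(ζ q : ℝ)| * |L| * (1 / (5 * W)) := by
          refine Finset.sum_le_sum fun q _ => ?_
          rw [abs_mul, abs_mul, mul_assoc]
          refine mul_le_mul_of_nonneg_left (mul_le_mul ?_ ((h3 _).trans (min_le_right _ _))
            (abs_nonneg _) (abs_nonneg _)) (abs_nonneg _)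
          rw [abs_of_pos (t0 _)]; exact (tL _).trans (le_abs_self _)
      _ ≤ W * (1 / (5 * W)) := by rw [← Finset.sum_mul]; gcongr; exact hW ζ hζ
      _ = 1 / 5 := by field_simp
  have hr : round (c0 ζ - c0 ζ') = z := by
    have a1 := abs_le.1 (bd a ζ hζ)
    have a2 := abs_le.1 (bd a' ζ' hζ')
    rw [round_eq, Int.floor_eq_iff]
    constructor <;> linarith
  have zero := b2 (c0 ζ - c0 ζ' - z) (fun q => σ a ζ q - σ a' ζ' q)
    (Finset.mem_union_right _ (Finset.mem_image.2 ⟨(ζ, ζ'), Finset.mem_product.2 ⟨hζ, hζ'⟩,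
      by rw [hr]⟩))
    (fun q => Finset.mem_union_left _ (Finset.mem_image.2 ⟨(ζ, ζ', q.2, _, _),
      Finset.mem_product.2 ⟨hζ, Finset.mem_product.2 ⟨hζ', Finset.mem_univ _⟩⟩, rfl⟩))
    (fun q hq => by
      have hq' : q.1 ∈ Bs.image Prod.fst := Finset.mem_image_of_mem _ hq
      simp only [σ]
      rw [Finset.filter_false_of_mem fun j _ (h : a j = q.1) => ga j (h ▸ hq'),
        Finset.filter_false_of_mem fun j _ (h : a' j = q.1) => ga' j (h ▸ hq')]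
      simp)
    (by
      rw [ex, ex] at hz
      simp only [mul_sub, Finset.sum_sub_distrib]
      linarith)
  have sg : ∀ (a : Fin k → Fin M) ζ, Function.Injective a → ∀ j l,
      σ a ζ (a j, l) = ζ (j, l) * t j := by
    intro a ζ ia j l
    simp only [σ, ia.eq_iff]
    rw [Finset.filter_eq' Finset.univ j]
    simp
  have fin : ∀ j, a j = a' j ∧ ∀ l, ζ (j, l) = ζ' (j, l) := by
    intro j
    obtain ⟨i0, hi0⟩ := (hs ζ hζ j).2.1
    obtain ⟨j', hj'⟩ : ∃ j', a' j' = a j := by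
      by_contra hc
      push Not at hc
      have := zero (a j, Sum.inl i0)
      simp only [sg a ζ ia] at this
      simp only [σ] at this
      rw [Finset.filter_false_of_mem fun j' _ => hc j', Finset.sum_empty, sub_zero] at this
      exact mul_ne_zero (Int.cast_ne_zero.2 hi0) (t0 j).ne' this
    have he : ∀ l, ζ (j, l) * t j = ζ' (j', l) * t j' := fun l => by
      have := zero (a j, l)
      simp only [sg a ζ ia] at this
      rw [← hj', sg a' ζ' ia'] at this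
      linarith
    obtain rfl : j = j' := ti (prim_eq (x := fun l => ζ (j, l)) (y := fun l => ζ' (j', l)) (t0 j)
      (t0 j') he hi0 ((hs ζ hζ j).1 i0) ((hs ζ' hζ' j').1 i0) (hs ζ hζ j).2.2 (hs ζ' hζ' j').2.2)
    exact ⟨hj'.symm, fun l => by exact_mod_cast mul_right_cancel₀ (t0 j).ne' (he l)⟩
  exact ⟨funext fun j => (fin j).1, funext fun q => (fin q.1).2 q.2⟩

end Pool.Agent.H964Z.Sp
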