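import Pool.Agent.H964Z.SpTor

set_option autoImplicit false
set_option linter.unusedSectionVars false
open MeasureTheory Set Filter Topology
open scoped ENNReal symmDiff InnerProductSpace

namespace Pool.Agent.H964Z.Sp

open Pool.Agent.H964Z.Gen

variable {X : Type} [MetricSpace X] [SecondCountableTopology X] [MeasurableSpace X] [BorelSpace X]
  {μ : Measure X} [IsProbabilityMeasure μ] {k : ℕ} {d : Type} [Fintype d]

instance : BorelSpace (Fin k → Tor d) := Pi.borelSpace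

instance : (pw (tm d) k).IsAddHaarMeasure := Measure.pi.isAddHaarMeasure _

/-- The Cartesian power of a map to a torus. -/
def bet (f : X → Tor d) (x : Fin k → X) : Tor (Fin k × d) := fun q => f (x q.1) q.2

theorem bet_mp {f : X → Tor d} (hf : MeasurePreserving f μ (tm d)) :
    MeasurePreserving (bet f) (pw μ k) (tm (Fin k × d)) :=
  (mp_hom (pw (tm d) k) (tm (Fin k × d)) (f := fun y q => y q.1 q.2) (fun _ _ => rfl)
    (by fun_prop) fun Z => ⟨fun j i => Z (j, i), rfl⟩).comp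
      (measurePreserving_pi _ _ fun _ => hf)

theorem first_approx (e : AeIso μ (tm d)) {h : Lp ℂ 2 (pw μ k)} (hh : h ∈ H0 μ k) {η : ℝ}
    (hη : 0 < η) : ∃ (s : Finset (Fin k × d → ℤ)) (c : _ → ℂ), (∀ ξ ∈ s, ∀ j, ∃ i, ξ (j, i) ≠ 0) ∧
      ‖h - ∑ ξ ∈ s, c ξ • cmp (bet e.f) (bet_mp e.mf) (fb _ ξ)‖ < η := by
  have hb : MeasurePreserving (fun (Z : Tor (Fin k × d)) j => e.g fun i => Z (j, i))
      (tm (Fin k × d)) (pw μ k) :=
    (measurePreserving_pi _ _ fun _ => e.mg).comp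
      (mp_hom (tm (Fin k × d)) (pw (tm d) k) (f := fun Z j i => Z (j, i)) (fun _ _ => rfl)
        (by fun_prop) fun y => ⟨fun q => y q.1 q.2, rfl⟩)
  have h1 : cmp (bet e.f) (bet_mp e.mf) (cmp _ hb h) = h := by
    rw [cmp_cmp]
    refine cmp_id _ ?_ h
    filter_upwards [ae_pw fun _ : Fin k => e.gf] with x hx using funext hx
  obtain ⟨s, h2, h3⟩ := approx_good (fb _) (cmp _ hb h) {ξ | ∀ j, ∃ i, ξ (j, i) ≠ 0} le_rfl hη
    fun s hs => le_of_eq (by
      rw [Finset.sum_eq_zero, zero_pow two_ne_zero]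
      intro ξ hξ
      have h4 : ¬ ∀ j, ∃ i, ξ (j, i) ≠ 0 := hs ξ hξ
      push Not at h4
      obtain ⟨j, hj⟩ := h4
      rw [← (cmp (bet e.f) (bet_mp e.mf)).inner_map_map, h1,
        mem_H0.1 hh _ ⟨_, j, cmp_coe' _ (fb_coe ξ), fun x y => ?_⟩]
      · simp
      · refine Finset.prod_congr rfl fun q _ => ?_
        by_cases hq : q.1 = j
        · rw [show ξ q = 0 by rw [← hj q.2, ← hq]]; simp
        · simp [bet, hq])
  refine ⟨s, fun ξ => ⟪fb _ ξ, cmp _ hb h⟫_ℂ, h2, ?_⟩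
  rw [zero_add, ← (cmp (bet e.f) (bet_mp e.mf)).norm_map, map_sub, h1, map_sum] at h3
  simpa only [map_smul] using h3

theorem near_iso [CompleteSpace X] [NullSingletonClass μ] {G Z : Type*} [MetricSpace G]
    [CompactSpace G] [MeasurableSpace G] [BorelSpace G] {ν : Measure G} [MeasurableSpace Z]
    [StandardBorelSpace Z] {ζ : Measure Z} [IsProbabilityMeasure ζ] [NullSingletonClass ζ]
    (e1 : AeIso μ ν) {J : Z → G} (hJ : MeasurePreserving J ζ ν) {η : ℝ} (hη : 0 < η) :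
    ∃ e : AeIso μ ζ, ∀ᵐ x ∂μ, dist (J (e.f x)) (e1.f x) < η := by
  have := nonempty_of_isProbabilityMeasure μ
  have := nonempty_of_isProbabilityMeasure ζ
  obtain ⟨Q, κ, hκ, h⟩ := exists_part G hη
  obtain ⟨e, he⟩ := iso_ext (e1.mg.comp hJ) (finite_range fun v => e1.f ⁻¹' (κ ⁻¹' {v})) (by
    rintro _ ⟨v, rfl⟩
    exact e1.mf.measurable (hκ (measurableSet_singleton v)))
  refine ⟨e, ?_⟩
  filter_upwards [ae_all_iff.2 fun v => he _ ⟨v, rfl⟩,
    (hJ.comp e.mf).quasiMeasurePreserving.ae e1.fg] with x h1 h2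
  refine h _ _ ?_
  have := (h1 (κ (e1.f x))).2 rfl
  simp only [Function.comp, mem_preimage, mem_singleton_iff] at this h2
  rwa [h2] at this

theorem close' {G : Type*} [MetricSpace G] [CompactSpace G] [MeasurableSpace G] [BorelSpace G]
    {ν : Measure G} [IsProbabilityMeasure ν] {A : Set G} (hA : MeasurableSet A) {δ : ℝ≥0∞}
    (hδ : 0 < δ) : ∀ᶠ η in 𝓝[>] (0 : ℝ), ∀ {Ω : Type} [MeasurableSpace Ω] {m : Measure Ω}
      {f g : Ω → G}, MeasurePreserving f m ν → MeasurePreserving g m ν → ∀ N : Set Ω,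
        (∀ᵐ x ∂m, x ∉ N → dist (f x) (g x) < η) → m ((f ⁻¹' A) ∆ (g ⁻¹' A)) ≤ δ + m N := by
  obtain ⟨η, hη, h⟩ := close (ν := ν) hA hδ
  filter_upwards [Ioo_mem_nhdsGT hη] with η' hη' Ω _ m f g hf hg N hN
  exact h hf hg N (hN.mono fun x hx h' => (hx h').trans hη'.2)

theorem nbhd_metric (e1 : AeIso μ (tm d)) (S : C(ℝ, Gb μ)) {U : Set C(ℝ, Gb μ)} (hU : U ∈ 𝓝 S) :
    ∃ (L η : ℝ) (δ : ℝ≥0∞), 0 < L ∧ 0 < η ∧ 0 < δ ∧ ∀ R : C(ℝ, Gb μ),
      (∀ t, |t| ≤ L → ∃ N : Set X, μ N ≤ δ ∧ ∀ᵐ x ∂μ, x ∉ N →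
        dist (e1.f (rep (R t) x)) (e1.f (rep (S t) x)) < η) → R ∈ U := by
  obtain ⟨L, hL, 𝒜, h𝒜, δ, hδ, h⟩ := exists_nbhd_flow S hU
  obtain ⟨e, he, he2⟩ := exists_small hδ 2
  obtain ⟨η, h1, h2⟩ := (((eventually_all_finite h𝒜.1).2 fun A hA =>
    close' (ν := tm d) (e1.mg.measurable (h𝒜.2 A hA).1) he).and self_mem_nhdsWithin).exists
  refine ⟨L, η, e, hL, h2, he, fun R hR => h R fun t ht A hA => ?_⟩
  obtain ⟨N, n1, n2⟩ := hR t ht
  have k1 : ∀ T : Au μ, T ⁻¹' A =ᵐ[μ] (e1.f ∘ T) ⁻¹' (e1.g ⁻¹' A) := fun T => by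
    filter_upwards [T.mp.quasiMeasurePreserving.ae e1.gf] with x hx
    show (T x ∈ A) = (e1.g (e1.f (T x)) ∈ A)
    rw [hx]
  rw [Gen.sq, sd, measure_congr ((k1 _).symmDiff (k1 _))]
  refine lt_of_le_of_lt (h1 A hA (e1.mf.comp (Au.mp _)) (e1.mf.comp (Au.mp _)) N n2) ?_
  exact lt_of_le_of_lt (add_le_add le_rfl n1) (lt_of_eq_of_lt (by push_cast; ring) he2)

theorem part_close {G : Type*} [MetricSpace G] [CompactSpace G] [MeasurableSpace G] [BorelSpace G]
    {ν : Measure G} [IsProbabilityMeasure ν] {Q : ℕ} {κ : G → Fin Q} (hκ : Measurable κ)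
    {δ : ℝ≥0∞} (hδ : 0 < δ) : ∃ η : ℝ, 0 < η ∧ ∀ f g : X → G, MeasurePreserving f μ ν →
      MeasurePreserving g μ ν → (∀ x, dist (f x) (g x) < η) → μ {x | κ (f x) ≠ κ (g x)} ≤ δ := by
  obtain ⟨e, he, he2⟩ := exists_small hδ Q
  obtain ⟨η, h1, h2⟩ := ((eventually_all.2 fun v : Fin Q =>
    close' (ν := ν) (hκ (measurableSet_singleton v)) he).and self_mem_nhdsWithin).exists
  refine ⟨η, h2, fun f g hf hg h => ?_⟩
  calc _ ≤ μ (⋃ v, (f ⁻¹' (κ ⁻¹' {v})) ∆ (g ⁻¹' (κ ⁻¹' {v}))) := by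
        refine measure_mono fun x hx => mem_iUnion.2 ⟨κ (f x), Or.inl ⟨rfl, fun h => ?_⟩⟩
        exact hx h.symm
    _ ≤ ∑ _v : Fin Q, e := (measure_iUnion_fintype_le _ _).trans (Finset.sum_le_sum fun v _ => by
        simpa using h1 v hf hg ∅ (Eventually.of_forall fun x _ => h x))
    _ ≤ δ := by simpa using he2.le

section Flow
variable {M : ℕ}

/-- The model flow: translations of a torus whose speed depends on a cell of a circle. -/
noncomputable def RR (a : UnitAddCircle → Fin M) (θ : Fin M × d → ℝ) (ℓ t : ℝ)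
    (z : UnitAddCircle × Tor d) : UnitAddCircle × Tor d :=
  (z.1, z.2 + fun l => ((t / ℓ * θ (a z.1, l) : ℝ) : UnitAddCircle))

theorem RR_mp {a : UnitAddCircle → Fin M} (ha : Measurable a) (θ : Fin M × d → ℝ) (ℓ t : ℝ) :
    MeasurePreserving (RR a θ ℓ t) (hc.prod (tm d)) (hc.prod (tm d)) :=
  (MeasurePreserving.id hc).skew_product
    (g := fun u z => z + fun l => ((t / ℓ * θ (a u, l) : ℝ) : UnitAddCircle))
    (measurable_snd.add ((measurable_of_countable fun (b : Fin M) l =>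
      ((t / ℓ * θ (b, l) : ℝ) : UnitAddCircle)).comp (ha.comp measurable_fst)))
    (Eventually.of_forall fun _ => (measurePreserving_add_right _ _).map_eq)

theorem norm_coe_le (r : ℝ) : ‖(r : UnitAddCircle)‖ ≤ |r| := QuotientAddGroup.norm_mk_le_norm

theorem exists_RR_flow {a : UnitAddCircle → Fin M} (ha : Measurable a) (θ : Fin M × d → ℝ) (ℓ : ℝ)
    (e : AeIso μ (hc.prod (tm d))) : ∃ Φ : C(ℝ, Gb μ), IsFlow Φ ∧
      ∀ t, ⇑(rep (Φ t)) =ᵐ[μ] fun x => e.g (RR a θ ℓ t (e.f x)) := by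
  refine exists_flow_of_model e (RR_mp ha θ ℓ) (fun s t z => ?_) (fun z => Prod.ext rfl (funext fun l => by simp [RR]))
    fun C hC _ => ?_
  · simp only [RR, add_div, add_mul, AddCircle.coe_add, Prod.mk.injEq, true_and]
    funext l
    simp only [Pi.add_apply]
    abel
  · rw [ENNReal.tendsto_nhds_zero]
    intro δ hδ
    obtain ⟨η, hη, h⟩ := close (ν := hc.prod (tm d)) hC hδ
    have h1 : ∀ᶠ t in 𝓝 (0 : ℝ), ∀ q, |t / ℓ * θ q| < η := eventually_all.2 fun q =>
      (show Continuous fun t : ℝ => |t / ℓ * θ q| by fun_prop).continuousAt.eventually_lt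
        continuousAt_const (by simpa using hη)
    filter_upwards [h1] with t ht
    simpa using h (RR_mp ha θ ℓ t) (MeasurePreserving.id _) ∅ (Eventually.of_forall fun z _ => by
      rw [Prod.dist_eq, max_lt_iff]
      refine ⟨by simpa [RR] using hη, (dist_pi_lt_iff hη).2 fun l => ?_⟩
      simp only [RR, id, Pi.add_apply, dist_self_add_left]
      exact (norm_coe_le _).trans_lt (ht _))

theorem hc_ball (x : UnitAddCircle) (r : ℝ) :
    hc (Metric.closedBall x r) ≤ ENNReal.ofReal (2 * r) := by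
  rw [hc_eq, AddCircle.volume_closedBall]
  exact ENNReal.ofReal_le_ofReal (min_le_right _ _)

theorem bad_le {a : UnitAddCircle → Fin M} {r : ℝ} (ha : ∀ x y, a x = a y → dist x y < r)
    (Bd : Finset (Fin M)) :
    tm (Fin k) {u | ¬ (Function.Injective (fun j => a (u j)) ∧ ∀ j, a (u j) ∉ Bd)} ≤
      (k * k + k * Bd.card : ℕ) * ENNReal.ofReal (2 * r) := by
  classical
  let S1 : Fin k × Fin k → Set (Tor (Fin k)) := fun p =>
    if p.1 = p.2 then ∅ else (fun u => u p.1 - u p.2) ⁻¹' Metric.closedBall 0 r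
  let S2 : Fin k × Fin M → Set (Tor (Fin k)) := fun p => (fun u => u p.1) ⁻¹' (a ⁻¹' {p.2})
  have h1 : ∀ p, tm (Fin k) (S1 p) ≤ ENNReal.ofReal (2 * r) := by
    intro p
    simp only [S1]
    split_ifs with h
    · simp
    · refine ((mp_hom (tm (Fin k)) hc (f := fun u => u p.1 - u p.2)
        (fun x y => by simp only [Pi.add_apply]; abel) (by fun_prop)
        fun y => ⟨Pi.single p.1 y, by simp [Ne.symm h]⟩).measure_preimage_le _).trans (hc_ball _ _)
  have h2 : ∀ p, tm (Fin k) (S2 p) ≤ ENNReal.ofReal (2 * r) := by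
    intro p
    refine ((measurePreserving_eval (fun _ : Fin k => hc) p.1).measure_preimage_le _).trans ?_
    rcases (a ⁻¹' {p.2}).eq_empty_or_nonempty with h | ⟨x, hx⟩
    · simp [h]
    · exact (measure_mono fun y hy => (ha y x (hy.trans hx.symm)).le).trans (hc_ball x r)
  calc _ ≤ tm (Fin k) ((⋃ p, S1 p) ∪ ⋃ p ∈ Finset.univ ×ˢ Bd, S2 p) := by
        refine measure_mono fun u hu => ?_
        rcases not_and_or.1 hu with h | h
        · obtain ⟨j, j', h3, h4⟩ := Function.not_injective_iff.1 h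
          refine Or.inl (mem_iUnion.2 ⟨(j, j'), ?_⟩)
          simp only [S1, if_neg h4, mem_preimage, mem_closedBall_zero_iff, ← dist_eq_norm]
          exact (ha _ _ h3).le
        · push Not at h
          obtain ⟨j, hj⟩ := h
          exact Or.inr (mem_iUnion₂.2 ⟨(j, a (u j)), by simp [hj], rfl⟩)
    _ ≤ ∑ _p : Fin k × Fin k, ENNReal.ofReal (2 * r) +
        ∑ _p ∈ (Finset.univ : Finset (Fin k)) ×ˢ Bd, ENNReal.ofReal (2 * r) :=
        (measure_union_le _ _).trans (add_le_add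
          ((measure_iUnion_fintype_le _ _).trans (Finset.sum_le_sum fun p _ => h1 p))
          ((measure_biUnion_finset_le _ _).trans (Finset.sum_le_sum fun p _ => h2 p)))
    _ = _ := by simp [add_mul]

/-- Restriction to a set. -/
noncomputable def ind {Ω : Type*} [MeasurableSpace Ω] {m : Measure Ω} {S : Set Ω}
    (hS : MeasurableSet S) (F : Lp ℂ 2 m) : Lp ℂ 2 m := ((Lp.memLp F).indicator hS).toLp _

theorem ind_coe {Ω : Type*} [MeasurableSpace Ω] {m : Measure Ω} {S : Set Ω}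
    (hS : MeasurableSet S) {F : Lp ℂ 2 m} {G : Ω → ℂ} (h : F =ᵐ[m] G) :
    ind hS F =ᵐ[m] S.indicator G := (MemLp.coeFn_toLp _).trans (by
      filter_upwards [h] with x hx
      simp only [indicator, hx])

theorem in_orb {a : UnitAddCircle → Fin M} (ha : Measurable a) {r : ℝ} (hr : 0 < r)
    (har : ∀ x y, a x = a y → dist x y < r) {α : d → ℝ} {ω : Fin M × d → ℝ} {ℓ : ℝ}
    (e : AeIso μ (hc.prod (tm d))) {Φ : C(ℝ, Gb μ)} (hΦ : IsFlow Φ)
    (hrep : ∀ t, ⇑(rep (Φ t)) =ᵐ[μ] fun x => e.g (RR a (fun q => α q.2 + ω q) ℓ t (e.f x)))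
    (s : Finset (Fin k × d → ℤ)) (t : Fin k → ℝ) (Bd : Finset (Fin M))
    (hinj : ∀ a a' : Fin k → Fin M, Function.Injective a →
      Function.Injective a' → (∀ j, a j ∉ Bd) → (∀ j, a' j ∉ Bd) → ∀ ζ ∈ s, ∀ ζ' ∈ s, ∀ z : ℤ,
        expo α ω (fun j => t j / ℓ) a ζ - expo α ω (fun j => t j / ℓ) a' ζ' = z → a = a' ∧ ζ = ζ') :
    ∃ g, ∀ ζ ∈ s, ∃ u ∈ orb (UU Φ t) g,
      ‖u - cmp (bet fun x => (e.f x).2) (bet_mp (measurePreserving_snd.comp e.mf)) (fb _ ζ)‖ ≤
        √((k * k + k * Bd.card : ℕ) * (2 * r)) := by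
  classical
  have hu : MeasurePreserving (fun (x : Fin k → X) j => (e.f (x j)).1) (pw μ k) (tm (Fin k)) :=
    measurePreserving_pi _ _ fun _ => measurePreserving_fst.comp e.mf
  let A : (Fin k → X) → Fin k → Fin M := fun x j => a (e.f (x j)).1
  have hA : Measurable A := measurable_pi_lambda _ fun j =>
    ha.comp ((measurable_pi_apply j).comp hu.measurable)
  let w : (Fin k × d → ℤ) → Lp ℂ 2 (pw μ k) := fun ζ =>
    cmp (bet fun x => (e.f x).2) (bet_mp (measurePreserving_snd.comp e.mf)) (fb _ ζ)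
  have hw : ∀ ζ, w ζ =ᵐ[pw μ k] fun x => ch ζ (bet (fun x => (e.f x).2) x) := fun ζ =>
    cmp_coe' _ (fb_coe ζ)
  let v : (Fin k → Fin M) × (Fin k × d → ℤ) → Lp ℂ 2 (pw μ k) := fun p =>
    ind (hA (measurableSet_singleton p.1)) (w p.2)
  let GA : Finset (Fin k → Fin M) :=
    Finset.univ.filter fun b => Function.Injective b ∧ ∀ j, b j ∉ Bd
  let lam : (Fin k → Fin M) × (Fin k × d → ℤ) → ℂ := fun p =>
    Complex.exp (2 * Real.pi * Complex.I * expo α ω (fun j => t j / ℓ) p.1 p.2)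
  have eig : ∀ p, UU Φ t 1 (v p) = lam p • v p := by
    intro p
    refine Lp.ext ?_
    have h1 : ∀ j, ∀ᵐ x ∂μ, e.f (rep (Φ (((1 : ℤ) : ℝ) * t j)) x) =
        RR a (fun q => α q.2 + ω q) ℓ (t j) (e.f x) := fun j => by
      rw [Int.cast_one, one_mul]
      filter_upwards [hrep (t j),
        ((RR_mp ha _ ℓ (t j)).comp e.mf).quasiMeasurePreserving.ae e.fg] with x b c
      rw [b]
      exact c
    filter_upwards [cmp_coe' (prodAu fun j => Φ (((1 : ℤ) : ℝ) * t j)).mp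
      (ind_coe (hA (measurableSet_singleton p.1)) (hw p.2)), Lp.coeFn_smul (lam p) (v p),
      ind_coe (hA (measurableSet_singleton p.1)) (hw p.2), ae_pw h1] with x b1 b2 b3 b4
    rw [b2, Pi.smul_apply, b3]
    refine b1.trans ?_
    have hAx : A (prodAu (fun j => Φ (((1 : ℤ) : ℝ) * t j)) x) = A x := funext fun j => by
      simp only [A, prodAu_apply, b4 j, RR]
    by_cases hx : A x = p.1
    · rw [indicator_of_mem (show _ ∈ A ⁻¹' {p.1} from hAx.trans hx),
        indicator_of_mem (show x ∈ A ⁻¹' {p.1} from hx), smul_eq_mul, mul_comm]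
      simp only [lam, expo]
      rw [← ch_coe, ← ch_add]
      congr 1
      funext q
      simp only [bet, prodAu_apply, b4 q.1, RR, Pi.add_apply, ← hx, A]
    · rw [indicator_of_notMem (show _ ∉ A ⁻¹' {p.1} from fun h => hx (hAx.symm.trans h)),
        indicator_of_notMem (show x ∉ A ⁻¹' {p.1} from hx), smul_zero]
  have hv := eig_mem (Z := orb (UU Φ t) (∑ p ∈ GA ×ˢ s, v p)) (V := UU Φ t 1)
    (fun x hx => (isRep_UU hΦ t).orb_inv hx 1) (lam := lam) (GA ×ˢ s) (by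
      intro p hp q hq h
      obtain ⟨p1, p2⟩ := Finset.mem_product.1 hp
      obtain ⟨q1, q2⟩ := Finset.mem_product.1 hq
      obtain ⟨z, hz⟩ := Complex.exp_eq_exp_iff_exists_int.1 h
      have p3 := (Finset.mem_filter.1 p1).2
      have q3 := (Finset.mem_filter.1 q1).2
      refine Prod.ext_iff.2 (hinj _ _ p3.1 q3.1 p3.2 q3.2 _ p2 _ q2 z ?_)
      have : ((expo α ω (fun j => t j / ℓ) p.1 p.2 - expo α ω (fun j => t j / ℓ) q.1 q.2 : ℝ) : ℂ)
          = ((z : ℝ) : ℂ) := by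
        refine mul_left_cancel₀ Complex.two_pi_I_ne_zero ?_
        push_cast
        linear_combination hz
      exact_mod_cast this) v (fun p _ => eig p) ((isRep_UU hΦ t).self_mem _)
  refine ⟨_, fun ζ hζ => ⟨∑ b ∈ GA, v (b, ζ), Submodule.sum_mem _ fun b hb =>
    hv _ (Finset.mem_product.2 ⟨hb, hζ⟩), ?_⟩⟩
  have hB : MeasurableSet (A ⁻¹' (GA : Set _)ᶜ) := hA (MeasurableSet.of_discrete)
  refine (Lp.norm_le_norm_of_ae_le
    (g := indicatorConstLp 2 hB (measure_ne_top _ _) (1 : ℂ)) ?_).trans ?_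
  · filter_upwards [Lp.coeFn_sub (∑ b ∈ GA, v (b, ζ)) (w ζ),
      Lp.coeFn_fun_finsetSum GA fun b => v (b, ζ), hw ζ,
      ae_all_iff.2 fun b => ind_coe (hA (measurableSet_singleton b)) (hw ζ),
      indicatorConstLp_coeFn (p := 2) (hs := hB) (hμs := measure_ne_top _ _) (c := (1 : ℂ))]
      with x b1 b2 b3 b4 b5
    rw [b1, Pi.sub_apply, b2, b3, b5]
    simp only [v, b4, indicator, mem_preimage, mem_singleton_iff, Finset.sum_ite_eq, mem_compl_iff,
      Finset.mem_coe]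
    by_cases hx : A x ∈ GA <;> simp [hx, norm_ch]
  · rw [norm_indicatorConstLp (by simp) (by simp), norm_one, one_mul, Real.sqrt_eq_rpow]
    refine Real.rpow_le_rpow measureReal_nonneg ?_ (by norm_num)
    refine ENNReal.toReal_le_of_le_ofReal (by positivity) ?_
    rw [ENNReal.ofReal_mul (by positivity), ENNReal.ofReal_natCast]
    refine le_trans (le_trans (measure_mono fun x hx => ?_) (hu.measure_preimage_le _))
      (bad_le har Bd)
    simpa [GA] using hx

end Flow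

end Pool.Agent.H964Z.Sp
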