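import Pool.Agent.H964Z.SpModA

set_option autoImplicit false
set_option linter.unusedSectionVars false
open MeasureTheory Set Filter Topology
open scoped ENNReal symmDiff InnerProductSpace

namespace Pool.Agent.H964Z.Sp

open Pool.Agent.H964Z.Gen

theorem approx_sum {E ι : Type*} [NormedAddCommGroup E] [InnerProductSpace ℂ E]
    {Z : Submodule ℂ E} {v : ι → E} {s : Finset ι} (c : ι → ℂ) {δ : ℝ}
    (h : ∀ i ∈ s, ∃ u ∈ Z, ‖u - v i‖ ≤ δ) :
    ∃ u ∈ Z, ‖u - ∑ i ∈ s, c i • v i‖ ≤ (∑ i ∈ s, ‖c i‖) * δ := by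
  choose! u h1 h2 using h
  refine ⟨∑ i ∈ s, c i • u i, Z.sum_mem fun i hi => Z.smul_mem _ (h1 i hi), ?_⟩
  rw [← Finset.sum_sub_distrib, Finset.sum_mul]
  refine norm_sum_le_of_le _ fun i hi => ?_
  rw [← smul_sub, norm_smul]
  exact mul_le_mul_of_nonneg_left (h2 i hi) (norm_nonneg _)

theorem exists_bd {ι : Type*} (s : Finset ι) (f : ι → ℝ) :
    ∃ C : ℝ, 0 < C ∧ ∀ i ∈ s, f i ≤ C := by
  obtain ⟨C, hC⟩ := (s.image f).bddAbove
  exact ⟨max C 1, by positivity, fun i hi =>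
    (hC (Finset.mem_coe.2 (Finset.mem_image_of_mem f hi))).trans (le_max_left _ _)⟩

variable {X : Type} [MetricSpace X] [SecondCountableTopology X] [MeasurableSpace X] [BorelSpace X]
  {μ : Measure X} [IsProbabilityMeasure μ] {k : ℕ} {d : Type} [Fintype d]

theorem J0_shift {N Q : ℕ} (κ : Tor (Fin N) → Fin Q) (z : Tor (d ⊕ d ⊕ Fin N)) (τ : ℝ)
    (α : d → ℝ) (ω : d ⊕ d ⊕ Fin N → ℝ) {ε : ℝ} (hε : 0 ≤ ε) (hω : ∀ l, |τ * ω l| ≤ ε)
    (h : κ (fun b => (z + fun l =>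
      ((τ * (Sum.elim α 0 l + ω l) : ℝ) : UnitAddCircle)) (.inr (.inr b))) =
        κ fun b => z (.inr (.inr b))) :
    dist (J0 κ (z + fun l => ((τ * (Sum.elim α 0 l + ω l) : ℝ) : UnitAddCircle)))
      (J0 κ z + fun i => ((τ * α i : ℝ) : UnitAddCircle)) ≤ (1 + Q) * ε := by
  refine (dist_pi_le_iff (by positivity)).2 fun i => ?_
  simp only [J0, h]
  set m := κ fun b => z (.inr (.inr b))
  rw [dist_eq_norm]
  have e : (z + fun l => ((τ * (Sum.elim α 0 l + ω l) : ℝ) : UnitAddCircle)) (.inl i) +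
      ((m : ℕ) : ℤ) • (z + fun l => ((τ * (Sum.elim α 0 l + ω l) : ℝ) : UnitAddCircle))
        (.inr (.inl i)) - (J0 κ z + fun i => ((τ * α i : ℝ) : UnitAddCircle)) i =
      ((τ * ω (.inl i) + ((m : ℕ) : ℤ) • (τ * ω (.inr (.inl i))) : ℝ) : UnitAddCircle) := by
    simp only [J0, Pi.add_apply, Sum.elim_inl, Sum.elim_inr, Pi.zero_apply, zero_add, mul_add,
      AddCircle.coe_add, AddCircle.coe_zsmul, smul_add, mul_zero, AddCircle.coe_zero, m]
    abel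
  rw [e]
  refine (norm_coe_le _).trans ((abs_add_le _ _).trans ?_)
  rw [zsmul_eq_mul, abs_mul _ (τ * _), add_mul, one_mul]
  refine add_le_add (hω _) (mul_le_mul ?_ (hω _) (abs_nonneg _) (Nat.cast_nonneg _))
  rw [Int.cast_natCast, Nat.abs_cast]
  exact_mod_cast m.2.le

theorem hc0 (x : UnitAddCircle) : hc {x} = 0 := by
  simpa using hc_ball x 0

theorem perturb [CompleteSpace X] [NullSingletonClass μ] (e1 : AeIso μ (tm d)) (α : d → ℤ)
    {ℓ : ℝ} (hℓ : 0 < ℓ) (hirr : Irrational ℓ) {S : C(ℝ, Gb μ)}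
    (hS : ∀ t, ⇑(rep (S t)) =ᵐ[μ] fun x =>
      e1.g (e1.f x + fun i => ((t / ℓ * α i : ℝ) : UnitAddCircle)))
    {U : Set C(ℝ, Gb μ)} (hU : U ∈ 𝓝 S) {K : Set (Fin k → ℝ)} {L' : ℝ}
    (hK : ∀ t ∈ K, Function.Injective t ∧ ∀ j, 0 < t j ∧ t j ≤ L')
    {dd : ℕ → Lp ℂ 2 (pw μ k)} (hdd : ∀ i, dd i ∈ H0 μ k) (r : ℕ) {η : ℝ} (hη : 0 < η) :
    ∃ Φ ∈ U, IsFlow Φ ∧ (∃ ℓ', Irrational ℓ' ∧ Φ ℓ' = 1) ∧ Φ ∈ DD K dd r η := by
  classical
  choose s0 c h1 h2 using fun i => first_approx e1 (hdd i) (half_pos hη)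
  let s := (Finset.range r).biUnion s0
  obtain ⟨C, hC0, hC⟩ := exists_bd (Finset.range r) fun i => ∑ ξ ∈ s0 i, ‖c i ξ‖
  obtain ⟨η1, hη1, hη1'⟩ : ∃ η1 : ℝ, 0 < η1 ∧ C * (η1 + η1 + η1) ≤ η / 2 :=
    ⟨η / 2 / C / 3, by positivity, le_of_eq (by field_simp; ring)⟩
  obtain ⟨B, hB⟩ : ∃ B : ℕ, ∀ ξ ∈ s, ∀ q, |ξ q| ≤ B :=
    ⟨s.sup fun ξ => Finset.univ.sup fun q => (ξ q).natAbs, fun ξ hξ q => by
      rw [Int.abs_eq_natAbs]
      exact_mod_cast (Finset.le_sup (f := fun q => (ξ q).natAbs) (Finset.mem_univ q)).trans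
        (Finset.le_sup (f := fun ξ : Fin k × d → ℤ => Finset.univ.sup fun q => (ξ q).natAbs) hξ)⟩
  obtain ⟨N, Q, κ, hκ, s', c', g1, g2⟩ := prim_approx s B (fun ξ hξ j => ⟨fun i => hB ξ hξ _, by
    obtain ⟨i, -, hi⟩ := Finset.mem_biUnion.1 hξ
    exact h1 i ξ hi j⟩) hη1
  obtain ⟨R, hR⟩ := no_collision B s' g1 (Sum.elim (fun i => (α i : ℝ)) 0) (L' / ℓ)
  obtain ⟨C', hC0', hC'⟩ := exists_bd s fun ξ => ∑ ζ ∈ s', ‖c' ξ ζ‖
  obtain ⟨r0, hr0, hr0'⟩ : ∃ r0 : ℝ, 0 < r0 ∧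
      ((k * k + k * R : ℕ) : ℝ) * (2 * r0) ≤ (η1 / C') ^ 2 := by
    refine ⟨(η1 / C') ^ 2 / 2 / ((k * k + k * R : ℕ) + 1), by positivity, ?_⟩
    rw [← mul_assoc, ← mul_div_assoc, div_le_iff₀ (by positivity)]
    nlinarith [sq_nonneg (η1 / C')]
  obtain ⟨M, a, ha, har⟩ := exists_part UnitAddCircle hr0
  obtain ⟨L, η0, δ, hL, hη0, hδ, hUU⟩ := nbhd_metric e1 S hU
  obtain ⟨η2, hη2, hκ2⟩ := part_close (μ := μ) (ν := tm (Fin N)) hκ hδ
  obtain ⟨η3, hη3', hη3⟩ := (((eventually_all_finset s).2 fun ξ _ =>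
    show ∀ᶠ η3 in 𝓝[>] (0 : ℝ), ∀ Z Z', dist Z Z' < η3 → dist (ch ξ Z) (ch ξ Z') < η1 from by
      obtain ⟨η3, h3, h4⟩ := Metric.uniformContinuous_iff.1
        (CompactSpace.uniformContinuous_of_continuous (ch_cont ξ)) η1 hη1
      filter_upwards [Ioo_mem_nhdsGT h3] with η' h' Z Z' hZ using h4 (hZ.trans h'.2)).and
        self_mem_nhdsWithin).exists
  have : NullSingletonClass (hc.prod (tm (d ⊕ d ⊕ Fin N))) := ⟨fun z => by
    rw [← singleton_prod_singleton (a := z.1) (b := z.2), Measure.prod_prod, hc0, zero_mul]⟩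
  obtain ⟨e, he⟩ := near_iso e1 ((J0_mp hκ).comp (measurePreserving_snd (μ := hc)))
    (lt_min hη3 (show 0 < η0 / 3 by positivity))
  obtain ⟨ε', hε', hε1, hε2⟩ : ∃ ε' : ℝ, 0 < ε' ∧ ε' < η2 ∧ (1 + Q) * ε' ≤ η0 / 3 :=
    ⟨min (η2 / 2) (η0 / 3 / (1 + Q)), by positivity, (min_le_left _ _).trans_lt (by linarith), by
      rw [← le_div_iff₀' (by positivity)]; exact min_le_right _ _⟩
  obtain ⟨ω, D, hD, o1, o2, o3⟩ := hR M (ε' / (L / ℓ)) (by positivity)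
  obtain ⟨Φ, hΦ, hrep⟩ := exists_RR_flow ha
    (fun q => Sum.elim (fun i => (α i : ℝ)) 0 q.2 + ω q) ℓ e
  have hRR := RR_mp ha (fun q => Sum.elim (fun i => (α i : ℝ)) 0 q.2 + ω q) ℓ
  refine ⟨Φ, hUU Φ fun t ht => ?_, hΦ, ⟨D * ℓ, hirr.natCast_mul hD.ne', ?_⟩, fun t ht => ?_⟩
  · have o4 : ∀ q, |t / ℓ * ω q| ≤ ε' := fun q => by
      rw [abs_mul, abs_div, abs_of_pos hℓ]
      calc _ ≤ L / ℓ * (ε' / (L / ℓ)) := by gcongr; exact o2 q
        _ = ε' := by field_simp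
    have hy : MeasurePreserving (fun (z : Tor (d ⊕ d ⊕ Fin N)) b => z (.inr (.inr b)))
        (tm _) (tm (Fin N)) := mp_hom _ _ (fun _ _ => rfl) (by fun_prop)
      fun y => ⟨Sum.elim 0 (Sum.elim 0 y), rfl⟩
    refine ⟨_, hκ2 _ _ ((hy.comp measurePreserving_snd).comp ((hRR t).comp e.mf))
      ((hy.comp measurePreserving_snd).comp e.mf) fun x => ?_, ?_⟩
    · refine (dist_pi_lt_iff hη2).2 fun b => ?_
      simp only [Function.comp, RR, Pi.add_apply, dist_self_add_left, Sum.elim_inr, Pi.zero_apply,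
        zero_add]
      exact (norm_coe_le _).trans_lt ((o4 _).trans_lt hε1)
    · filter_upwards [he, hrep t, hS t, (rep (Φ t)).mp.quasiMeasurePreserving.ae he,
        ((hRR t).comp e.mf).quasiMeasurePreserving.ae e.fg,
        ((measurePreserving_add_right (tm d) fun i => ((t / ℓ * α i : ℝ) : UnitAddCircle)).comp
          e1.mf).quasiMeasurePreserving.ae e1.fg] with x a1 a2 a3 a4 a5 a6 hx
      simp only [Function.comp, lt_min_iff] at a1 a4 a5 a6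
      rw [a3, a6]
      rw [a2, a5, ← a2] at a4
      have a7 := J0_shift κ (e.f x).2 (t / ℓ) (fun i => (α i : ℝ)) (fun l => ω (a (e.f x).1, l))
        hε'.le (fun l => o4 _) (not_not.1 hx)
      rw [dist_comm] at a4
      have a8 := dist_triangle4 (e1.f (rep (Φ t) x)) _ _
        (e1.f x + fun i => ((t / ℓ * α i : ℝ) : UnitAddCircle)) |>.trans_lt
          (add_lt_add_of_le_of_lt (add_le_add a4.2.le a7)
            (by rw [dist_add_right]; exact a1.2))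
      linarith
  · rw [gb_eq_iff]
    filter_upwards [hrep (D * ℓ), e.gf, rep_one (μ := μ)] with x a1 a2 a3
    rw [a1, a3, Au.one_apply]
    convert a2 using 2
    refine Prod.ext rfl (funext fun l => ?_)
    simp only [RR, Pi.add_apply, add_eq_left, AddCircle.coe_eq_zero_iff]
    obtain ⟨z, hz⟩ := o1 (a (e.f x).1, l)
    refine ⟨D * Sum.elim α 0 l + z, ?_⟩
    rw [mul_div_cancel_right₀ _ hℓ.ne', mul_add, hz]
    rcases l with i | l <;> simp
  · obtain ⟨Bd, b1, b2⟩ := o3 (fun j => t j / ℓ)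
      (fun j j' h => (hK t ht).1 ((div_left_inj' hℓ.ne').1 h))
      (fun j => div_pos ((hK t ht).2 j).1 hℓ) fun j => by gcongr; exact ((hK t ht).2 j).2
    obtain ⟨g, hg⟩ := in_orb ha hr0 har e hΦ hrep s' t Bd b2
    refine ⟨g, fun i hi => ?_⟩
    have hi' := Finset.mem_range.2 hi
    obtain ⟨u, u1, u2⟩ := approx_sum (Z := orb (UU Φ t) g) (s := s0 i) (c i) (δ := η1 + η1 + η1)
      (v := fun ξ => cmp (bet e1.f) (bet_mp e1.mf) (fb _ ξ)) fun ξ hξ => by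
        have hξ' : ξ ∈ s := Finset.mem_biUnion.2 ⟨i, hi', hξ⟩
        obtain ⟨u, u1, u2⟩ := approx_sum (c' ξ) hg
        refine ⟨u, u1, ?_⟩
        have k1 := g2 ξ hξ'
        rw [← (cmp (bet fun x => (e.f x).2) (bet_mp (measurePreserving_snd.comp e.mf))).norm_map,
          map_sub, map_sum] at k1
        simp only [map_smul] at k1
        have k2 : (∑ ζ ∈ s', ‖c' ξ ζ‖) * √((k * k + k * Bd.card : ℕ) * (2 * r0)) ≤ η1 := by
          calc _ ≤ C' * (η1 / C') := by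
                refine mul_le_mul (hC' ξ hξ') (Real.sqrt_le_iff.2 ⟨by positivity, ?_⟩)
                  (Real.sqrt_nonneg _) hC0'.le
                refine le_trans ?_ hr0'
                gcongr
            _ = η1 := by field_simp
        have k3 : ‖cmp (bet fun x => (e.f x).2) (bet_mp (measurePreserving_snd.comp e.mf))
            (cmp (JJ κ) (JJ_mp hκ) (fb _ ξ)) - cmp (bet e1.f) (bet_mp e1.mf) (fb _ ξ)‖ ≤ η1 := by
          refine (Lp.norm_le_of_ae_bound hη1.le ?_).trans (by simp [measureUnivNNReal])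
          filter_upwards [Lp.coeFn_sub (cmp (bet fun x => (e.f x).2)
            (bet_mp (measurePreserving_snd.comp e.mf)) (cmp (JJ κ) (JJ_mp hκ) (fb _ ξ)))
            (cmp (bet e1.f) (bet_mp e1.mf) (fb _ ξ)), cmp_coe' (bet_mp (k := k)
            (measurePreserving_snd.comp e.mf)) (cmp_coe' (JJ_mp hκ) (fb_coe ξ)),
            cmp_coe' (bet_mp e1.mf) (fb_coe ξ), ae_pw fun _ : Fin k => he] with x a1 a2 a3 a4
          rw [a1, Pi.sub_apply, a3, ← dist_eq_norm]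
          refine le_trans (le_of_eq (congrArg (dist · _) a2)) (hη3' ξ hξ' _ _ ?_).le
          refine (dist_pi_lt_iff hη3).2 fun q => ?_
          exact (dist_le_pi_dist _ _ q.2).trans_lt (lt_min_iff.1 (a4 q.1)).1
        rw [← dist_eq_norm] at u2 k1 k3 ⊢
        rw [dist_comm] at k1
        exact (dist_triangle4 _ _ _ _).trans (add_le_add (add_le_add (u2.trans k2) k1.le) k3)
    refine ⟨u, u1, ?_⟩
    have k1 := h2 i
    rw [← dist_eq_norm] at u2 k1 ⊢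
    rw [dist_comm] at k1
    have k2 : (∑ ξ ∈ s0 i, ‖c i ξ‖) * (η1 + η1 + η1) ≤ η / 2 :=
      le_trans (mul_le_mul_of_nonneg_right (hC i hi') (by positivity)) hη1'
    linarith [dist_triangle u (∑ ξ ∈ s0 i, c i ξ • cmp (bet e1.f) (bet_mp e1.mf) (fb _ ξ)) (dd i)]

theorem mod_torus [CompleteSpace X] [NullSingletonClass μ] {ℓ : ℝ} {Φ : C(ℝ, Gb μ)}
    (h : Mod ℓ Φ) : ∃ e1 : AeIso μ (tm (Fin 2)), ∀ t, ⇑(rep (Φ t)) =ᵐ[μ] fun x =>
      e1.g (e1.f x + fun i => ((t / ℓ * (![0, 1] : Fin 2 → ℤ) i : ℝ) : UnitAddCircle)) := by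
  obtain ⟨e, he⟩ := h
  have := nonempty_of_isProbabilityMeasure μ
  have : NullSingletonClass hc := ⟨hc0⟩
  obtain ⟨φ⟩ := iso_fin (μ := μ) (ν := hc) (by simp)
  have m1 := φ.mf.prod (MeasurePreserving.id hc)
  have m2 := φ.mg.prod (MeasurePreserving.id hc)
  have m3 := measurePreserving_finTwoArrow hc
  let ψ : AeIso (μ.prod hc) (tm (Fin 2)) :=
    ⟨_, _, (m3.symm _).comp m1, m2.comp m3, by
      filter_upwards [measurePreserving_fst.quasiMeasurePreserving.ae φ.gf] with z hz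
      simp [hz], by
      filter_upwards [(measurePreserving_fst.comp m3).quasiMeasurePreserving.ae φ.fg] with z hz
      funext i
      fin_cases i
      · simpa using hz
      · simp⟩
  refine ⟨e.trans ψ, fun t => ?_⟩
  filter_upwards [he t, (measurePreserving_fst.comp e.mf).quasiMeasurePreserving.ae φ.gf]
    with x a b
  rw [a]
  simp only [Function.comp] at b
  simp [AeIso.trans, ψ, rot, b, Matrix.vecHead, Matrix.vecTail]

/-- Compact sets of times. -/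
def KS (k n : ℕ) : Set (Fin k → ℝ) :=
  {t | (∀ j, 1 / ((n : ℝ) + 1) ≤ t j ∧ t j ≤ n) ∧
    ∀ j j', j < j' → t j + 1 / ((n : ℝ) + 1) ≤ t j'}

theorem isCompact_KS (k n : ℕ) : IsCompact (KS k n) := by
  refine (isCompact_Icc (a := fun _ => 1 / ((n : ℝ) + 1)) (b := fun _ => (n : ℝ))).of_isClosed_subset
    ?_ fun t ht => ⟨fun j => (ht.1 j).1, fun j => (ht.1 j).2⟩
  simp only [KS, ofPred_and, ofPred_forall]
  refine (isClosed_iInter fun j => IsClosed.inter ?_ ?_).inter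
    (isClosed_iInter fun j => isClosed_iInter fun j' => isClosed_iInter fun _ => ?_) <;>
    exact isClosed_le (by fun_prop) (by fun_prop)

theorem eventually_KS {t : Fin k → ℝ} (h1 : StrictMono t) (h2 : ∀ j, 0 < t j) :
    ∀ᶠ n in atTop, t ∈ KS k n := by
  have h := tendsto_one_div_add_atTop_nhds_zero_nat (𝕜 := ℝ)
  refine (eventually_all.2 fun j => (h.eventually_le_const (h2 j)).and
    (tendsto_natCast_atTop_atTop.eventually_ge_atTop (t j))).and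
    (eventually_all.2 fun j => eventually_all.2 fun j' => eventually_all.2 fun hj => ?_)
  filter_upwards [h.eventually_le_const (sub_pos.2 (h1 hj))] with n hn using by linarith

theorem generic_simple [CompleteSpace X] [NullSingletonClass μ] :
    {T : Gb μ | ∃ Φ : C(ℝ, Gb μ), IsFlow Φ ∧ Φ 1 = T ∧ ∀ (k : ℕ) (t : Fin k → ℝ), StrictMono t →
      (∀ j, 0 < t j) → ∃ f ∈ H0 μ k, ∀ x ∈ H0 μ k, x ∈ cyc (UU Φ t) f} ∈ residual (Gb μ) := by
  have := nonempty_of_isProbabilityMeasure μ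
  have hd : ∀ k, ∃ dd : ℕ → Lp ℂ 2 (pw μ k), (∀ i, dd i ∈ H0 μ k) ∧
      (H0 μ k : Set _) ⊆ closure (range dd) := by
    intro k
    have : Fact ((2 : ℝ≥0∞) ≠ ∞) := ⟨by simp⟩
    obtain ⟨u, hu⟩ := TopologicalSpace.exists_dense_seq (H0 μ k)
    refine ⟨fun i => u i, fun i => (u i).2, fun x hx => ?_⟩
    exact map_mem_closure continuous_subtype_val (hu ⟨x, hx⟩) (by
      rintro _ ⟨i, rfl⟩; exact ⟨i, rfl⟩)
  choose dd hd1 hd2 using hd
  let L : Set C(ℝ, Gb μ) := {Φ | IsFlow Φ ∧ ∃ ℓ, Irrational ℓ ∧ Φ ℓ = 1}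
  have hcore : ∀ S ∈ L, ∀ U ∈ 𝓝 S, ∀ᶠ T in 𝓝 (S 1), ∀ V ∈ 𝓝 T, ∃ ℓ : ℝ, 0 < ℓ ∧ Irrational ℓ ∧
      ∃ Φ : C(ℝ, Gb μ), IsFlow Φ ∧ Mod ℓ Φ ∧ Φ ∈ U ∧ Φ 1 ∈ V := by
    rintro S ⟨hf, ℓ, hirr, hp⟩ U hU
    filter_upwards [core hf (fun u V hV => mono_of_period hf hirr hp u 0 (by rwa [hf.zero]))
      (J := 1) inv_one (fun V hV => ⟨0, by simpa [hf.zero] using mem_of_mem_nhds hV⟩) hU
      univ_mem] with T hT V hV
    obtain ⟨ℓ', a1, a2, Φ, a3, a4, a5, -, a6⟩ := hT V hV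
    exact ⟨ℓ', a1, a2, Φ, a3, a4, a5, a6⟩
  have key := dougherty (E := C(ℝ, Gb μ)) (Y := Gb μ) (π := fun Φ => Φ 1) (by fun_prop)
    (L := L) ?_ ?_ (D := fun n => DD (KS n.unpair.1 n.unpair.2) (dd _) n.unpair.2
      (1 / ((n.unpair.2 : ℝ) + 1))) (fun n => isOpen_DD (isCompact_KS _ _) _ _ _) ?_
  · refine mem_of_superset key ?_
    rintro T ⟨Φ, h1, h2, rfl⟩
    have hΦ : IsFlow Φ := isClosed_isFlow.closure_subset_iff.2 (fun _ h => h.1) h1
    refine ⟨Φ, hΦ, rfl, fun k t t1 t2 => (isRep_UU hΦ t).cyclic_of_approx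
      (Submodule.isClosed_orthogonal _) (H0_inv hΦ t) (hd1 k) (hd2 k) fun r η hη => ?_⟩
    obtain ⟨n, n1, n2, n3⟩ := ((eventually_KS t1 t2).and ((eventually_ge_atTop r).and
      ((tendsto_one_div_add_atTop_nhds_zero_nat (𝕜 := ℝ)).eventually_le_const hη))).exists
    have h3 : ∀ p : ℕ × ℕ, Φ ∈ DD (KS p.1 p.2) (dd _) p.2 (1 / ((p.2 : ℝ) + 1)) := fun p => by
      have := h2 (Nat.pair p.1 p.2)
      rwa [Nat.unpair_pair] at this
    obtain ⟨g, hg⟩ := h3 (k, n) t n1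
    refine ⟨g, fun i hi => ?_⟩
    obtain ⟨u, u1, u2⟩ := hg i (hi.trans_le n2)
    exact ⟨u, u1, u2.trans_le n3⟩
  · intro T
    rw [mem_closure_iff_nhds]
    intro V hV
    obtain ⟨ℓ, hℓ, hirr, Φ, hΦ, hM, h1⟩ := dense_mod T hV
    exact ⟨_, h1, Φ, ⟨hΦ, ℓ, hirr, hM.period hℓ⟩, rfl⟩
  · intro S hS U hU
    filter_upwards [hcore S hS U hU] with T hT
    rw [mem_closure_iff_nhds]
    intro V hV
    obtain ⟨ℓ, hℓ, hirr, Φ, hΦ, hM, a1, a2⟩ := hT V hV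
    exact ⟨_, a2, Φ, ⟨a1, hΦ, ℓ, hirr, hM.period hℓ⟩, rfl⟩
  · intro n S hS
    rw [mem_closure_iff]
    intro U hU hSU
    obtain ⟨ℓ, hℓ, hirr, Φ, -, hM, a1, -⟩ :=
      (hcore S hS U (hU.mem_nhds hSU)).self_of_nhds univ univ_mem
    obtain ⟨e1, he1⟩ := mod_torus hM
    obtain ⟨Ψ, b1, b2, b3, b4⟩ := perturb e1 _ hℓ hirr he1 (hU.mem_nhds a1)
      (K := KS n.unpair.1 n.unpair.2) (L' := n.unpair.2) (fun t ht =>
        ⟨(show StrictMono t from fun j j' h => lt_of_lt_of_le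
          (lt_add_of_pos_right _ (by positivity)) (ht.2 j j' h)).injective,
          fun j => ⟨lt_of_lt_of_le (by positivity) (ht.1 j).1, (ht.1 j).2⟩⟩) (hd1 _) n.unpair.2
      (η := 1 / ((n.unpair.2 : ℝ) + 1)) (by positivity)
    exact ⟨Ψ, b1, b4, b2, b3⟩

end Pool.Agent.H964Z.Sp
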