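import Pool.Agent.H964Z.SpKoop
import Pool.Agent.H964Z.SpLac

set_option autoImplicit false
set_option linter.unusedSectionVars false
open MeasureTheory Set Filter Topology
open scoped ENNReal symmDiff InnerProductSpace

namespace Pool.Agent.H964Z.Sp

open Pool.Agent.H964Z.Gen

/-- The torus. -/
abbrev Tor (d : Type*) := d → UnitAddCircle

/-- Haar measure on the torus. -/
noncomputable abbrev tm (d : Type*) [Fintype d] : Measure (Tor d) := Measure.pi fun _ => hc

section
variable {d : Type*} [Fintype d]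

/-- The Fourier basis. -/
noncomputable def fb (d : Type*) [Fintype d] : HilbertBasis (d → ℤ) ℂ (Lp ℂ 2 (tm d)) :=
  UnitAddTorus.mFourierBasis

/-- Characters. -/
noncomputable def ch (n : d → ℤ) (x : Tor d) : ℂ := ∏ i, fourier (n i) (x i)

theorem fb_coe (n : d → ℤ) : fb d n =ᵐ[tm d] ch n := by
  have : fb d n = UnitAddTorus.mFourierLp 2 n := congrFun UnitAddTorus.coe_mFourierBasis n
  rw [this]
  exact UnitAddTorus.coeFn_mFourierLp 2 n

theorem ch_cont (n : d → ℤ) : Continuous (ch n) := by unfold ch; fun_prop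

theorem ch_add (n : d → ℤ) (x y : Tor d) : ch n (x + y) = ch n x * ch n y := by
  simp only [ch, fourier_apply, Pi.add_apply, smul_add, AddCircle.toCircle_add, Circle.coe_mul,
    Finset.prod_mul_distrib]

theorem norm_ch (n : d → ℤ) (x : Tor d) : ‖ch n x‖ = 1 := by
  simp only [ch, fourier_apply, norm_prod, Circle.norm_coe, Finset.prod_const_one]

theorem ch_eq_one {n : d → ℤ} {x : Tor d} (h : ∀ i, n i • x i = 0) : ch n x = 1 := by
  simp only [ch, fourier_apply, h, AddCircle.toCircle_zero, Circle.coe_one, Finset.prod_const_one]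

theorem ch_coe (n : d → ℤ) (r : d → ℝ) : ch n (fun i => (r i : UnitAddCircle)) =
    Complex.exp (2 * Real.pi * Complex.I * (∑ i, n i * r i : ℝ)) := by
  simp only [ch, fourier_coe_apply, ← Complex.exp_sum]
  congr 1
  push_cast
  rw [Finset.mul_sum]
  exact Finset.sum_congr rfl fun i _ => by ring

theorem exists_ch_ne {n m : d → ℤ} (h : n ≠ m) : ∃ x, ch n x ≠ ch m x := by
  by_contra hc
  push Not at hc
  have h1 : fb d n = fb d m := Lp.ext ((fb_coe n).trans (by rw [funext hc]; exact (fb_coe m).symm))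
  exact h ((fb d).orthonormal.linearIndependent.injective h1)

/-- Translation operators. -/
noncomputable def tr (g : Tor d) : Lp ℂ 2 (tm d) →ₗᵢ[ℂ] Lp ℂ 2 (tm d) :=
  cmp (fun x => x + g) (measurePreserving_add_right _ g)

theorem tr_fb (g : Tor d) (n : d → ℤ) : tr g (fb d n) = ch n g • fb d n := by
  refine Lp.ext ?_
  filter_upwards [cmp_coe' (measurePreserving_add_right (tm d) g) (fb_coe n),
    Lp.coeFn_smul (ch n g) (fb d n), fb_coe n] with x a b c
  rw [b, Pi.smul_apply, c, smul_eq_mul, mul_comm, ← ch_add]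
  exact a

end

theorem mp_hom {G H : Type*} [AddGroup G] [TopologicalSpace G] [IsTopologicalAddGroup G]
    [MeasurableSpace G] [BorelSpace G] [AddGroup H] [TopologicalSpace H] [IsTopologicalAddGroup H]
    [CompactSpace H] [MeasurableSpace H] [BorelSpace H] (μ : Measure G) [μ.IsAddHaarMeasure]
    [IsProbabilityMeasure μ] (ν : Measure H) [ν.IsAddHaarMeasure] [IsProbabilityMeasure ν]
    {f : G → H} (h1 : ∀ x y, f (x + y) = f x + f y) (h2 : Continuous f)
    (h3 : Function.Surjective f) : MeasurePreserving f μ ν :=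
  AddMonoidHom.measurePreserving (f := ⟨⟨f, by simpa using h1 0 0⟩, h1⟩) h2 h3 (by simp)

instance {d e : Type*} [Fintype d] [Fintype e] : ((tm d).prod (tm e)).IsAddHaarMeasure where
  toIsAddLeftInvariant := Measure.prod.instIsAddLeftInvariant

theorem mp_skew {A W G H : Type*} [MeasurableSpace A] [MeasurableSpace W] [MeasurableSpace G]
    [MeasurableSpace H] {α : Measure A} {ν : Measure W} {μ : Measure G} {ξ : Measure H}
    [IsProbabilityMeasure ν] [IsProbabilityMeasure μ] [IsProbabilityMeasure ξ] {π : A → W × G}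
    (hπ : MeasurePreserving π α (ν.prod μ)) {g : W → G → H} (hm : Measurable (Function.uncurry g))
    (hg : ∀ w, MeasurePreserving (g w) μ ξ) :
    MeasurePreserving (fun a => g (π a).1 (π a).2) α ξ :=
  measurePreserving_snd.comp (((MeasurePreserving.id ν).skew_product hm
    (Eventually.of_forall fun w => (hg w).map_eq)).comp hπ)

theorem exists_part (G : Type*) [MetricSpace G] [CompactSpace G] [MeasurableSpace G] [BorelSpace G]
    {r : ℝ} (hr : 0 < r) : ∃ (Q : ℕ) (κ : G → Fin Q), Measurable κ ∧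
      ∀ x y, κ x = κ y → dist x y < r := by
  classical
  obtain ⟨t, -, ht, hc⟩ := finite_cover_balls_of_compact (isCompact_univ (X := G)) (half_pos hr)
  obtain ⟨Q, c, -, hc2⟩ := ht.fin_param
  have h1 : ∀ x, ∃ n : ℕ, ∃ h : n < Q, x ∈ Metric.ball (c ⟨n, h⟩) (r / 2) := by
    intro x
    obtain ⟨y, hy, h⟩ := mem_iUnion₂.1 (hc (mem_univ x))
    rw [← hc2] at hy
    obtain ⟨i, rfl⟩ := hy
    exact ⟨i, i.2, h⟩
  refine ⟨Q, fun x => ⟨Nat.find (h1 x), (Nat.find_spec (h1 x)).1⟩, ?_, fun x y h => ?_⟩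
  · have h2 : Measurable fun x => Nat.find (h1 x) := measurable_find h1 fun n => by
      simp only [ofPred_exists]
      exact MeasurableSet.iUnion fun _ => measurableSet_ball
    refine measurable_to_countable' fun i => ?_
    convert h2 (measurableSet_singleton (i : ℕ)) using 1
    ext x
    simp [Fin.ext_iff]
  · have a := (Nat.find_spec (h1 x)).2
    have b := (Nat.find_spec (h1 y)).2
    have h' : (⟨Nat.find (h1 x), (Nat.find_spec (h1 x)).1⟩ : Fin Q) =
      ⟨Nat.find (h1 y), (Nat.find_spec (h1 y)).1⟩ := h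
    rw [h'] at a
    have := dist_triangle_right x y (c ⟨Nat.find (h1 y), (Nat.find_spec (h1 y)).1⟩)
    rw [Metric.mem_ball] at a b
    linarith

theorem close {G : Type*} [MetricSpace G] [CompactSpace G] [MeasurableSpace G] [BorelSpace G]
    {ν : Measure G} [IsProbabilityMeasure ν] {A : Set G} (hA : MeasurableSet A) {δ : ℝ≥0∞}
    (hδ : 0 < δ) : ∃ η : ℝ, 0 < η ∧ ∀ {Ω : Type} [MeasurableSpace Ω] {m : Measure Ω}
      {f g : Ω → G}, MeasurePreserving f m ν → MeasurePreserving g m ν → ∀ N : Set Ω,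
        (∀ᵐ x ∂m, x ∉ N → dist (f x) (g x) < η) → m ((f ⁻¹' A) ∆ (g ⁻¹' A)) ≤ δ + m N := by
  obtain ⟨e, he, he2⟩ := exists_small hδ 4
  obtain ⟨K, hKA, hK, h1⟩ := hA.exists_isCompact_sdiff_lt (measure_ne_top ν A) he.ne'
  obtain ⟨U, hAU, hU, -, h2⟩ := hA.exists_isOpen_sdiff_lt (measure_ne_top ν A) he.ne'
  obtain ⟨η, hη, h3⟩ := hK.exists_thickening_subset_open hU (hKA.trans hAU)
  refine ⟨η, hη, fun {Ω} _ {m f g} hf hg N hN => ?_⟩
  calc _ ≤ m ((f ⁻¹' (A \ K) ∪ f ⁻¹' (U \ A) ∪ (g ⁻¹' (A \ K) ∪ g ⁻¹' (U \ A))) ∪ N) := by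
        refine measure_mono_ae ?_
        filter_upwards [hN] with x hx h
        by_cases hxN : x ∈ N
        · exact Or.inr hxN
        left
        rcases h with h | h
        · by_cases hk : f x ∈ K
          · exact Or.inr (Or.inr ⟨h3 (Metric.mem_thickening_iff.2
              ⟨_, hk, by rw [dist_comm]; exact hx hxN⟩), h.2⟩)
          · exact Or.inl (Or.inl ⟨h.1, hk⟩)
        · by_cases hk : g x ∈ K
          · exact Or.inl (Or.inr ⟨h3 (Metric.mem_thickening_iff.2 ⟨_, hk, hx hxN⟩), h.2⟩)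
          · exact Or.inr (Or.inl ⟨h.1, hk⟩)
    _ ≤ (e + e + (e + e)) + m N := by
        refine (measure_union_le _ _).trans (add_le_add ((measure_union_le _ _).trans
          (add_le_add ((measure_union_le _ _).trans (add_le_add ?_ ?_))
            ((measure_union_le _ _).trans (add_le_add ?_ ?_)))) le_rfl)
        exacts [(hf.measure_preimage_le _).trans h1.le, (hf.measure_preimage_le _).trans h2.le,
          (hg.measure_preimage_le _).trans h1.le, (hg.measure_preimage_le _).trans h2.le]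
    _ ≤ δ + m N := by
        gcongr
        exact le_trans (le_of_eq (by push_cast; ring)) he2.le

section Model
variable {d : Type*} [Fintype d] {N Q k : ℕ}

/-- The factor map of the model. -/
noncomputable def J0 (κ : Tor (Fin N) → Fin Q) (z : Tor (d ⊕ d ⊕ Fin N)) : Tor d := fun i =>
  z (.inl i) + ((κ fun b => z (.inr (.inr b)) : ℕ) : ℤ) • z (.inr (.inl i))

/-- Its Cartesian power. -/
noncomputable def JJ (κ : Tor (Fin N) → Fin Q) (Z : Tor (Fin k × (d ⊕ d ⊕ Fin N))) :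
    Tor (Fin k × d) := fun q => J0 κ (fun l => Z (q.1, l)) q.2

theorem meas_zsmul {A : Type*} [MeasurableSpace A] {m : A → ℤ} {u : A → UnitAddCircle}
    (hm : Measurable m) (hu : Measurable u) : Measurable fun a => m a • u a :=
  (measurable_from_prod_countable_left (f := fun p : UnitAddCircle × ℤ => p.2 • p.1)
    fun n => (continuous_zsmul n).measurable).comp (hu.prodMk hm)

theorem meas_cast {A : Type*} [MeasurableSpace A] {κ : A → Fin Q} (hκ : Measurable κ) :
    Measurable fun a => ((κ a : ℕ) : ℤ) :=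
  (measurable_of_countable fun i : Fin Q => ((i : ℕ) : ℤ)).comp hκ

theorem J0_mp {κ : Tor (Fin N) → Fin Q} (hκ : Measurable κ) :
    MeasurePreserving (J0 κ) (tm (d ⊕ d ⊕ Fin N)) (tm d) := by
  refine mp_skew (π := fun z : Tor (d ⊕ d ⊕ Fin N) =>
      ((fun l => z (.inr l), fun i => z (.inl i)) : Tor (d ⊕ Fin N) × Tor d))
    (mp_hom _ ((tm _).prod (tm _)) (fun _ _ => rfl) (by fun_prop)
      fun p => ⟨Sum.elim p.2 p.1, rfl⟩)
    (g := fun w x => x + fun i => ((κ fun b => w (.inr b) : ℕ) : ℤ) • w (.inl i)) ?_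
    fun w => measurePreserving_add_right _ _
  refine measurable_snd.add (measurable_pi_lambda _ fun i => meas_zsmul ?_ (by fun_prop))
  exact meas_cast (hκ.comp (by fun_prop))

theorem JJ_mp {κ : Tor (Fin N) → Fin Q} (hκ : Measurable κ) :
    MeasurePreserving (JJ κ) (tm (Fin k × (d ⊕ d ⊕ Fin N))) (tm (Fin k × d)) := by
  refine mp_skew (π := fun z : Tor (Fin k × (d ⊕ d ⊕ Fin N)) =>
      ((fun q => z (q.1, .inr q.2), fun q => z (q.1, .inl q.2)) :
        Tor (Fin k × (d ⊕ Fin N)) × Tor (Fin k × d)))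
    (mp_hom (tm _) ((tm _).prod (tm _)) (fun _ _ => rfl) (by fun_prop)
      fun p => ⟨fun q => Sum.elim (fun i => p.2 (q.1, i)) (fun l => p.1 (q.1, l)) q.2, rfl⟩)
    (g := fun w x => x + fun q => ((κ fun b => w (q.1, .inr b) : ℕ) : ℤ) • w (q.1, .inl q.2)) ?_
    fun w => measurePreserving_add_right _ _
  refine measurable_snd.add (measurable_pi_lambda _ fun i => meas_zsmul ?_ (by fun_prop))
  exact meas_cast (hκ.comp (by fun_prop))

theorem zsmul_mp {m : ℤ} (hm : m ≠ 0) :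
    MeasurePreserving (fun x : Tor d => m • x) (tm d) (tm d) := by
  refine mp_hom _ _ (smul_add m) (continuous_zsmul m) fun y => ⟨fun i => ((lift (y i) / m : ℝ) :
    UnitAddCircle), funext fun i => ?_⟩
  rw [Pi.smul_apply, ← AddCircle.coe_zsmul, zsmul_eq_mul,
    mul_div_cancel₀ _ (Int.cast_ne_zero.2 hm), coe_lift]

theorem coeff_zero {κ : Tor (Fin N) → Fin Q} (hκ : Measurable κ) {ξ : Fin k × d → ℤ}
    {ζ : Fin k × (d ⊕ d ⊕ Fin N) → ℤ} (h : (fun q : Fin k × d => ζ (q.1, .inl q.2)) ≠ ξ) :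
    ⟪fb _ ζ, cmp (JJ κ) (JJ_mp hκ) (fb _ ξ)⟫_ℂ = 0 := by
  obtain ⟨θ, hθ⟩ := exists_ch_ne h
  let g : Tor (Fin k × (d ⊕ d ⊕ Fin N)) := fun q => Sum.elim (fun i => θ (q.1, i)) 0 q.2
  refine eig_orth (tr g) (tr_fb g ζ) (c' := ch ξ θ) ?_ (norm_ch _ _) ?_
  · rw [← map_smul, ← tr_fb, tr, tr, cmp_cmp, cmp_cmp]
    refine cmp_congr _ _ (Eventually.of_forall fun Z => funext fun q => ?_) _
    simp [JJ, J0, g, add_right_comm]
  · convert hθ using 1
    simp [ch, g, Fintype.prod_prod_type]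

/-- A translation in the last block of the factor `j`. -/
noncomputable def blk (j : Fin k) (u : Tor (Fin N)) : Tor (Fin k × (d ⊕ d ⊕ Fin N)) := fun q =>
  if q.1 = j then Sum.elim (fun _ => 0) (Sum.elim (fun _ => 0) u) q.2 else 0

theorem orth_tr {κ : Tor (Fin N) → Fin Q} (hκ : Measurable κ) {ξ : Fin k × d → ℤ} (j : Fin k)
    (hξ : ∃ i, ξ (j, i) ≠ 0) {u v : Tor (Fin N)} (huv : ∀ y, κ (y + u) ≠ κ (y + v))
    {g g' : Tor (Fin k × (d ⊕ d ⊕ Fin N))} (hg : g = blk j u) (hg' : g' = blk j v) :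
    ⟪tr g (cmp (JJ κ) (JJ_mp hκ) (fb _ ξ)), tr g' (cmp (JJ κ) (JJ_mp hκ) (fb _ ξ))⟫_ℂ = 0 := by
  have hΨ := mp_skew (π := fun z : Tor (Fin k × (d ⊕ d ⊕ Fin N)) =>
      ((fun b => z (j, .inr (.inr b)), fun i => z (j, .inr (.inl i))) : Tor (Fin N) × Tor d))
    (mp_hom (tm _) ((tm _).prod (tm _)) (fun _ _ => rfl) (by fun_prop)
      fun p => ⟨fun q => Sum.elim 0 (Sum.elim p.2 p.1) q.2, rfl⟩)
    (g := fun y x => (((κ (y + v) : ℕ) : ℤ) - ((κ (y + u) : ℕ) : ℤ)) • x)
    (measurable_pi_lambda _ fun i => meas_zsmul ((meas_cast (hκ.comp (by fun_prop))).sub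
      (meas_cast (hκ.comp (by fun_prop)))) (by fun_prop))
    fun y => zsmul_mp (sub_ne_zero.2 fun h => huv y (Fin.ext (by exact_mod_cast h.symm)))
  have h0 : (0 : d → ℤ) ≠ fun i => ξ (j, i) := by
    obtain ⟨i, hi⟩ := hξ
    exact fun h => hi (congrFun h i).symm
  rw [← (fb d).orthonormal.inner_eq_zero h0, ← (cmp _ hΨ).inner_map_map, L2.inner_def,
    L2.inner_def]
  refine integral_congr_ae ?_
  filter_upwards [cmp_coe' (measurePreserving_add_right _ g) (cmp_coe' (JJ_mp hκ) (fb_coe ξ)),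
    cmp_coe' (measurePreserving_add_right _ g') (cmp_coe' (JJ_mp hκ) (fb_coe ξ)),
    cmp_coe' hΨ (fb_coe 0), cmp_coe' hΨ (fb_coe fun i => ξ (j, i))] with Z a b c e
  rw [tr, tr, a, b, c, e, RCLike.inner_apply, RCLike.inner_apply, ch_eq_one (n := 0) (by simp),
    map_one, mul_one, ← sub_add_cancel (JJ κ (Z + g')) (JJ κ (Z + g)), ch_add, mul_assoc,
    RCLike.mul_conj, norm_ch]
  simp only [ch, Fintype.prod_prod_type, RCLike.ofReal_one, one_pow, mul_one]
  rw [Finset.prod_eq_single j]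
  · refine Finset.prod_congr rfl fun i _ => ?_
    congr 1
    simp only [JJ, J0, hg, hg', blk, Pi.sub_apply, Pi.add_apply, if_true, Sum.elim_inl,
      Sum.elim_inr, add_zero, Pi.smul_apply, sub_smul, add_sub_add_left_eq_sub]
    rfl
  · intro j' _ hj
    refine Finset.prod_eq_one fun i _ => ?_
    simp [JJ, J0, hg, hg', hj, blk]
  · simp

theorem prim_approx (s : Finset (Fin k × d → ℤ)) (B : ℕ)
    (hs : ∀ ξ ∈ s, ∀ j, (∀ i, |ξ (j, i)| ≤ B) ∧ ∃ i, ξ (j, i) ≠ 0) {η : ℝ} (hη : 0 < η) :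
    ∃ (N Q : ℕ) (κ : Tor (Fin N) → Fin Q) (hκ : Measurable κ)
      (s' : Finset (Fin k × (d ⊕ d ⊕ Fin N) → ℤ)) (c : _ → _ → ℂ), (∀ ζ ∈ s', Good B ζ) ∧
        ∀ ξ ∈ s, ‖cmp (JJ κ) (JJ_mp hκ) (fb _ ξ) - ∑ ζ ∈ s', c ξ ζ • fb _ ζ‖ < η := by
  classical
  obtain ⟨N, hN⟩ := exists_nat_gt ((k * (B + 1) : ℝ) / (η / 2) ^ 2)
  have hN0 : (0 : ℝ) < N := lt_of_le_of_lt (by positivity) hN
  obtain ⟨Q, κ, hκ, hκ2⟩ := exists_part (Tor (Fin N)) (r := 1 / (B + 1)) (by positivity)
  have key : ∀ ξ ∈ s, ∃ s' : Finset (Fin k × (d ⊕ d ⊕ Fin N) → ℤ), (∀ ζ ∈ s', ζ ∈ {ζ | Good B ζ}) ∧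
      ‖cmp (JJ κ) (JJ_mp hκ) (fb _ ξ) -
        ∑ ζ ∈ s', ⟪fb _ ζ, cmp (JJ κ) (JJ_mp hκ) (fb _ ξ)⟫_ℂ • fb _ ζ‖ < η / 2 + η / 2 := by
    intro ξ hξ
    refine approx_good _ _ _ (by positivity) (by positivity) fun s0 hs0 => ?_
    set F := cmp (JJ κ) (JJ_mp hκ) (fb _ ξ) with hF
    have m1 : ∀ q ∈ (Finset.univ : Finset (Fin k)) ×ˢ Finset.Icc 2 B,
        ∑ ζ ∈ s0.filter fun ζ => ∀ l, (q.2 : ℤ) ∣ ζ (q.1, l), ‖⟪fb _ ζ, F⟫_ℂ‖ ^ 2 ≤ 1 / N := by
      rintro ⟨j, p⟩ hq
      obtain ⟨p2, pB⟩ := Finset.mem_Icc.1 (Finset.mem_product.1 hq).2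
      simp only at p2 pB
      have p2' : (2 : ℝ) ≤ p := by exact_mod_cast p2
      have pB' : (p : ℝ) ≤ B := by exact_mod_cast pB
      let u : Fin N → Tor (Fin N) := fun b => Pi.single b ((1 / p : ℝ) : UnitAddCircle)
      refine mass_le _ (by exact_mod_cast hN0) F
        (by rw [hF, LinearIsometry.norm_map, (fb _).orthonormal.norm_eq_one])
        (fun b => tr (blk j (u b)))
        (fun b b' hb => orth_tr hκ j (hs ξ hξ j).2 (fun y h => ?_) rfl rfl) _ fun ζ hζ b => ?_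
      · have h1 := (dist_le_pi_dist _ _ b).trans_lt (hκ2 _ _ h)
        simp only [u, Pi.add_apply, Pi.single_eq_same, Pi.single_eq_of_ne hb, add_zero,
          dist_self_add_left] at h1
        rw [(AddCircle.norm_coe_eq_abs_iff (1 : ℝ) one_ne_zero).2 (by
          rw [abs_of_pos (by positivity), abs_one]
          exact one_div_le_one_div_of_le two_pos p2'), abs_of_pos (by positivity)] at h1
        exact absurd h1 (not_lt.2 (one_div_le_one_div_of_le (by positivity) (by linarith)))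
      · rw [tr_fb, ch_eq_one, one_smul]
        rintro ⟨j', l⟩
        by_cases hj : j' = j
        · subst hj
          obtain ⟨m, hm⟩ := (Finset.mem_filter.1 hζ).2 l
          have h1 : ((p : ℤ) * m) • ((1 / p : ℝ) : UnitAddCircle) = 0 := by
            rw [← AddCircle.coe_zsmul, AddCircle.coe_eq_zero_iff]
            refine ⟨m, ?_⟩
            simp only [zsmul_eq_mul]
            push_cast
            field_simp
          simp only at hm
          rcases l with i | i | b'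
          · simp [blk]
          · simp [blk]
          · by_cases hb : b' = b
            · subst hb
              simp only [blk, if_true, Sum.elim_inr, u, Pi.single_eq_same, hm, h1]
            · simp [blk, u, hb]
        · simp [blk, hj]
    calc _ ≤ ∑ ζ ∈ s0, ∑ q ∈ (Finset.univ : Finset (Fin k)) ×ˢ Finset.Icc 2 B,
          if ∀ l, (q.2 : ℤ) ∣ ζ (q.1, l) then ‖⟪fb _ ζ, F⟫_ℂ‖ ^ 2 else 0 := by
          refine Finset.sum_le_sum fun ζ hζ => ?_
          have nn : ∀ q ∈ (Finset.univ : Finset (Fin k)) ×ˢ Finset.Icc 2 B, (0 : ℝ) ≤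
              if ∀ l, (q.2 : ℤ) ∣ ζ (q.1, l) then ‖⟪fb _ ζ, F⟫_ℂ‖ ^ 2 else 0 := fun q _ => by
            split_ifs <;> positivity
          by_cases h : (fun q : Fin k × d => ζ (q.1, .inl q.2)) = ξ
          · have h1 : ¬ Good B ζ := hs0 ζ hζ
            have h2 : ∀ j i, ζ (j, .inl i) = ξ (j, i) := fun j i => congrFun h (j, i)
            simp only [Good, h2, not_forall] at h1
            obtain ⟨j, hj⟩ := h1
            have h3 : ¬ ∀ p : ℕ, 2 ≤ p → p ≤ B → ∃ l, ¬ (p : ℤ) ∣ ζ (j, l) :=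
              fun h => hj ⟨(hs ξ hξ j).1, (hs ξ hξ j).2, h⟩
            push Not at h3
            obtain ⟨p, p2, pB, hp⟩ := h3
            refine le_trans (le_of_eq ?_) (Finset.single_le_sum nn (a := (j, p))
              (Finset.mem_product.2 ⟨Finset.mem_univ _, Finset.mem_Icc.2 ⟨p2, pB⟩⟩))
            rw [if_pos hp]
          · refine le_trans (le_of_eq ?_) (Finset.sum_nonneg nn)
            rw [hF, coeff_zero hκ h]
            simp
      _ ≤ ∑ _q ∈ (Finset.univ : Finset (Fin k)) ×ˢ Finset.Icc 2 B, 1 / (N : ℝ) := by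
          rw [Finset.sum_comm]
          refine Finset.sum_le_sum fun q hq => ?_
          rw [← Finset.sum_filter]
          exact m1 q hq
      _ ≤ (k * (B + 1) : ℝ) * (1 / N) := by
          rw [Finset.sum_const, nsmul_eq_mul, Finset.card_product, Finset.card_univ,
            Fintype.card_fin, Nat.card_Icc]
          gcongr
          exact_mod_cast Nat.mul_le_mul_left k (Nat.sub_le _ _)
      _ ≤ (η / 2) ^ 2 := by
          rw [div_lt_iff₀ (by positivity)] at hN
          rw [mul_one_div, div_le_iff₀ hN0]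
          linarith
  choose! S h1 h2 using key
  refine ⟨N, Q, κ, hκ, s.biUnion S, fun ξ ζ => if ζ ∈ S ξ then
    ⟪fb _ ζ, cmp (JJ κ) (JJ_mp hκ) (fb _ ξ)⟫_ℂ else 0, fun ζ hζ => ?_, fun ξ hξ => ?_⟩
  · obtain ⟨ξ, hξ, h⟩ := Finset.mem_biUnion.1 hζ
    exact h1 ξ hξ ζ h
  · simp only [ite_smul, zero_smul]
    rw [Finset.sum_ite_mem, Finset.inter_eq_right.2 (Finset.subset_biUnion_of_mem S hξ)]
    exact (h2 ξ hξ).trans_eq (add_halves η)

end Model

end Pool.Agent.H964Z.Sp
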